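import Mathlib

section

/-! Cubic graphs given by a perfect matching `μ` and an oriented 2-factor `π`. -/

open Finset

namespace Pool.Agent.MP_9a3194_co

structure Str (V : Type) where
  π : Equiv.Perm V
  μ : V → V
  μμ : ∀ v, μ (μ v) = v

/-- darts: a vertex and a direction (`0` matching, `1` forward, `2` backward) -/
abbrev Dt (V : Type) := V × Fin 3

/-- the reverse direction -/
def rd : Fin 3 → Fin 3 := ![0, 2, 1]

/-- reduced (non-backtracking) words -/
def Red (w : List (Fin 3)) : Prop := w.IsChain fun d e => e ≠ rd d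

/-- the two non-backtracking continuations of a direction -/
def kid (d : Fin 3) (β : Bool) : Fin 3 :=
  if d = 0 then (if β then 1 else 2) else if β then 0 else d

/-- binary words of length `j` -/
def Wd : ℕ → Finset (List Bool)
  | 0 => {[]}
  | j + 1 => (Wd j).image (List.cons true) ∪ (Wd j).image (List.cons false)

/-- the share of a unit charge carried by the dart with word `w` -/
noncomputable def amt (k : ℕ) : List Bool → ℝ
  | [] => 1
  | β :: w => if Odd w.length ∧ w.length < 2 * k then (if β then amt k w else 0) else amt k w / 2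

/-- the direction of the dart with word `w` -/
def dir : List Bool → Fin 3
  | [] => 0
  | β :: w => kid (dir w) β

/-- the directions of the walk with word `w` -/
def dirs : List Bool → List (Fin 3)
  | [] => [0]
  | β :: w => dirs w ++ [kid (dir w) β]

def sgn (x : Bool) : ℝ := if x then 1 else -1

/-- the smaller of the two parts into which `X` cuts `Ω` -/
def mino {V : Type} [DecidableEq V] (Ω X : Finset V) : ℕ := min (Ω ∩ X).card (Ω \ X).card

/-- `U` is a union of classes of the labelling -/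
def Sat {V : Type} (lab : V → V) (U : Finset V) : Prop := ∀ u v, lab u = lab v → (u ∈ U ↔ v ∈ U)

/-- divergence -/
def dv {V : Type} (f : Dt V → ℝ) (v : V) : ℝ := ∑ i, f (v, i)

/-- weight of the pairs leaving `A` -/
def cutw {T : Type} [Fintype T] [DecidableEq T] (w : T → T → ℕ) (A : Finset T) : ℕ :=
  ∑ s ∈ A, ∑ t ∈ Aᶜ, w s t

/-- total capacity of the edges with exactly one end in `A` -/
noncomputable def crs {T E : Type} [Fintype E] [DecidableEq T] (u v : E → T) (a : E → ℝ)
    (A : Finset T) : ℝ :=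
  ∑ e, if (u e ∈ A ↔ v e ∈ A) then 0 else a e

/-- grounded weighted Laplacian -/
noncomputable def lap {T E : Type} [Fintype E] [DecidableEq T] (u v : E → T) (o : T)
    (c : E → ℝ) : Matrix T T ℝ :=
  Matrix.vecMulVec (Pi.single o 1) (Pi.single o 1) +
    ∑ e, c e • Matrix.vecMulVec (Pi.single (u e) 1 - Pi.single (v e) 1)
      (Pi.single (u e) 1 - Pi.single (v e) 1)

namespace Str

variable {V : Type} (S : Str V)

def step (v : V) (i : Fin 3) : V := ![S.μ v, S.π v, S.π⁻¹ v] i

/-- head of a dart -/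
def hd (d : Dt V) : V := S.step d.1 d.2

/-- reverse of a dart -/
def rv (d : Dt V) : Dt V := (S.hd d, rd d.2)

def act : V → List (Fin 3) → V
  | v, [] => v
  | v, d :: w => act (S.step v d) w

/-- girth at least `c` -/
def Gir (c : ℕ) : Prop := ∀ v w, Red w → w ≠ [] → w.length < c → S.act v w ≠ v

def Near (ρ : ℕ) (u v : V) : Prop := ∃ w : List (Fin 3), w.length ≤ ρ ∧ S.act u w = v

/-- the arcs of length `κ` starting at `x` and `x'` are within distance `ρ` -/
def TN (κ κ' ρ : ℕ) (x x' : V) : Prop := ∃ i < κ, ∃ j < κ', S.Near ρ ((S.π ^ i) x) ((S.π ^ j) x')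

def Anti (f : Dt V → ℝ) : Prop := ∀ d, f (S.rv d) = -f d

/-- the dart with word `w` in the tree hanging from the matching edge at `a` -/
def dart (a : V) : List Bool → Dt V
  | [] => (a, 0)
  | β :: w => (S.hd (dart a w), kid (dart a w).2 β)

def tip (a : V) (w : List Bool) : V := S.hd (S.dart a w)

/-- the trees of depth `ρ` hanging from `F` are disjoint, embedded and avoid `F` -/
def HInj (F : Finset V) (ρ : ℕ) : Prop :=
  (∀ a ∈ F, ∀ a' ∈ F, ∀ w w' : List Bool, w.length ≤ ρ → w'.length ≤ ρ →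
    S.tip a w = S.tip a' w' → a = a' ∧ w = w') ∧
  ∀ a ∈ F, ∀ w : List Bool, w.length ≤ ρ → S.tip a w ∉ F

/-- the vertices where a charge of colour `x` at `a` is split have the other colour -/
def Good (k : ℕ) (y : V → Bool) (a : V) (x : Bool) : Prop :=
  ∀ w : List Bool, Even w.length → w.length < 2 * k → amt k w ≠ 0 → y (S.tip a w) ≠ x

def Pat (k : ℕ) (y : V → Bool) (g : V) : Prop :=
  (∀ i ∈ ({0, 1, 3, 4} : Finset ℕ), S.Good k y ((S.π ^ i) g) (y g)) ∧
    ∀ i ∈ ({5, 6, 8, 9} : Finset ℕ), S.Good k y ((S.π ^ i) g) (!y g)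

/-- the flow along the 2-factor given by a colouring -/
noncomputable def base (y : V → Bool) (d : Dt V) : ℝ :=
  if d.2 = 0 then 0 else (sgn (y d.1) - sgn (y (S.hd d))) / 4

/-- steps back to the last mark -/
noncomputable def idx (J : Finset V) (v : V) : ℕ := sInf {i | (S.π⁻¹ ^ i) v ∈ J}

/-- the last mark -/
noncomputable def seg (J : Finset V) (v : V) : V := (S.π⁻¹ ^ S.idx J v) v

/-- marks with gaps between `lo` and `hi` -/
def Mark (J : Finset V) (lo hi : ℕ) : Prop :=
  (∀ x ∈ J, ∀ i, 0 < i → i < lo → (S.π ^ i) x ∉ J) ∧ ∀ v, ∃ i < hi, (S.π⁻¹ ^ i) v ∈ J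

/-- the colouring alternating along every segment -/
noncomputable def y0 (J : Finset V) (ω : V → Bool) (v : V) : Bool :=
  xor (ω (S.seg J v)) (decide (Odd (S.idx J v)))

variable [DecidableEq V]

def tube (J : Finset V) (κ : ℕ) : Finset V := (J ×ˢ range κ).image fun p => (S.π ^ p.2) p.1

/-- the tree of a controller -/
def Om (r : ℕ) (g : V) : Finset V :=
  S.tube {g} 10 ∪ (range 10 ×ˢ (range (r + 1)).biUnion Wd).image
    fun p => S.tip ((S.π ^ p.1) g) p.2

/-- the part of a unit charge at `a` that ends in `X` -/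
noncomputable def nu (k ρ : ℕ) (a : V) (X : Finset V) : ℝ :=
  ∑ w ∈ Wd ρ, if S.tip a w ∈ X then amt k w else 0

/-- every vertex is reached from `R` inside `U` -/
def Rooted (R U : Finset V) : Prop :=
  ∀ X ⊆ U, X.Nonempty → Disjoint X R → ∃ d : Dt V, d.1 ∈ X ∧ S.hd d ∈ U \ X

variable [Fintype V]

/-- darts crossing the boundary of `X`, in either direction -/
def bd (X : Finset V) : Finset (Dt V) := univ.filter fun d => ¬ (d.1 ∈ X ↔ S.hd d ∈ X)

/-- darts leaving `X` -/
def out (X : Finset V) : Finset (Dt V) := univ.filter fun d => d.1 ∈ X ∧ S.hd d ∉ X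

/-- twice the size of the edge cut of `X` -/
def b (X : Finset V) : ℕ := (S.bd X).card

def Iso (c : ℕ) : Prop :=
  ∀ X : Finset V, X.Nonempty → Xᶜ.Nonempty → 2 * min c (min X.card Xᶜ.card + 2) ≤ S.b X

def Conn (Ω : Finset V) : Prop :=
  ∀ X : Finset V, (∃ u ∈ Ω, u ∈ X) → (∃ v ∈ Ω, v ∉ X) → ∃ d ∈ S.bd X, d.1 ∈ Ω ∧ S.hd d ∈ Ω

/-- no small set has its boundary inside the boundary of `U` -/
def Big (s : ℕ) (U : Finset V) : Prop :=
  ∀ P : Finset V, P.Nonempty → P.card < s → ¬ S.bd P ⊆ S.bd U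

/-- a partition into connected cells with sizes between `l` and `6 l`, labelled by `G` -/
structure Part (G : Finset V) (cell : V → V) (l : ℕ) : Prop where
  mem : ∀ v, cell v ∈ G
  self : ∀ g ∈ G, cell g = g
  conn : ∀ g ∈ G, S.Conn (univ.filter fun v => cell v = g)
  lo : ∀ g ∈ G, l ≤ (univ.filter fun v => cell v = g).card
  hi : ∀ g ∈ G, (univ.filter fun v => cell v = g).card ≤ 6 * l

/-- disjoint trees with `ω` vertices around the points of `G` -/
structure Trees (G : Finset V) (Ω : V → Finset V) (ω : ℕ) : Prop where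
  mem : ∀ g ∈ G, g ∈ Ω g
  conn : ∀ g ∈ G, S.Conn (Ω g)
  card : ∀ g ∈ G, (Ω g).card = ω
  disj : ∀ g ∈ G, ∀ g' ∈ G, g ≠ g' → Disjoint (Ω g) (Ω g')
  bdy : ∀ g ∈ G, S.b (Ω g) ≤ 2 * (ω + 2)

/-- Gibbs weight -/
noncomputable def wt (γ β : ℝ) (Ω : V → Finset V) (ω : ℕ) (A Y : Finset V) : ℝ :=
  Real.exp (-γ * S.b Y + β * ∑ g ∈ A, (mino (Ω g) Y : ℝ) / ω)

/-- a colouring with defects at `F` -/
structure Col (k : ℕ) (y : V → Bool) (F : Finset V) : Prop where
  alt : ∀ v ∉ F, y (S.π v) ≠ y v ∧ y (S.π⁻¹ v) ≠ y v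
  src : ∀ a ∈ F, y (S.π a) ≠ y (S.π⁻¹ a)
  good : ∀ a ∈ F, S.Good k y a (y a)

/-- a colouring with far apart defects and a net of controllers -/
structure Cfg (k R r l : ℕ) (y : V → Bool) (F G : Finset V) (cell : V → V) : Prop where
  col : S.Col k y F
  injF : S.HInj F R
  pat : ∀ g ∈ G, S.Pat k y g
  injK : S.HInj (S.tube G 10) r
  injP : ∀ g ∈ G, ∀ g' ∈ G, ∀ i < 10, ∀ j < 10, (S.π ^ i) g = (S.π ^ j) g' → g = g' ∧ i = j
  far : ∀ a ∈ F, ∀ g ∈ G, a ∉ S.Om r g ∧
    ∀ w : List Bool, w.length ≤ 2 * k → S.tip a w ∉ S.Om r g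
  part : S.Part G cell l

end Str

end Pool.Agent.MP_9a3194_co

end

section

open Finset
open scoped symmDiff

namespace Pool.Agent.MP_9a3194_co

theorem rd_rd (i : Fin 3) : rd (rd i) = i := by
  fin_cases i <;> rfl

theorem sgn_not (x : Bool) : sgn (!x) = -sgn x := by
  cases x <;> simp [sgn]

theorem sgn_of_ne {x y : Bool} (h : x ≠ y) : sgn x = -sgn y := by
  cases x <;> cases y <;> simp_all [sgn]

theorem abs_sgn (x : Bool) : |sgn x| = 1 := by
  cases x <;> simp [sgn]

theorem mem_Wd {j : ℕ} {w : List Bool} : w ∈ Wd j ↔ w.length = j := by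
  induction j generalizing w with
  | zero => simp [Wd]
  | succ j ih =>
    cases w with
    | nil => simp [Wd]
    | cons β w => cases β <;> simp [Wd, ih]

theorem Wd_disj_Basic (j : ℕ) :
    Disjoint ((Wd j).image (List.cons true)) ((Wd j).image (List.cons false)) := by
  simp only [disjoint_left, mem_image]
  rintro _ ⟨w, -, rfl⟩ ⟨w', -, h⟩
  simp at h

theorem card_Wd (j : ℕ) : (Wd j).card = 2 ^ j := by
  induction j with
  | zero => rfl
  | succ j ih =>
    rw [Wd, card_union_of_disjoint (Wd_disj_Basic j),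
      card_image_of_injective _ List.cons_injective, card_image_of_injective _ List.cons_injective,
      ih, pow_succ]
    omega

theorem sum_Wd_succ (j : ℕ) (f : List Bool → ℝ) :
    ∑ w ∈ Wd (j + 1), f w = ∑ w ∈ Wd j, (f (true :: w) + f (false :: w)) := by
  rw [Wd, sum_union (Wd_disj_Basic j), sum_image List.cons_injective.injOn,
    sum_image List.cons_injective.injOn, sum_add_distrib]

theorem amt_nonneg (k : ℕ) (w : List Bool) : 0 ≤ amt k w := by
  induction w with
  | nil => simp [amt]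
  | cons β w ih =>
    rw [amt]
    split_ifs
    · exact ih
    · exact le_rfl
    · positivity

theorem amt_split (k : ℕ) (w : List Bool) : amt k (true :: w) + amt k (false :: w) = amt k w := by
  rw [amt, amt]
  split_ifs <;> simp_all

theorem amt_le_one (k : ℕ) (w : List Bool) : amt k w ≤ 1 := by
  induction w with
  | nil => simp [amt]
  | cons β w ih =>
    rw [amt]
    split_ifs
    · exact ih
    · exact zero_le_one
    · linarith [amt_nonneg k w]

theorem amt_le_Basic (k : ℕ) (w : List Bool) :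
    amt k w ≤ 2 ^ min k (w.length / 2) / 2 ^ w.length := by
  induction w with
  | nil => simp [amt]
  | cons β w ih =>
    rw [amt, List.length_cons]
    split_ifs with h1 h2
    · have h3 : min k ((w.length + 1) / 2) = min k (w.length / 2) + 1 := by
        obtain ⟨⟨m, hm⟩, h4⟩ := h1
        omega
      rw [h3, pow_succ, pow_succ, mul_div_mul_right _ _ two_ne_zero]
      exact ih
    · positivity
    · rw [pow_succ, ← div_div]
      refine div_le_div_of_nonneg_right (ih.trans ?_) zero_le_two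
      gcongr
      · exact one_le_two
      · omega

theorem amt_le (k : ℕ) (w : List Bool) : amt k w ≤ 2 ^ k / 2 ^ w.length := by
  refine (amt_le_Basic k w).trans ?_
  gcongr
  · exact one_le_two
  · exact min_le_left _ _

theorem sum_amt (k j : ℕ) : ∑ w ∈ Wd j, amt k w = 1 := by
  induction j with
  | zero => simp [Wd, amt]
  | succ j ih => rw [sum_Wd_succ, ← ih]; exact sum_congr rfl fun w _ => amt_split k w

theorem dir_eq_zero {k : ℕ} {w : List Bool} (he : Even w.length) (hl : w.length ≤ 2 * k)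
    (ha : amt k w ≠ 0) : dir w = 0 := by
  induction w using List.twoStepInduction with
  | nil => rfl
  | singleton β => simp at he
  | cons_cons β β' w ih _ =>
    simp only [List.length_cons] at he hl
    have he' : Even w.length := by
      rw [Nat.even_add_one, Nat.even_add_one, not_not] at he
      exact he
    have h1 : Odd (β' :: w).length ∧ (β' :: w).length < 2 * k :=
      ⟨he'.add_one, by simp only [List.length_cons]; omega⟩
    rw [amt, if_pos h1] at ha
    cases β with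
    | false => simp at ha
    | true =>
      rw [if_pos rfl, amt, if_neg fun h => (Nat.not_odd_iff_even.2 he') h.1] at ha
      have h2 := ih he' (by omega) fun h => ha (by rw [h, zero_div])
      rw [dir, dir, h2]
      cases β' <;> rfl


section
variable {V : Type} [DecidableEq V] (Ω X Y : Finset V)

theorem two_mino_le : 2 * mino Ω X ≤ Ω.card := by
  have := card_inter_add_card_sdiff Ω X
  unfold mino
  omega

theorem mino_tri : mino Ω X ≤ mino Ω (Y ∆ X) + mino Ω Y := by
  have h1 : Ω ∩ X ⊆ Ω ∩ (Y ∆ X) ∪ Ω ∩ Y := fun v => by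
    simp only [mem_inter, mem_union, mem_symmDiff]; tauto
  have h2 : Ω \ X ⊆ Ω ∩ (Y ∆ X) ∪ Ω \ Y := fun v => by
    simp only [mem_inter, mem_union, mem_symmDiff, mem_sdiff]; tauto
  have h3 : Ω \ X ⊆ Ω \ (Y ∆ X) ∪ Ω ∩ Y := fun v => by
    simp only [mem_inter, mem_union, mem_symmDiff, mem_sdiff]; tauto
  have h4 : Ω ∩ X ⊆ Ω \ (Y ∆ X) ∪ Ω \ Y := fun v => by
    simp only [mem_inter, mem_union, mem_symmDiff, mem_sdiff]; tauto
  have h5 := (card_le_card h1).trans (card_union_le _ _)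
  have h6 := (card_le_card h2).trans (card_union_le _ _)
  have h7 := (card_le_card h3).trans (card_union_le _ _)
  have h8 := (card_le_card h4).trans (card_union_le _ _)
  unfold mino
  omega

theorem mino_symmDiff (h : Ω ⊆ X ∨ Disjoint Ω X) : mino Ω (Y ∆ X) = mino Ω Y := by
  rcases h with h | h
  · have h1 : Ω ∩ (Y ∆ X) = Ω \ Y := by
      ext v
      have := @h v
      simp only [mem_inter, mem_symmDiff, mem_sdiff]; tauto
    have h2 : Ω \ (Y ∆ X) = Ω ∩ Y := by
      ext v
      have := @h v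
      simp only [mem_inter, mem_symmDiff, mem_sdiff]; tauto
    rw [mino, mino, h1, h2, min_comm]
  · have h1 : Ω ∩ (Y ∆ X) = Ω ∩ Y := by
      ext v
      have := @disjoint_left.1 h v
      simp only [mem_inter, mem_symmDiff]; tauto
    have h2 : Ω \ (Y ∆ X) = Ω \ Y := by
      ext v
      have := @disjoint_left.1 h v
      simp only [mem_symmDiff, mem_sdiff]; tauto
    rw [mino, mino, h1, h2]

theorem mino_eq_zero (h : Ω ⊆ X ∨ Disjoint Ω X) : mino Ω X = 0 := by
  rcases h with h | h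
  · rw [mino, sdiff_eq_empty_iff_subset.2 h, card_empty, Nat.min_zero]
  · rw [mino, disjoint_iff_inter_eq_empty.1 h, card_empty, Nat.zero_min]


end

namespace Str

variable {V : Type} (S : Str V)

@[simp] theorem step_zero (v : V) : S.step v 0 = S.μ v := rfl
@[simp] theorem step_one (v : V) : S.step v 1 = S.π v := rfl
@[simp] theorem step_two (v : V) : S.step v 2 = S.π⁻¹ v := rfl
theorem step_step (v : V) (i : Fin 3) : S.step (S.step v i) (rd i) = v := by
  fin_cases i
  · exact S.μμ v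
  · exact S.π.symm_apply_apply v
  · exact S.π.apply_symm_apply v

theorem rv_fst (d : Dt V) : (S.rv d).1 = S.hd d := rfl
theorem hd_rv (d : Dt V) : S.hd (S.rv d) = d.1 := S.step_step d.1 d.2

theorem rv_rv (d : Dt V) : S.rv (S.rv d) = d := Prod.ext (S.hd_rv d) (rd_rd d.2)

theorem dart_snd (a : V) (w : List Bool) : (S.dart a w).2 = dir w := by
  induction w with
  | nil => rfl
  | cons β w ih => rw [dart, dir, ih]

theorem dart_cons_fst (a : V) (β : Bool) (w : List Bool) : (S.dart a (β :: w)).1 = S.tip a w := rfl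
theorem base_anti (y : V → Bool) : S.Anti (S.base y) := by
  intro d
  have h : (S.rv d).2 = 0 ↔ d.2 = 0 := by
    change rd d.2 = 0 ↔ _
    generalize d.2 = i
    fin_cases i <;> simp [rd]
  simp only [base, h, hd_rv, rv_fst]
  split_ifs
  · simp
  · ring

theorem abs_base_le (y : V → Bool) (d : Dt V) : |S.base y d| ≤ 1 / 2 := by
  unfold base
  split_ifs
  · simp
  · generalize y d.1 = a
    generalize y (S.hd d) = a'
    cases a <;> cases a' <;> simp [sgn] <;> norm_num [abs_le]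

theorem Gir.mono {S : Str V} {c c' : ℕ} (h : S.Gir c) (hc : c' ≤ c) : S.Gir c' := fun v w h1 h2 h3 => h v w h1 h2 (h3.trans_le hc)

theorem HInj.mono {S : Str V} {F F' : Finset V} {ρ ρ' : ℕ} (h : S.HInj F ρ) (hF : F' ⊆ F)
    (hρ : ρ' ≤ ρ) : S.HInj F' ρ' :=
  ⟨fun a ha a' ha' w w' hw hw' => h.1 a (hF ha) a' (hF ha') w w' (hw.trans hρ) (hw'.trans hρ),
    fun a ha w hw hm => h.2 a (hF ha) w (hw.trans hρ) (hF hm)⟩


variable [DecidableEq V]

theorem mem_tube {J : Finset V} {κ : ℕ} {v : V} :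
    v ∈ S.tube J κ ↔ ∃ x ∈ J, ∃ i < κ, (S.π ^ i) x = v := by
  simp only [tube, mem_image, mem_product, mem_range, Prod.exists]
  exact ⟨fun ⟨x, i, ⟨h1, h2⟩, h3⟩ => ⟨x, h1, i, h2, h3⟩, fun ⟨x, h1, i, h2, h3⟩ => ⟨x, i, ⟨h1, h2⟩, h3⟩⟩

theorem mem_Om {r : ℕ} {g v : V} : v ∈ S.Om r g ↔ ∃ i < 10, (S.π ^ i) g = v ∨
    ∃ w : List Bool, w.length ≤ r ∧ S.tip ((S.π ^ i) g) w = v := by
  simp only [Om, mem_union, mem_tube, mem_singleton, mem_image, mem_product, mem_range,
    mem_biUnion, mem_Wd, Prod.exists]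
  constructor
  · rintro (⟨x, rfl, i, hi, h⟩ | ⟨i, w, ⟨hi, j, hj, hw⟩, h⟩)
    · exact ⟨i, hi, Or.inl h⟩
    · exact ⟨i, hi, Or.inr ⟨w, by omega, h⟩⟩
  · rintro ⟨i, hi, h | ⟨w, hw, h⟩⟩
    · exact Or.inl ⟨g, rfl, i, hi, h⟩
    · exact Or.inr ⟨i, w, ⟨hi, w.length, by omega, rfl⟩, h⟩


variable [Fintype V]

theorem mem_bd {X : Finset V} {d : Dt V} : d ∈ S.bd X ↔ ¬ (d.1 ∈ X ↔ S.hd d ∈ X) := by
  simp only [bd, mem_filter, mem_univ, true_and]

theorem mem_out {X : Finset V} {d : Dt V} : d ∈ S.out X ↔ d.1 ∈ X ∧ S.hd d ∉ X := by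
  simp only [out, mem_filter, mem_univ, true_and]

theorem rv_mem_bd {X : Finset V} {d : Dt V} : S.rv d ∈ S.bd X ↔ d ∈ S.bd X := by
  rw [mem_bd, mem_bd, hd_rv, rv_fst]
  exact not_congr Iff.comm

theorem bd_compl (X : Finset V) : S.bd Xᶜ = S.bd X := by
  ext d
  simp only [mem_bd, mem_compl, not_iff_not]

theorem bd_symmDiff (X Y : Finset V) : S.bd (X ∆ Y) = S.bd X ∆ S.bd Y := by
  ext d
  simp only [mem_bd, mem_symmDiff]
  tauto

theorem b_compl (X : Finset V) : S.b Xᶜ = S.b X := by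
  rw [b, b, bd_compl]

theorem b_empty : S.b ∅ = 0 := by
  simp [b, bd]

theorem b_univ : S.b univ = 0 := by
  simp [b, bd]

theorem b_eq (X : Finset V) : S.b X = 2 * (S.out X).card := by
  have hi : Function.Injective S.rv := Function.LeftInverse.injective S.rv_rv
  have h1 : S.bd X = S.out X ∪ (S.out X).image S.rv := by
    ext d
    have h2 : d ∈ (S.out X).image S.rv ↔ S.rv d ∈ S.out X := by
      rw [mem_image]
      exact ⟨fun ⟨e, he, h⟩ => by rwa [← h, rv_rv], fun h => ⟨_, h, S.rv_rv d⟩⟩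
    rw [mem_union, h2, mem_bd, mem_out, mem_out, hd_rv, rv_fst]
    tauto
  have h2 : Disjoint (S.out X) ((S.out X).image S.rv) := by
    rw [disjoint_left]
    intro d hd hd'
    obtain ⟨e, he, rfl⟩ := mem_image.1 hd'
    exact (S.mem_out.1 he).2 (S.mem_out.1 hd).1
  rw [b, h1, card_union_of_disjoint h2, card_image_of_injective _ hi, two_mul]

theorem b_le (X : Finset V) : S.b X ≤ 6 * X.card := by
  have h : S.out X ⊆ X ×ˢ univ := fun d hd => mem_product.2 ⟨(S.mem_out.1 hd).1, mem_univ _⟩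
  have h1 := card_le_card h
  rw [card_product, card_univ, Fintype.card_fin] at h1
  rw [b_eq]
  omega

theorem b_symmDiff_le (X Y : Finset V) : S.b (X ∆ Y) ≤ S.b X + S.b Y := by
  rw [b, bd_symmDiff]
  exact (card_le_card symmDiff_subset_union).trans (card_union_le _ _)

theorem b_le_add (X Y : Finset V) : S.b X ≤ S.b Y + 6 * (X ∆ Y).card := by
  have h1 := S.b_symmDiff_le Y (X ∆ Y)
  have h2 := S.b_le (X ∆ Y)
  rw [symmDiff_comm X Y, symmDiff_symmDiff_cancel_left, symmDiff_comm Y X] at h1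
  omega

theorem sum_dv {f : Dt V → ℝ} (hf : S.Anti f) (X : Finset V) :
    ∑ v ∈ X, dv f v = ∑ d ∈ S.out X, f d := by
  have h1 : ∑ v ∈ X, dv f v = ∑ d ∈ X ×ˢ univ, f d := by
    rw [sum_product]
    rfl
  have h2 : ∑ d ∈ (X ×ˢ univ).filter (fun d => S.hd d ∈ X), f d = 0 := by
    have h3 : ∑ d ∈ (X ×ˢ univ).filter (fun d => S.hd d ∈ X), f d =
        ∑ d ∈ (X ×ˢ univ).filter (fun d => S.hd d ∈ X), -f d := by
      refine sum_nbij' S.rv S.rv (fun d hd => ?_) (fun d hd => ?_) (fun d _ => S.rv_rv d)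
        (fun d _ => S.rv_rv d) fun d _ => by rw [hf, neg_neg]
      all_goals
        simp only [mem_filter, mem_product, mem_univ, and_true, hd_rv, rv_fst] at hd ⊢
        exact hd.symm
    rw [sum_neg_distrib] at h3
    linarith
  rw [h1, ← sum_filter_add_sum_filter_not _ fun d => S.hd d ∈ X, h2, zero_add]
  refine sum_congr ?_ fun _ _ => rfl
  ext d
  simp only [mem_filter, mem_product, mem_univ, and_true, mem_out]

theorem abs_sum_dv_le {f : Dt V → ℝ} (hf : S.Anti f) {κ : ℝ} (h : ∀ d, |f d| ≤ κ) (X : Finset V) :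
    |∑ v ∈ X, dv f v| ≤ κ / 2 * S.b X := by
  rw [S.sum_dv hf, b_eq]
  refine (abs_sum_le_sum_abs _ _).trans ((sum_le_card_nsmul _ _ κ fun d _ => h d).trans_eq ?_)
  rw [nsmul_eq_mul]
  push_cast
  ring

theorem sum_dv_univ {f : Dt V → ℝ} (hf : S.Anti f) : ∑ v, dv f v = 0 := by
  rw [S.sum_dv hf]
  simp [out]

/-- disjoint connected sets that are cut by `X` -/
theorem touch (G : Finset V) (Ω : V → Finset V) (hc : ∀ g ∈ G, S.Conn (Ω g))
    (hdj : ∀ g ∈ G, ∀ g' ∈ G, g ≠ g' → Disjoint (Ω g) (Ω g')) (X : Finset V)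
    (h : ∀ g ∈ G, (∃ u ∈ Ω g, u ∈ X) ∧ ∃ v ∈ Ω g, v ∉ X) : G.card ≤ S.b X := by
  have h1 : ∀ g, ∃ d : Dt V, g ∈ G → d ∈ S.bd X ∧ d.1 ∈ Ω g := fun g => by
    by_cases hg : g ∈ G
    · obtain ⟨d, h2, h3, -⟩ := hc g hg X (h g hg).1 (h g hg).2
      exact ⟨d, fun _ => ⟨h2, h3⟩⟩
    · exact ⟨(g, 0), fun h2 => absurd h2 hg⟩
  choose d hd using h1
  refine card_le_card_of_injOn d (fun g hg => (hd g hg).1) fun g hg g' hg' he => ?_
  by_contra hne
  exact disjoint_left.1 (hdj g hg g' hg' hne) (hd g hg).2 (he ▸ (hd g' hg').2)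

theorem Iso.mono {S : Str V} {c c' : ℕ} (h : S.Iso c) (hc : c' ≤ c) : S.Iso c' := fun X h1 h2 =>
  (Nat.mul_le_mul_left 2 (min_le_min_right _ hc)).trans (h X h1 h2)

theorem Iso.b_pos {S : Str V} {c : ℕ} (h : S.Iso c) (hc : 0 < c) {X : Finset V} (hX : X.Nonempty)
    (hX' : Xᶜ.Nonempty) : 0 < S.b X := by
  have := h X hX hX'
  omega

theorem Col.dv_base {S : Str V} {k : ℕ} {y : V → Bool} {F : Finset V} (h : S.Col k y F) (v : V) :
    sgn (y v) = dv (S.base y) v + if v ∈ F then sgn (y v) / 2 else 0 := by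
  have h0 : dv (S.base y) v =
      (sgn (y v) - sgn (y (S.π v))) / 4 + (sgn (y v) - sgn (y (S.π⁻¹ v))) / 4 := by
    rw [dv, Fin.sum_univ_three]
    simp [base, hd]
  rw [h0]
  split_ifs with hv
  · rw [sgn_of_ne (h.src v hv)]
    ring
  · rw [sgn_of_ne (h.alt v hv).1, sgn_of_ne (h.alt v hv).2]
    ring


end Str

end Pool.Agent.MP_9a3194_co

end

section

open Finset
open scoped symmDiff

namespace Pool.Agent.MP_9a3194_co

variable {V : Type} [Fintype V] [DecidableEq V] (S : Str V)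

omit [Fintype V] in
private theorem tau_le_Sel {ω : ℕ} {Ω : Finset V} (h : Ω.card = ω) (Y : Finset V) :
    (mino Ω Y : ℝ) / ω ≤ 1 / 2 := by
  have h1 : (2 : ℝ) * mino Ω Y ≤ ω := by exact_mod_cast h ▸ two_mino_le Ω Y
  rcases Nat.eq_zero_or_pos ω with h0 | h0
  · rw [h0]; simp
  · rw [div_le_iff₀ (by exact_mod_cast h0)]
    linarith

private theorem exp_le_Sel {β t : ℝ} (hβ : 2 ≤ β) (h0 : 0 ≤ t) (h1 : t ≤ 1 / 2) :
    Real.exp (-(β * t)) ≤ 1 - t := by
  have h2 : 1 + 2 * t ≤ Real.exp (β * t) := by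
    have := Real.add_one_le_exp (β * t)
    nlinarith
  rw [Real.exp_neg, inv_le_iff_one_le_mul₀ (Real.exp_pos _)]
  nlinarith [mul_le_mul_of_nonneg_left h2 (by linarith : (0 : ℝ) ≤ 1 - t)]

private theorem wt_insert_Sel (γ β : ℝ) (Ω : V → Finset V) (ω : ℕ) {A : Finset V} {g : V}
    (hg : g ∉ A) (Y : Finset V) :
    S.wt γ β Ω ω (insert g A) Y = S.wt γ β Ω ω A Y * Real.exp (β * ((mino (Ω g) Y : ℝ) / ω)) := by
  rw [Str.wt, Str.wt, sum_insert hg, ← Real.exp_add]
  congr 1
  ring

private theorem wt_pos_Sel (γ β : ℝ) (Ω : V → Finset V) (ω : ℕ) (A Y : Finset V) :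
    0 < S.wt γ β Ω ω A Y := Real.exp_pos _

private theorem thin_Sel {ω : ℕ} {G : Finset V} {Ω : V → Finset V} (hT : S.Trees G Ω ω)
    {γ β π : ℝ} (hγ : 0 ≤ γ) (hβ : 2 ≤ β) (hπ : 0 < π) {A : Finset V} (hA : A ⊆ G)
    (h : ∀ g ∈ A, ∑ Y, S.wt γ β Ω ω A Y * ((mino (Ω g) Y : ℝ) / ω) ≤
      π * ∑ Y, S.wt γ β Ω ω A Y) (X : Finset V) :
    ∑ g ∈ A, (mino (Ω g) X : ℝ) / ω ≤ (γ / β + 2 * π) * S.b X := by
  classical
  set A' := A.filter fun g => ¬ (Ω g ⊆ X ∨ Disjoint (Ω g) X) with hA'
  have hβ0 : 0 < β := by linarith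
  have hcard : (A'.card : ℝ) ≤ S.b X := by
    have h1 : A' ⊆ G := (filter_subset _ _).trans hA
    have h2 := S.touch A' Ω (fun g hg => hT.conn g (h1 hg))
      (fun g hg g' hg' => hT.disj g (h1 hg) g' (h1 hg')) X fun g hg => by
        have h3 := (mem_filter.1 hg).2
        rw [not_or, not_subset, not_disjoint_iff] at h3
        exact ⟨h3.2, h3.1⟩
    exact_mod_cast h2
  have hsum : ∑ g ∈ A, (mino (Ω g) X : ℝ) / ω = ∑ g ∈ A', (mino (Ω g) X : ℝ) / ω := by
    rw [hA', sum_filter]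
    refine sum_congr rfl fun g _ => ?_
    split_ifs with h1
    · rw [mino_eq_zero _ _ h1]; simp
    · rfl
  have hZ : 0 < ∑ Y, S.wt γ β Ω ω A Y := sum_pos (fun Y _ => wt_pos_Sel S _ _ _ _ _ _) univ_nonempty
  have hbij : ∑ Y, S.wt γ β Ω ω A (Y ∆ X) = ∑ Y, S.wt γ β Ω ω A Y :=
    sum_nbij' (fun Y => Y ∆ X) (fun Y => Y ∆ X) (fun _ _ => mem_univ _) (fun _ _ => mem_univ _)
      (fun Y _ => symmDiff_symmDiff_cancel_right _ _)
      (fun Y _ => symmDiff_symmDiff_cancel_right _ _) fun _ _ => rfl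
  have hpt : ∀ Y, S.wt γ β Ω ω A Y * (1 + (-γ * S.b X + β * ∑ g ∈ A', (mino (Ω g) X : ℝ) / ω)) -
      2 * β * ∑ g ∈ A', S.wt γ β Ω ω A Y * ((mino (Ω g) Y : ℝ) / ω) ≤
      S.wt γ β Ω ω A (Y ∆ X) := fun Y => by
    have h1 : (S.b (Y ∆ X) : ℝ) ≤ S.b Y + S.b X := by exact_mod_cast S.b_symmDiff_le Y X
    have h2 : ∑ g ∈ A, (mino (Ω g) Y : ℝ) / ω + (∑ g ∈ A', (mino (Ω g) X : ℝ) / ω -
        2 * ∑ g ∈ A', (mino (Ω g) Y : ℝ) / ω) ≤ ∑ g ∈ A, (mino (Ω g) (Y ∆ X) : ℝ) / ω := by
      rw [mul_sum, ← sum_sub_distrib, hA', sum_filter, ← sum_add_distrib]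
      refine sum_le_sum fun g _ => ?_
      split_ifs with h3
      · rw [mino_symmDiff _ _ _ h3, add_zero]
      · have h4 : (mino (Ω g) X : ℝ) ≤ mino (Ω g) (Y ∆ X) + mino (Ω g) Y := by
          exact_mod_cast mino_tri (Ω g) X Y
        have h5 := div_le_div_of_nonneg_right h4 (Nat.cast_nonneg ω)
        rw [add_div] at h5
        linarith
    have h3 : S.wt γ β Ω ω A Y * Real.exp (-γ * S.b X + β * ∑ g ∈ A', (mino (Ω g) X : ℝ) / ω -
        2 * β * ∑ g ∈ A', (mino (Ω g) Y : ℝ) / ω) ≤ S.wt γ β Ω ω A (Y ∆ X) := by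
      rw [Str.wt, Str.wt, ← Real.exp_add, Real.exp_le_exp]
      nlinarith [mul_le_mul_of_nonneg_left h1 hγ, mul_le_mul_of_nonneg_left h2 hβ0.le]
    refine le_trans ?_ h3
    rw [← mul_sum]
    have h4 := mul_le_mul_of_nonneg_left (Real.add_one_le_exp
      (-γ * S.b X + β * ∑ g ∈ A', (mino (Ω g) X : ℝ) / ω -
        2 * β * ∑ g ∈ A', (mino (Ω g) Y : ℝ) / ω)) (wt_pos_Sel S γ β Ω ω A Y).le
    linarith
  have h1 := sum_le_sum fun Y (_ : Y ∈ univ) => hpt Y
  rw [hbij, sum_sub_distrib, ← sum_mul, ← mul_sum, sum_comm] at h1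
  have h2 : ∑ g ∈ A', ∑ Y, S.wt γ β Ω ω A Y * ((mino (Ω g) Y : ℝ) / ω) ≤
      S.b X * (π * ∑ Y, S.wt γ β Ω ω A Y) := by
    refine (sum_le_card_nsmul _ _ _ fun g hg => h g (mem_filter.1 hg).1).trans ?_
    rw [nsmul_eq_mul]
    exact mul_le_mul_of_nonneg_right hcard (by positivity)
  have h3 : (∑ Y, S.wt γ β Ω ω A Y) * (β * ∑ g ∈ A', (mino (Ω g) X : ℝ) / ω) ≤
      (∑ Y, S.wt γ β Ω ω A Y) * (γ * S.b X + 2 * β * π * S.b X) := by
    nlinarith [mul_le_mul_of_nonneg_left h2 hβ0.le]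
  have h4 := le_of_mul_le_mul_left h3 hZ
  rw [hsum]
  refine le_of_mul_le_mul_left (h4.trans_eq ?_) hβ0
  field_simp

open Classical in
/-- the active set minimising the free energy is thin, and inactive trees are often cut -/
theorem select {ω : ℕ} {G : Finset V} {Ω : V → Finset V} (hT : S.Trees G Ω ω) {γ β π : ℝ}
    (hγ : 0 ≤ γ) (hβ : 2 ≤ β) (hπ : 0 < π) (hπ1 : π ≤ 1) :
    ∃ A ⊆ G, (∀ X : Finset V, ∑ g ∈ A, (mino (Ω g) X : ℝ) / ω ≤ (γ / β + 2 * π) * S.b X) ∧
      ∀ g ∈ G, g ∉ A → π / 2 * Real.exp (-β / 2) * ∑ Y, S.wt γ β Ω ω A Y ≤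
        ∑ Y ∈ univ.filter (fun Y => π / (4 * β) * ω ≤ mino (Ω g) Y), S.wt γ β Ω ω A Y := by
  have _ := hπ1
  obtain ⟨A, hA, hmin⟩ := exists_min_image G.powerset
    (fun A => (∑ Y, S.wt γ β Ω ω A Y) * Real.exp (-π * A.card)) ⟨∅, empty_mem_powerset G⟩
  rw [mem_powerset] at hA
  have hβ0 : 0 < β := by linarith
  have hZ : 0 < ∑ Y, S.wt γ β Ω ω A Y := sum_pos (fun Y _ => wt_pos_Sel S _ _ _ _ _ _) univ_nonempty
  refine ⟨A, hA, thin_Sel S hT hγ hβ hπ hA fun g hg => ?_, fun g hg hgA => ?_⟩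
  · have h1 := hmin (A.erase g) (mem_powerset.2 ((erase_subset _ _).trans hA))
    have h2 : (A.card : ℝ) = (A.erase g).card + 1 := by
      exact_mod_cast (card_erase_add_one hg).symm
    rw [h2, mul_add, mul_one, add_comm, Real.exp_add, ← mul_assoc] at h1
    have h3 := le_of_mul_le_mul_right h1 (Real.exp_pos _)
    have h4 : ∑ Y, S.wt γ β Ω ω (A.erase g) Y ≤
        ∑ Y, (S.wt γ β Ω ω A Y - S.wt γ β Ω ω A Y * ((mino (Ω g) Y : ℝ) / ω)) := by
      refine sum_le_sum fun Y _ => ?_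
      have h5 := wt_insert_Sel S γ β Ω ω (notMem_erase g A) Y
      rw [insert_erase hg] at h5
      have h6 : S.wt γ β Ω ω (A.erase g) Y =
          S.wt γ β Ω ω A Y * Real.exp (-(β * ((mino (Ω g) Y : ℝ) / ω))) := by
        rw [h5, mul_assoc, ← Real.exp_add, add_neg_cancel, Real.exp_zero, mul_one]
      have h7 := mul_le_mul_of_nonneg_left (exp_le_Sel hβ (by positivity)
        (tau_le_Sel (hT.card g (hA hg)) Y)) (wt_pos_Sel S γ β Ω ω A Y).le
      rw [h6]
      linarith
    rw [sum_sub_distrib] at h4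
    have h5 := mul_le_mul_of_nonneg_left (Real.add_one_le_exp (-π)) hZ.le
    linarith
  · have h1 := hmin (insert g A) (mem_powerset.2 (insert_subset hg hA))
    have h2 : -π * (A.card : ℝ) = π + -π * (insert g A).card := by
      rw [card_insert_of_notMem hgA]
      push_cast
      ring
    rw [h2, Real.exp_add, ← mul_assoc] at h1
    have h3 := le_of_mul_le_mul_right h1 (Real.exp_pos _)
    have hω : (0 : ℝ) < ω := by
      have h4 := card_pos.2 ⟨g, hT.mem g hg⟩
      rw [hT.card g hg] at h4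
      exact_mod_cast h4
    have h4 : ∑ Y, S.wt γ β Ω ω (insert g A) Y ≤
        ∑ Y, (S.wt γ β Ω ω A Y * Real.exp (π / 4) + Real.exp (β / 2) *
          if π / (4 * β) * ω ≤ mino (Ω g) Y then S.wt γ β Ω ω A Y else 0) := by
      refine sum_le_sum fun Y _ => ?_
      have h5 := wt_pos_Sel S γ β Ω ω A Y
      rw [wt_insert_Sel S γ β Ω ω hgA]
      split_ifs with h6
      · have h7 : Real.exp (β * ((mino (Ω g) Y : ℝ) / ω)) ≤ Real.exp (β / 2) := by
          rw [Real.exp_le_exp]
          nlinarith [tau_le_Sel (hT.card g hg) Y]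
        nlinarith [mul_le_mul_of_nonneg_left h7 h5.le, mul_pos h5 (Real.exp_pos (π / 4))]
      · have h7 : Real.exp (β * ((mino (Ω g) Y : ℝ) / ω)) ≤ Real.exp (π / 4) := by
          rw [Real.exp_le_exp, ← mul_div_assoc, div_le_iff₀ hω]
          have h8 := mul_le_mul_of_nonneg_left (not_le.1 h6).le hβ0.le
          refine h8.trans_eq ?_
          field_simp
        rw [mul_zero, add_zero]
        exact mul_le_mul_of_nonneg_left h7 h5.le
    rw [sum_add_distrib, ← sum_mul, ← mul_sum, ← sum_filter] at h4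
    have h5 : Real.exp (π / 4) + π / 2 ≤ Real.exp π := by
      have h6 : Real.exp π = Real.exp (π / 4) * Real.exp (3 * π / 4) := by
        rw [← Real.exp_add]
        congr 1
        ring
      have h7 := Real.add_one_le_exp (π / 4)
      have h8 := mul_le_mul_of_nonneg_left (Real.add_one_le_exp (3 * π / 4))
        (Real.exp_pos (π / 4)).le
      nlinarith
    have h6 := mul_le_mul_of_nonneg_left h5 hZ.le
    have h7 : Real.exp (-β / 2) * Real.exp (β / 2) = 1 := by
      rw [← Real.exp_add, neg_div, neg_add_cancel, Real.exp_zero]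
    have h8 : π / 2 * ∑ Y, S.wt γ β Ω ω A Y ≤ Real.exp (β / 2) *
        ∑ Y ∈ univ.filter (fun Y => π / (4 * β) * ω ≤ mino (Ω g) Y), S.wt γ β Ω ω A Y := by
      linarith
    have h9 := mul_le_mul_of_nonneg_left h8 (Real.exp_pos (-β / 2)).le
    rw [← mul_assoc (Real.exp (-β / 2)) (Real.exp (β / 2)), h7, one_mul] at h9
    linarith

end Pool.Agent.MP_9a3194_co

end

section

open Finset
open scoped symmDiff

namespace Pool.Agent.MP_9a3194_co

variable {V : Type} [Fintype V] [DecidableEq V] (S : Str V)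

omit [Fintype V] in
private theorem rooted_erase_Gen {R U : Finset V} (r : V) (h : S.Rooted R U) :
    S.Rooted (R ∪ univ.image (S.step r)) (U.erase r) := by
  intro X hX hne hdj
  obtain ⟨d, hd1, hd2⟩ := h X (hX.trans (erase_subset _ _)) hne
    (hdj.mono_right subset_union_left)
  refine ⟨d, hd1, ?_⟩
  rw [mem_sdiff] at hd2 ⊢
  refine ⟨mem_erase.2 ⟨?_, hd2.1⟩, hd2.2⟩
  intro hr
  have h1 : S.step r (rd d.2) = d.1 := by
    rw [← hr]; exact S.step_step d.1 d.2
  exact disjoint_left.1 hdj hd1 (mem_union_right _ (mem_image.2 ⟨rd d.2, mem_univ _, h1⟩))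

omit [Fintype V] in
open Classical in
private theorem rooted_aux_Gen {x : ℝ} (h0 : 0 ≤ x) (h1 : x ≤ 1 / 10) (n : ℕ) :
    ∀ D : Finset V, D.card = n → ∀ R : Finset V,
      ∑ U ∈ D.powerset.filter (S.Rooted R), x ^ U.card ≤ (1 + 2 * x) ^ (R ∩ D).card := by
  have hf : (1 : ℝ) ≤ 1 + 2 * x := by linarith
  induction n with
  | zero =>
    intro D hD R
    rw [card_eq_zero] at hD
    subst hD
    calc ∑ U ∈ (∅ : Finset V).powerset.filter (S.Rooted R), x ^ U.card
        ≤ ∑ U ∈ (∅ : Finset V).powerset, x ^ U.card :=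
          sum_le_sum_of_subset_of_nonneg (filter_subset _ _) fun _ _ _ => pow_nonneg h0 _
      _ = 1 := by simp
      _ ≤ _ := one_le_pow₀ hf
  | succ n ih =>
    intro D hD R
    rcases (R ∩ D).eq_empty_or_nonempty with he | ⟨r, hr⟩
    · have hsub : D.powerset.filter (S.Rooted R) ⊆ {∅} := by
        intro U hU
        rw [mem_filter, mem_powerset] at hU
        rw [mem_singleton]
        by_contra hne
        have hdj : Disjoint U R := by
          rw [disjoint_left]
          intro a ha haR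
          have : a ∈ R ∩ D := mem_inter.2 ⟨haR, hU.1 ha⟩
          rw [he] at this
          exact notMem_empty _ this
        obtain ⟨d, _, hd⟩ := hU.2 U Subset.rfl (nonempty_iff_ne_empty.2 hne) hdj
        simp at hd
      calc ∑ U ∈ D.powerset.filter (S.Rooted R), x ^ U.card
          ≤ ∑ U ∈ ({∅} : Finset (Finset V)), x ^ U.card :=
            sum_le_sum_of_subset_of_nonneg hsub fun _ _ _ => pow_nonneg h0 _
        _ = 1 := by simp
        _ ≤ _ := one_le_pow₀ hf
    · have hrR : r ∈ R := (mem_inter.1 hr).1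
      have hrD : r ∈ D := (mem_inter.1 hr).2
      have hcard : (D.erase r).card = n := by rw [card_erase_of_mem hrD, hD]; rfl
      set m := (R ∩ D.erase r).card with hm
      have hm1 : (R ∩ D).card = m + 1 := by
        have : R ∩ D.erase r = (R ∩ D).erase r := by
          ext a; simp only [mem_inter, mem_erase]; tauto
        rw [hm, this, card_erase_add_one hr]
      have hA := ih (D.erase r) hcard R
      have hB := ih (D.erase r) hcard (R ∪ univ.image (S.step r))
      have hm3 : ((R ∪ univ.image (S.step r)) ∩ D.erase r).card ≤ m + 3 := by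
        rw [union_inter_distrib_right]
        refine (card_union_le _ _).trans (Nat.add_le_add le_rfl ?_)
        refine (card_le_card inter_subset_left).trans (card_image_le.trans ?_)
        simp
      have hB' : ∑ U ∈ (D.erase r).powerset.filter (S.Rooted (R ∪ univ.image (S.step r))),
          x ^ U.card ≤ (1 + 2 * x) ^ (m + 3) := hB.trans (pow_le_pow_right₀ hf hm3)
      rw [← sum_filter_add_sum_filter_not _ (fun U => r ∈ U)]
      have h2 : ∑ U ∈ (D.powerset.filter (S.Rooted R)).filter (fun U => r ∉ U), x ^ U.card ≤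
          (1 + 2 * x) ^ m := by
        refine le_trans (sum_le_sum_of_subset_of_nonneg ?_ fun _ _ _ => pow_nonneg h0 _) hA
        intro U hU
        simp only [mem_filter, mem_powerset] at hU ⊢
        exact ⟨subset_erase.2 ⟨hU.1.1, hU.2⟩, hU.1.2⟩
      have h3 : ∑ U ∈ (D.powerset.filter (S.Rooted R)).filter (fun U => r ∈ U), x ^ U.card ≤
          x * (1 + 2 * x) ^ (m + 3) := by
        refine le_trans ?_ (mul_le_mul_of_nonneg_left hB' h0)
        have hinj : Set.InjOn (fun U : Finset V => U.erase r)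
            ((D.powerset.filter (S.Rooted R)).filter (fun U => r ∈ U) : Set (Finset V)) := by
          intro U hU U' hU' h
          have hU1 : r ∈ U := (mem_filter.1 hU).2
          have hU2 : r ∈ U' := (mem_filter.1 hU').2
          have h' : U.erase r = U'.erase r := h
          rw [← insert_erase hU1, ← insert_erase hU2, h']
        calc ∑ U ∈ (D.powerset.filter (S.Rooted R)).filter (fun U => r ∈ U), x ^ U.card
            = ∑ U ∈ (D.powerset.filter (S.Rooted R)).filter (fun U => r ∈ U),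
                x * x ^ (U.erase r).card := by
              refine sum_congr rfl fun U hU => ?_
              rw [← card_erase_add_one (mem_filter.1 hU).2, pow_succ, mul_comm]
          _ = x * ∑ U ∈ ((D.powerset.filter (S.Rooted R)).filter (fun U => r ∈ U)).image
                (fun U => U.erase r), x ^ U.card := by
              rw [sum_image hinj, mul_sum]
          _ ≤ _ := by
              refine mul_le_mul_of_nonneg_left
                (sum_le_sum_of_subset_of_nonneg ?_ fun _ _ _ => pow_nonneg h0 _) h0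
              intro U' hU'
              obtain ⟨U, hU, rfl⟩ := mem_image.1 hU'
              simp only [mem_filter, mem_powerset] at hU ⊢
              exact ⟨erase_subset_erase _ hU.1.1, rooted_erase_Gen S r hU.1.2⟩
      have h4 : (1 + 2 * x) ^ 3 ≤ 2 := by
        calc (1 + 2 * x) ^ 3 ≤ (6 / 5 : ℝ) ^ 3 := pow_le_pow_left₀ (by linarith) (by linarith) 3
          _ ≤ 2 := by norm_num
      have h5 : 0 ≤ (1 + 2 * x) ^ m := pow_nonneg (by linarith) _
      have h6 : x * (1 + 2 * x) ^ (m + 3) ≤ (1 + 2 * x) ^ m * (2 * x) := by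
        rw [pow_add]
        have := mul_le_mul_of_nonneg_left h4 (mul_nonneg h5 h0)
        nlinarith
      rw [hm1, pow_succ]
      nlinarith

open Classical in
theorem rooted_sum (R : Finset V) {x : ℝ} (h0 : 0 ≤ x) (h1 : x ≤ 1 / 10) :
    ∑ U ∈ univ.filter (S.Rooted R), x ^ U.card ≤ (1 + 2 * x) ^ R.card := by
  have h := rooted_aux_Gen S h0 h1 _ (univ : Finset V) rfl R
  rwa [powerset_univ, inter_univ] at h

private theorem b_ineq_Gen {U W Y : Finset V} (h : S.bd U ⊆ S.bd Y ∪ S.bd W) :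
    S.b (Y ∆ U) + S.b U ≤ S.b Y + 2 * S.b W := by
  unfold Str.b
  rw [S.bd_symmDiff]
  set A := S.bd Y
  set B := S.bd U
  set C := S.bd W
  have h1 : (B \ A).card ≤ C.card := by
    refine card_le_card fun d hd => ?_
    rw [mem_sdiff] at hd
    exact (mem_union.1 (h hd.1)).resolve_left hd.2
  have h2 : (A ∆ B).card ≤ (A \ B).card + (B \ A).card := by
    rw [symmDiff_def]; exact card_union_le _ _
  have h3 := card_sdiff_add_card_inter A B
  have h4 := card_sdiff_add_card_inter B A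
  rw [inter_comm B A] at h4
  omega

open Classical in
/-- Peierls estimate -/
theorem peierls {γ κ : ℝ} (hγ : 0 ≤ γ) (ρ : Finset V → ℝ) (W : Finset V)
    (hρ : ∀ Y, ∀ U ⊆ W, ρ Y ≤ ρ (Y ∆ U) + κ) (C : Finset (Finset V)) :
    ∑ Y ∈ univ.filter (fun Y => ∃ U ∈ C, U ⊆ W ∧ S.bd U ⊆ S.bd Y ∪ S.bd W),
        Real.exp (-γ * S.b Y + ρ Y) ≤
      Real.exp (2 * γ * S.b W + κ) * (∑ U ∈ C, Real.exp (-γ * S.b U)) *
        ∑ Y, Real.exp (-γ * S.b Y + ρ Y) := by
  set K := Real.exp (2 * γ * S.b W + κ) with hK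
  set g : Finset V → ℝ := fun Y => Real.exp (-γ * S.b Y + ρ Y) with hg
  have hK0 : 0 ≤ K := (Real.exp_pos _).le
  have hg0 : ∀ Y, 0 ≤ g Y := fun Y => (Real.exp_pos _).le
  have hnn : ∀ Y U : Finset V, 0 ≤ K * Real.exp (-γ * S.b U) * g (Y ∆ U) := fun Y U =>
    mul_nonneg (mul_nonneg hK0 (Real.exp_pos _).le) (hg0 _)
  have hterm : ∀ Y ∈ univ.filter (fun Y => ∃ U ∈ C, U ⊆ W ∧ S.bd U ⊆ S.bd Y ∪ S.bd W),
      g Y ≤ ∑ U ∈ C, K * Real.exp (-γ * S.b U) * g (Y ∆ U) := by
    intro Y hY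
    obtain ⟨U, hUC, hUW, hbd⟩ := (mem_filter.1 hY).2
    refine le_trans ?_ (single_le_sum (f := fun U => K * Real.exp (-γ * S.b U) * g (Y ∆ U))
      (fun U _ => hnn Y U) hUC)
    have h1 : ((S.b (Y ∆ U) : ℝ) + S.b U) ≤ S.b Y + 2 * S.b W := by
      exact_mod_cast b_ineq_Gen S hbd
    have h2 := hρ Y U hUW
    have h3 := mul_le_mul_of_nonneg_left h1 hγ
    simp only [hK, hg]
    rw [← Real.exp_add, ← Real.exp_add, Real.exp_le_exp]
    nlinarith
  have hbij : ∀ U : Finset V, ∑ Y, g (Y ∆ U) = ∑ Y, g Y := by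
    intro U
    exact Equiv.sum_comp (Function.Involutive.toPerm (fun Y : Finset V => Y ∆ U)
      (fun Y => symmDiff_symmDiff_cancel_right U Y)) g
  calc ∑ Y ∈ univ.filter (fun Y => ∃ U ∈ C, U ⊆ W ∧ S.bd U ⊆ S.bd Y ∪ S.bd W), g Y
      ≤ ∑ Y ∈ univ.filter (fun Y => ∃ U ∈ C, U ⊆ W ∧ S.bd U ⊆ S.bd Y ∪ S.bd W),
          ∑ U ∈ C, K * Real.exp (-γ * S.b U) * g (Y ∆ U) := sum_le_sum hterm
    _ ≤ ∑ Y, ∑ U ∈ C, K * Real.exp (-γ * S.b U) * g (Y ∆ U) :=
        sum_le_sum_of_subset_of_nonneg (filter_subset _ _) fun Y _ _ =>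
          sum_nonneg fun U _ => hnn Y U
    _ = ∑ U ∈ C, K * Real.exp (-γ * S.b U) * ∑ Y, g Y := by
        rw [sum_comm]
        refine sum_congr rfl fun U _ => ?_
        rw [← mul_sum, hbij]
    _ = K * (∑ U ∈ C, Real.exp (-γ * S.b U)) * ∑ Y, g Y := by
        rw [← sum_mul, ← mul_sum]

end Pool.Agent.MP_9a3194_co

end

section

open Finset
open scoped symmDiff

namespace Pool.Agent.MP_9a3194_co

variable {V : Type} [Fintype V] [DecidableEq V] (S : Str V)

omit [Fintype V] in
private theorem dv_single_Gale (d : Dt V) (v : V) :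
    ∑ i : Fin 3, (if (v, i) = d then (1 : ℝ) else 0) = if v = d.1 then 1 else 0 := by
  obtain ⟨a, j⟩ := d
  by_cases h : v = a
  · subst h
    simp
  · simp [h]

private theorem push_Gale (T : Finset V) (q : V → ℝ) (η : ℝ) (f : Dt V → ℝ) (hf : S.Anti f)
    (hb : ∀ d, |f d| ≤ η) (φ : V → ℝ) (hφ : ∀ v, φ v = if v ∈ T then 0 else dv f v - q v)
    (hmin : ∀ g : Dt V → ℝ, S.Anti g → (∀ d, |g d| ≤ η) →
      ∑ v, φ v ^ 2 ≤ ∑ v, (if v ∈ T then 0 else dv g v - q v) ^ 2)
    (d : Dt V) (hd : φ (S.hd d) < φ d.1) : f d = -η := by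
  by_contra hne
  have h1 : -η < f d := lt_of_le_of_ne (abs_le.1 (hb d)).1 (Ne.symm hne)
  have h2 : f d ≤ η := (abs_le.1 (hb d)).2
  have hv : S.hd d ≠ d.1 := fun h => by rw [h] at hd; exact lt_irrefl _ hd
  have hr : S.rv d ≠ d := fun h => hv (by rw [← S.rv_fst, h])
  set s : ℝ := min ((φ d.1 - φ (S.hd d)) / 2) (f d + η) with hs
  have hs0 : 0 < s := lt_min (by linarith) (by linarith)
  have hs1 : s ≤ (φ d.1 - φ (S.hd d)) / 2 := min_le_left _ _
  have hs2 : s ≤ f d + η := min_le_right _ _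
  let g : Dt V → ℝ := fun e =>
    f e + s * ((if e = S.rv d then 1 else 0) - (if e = d then 1 else 0))
  have hg : S.Anti g := by
    intro e
    have e1 : (S.rv e = S.rv d) ↔ e = d :=
      ⟨fun h => by rw [← S.rv_rv e, h, S.rv_rv], fun h => by rw [h]⟩
    have e2 : (S.rv e = d) ↔ e = S.rv d :=
      ⟨fun h => by rw [← h, S.rv_rv], fun h => by rw [h, S.rv_rv]⟩
    simp only [g, e1, e2, hf e]
    ring
  have hgb : ∀ e, |g e| ≤ η := by
    intro e
    by_cases a1 : e = d
    · subst a1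
      simp only [g, if_neg hr.symm, if_true]
      rw [abs_le]
      constructor <;> linarith
    · by_cases a2 : e = S.rv d
      · subst a2
        simp only [g, if_neg hr, if_true, hf d]
        rw [abs_le]
        constructor <;> linarith
      · simp only [g, if_neg a1, if_neg a2, sub_self, mul_zero, add_zero]
        exact hb e
  let δ : V → ℝ := fun v => (if v = S.hd d then 1 else 0) - (if v = d.1 then 1 else 0)
  have hdv : ∀ v, dv g v = dv f v + s * δ v := by
    intro v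
    simp only [dv, g, δ, sum_add_distrib, ← mul_sum, sum_sub_distrib, dv_single_Gale]
    rfl
  have hpt : ∀ v, (if v ∈ T then 0 else dv g v - q v) ^ 2 ≤
      φ v ^ 2 + 2 * s * (φ v * δ v) + s ^ 2 * (δ v * δ v) := by
    intro v
    rw [hφ v, hdv v]
    split_ifs
    · have := mul_nonneg (sq_nonneg s) (mul_self_nonneg (δ v))
      linarith
    · exact le_of_eq (by ring)
  have hsum : ∀ ψ : V → ℝ, ∑ v, ψ v * δ v = ψ (S.hd d) - ψ d.1 := by
    intro ψ
    simp [δ, mul_sub, sum_sub_distrib]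
  have h3 := (hmin g hg hgb).trans (sum_le_sum fun v _ => hpt v)
  rw [sum_add_distrib, sum_add_distrib, ← mul_sum, ← mul_sum, hsum, hsum] at h3
  have h4 : δ (S.hd d) - δ d.1 = 2 := by
    simp only [δ, if_neg hv, if_neg hv.symm, if_true]
    norm_num
  rw [h4] at h3
  nlinarith

/-- supplies outside `T` can be sent to `T` -/
theorem gale (T : Finset V) (q : V → ℝ) (η : ℝ) (hη : 0 ≤ η)
    (h : ∀ X : Finset V, Disjoint X T → |∑ v ∈ X, q v| ≤ η / 2 * S.b X) :
    ∃ f : Dt V → ℝ, S.Anti f ∧ (∀ d, |f d| ≤ η) ∧ ∀ v ∉ T, dv f v = q v := by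
  let K : Set (Dt V → ℝ) := Set.Icc (fun _ => -η) (fun _ => η) ∩ {f | ∀ d, f (S.rv d) = -f d}
  have hK : IsCompact K := by
    refine isCompact_Icc.inter_right ?_
    rw [Set.setOf_forall]
    exact isClosed_iInter fun d => isClosed_eq (continuous_apply _) (continuous_apply d).neg
  have hmem : ∀ f, f ∈ K ↔ S.Anti f ∧ ∀ d, |f d| ≤ η := by
    intro f
    simp only [K, Set.mem_inter_iff, Set.mem_Icc, Pi.le_def, Set.mem_setOf_eq, abs_le, Str.Anti,
      forall_and]
    exact and_comm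
  have hne : K.Nonempty := ⟨0, (hmem 0).2 ⟨fun d => by simp, fun d => by simpa using hη⟩⟩
  have hc : Continuous fun f : Dt V → ℝ => ∑ v, (if v ∈ T then 0 else dv f v - q v) ^ 2 := by
    refine continuous_finset_sum _ fun v _ => Continuous.pow ?_ 2
    split_ifs
    · exact continuous_const
    · exact (continuous_finset_sum _ fun i _ => continuous_apply (v, i)).sub continuous_const
  obtain ⟨f, hfK, hmin⟩ := hK.exists_isMinOn hne hc.continuousOn
  obtain ⟨hf, hb⟩ := (hmem f).1 hfK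
  let φ : V → ℝ := fun v => if v ∈ T then 0 else dv f v - q v
  have key := push_Gale S T q η f hf hb φ (fun _ => rfl)
    (fun g hg hgb => hmin ((hmem g).2 ⟨hg, hgb⟩))
  have hX : ∀ X : Finset V, (∀ v ∈ X, φ v ≠ 0) → Disjoint X T ∧
      ∑ v ∈ X, φ v = ∑ d ∈ S.out X, f d - ∑ v ∈ X, q v := by
    intro X hX
    have hT : ∀ v ∈ X, v ∉ T := fun v hv hvT => hX v hv (if_pos hvT)
    refine ⟨disjoint_left.2 hT, ?_⟩
    rw [← S.sum_dv hf, ← sum_sub_distrib]
    exact sum_congr rfl fun v hv => if_neg (hT v hv)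
  have hle : ∀ v, φ v ≤ 0 := by
    by_contra hcon
    push Not at hcon
    obtain ⟨v0, hv0⟩ := hcon
    let X := univ.filter fun v => 0 < φ v
    obtain ⟨a1, a2⟩ := hX X fun v hv => (mem_filter.1 hv).2.ne'
    have a3 : 0 < ∑ v ∈ X, φ v :=
      sum_pos (fun v hv => (mem_filter.1 hv).2) ⟨v0, mem_filter.2 ⟨mem_univ _, hv0⟩⟩
    have a4 : ∑ d ∈ S.out X, f d = (S.out X).card * -η := by
      rw [← nsmul_eq_mul, ← sum_const]
      refine sum_congr rfl fun d hd => key d ?_
      obtain ⟨b1, b2⟩ := S.mem_out.1 hd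
      simp only [X, mem_filter, mem_univ, true_and, not_lt] at b1 b2
      linarith
    have a5 := (abs_le.1 (h X a1)).1
    rw [S.b_eq] at a5
    push_cast at a5
    linarith
  have hge : ∀ v, 0 ≤ φ v := by
    by_contra hcon
    push Not at hcon
    obtain ⟨v0, hv0⟩ := hcon
    let X := univ.filter fun v => φ v < 0
    obtain ⟨a1, a2⟩ := hX X fun v hv => (mem_filter.1 hv).2.ne
    have a3 : ∑ v ∈ X, φ v < 0 :=
      sum_neg (fun v hv => (mem_filter.1 hv).2) ⟨v0, mem_filter.2 ⟨mem_univ _, hv0⟩⟩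
    have a4 : ∑ d ∈ S.out X, f d = (S.out X).card * η := by
      rw [← nsmul_eq_mul, ← sum_const]
      refine sum_congr rfl fun d hd => ?_
      obtain ⟨b1, b2⟩ := S.mem_out.1 hd
      simp only [X, mem_filter, mem_univ, true_and, not_lt] at b1 b2
      have b3 := key (S.rv d) (by rw [S.hd_rv, S.rv_fst]; linarith)
      rw [hf d] at b3
      linarith
    have a5 := (abs_le.1 (h X a1)).2
    rw [S.b_eq] at a5
    push_cast at a5
    linarith
  refine ⟨f, hf, hb, fun v hv => ?_⟩
  have h0 : φ v = 0 := le_antisymm (hle v) (hge v)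
  simp only [φ, if_neg hv] at h0
  linarith

end Pool.Agent.MP_9a3194_co

end

section

open Finset
open scoped symmDiff

namespace Pool.Agent.MP_9a3194_co

open Matrix

variable {T E : Type} [Fintype T] [DecidableEq T] [Fintype E] [DecidableEq E]

private theorem det_rank_one_LatB {A : Matrix T T ℝ} (hA : IsUnit A.det) (c : ℝ) (b : T → ℝ) :
    (A + c • vecMulVec b b).det = A.det * (1 + c * (b ⬝ᵥ A⁻¹ *ᵥ b)) := by
  have h1 : c • vecMulVec b b = replicateCol Unit (c • b) * replicateRow Unit b := by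
    rw [← vecMulVec_eq]
    ext i j
    simp [vecMulVec_apply, mul_assoc]
  rw [h1, det_add_replicateCol_mul_replicateRow hA, det_unique (n := Unit), Matrix.add_apply,
    Matrix.one_apply_eq, Matrix.mul_assoc, ← replicateCol_mulVec,
    replicateRow_mul_replicateCol_apply, mulVec_smul, dotProduct_smul, smul_eq_mul]

omit [DecidableEq T] in
private theorem psd_LatB {c : ℝ} (hc : 0 ≤ c) (b : T → ℝ) : (c • vecMulVec b b).PosSemidef := by
  have h := posSemidef_vecMulVec_self_star b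
  rw [star_trivial] at h
  exact h.smul hc

omit [Fintype E] in
private theorem add_edges_LatB {A : Matrix T T ℝ} (hA : A.PosDef) (c : E → ℝ)
    (hc : ∀ e, 0 < c e) (b : E → T → ℝ) (s : Finset E) :
    (A + ∑ e ∈ s, c e • vecMulVec (b e) (b e)).PosDef ∧
      A.det ≤ (A + ∑ e ∈ s, c e • vecMulVec (b e) (b e)).det := by
  induction s using Finset.induction_on with
  | empty => simpa using hA
  | insert e s he ih =>
    rw [Finset.sum_insert he, add_comm (c e • _), ← add_assoc]
    refine ⟨ih.1.add_posSemidef (psd_LatB (hc e).le _), ih.2.trans ?_⟩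
    rw [det_rank_one_LatB (isUnit_iff_ne_zero.2 ih.1.det_pos.ne')]
    have h1 := ih.1.inv.posSemidef.dotProduct_mulVec_nonneg (b e)
    rw [star_trivial] at h1
    have h2 := mul_nonneg (hc e).le h1
    exact le_mul_of_one_le_right ih.1.det_pos.le (by linarith)

theorem lap_tree (u v : E → T) (o : T) (c : E → ℝ) (hc : ∀ e, 0 < c e) (pos : T → ℕ)
    (par : {t // t ≠ o} → E) (hp : Function.Injective pos)
    (h : ∀ t, (u (par t) = t.1 ∧ pos (v (par t)) < pos t.1) ∨
      (v (par t) = t.1 ∧ pos (u (par t)) < pos t.1)) :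
    (lap u v o c).PosDef ∧ ∏ t, c (par t) ≤ (lap u v o c).det := by
  have hpar : Function.Injective par := by
    intro s t e
    apply Subtype.ext
    have hs := h s
    have ht := h t
    rw [e] at hs
    rcases hs with ⟨a, a'⟩ | ⟨a, a'⟩ <;> rcases ht with ⟨b, b'⟩ | ⟨b, b'⟩
    · exact a.symm.trans b
    · rw [a] at b'; rw [b] at a'; omega
    · rw [a] at b'; rw [b] at a'; omega
    · exact a.symm.trans b
  let b : E → T → ℝ := fun e => Pi.single (u e) 1 - Pi.single (v e) 1
  let B : Matrix T T ℝ := Matrix.of fun t => if ht : t = o then Pi.single o 1 else b (par ⟨t, ht⟩)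
  let w : T → ℝ := fun t => if ht : t = o then 1 else c (par ⟨t, ht⟩)
  have hBo : B o = Pi.single o 1 := dif_pos rfl
  have hBt : ∀ t : {t // t ≠ o}, B t.1 = b (par t) := fun t => dif_neg t.2
  have hwo : w o = 1 := dif_pos rfl
  have hwt : ∀ t : {t // t ≠ o}, w t.1 = c (par t) := fun t => dif_neg t.2
  have hdiag : ∀ t, B t t * B t t = 1 := by
    intro t
    by_cases ht : t = o
    · subst ht
      rw [hBo]
      simp
    · rw [hBt ⟨t, ht⟩]
      rcases h ⟨t, ht⟩ with ⟨a, a'⟩ | ⟨a, a'⟩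
      · have : v (par ⟨t, ht⟩) ≠ t := fun e => by rw [e] at a'; exact lt_irrefl _ a'
        simp [b, a, Pi.single_eq_of_ne' this]
      · have : u (par ⟨t, ht⟩) ≠ t := fun e => by rw [e] at a'; exact lt_irrefl _ a'
        simp [b, a, Pi.single_eq_of_ne' this]
  have hlow : ∀ i j, pos i < pos j → B i j = 0 := by
    intro i j hij
    have hne : i ≠ j := fun e => by rw [e] at hij; exact lt_irrefl _ hij
    by_cases ht : i = o
    · subst ht
      rw [hBo, Pi.single_eq_of_ne' hne]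
    · rw [hBt ⟨i, ht⟩]
      rcases h ⟨i, ht⟩ with ⟨a, a'⟩ | ⟨a, a'⟩
      · have : v (par ⟨i, ht⟩) ≠ j := fun e => by rw [e] at a'; exact lt_asymm hij a'
        simp [b, a, Pi.single_eq_of_ne' this, Pi.single_eq_of_ne' hne]
      · have : u (par ⟨i, ht⟩) ≠ j := fun e => by rw [e] at a'; exact lt_asymm hij a'
        simp [b, a, Pi.single_eq_of_ne' this, Pi.single_eq_of_ne' hne]
  have hdet : B.det * B.det = 1 := by
    have h1 : B.det = ∏ i, B i i :=
      @det_of_isLowerTriangular _ _ _ _ _ (LinearOrder.lift' pos hp) B fun i j hij => hlow i j hij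
    rw [h1, ← Finset.prod_mul_distrib]
    exact Finset.prod_eq_one fun t _ => hdiag t
  have hw : ∀ t, 0 < w t := by
    intro t
    by_cases ht : t = o
    · rw [ht, hwo]; exact one_pos
    · rw [hwt ⟨t, ht⟩]; exact hc _
  have hBu : IsUnit B := (isUnit_iff_isUnit_det B).2 (IsUnit.of_mul_eq_one _ hdet)
  have hP : (Bᴴ * diagonal w * B).PosDef :=
    (PosDef.diagonal hw).conjTranspose_mul_mul_same (mulVec_injective_iff_isUnit.2 hBu)
  have hD : (Bᴴ * diagonal w * B).det = ∏ t, c (par t) := by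
    rw [det_mul, det_mul, det_conjTranspose, star_trivial, det_diagonal, mul_right_comm, hdet,
      one_mul, Fintype.prod_eq_mul_prod_subtype_ne w o, hwo, one_mul]
    exact Finset.prod_congr rfl fun t _ => hwt t
  have hS : Bᴴ * diagonal w * B = ∑ t, w t • vecMulVec (B t) (B t) := by
    ext i j
    rw [Matrix.mul_apply, Matrix.sum_apply]
    refine Finset.sum_congr rfl fun t _ => ?_
    rw [mul_diagonal, conjTranspose_apply, star_trivial, Matrix.smul_apply, vecMulVec_apply,
      smul_eq_mul]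
    ring
  have hL : lap u v o c = Bᴴ * diagonal w * B +
      ∑ e ∈ (univ.image par)ᶜ, c e • vecMulVec (b e) (b e) := by
    rw [hS, Fintype.sum_eq_add_sum_subtype_ne _ o, hwo, hBo, one_smul, lap,
      ← Finset.sum_add_sum_compl (univ.image par), Finset.sum_image hpar.injOn, add_assoc]
    congr 2
    exact Finset.sum_congr rfl fun t _ => by rw [hwt, hBt]
  rw [hL, ← hD]
  exact add_edges_LatB hP c hc b _

theorem lap_half (u v : E → T) (o : T) (c : E → ℝ) (h : (lap u v o c).PosDef) (e : E) :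
    (lap u v o (Function.update c e (c e / 2))).det = (lap u v o c).det *
      (1 - c e / 2 * ((Pi.single (u e) 1 - Pi.single (v e) 1 : T → ℝ) ⬝ᵥ
        (lap u v o c)⁻¹ *ᵥ (Pi.single (u e) 1 - Pi.single (v e) 1))) := by
  have h1 : lap u v o (Function.update c e (c e / 2)) = lap u v o c +
      (-(c e / 2)) • vecMulVec (Pi.single (u e) 1 - Pi.single (v e) 1 : T → ℝ)
        (Pi.single (u e) 1 - Pi.single (v e) 1) := by
    rw [lap, lap, add_assoc, ← Finset.add_sum_erase _ _ (Finset.mem_univ e),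
      ← Finset.add_sum_erase _ _ (Finset.mem_univ e), Function.update_self, add_right_comm,
      ← add_smul, show c e + -(c e / 2) = c e / 2 by ring]
    congr 2
    exact Finset.sum_congr rfl fun x hx => by rw [Function.update_of_ne (Finset.ne_of_mem_erase hx)]
  rw [h1, det_rank_one_LatB (isUnit_iff_ne_zero.2 h.det_pos.ne'), neg_mul, ← sub_eq_add_neg]

theorem lap_sum (u v : E → T) (o : T) (c : E → ℝ) (φ : T → ℝ) (A : Finset T) :
    ∑ s ∈ A, (lap u v o c *ᵥ φ) s = (if o ∈ A then φ o else 0) +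
      ∑ e, c e * (φ (u e) - φ (v e)) *
        ((if u e ∈ A then 1 else 0) - if v e ∈ A then 1 else 0) := by
  have h0 : ∀ (a : T → ℝ) (s : T), (vecMulVec a a *ᵥ φ) s = (a ⬝ᵥ φ) * a s := by
    intro a s
    rw [vecMulVec_mulVec]
    simp [mul_comm]
  have h1 : ∀ t : T, ∑ s ∈ A, (Pi.single t 1 : T → ℝ) s = if t ∈ A then 1 else 0 := by
    intro t
    rw [Finset.sum_pi_single']
  simp only [lap, add_mulVec, sum_mulVec, smul_mulVec, Pi.add_apply, Finset.sum_apply,
    Pi.smul_apply, h0, smul_eq_mul, Finset.sum_add_distrib]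
  congr 1
  · rw [← Finset.mul_sum, h1, single_dotProduct, one_mul, mul_ite, mul_one, mul_zero]
  · rw [Finset.sum_comm]
    refine Finset.sum_congr rfl fun e _ => ?_
    rw [← Finset.mul_sum, ← Finset.mul_sum, sub_dotProduct, single_dotProduct, single_dotProduct,
      one_mul, one_mul, mul_assoc]
    simp only [Pi.sub_apply, Finset.sum_sub_distrib, h1]

end Pool.Agent.MP_9a3194_co

end

section

open Finset
open scoped symmDiff

namespace Pool.Agent.MP_9a3194_co

namespace Str

variable {V : Type} {S : Str V} {J : Finset V} {lo hi : ℕ}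

private theorem le_Seg {v : V} {i : ℕ} (h : (S.π⁻¹ ^ i) v ∈ J) : S.idx J v ≤ i :=
  Nat.sInf_le h

private theorem inv_pow_Seg (i : ℕ) (v : V) : (S.π⁻¹ ^ i) ((S.π ^ i) v) = v := by
  rw [inv_pow]; simp

private theorem inv_succ_Seg (i : ℕ) (v : V) : (S.π⁻¹ ^ (i + 1)) (S.π v) = (S.π⁻¹ ^ i) v := by
  rw [pow_succ]; simp

private theorem pow_add_Seg (i j : ℕ) (v : V) :
    (S.π ^ (i + j)) v = (S.π ^ i) ((S.π ^ j) v) := by
  rw [pow_add]; rfl

theorem Mark.idx_lt (h : S.Mark J lo hi) (v : V) : S.idx J v < hi := by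
  obtain ⟨i, h1, h2⟩ := h.2 v
  exact (le_Seg h2).trans_lt h1
theorem Mark.seg_mem (h : S.Mark J lo hi) (v : V) : S.seg J v ∈ J := by
  obtain ⟨i, -, h2⟩ := h.2 v
  exact Nat.sInf_mem (s := {i | (S.π⁻¹ ^ i) v ∈ J}) ⟨i, h2⟩
theorem pow_seg (v : V) : (S.π ^ S.idx J v) (S.seg J v) = v := by
  rw [seg, inv_pow]; simp
theorem idx_mem {x : V} (hx : x ∈ J) : S.idx J x = 0 ∧ S.seg J x = x := by
  have h : S.idx J x = 0 := Nat.le_zero.1 (le_Seg (by simpa using hx))
  exact ⟨h, by rw [seg, h]; simp⟩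
theorem Mark.idx_pow (h : S.Mark J lo hi) {x : V} (hx : x ∈ J) {i : ℕ} (hi' : i < lo) :
    S.idx J ((S.π ^ i) x) = i ∧ S.seg J ((S.π ^ i) x) = x := by
  have h1 : S.idx J ((S.π ^ i) x) = i := by
    refine le_antisymm (le_Seg (by rwa [inv_pow_Seg])) (not_lt.1 fun hlt => ?_)
    have h2 := h.seg_mem ((S.π ^ i) x)
    rw [seg] at h2
    obtain ⟨n, hn⟩ := Nat.exists_eq_add_of_le hlt.le
    set j := S.idx J ((S.π ^ i) x)
    rw [hn, pow_add_Seg, inv_pow_Seg] at h2
    exact h.1 x hx n (by omega) (by omega) h2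
  exact ⟨h1, by rw [seg, h1, inv_pow_Seg]⟩
theorem Mark.idx_succ (h : S.Mark J lo hi) {v : V} (hv : S.π v ∉ J) :
    S.idx J (S.π v) = S.idx J v + 1 ∧ S.seg J (S.π v) = S.seg J v := by
  have h1 : S.idx J (S.π v) = S.idx J v + 1 := by
    refine le_antisymm (le_Seg (by rw [inv_succ_Seg]; exact h.seg_mem v)) ?_
    have h2 := h.seg_mem (S.π v)
    rw [seg] at h2
    rcases hj : S.idx J (S.π v) with _ | j
    · rw [hj] at h2
      exact absurd (by simpa using h2) hv
    · rw [hj, inv_succ_Seg] at h2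
      exact Nat.succ_le_succ (le_Seg h2)
  exact ⟨h1, by rw [seg, h1, inv_succ_Seg, seg]⟩
theorem Mark.y0_succ (h : S.Mark J lo hi) (ω : V → Bool) {v : V} (hv : S.π v ∉ J) :
    S.y0 J ω (S.π v) = !S.y0 J ω v := by
  obtain ⟨h1, h2⟩ := h.idx_succ hv
  rw [y0, y0, h1, h2]
  by_cases ho : Odd (S.idx J v) <;> simp [Nat.odd_add_one, ho]
/-- two vertices of one segment differ by a short shift -/
theorem Mark.same_seg (h : S.Mark J lo hi) {u v : V} (he : S.seg J u = S.seg J v) :
    ∃ n < hi, (S.π ^ n) u = v ∨ (S.π ^ n) v = u := by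
  have hu := pow_seg (S := S) (J := J) u
  have hv := pow_seg (S := S) (J := J) v
  have hu' := h.idx_lt u
  have hv' := h.idx_lt v
  rcases le_total (S.idx J u) (S.idx J v) with hle | hle
  · obtain ⟨n, hn⟩ := Nat.exists_eq_add_of_le' hle
    refine ⟨n, by omega, Or.inl ?_⟩
    rw [hn, pow_add_Seg, ← he, hu] at hv
    exact hv
  · obtain ⟨n, hn⟩ := Nat.exists_eq_add_of_le' hle
    refine ⟨n, by omega, Or.inr ?_⟩
    rw [hn, pow_add_Seg, he, hv] at hu
    exact hu
theorem Mark.card_seg [Fintype V] [DecidableEq V] (h : S.Mark J lo hi) (x : V) :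
    (univ.filter fun v => S.seg J v = x).card ≤ hi := by
  rw [← card_range hi]
  refine card_le_card_of_injOn (S.idx J) (fun v _ => by simpa using h.idx_lt v) ?_
  intro u hu v hv huv
  have hu' : S.seg J u = x := (mem_filter.1 hu).2
  have hv' : S.seg J v = x := (mem_filter.1 hv).2
  rw [← pow_seg (S := S) (J := J) u, ← pow_seg (S := S) (J := J) v, hu', hv', huv]
theorem Mark.part [Fintype V] [DecidableEq V] {l : ℕ} (h : S.Mark J l (6 * l)) :
    S.Part J (S.seg J) l := by
  refine ⟨h.seg_mem, fun g hg => (idx_mem hg).2, fun g hg X hu hv => ?_, fun g hg => ?_,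
    fun g _ => h.card_seg g⟩
  · by_contra hc
    have key : ∀ n u, S.seg J u = g → S.idx J u = n → (u ∈ X ↔ g ∈ X) := by
      intro n
      induction n with
      | zero =>
        intro u h1 h2
        have h3 := pow_seg (S := S) (J := J) u
        rw [h1, h2] at h3
        have h4 : g = u := by simpa using h3
        rw [h4]
      | succ n ih =>
        intro u h1 h2
        obtain ⟨v, rfl⟩ := S.π.surjective u
        have hJ : S.π v ∉ J := fun hJ => by
          rw [(idx_mem hJ).1] at h2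
          omega
        obtain ⟨h3, h4⟩ := h.idx_succ hJ
        rw [← ih v (h4 ▸ h1) (by omega)]
        by_contra h5
        refine hc ⟨(v, 1), S.mem_bd.2 fun h6 => h5 h6.symm, ?_, ?_⟩
        · exact mem_filter.2 ⟨mem_univ _, h4 ▸ h1⟩
        · exact mem_filter.2 ⟨mem_univ _, h1⟩
    obtain ⟨u, hu1, hu2⟩ := hu
    obtain ⟨v, hv1, hv2⟩ := hv
    exact hv2 ((key _ v (mem_filter.1 hv1).2 rfl).2 ((key _ u (mem_filter.1 hu1).2 rfl).1 hu2))
  · conv_lhs => rw [← card_range l]
    refine card_le_card_of_injOn (fun i => (S.π ^ i) g) (fun i hi => ?_) ?_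
    · have := (h.idx_pow hg (i := i) (by simpa using hi)).2
      simpa using this
    · intro i hi j hj hij
      have h1 := (h.idx_pow hg (i := i) (by simpa using hi)).1
      have h2 := (h.idx_pow hg (i := j) (by simpa using hj)).1
      have h3 : (S.π ^ i) g = (S.π ^ j) g := hij
      rw [← h1, ← h2, h3]

private theorem junction_Seg (h : S.Mark J lo hi) {v : V} (hv : S.π v ∈ J) :
    lo ≤ S.idx J v + 1 := by
  by_contra hlt
  refine h.1 _ (h.seg_mem v) (S.idx J v + 1) (by omega) (by omega) ?_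
  rw [add_comm, pow_add_Seg, pow_seg]
  simpa using hv

/-- repairing the junctions of the segments -/
theorem colF [Fintype V] [DecidableEq V] {W R k : ℕ} (hJ : S.Mark J lo hi) (hW : W ≤ lo)
    (hH : S.HInj (S.tube J W) R) (hk : 2 * k ≤ R) (ω : V → Bool)
    (hp : ∀ x ∈ J, ∃ t, t + 10 ≤ W ∧ S.Pat k (S.y0 J ω) ((S.π ^ t) x)) :
    ∃ (y : V → Bool) (F : Finset V), S.Col k y F ∧ F ⊆ S.tube J W ∧
      ∀ v ∉ S.tube J W, y v = S.y0 J ω v := by
  choose! t ht hpat using hp
  set z := S.y0 J ω with hz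
  have htv : ∀ v, t (S.seg J v) + 10 ≤ W := fun v => ht _ (hJ.seg_mem v)
  obtain ⟨m, hm⟩ : ∃ m : V → Prop, ∀ x, m x ↔ z (S.π⁻¹ x) = z x := ⟨_, fun _ => Iff.rfl⟩
  classical
  obtain ⟨y, hy⟩ : ∃ y : V → Bool, ∀ v, y v =
    xor (z v) (decide (m (S.seg J v) ∧ S.idx J v ≤ t (S.seg J v) + 3)) := ⟨_, fun _ => rfl⟩
  obtain ⟨F, hF⟩ : ∃ F : Finset V, ∀ v, v ∈ F ↔ m (S.seg J v) ∧
      (S.idx J v = t (S.seg J v) + 3 ∨ S.idx J v = t (S.seg J v) + 4) :=
    ⟨univ.filter fun v => m (S.seg J v) ∧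
      (S.idx J v = t (S.seg J v) + 3 ∨ S.idx J v = t (S.seg J v) + 4), fun v => by simp⟩
  have key : ∀ v, y (S.π v) = y v ↔ m (S.seg J v) ∧ S.idx J v = t (S.seg J v) + 3 := by
    intro v
    by_cases hv : S.π v ∈ J
    · have h1 := junction_Seg hJ hv
      have h2 := htv v
      obtain ⟨h3, h4⟩ := idx_mem (S := S) hv
      have h5 : ¬ S.idx J v ≤ t (S.seg J v) + 3 := by omega
      have h6 : ¬ S.idx J v = t (S.seg J v) + 3 := by omega
      have h7 := hm (S.π v)
      rw [show S.π⁻¹ (S.π v) = v by simp] at h7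
      rw [hy, hy, h3, h4]
      simp only [h5, h6, h7, and_false, iff_false, Nat.zero_le, and_true]
      cases z v <;> cases z (S.π v) <;> simp
    · obtain ⟨h1, h2⟩ := hJ.idx_succ hv
      rw [hy, hy, h1, h2, hz, hJ.y0_succ ω hv]
      by_cases h3 : m (S.seg J v)
      · rcases lt_trichotomy (S.idx J v) (t (S.seg J v) + 3) with h4 | h4 | h4
        · have h5 : S.idx J v + 1 ≤ t (S.seg J v) + 3 := h4
          simp [h3, h5, h4.le, h4.ne]
        · simp [h3, h4]
        · have h5 : ¬ S.idx J v + 1 ≤ t (S.seg J v) + 3 := by omega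
          simp [h3, h5, h4.not_ge, h4.ne']
      · simp [h3]
  have key2 : ∀ v, y v = y (S.π⁻¹ v) ↔ m (S.seg J v) ∧ S.idx J v = t (S.seg J v) + 4 := by
    intro v
    obtain ⟨u, rfl⟩ := S.π.surjective v
    rw [show S.π⁻¹ (S.π u) = u by simp, key]
    by_cases hv : S.π u ∈ J
    · have h1 := junction_Seg hJ hv
      have h2 := htv u
      have h3 := (idx_mem (S := S) hv).1
      constructor
      · rintro ⟨-, h4⟩
        omega
      · rintro ⟨-, h4⟩
        omega
    · obtain ⟨h1, h2⟩ := hJ.idx_succ hv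
      rw [h1, h2]
      exact and_congr_right fun _ => by omega
  have htube : ∀ v, S.idx J v < W → v ∈ S.tube J W := fun v hv =>
    S.mem_tube.2 ⟨_, hJ.seg_mem v, _, hv, pow_seg v⟩
  have hsub : F ⊆ S.tube J W := fun v hv => htube v (by
    have h1 := ((hF v).1 hv).2
    have h2 := htv v
    omega)
  have hout : ∀ v ∉ S.tube J W, y v = z v := by
    intro v hv
    have h1 : ¬ S.idx J v ≤ t (S.seg J v) + 3 := fun h => hv (htube v (by
      have h2 := htv v
      omega))
    rw [hy]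
    simp [h1]
  refine ⟨y, F, ⟨fun v hv => ⟨fun h => ?_, fun h => ?_⟩, fun a ha h => ?_, fun a ha => ?_⟩,
    hsub, hout⟩
  · exact hv ((hF v).2 ⟨((key v).1 h).1, Or.inl ((key v).1 h).2⟩)
  · exact hv ((hF v).2 ⟨((key2 v).1 h.symm).1, Or.inr ((key2 v).1 h.symm).2⟩)
  · obtain ⟨h1, h2 | h2⟩ := (hF a).1 ha
    · have h3 := ((key2 a).1 (((key a).2 ⟨h1, h2⟩).symm.trans h)).2
      omega
    · have h3 := ((key a).1 (h.trans ((key2 a).2 ⟨h1, h2⟩).symm)).2
      omega
  · obtain ⟨h1, h2⟩ := (hF a).1 ha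
    have hx := hJ.seg_mem a
    have h3 := htv a
    have h4 := pow_seg (S := S) (J := J) a
    obtain ⟨h5, h6⟩ := hJ.idx_pow hx (i := t (S.seg J a)) (by omega)
    have h7 : y a = z ((S.π ^ t (S.seg J a)) (S.seg J a)) := by
      rw [hy, hz, y0, y0, h5, h6]
      rcases h2 with h2 | h2
      · rw [h2]
        by_cases ho : Odd (t (S.seg J a)) <;> simp [h1, ho, Nat.odd_add, parity_simps]
      · rw [h2]
        by_cases ho : Odd (t (S.seg J a)) <;> simp [h1, ho, Nat.odd_add, parity_simps]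
    have h8 : S.Good k z a (z ((S.π ^ t (S.seg J a)) (S.seg J a))) := by
      rcases h2 with h2 | h2
      · have h9 := (hpat _ hx).1 3 (by simp)
        rwa [← pow_add_Seg, add_comm, ← h2, h4] at h9
      · have h9 := (hpat _ hx).1 4 (by simp)
        rwa [← pow_add_Seg, add_comm, ← h2, h4] at h9
    intro w hw1 hw2 hw3
    rw [h7, hout _ (hH.2 a (hsub ha) w (by omega))]
    exact h8 w hw1 hw2 hw3

end Str

end Pool.Agent.MP_9a3194_co

end

section

open Finset
open scoped symmDiff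

namespace Pool.Agent.MP_9a3194_co

variable {V : Type} [Fintype V] [DecidableEq V] (G : SimpleGraph V) [DecidableRel G.Adj]

private theorem forest_edges_GPet {W : Type} [Fintype W] [Nonempty W] (H : SimpleGraph W)
    [Fintype H.edgeSet] (ha : H.IsAcyclic) : H.edgeFinset.card + 1 ≤ Fintype.card W := by
  classical
  obtain ⟨F, hHF, -, hF⟩ :=
    (SimpleGraph.connected_top (V := W)).exists_isTree_le_of_le_of_isAcyclic le_top ha
  rw [← hF.card_edgeFinset]
  exact Nat.add_le_add_right (card_le_card (SimpleGraph.edgeFinset_mono hHF)) 1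

private theorem card_inter_GPet (X Y : Finset V) :
    (G.interedges X Y).card = ∑ v ∈ X, (Y.filter fun w => G.Adj v w).card := by
  have : G.interedges X Y = (X ×ˢ Y).filter fun e => G.Adj e.1 e.2 := by
    ext e
    simp [SimpleGraph.mem_interedges_iff, and_assoc]
  rw [this, card_filter, sum_product]
  refine sum_congr rfl fun v _ => ?_
  rw [card_filter]

private theorem split_deg_GPet (X : Finset V) (v : V) :
    (X.filter fun w => G.Adj v w).card + (Xᶜ.filter fun w => G.Adj v w).card = G.degree v := by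
  rw [← card_union_of_disjoint (disjoint_filter_filter disjoint_compl_right), ← filter_union,
    union_compl, ← SimpleGraph.card_neighborFinset_eq_degree]
  congr 1
  ext w
  simp

/-- an acyclic part of a cubic graph has a large cut -/
theorem forest_cut (h : G.IsRegularOfDegree 3) (X : Finset V) (hX : X.Nonempty)
    (ha : (G.induce (X : Set V)).IsAcyclic) : X.card + 2 ≤ (G.interedges X Xᶜ).card := by
  classical
  haveI : Nonempty (X : Set V) := ⟨⟨hX.choose, hX.choose_spec⟩⟩
  have h1 := forest_edges_GPet (G.induce (X : Set V)) ha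
  have h2 := (G.induce (X : Set V)).sum_degrees_eq_twice_card_edges
  have hc : Fintype.card (X : Set V) = X.card := by simp
  have h3 : ∑ v : (X : Set V), (G.induce (X : Set V)).degree v
      = ∑ v ∈ X, (X.filter fun w => G.Adj v w).card := by
    rw [← sum_coe_sort X]
    refine Fintype.sum_equiv (Equiv.refl _) _ _ fun v => ?_
    rw [← SimpleGraph.card_neighborFinset_eq_degree]
    refine card_bij (fun w _ => (w : V)) ?_ ?_ ?_
    · intro w hw
      rw [SimpleGraph.mem_neighborFinset] at hw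
      exact mem_filter.2 ⟨w.2, hw⟩
    · intro a _ b _ hab
      exact Subtype.ext hab
    · intro w hw
      obtain ⟨hw1, hw2⟩ := mem_filter.1 hw
      exact ⟨⟨w, hw1⟩, (SimpleGraph.mem_neighborFinset _ _ _).2 hw2, rfl⟩
  have h4 : ∑ v ∈ X, (X.filter fun w => G.Adj v w).card
      + ∑ v ∈ X, (Xᶜ.filter fun w => G.Adj v w).card = 3 * X.card := by
    rw [← sum_add_distrib, sum_congr rfl fun v _ => (split_deg_GPet G X v).trans (h v)]
    simp [mul_comm]
  rw [card_inter_GPet]
  omega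

private theorem even_card_GPet (h : G.IsRegularOfDegree 3) : Even (Fintype.card V) := by
  have h2 := G.sum_degrees_eq_twice_card_edges
  rw [sum_congr rfl fun v _ => h v] at h2
  simp only [sum_const, card_univ, smul_eq_mul] at h2
  rw [Nat.even_iff]
  omega

private theorem no_violator_GPet (h : G.IsRegularOfDegree 3)
    (h3 : ∀ X : Finset V, X.Nonempty → Xᶜ.Nonempty → 3 ≤ (G.interedges X Xᶜ).card)
    (u : Set V) : ¬ G.IsTutteViolator u := by
  classical
  unfold SimpleGraph.IsTutteViolator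
  rw [not_lt]
  set H := ((⊤ : G.Subgraph).deleteVerts u).coe with hH
  let XC : H.ConnectedComponent → Finset V := fun c =>
    (Subtype.val '' c.supp).toFinset
  have hmem : ∀ c x, x ∈ XC c ↔ ∃ hx : x ∈ ((⊤ : G.Subgraph).deleteVerts u).verts,
      H.connectedComponentMk ⟨x, hx⟩ = c := by
    intro c x
    simp only [XC, Set.mem_toFinset, Set.mem_image, SimpleGraph.ConnectedComponent.mem_supp_iff]
    constructor
    · rintro ⟨y, hy, rfl⟩
      exact ⟨y.2, hy⟩
    · rintro ⟨hx, hc⟩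
      exact ⟨⟨x, hx⟩, hc, rfl⟩
  have hcard : ∀ c, (XC c).card = c.supp.ncard := by
    intro c
    rw [← Set.ncard_image_of_injective c.supp Subtype.val_injective, Set.ncard_eq_toFinset_card']
  let O : Finset H.ConnectedComponent := H.oddComponents.toFinset
  let U : Finset V := u.toFinset
  have hsub : ∀ c, G.interedges (XC c) (XC c)ᶜ ⊆ G.interedges univ U := by
    intro c e he
    rw [SimpleGraph.mem_interedges_iff] at he ⊢
    obtain ⟨h1, h2, hadj⟩ := he
    refine ⟨mem_univ _, ?_, hadj⟩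
    by_contra hu
    have hu' : e.2 ∉ u := by simpa [U] using hu
    obtain ⟨hx, hc⟩ := (hmem c _).1 h1
    have hy : e.2 ∈ ((⊤ : G.Subgraph).deleteVerts u).verts := by
      simp [hu']
    apply mem_compl.1 h2
    refine (hmem c _).2 ⟨hy, ?_⟩
    rw [← hc]
    refine (SimpleGraph.ConnectedComponent.connectedComponentMk_eq_of_adj ?_).symm
    have hx' : e.1 ∉ u := by simpa using hx
    simp [hH, SimpleGraph.Subgraph.deleteVerts_adj, hx', hu', hadj]
  have h3' : ∀ c ∈ O, 3 ≤ (G.interedges (XC c) (XC c)ᶜ).card := by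
    intro c hc
    have hodd : Odd (XC c).card := by
      rw [hcard]
      simpa [O] using hc
    refine h3 _ (card_pos.1 hodd.pos) ?_
    rw [nonempty_iff_ne_empty]
    intro he
    rw [compl_eq_empty_iff] at he
    rw [he, card_univ] at hodd
    exact (Nat.not_odd_iff_even.2 (even_card_GPet G h)) hodd
  have hdisj : ∀ c ∈ O, ∀ d ∈ O, c ≠ d →
      Disjoint (G.interedges (XC c) (XC c)ᶜ) (G.interedges (XC d) (XC d)ᶜ) := by
    intro c _ d _ hcd
    rw [disjoint_left]
    intro e h1 h2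
    rw [SimpleGraph.mem_interedges_iff] at h1 h2
    obtain ⟨_, hc⟩ := (hmem c _).1 h1.1
    obtain ⟨_, hd⟩ := (hmem d _).1 h2.1
    exact hcd (hc.symm.trans hd)
  have hU : (G.interedges univ U).card = 3 * U.card := by
    have : (G.interedges univ U).card = (G.interedges U univ).card :=
      haveI : Std.Symm G.Adj := ⟨fun _ _ hh => hh.symm⟩
      Rel.card_interedges_comm (r := G.Adj) _ _
    rw [this, card_inter_GPet]
    have : ∀ v ∈ U, ((univ : Finset V).filter fun w => G.Adj v w).card = 3 := by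
      intro v _
      rw [← h v, ← SimpleGraph.card_neighborFinset_eq_degree]
      congr 1
      ext w
      simp
    rw [sum_congr rfl this]
    simp [mul_comm]
  have hle : 3 * O.card ≤ 3 * U.card := by
    calc 3 * O.card = ∑ _c ∈ O, 3 := by simp [mul_comm]
      _ ≤ ∑ c ∈ O, (G.interedges (XC c) (XC c)ᶜ).card := sum_le_sum h3'
      _ = (O.biUnion fun c => G.interedges (XC c) (XC c)ᶜ).card := (card_biUnion hdisj).symm
      _ ≤ (G.interedges univ U).card := card_le_card (biUnion_subset.2 fun c _ => hsub c)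
      _ = 3 * U.card := hU
  rw [Set.ncard_eq_toFinset_card', Set.ncard_eq_toFinset_card']
  exact Nat.le_of_mul_le_mul_left hle (by norm_num)

/-- Petersen's theorem -/
theorem petersen (h : G.IsRegularOfDegree 3)
    (h3 : ∀ X : Finset V, X.Nonempty → Xᶜ.Nonempty → 3 ≤ (G.interedges X Xᶜ).card) :
    ∃ μ : V → V, (∀ v, μ (μ v) = v) ∧ ∀ v, G.Adj v (μ v) := by
  obtain ⟨M, hM⟩ := (SimpleGraph.tutte (G := G)).2 (no_violator_GPet G h h3)
  rw [SimpleGraph.Subgraph.isPerfectMatching_iff] at hM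
  choose μ hμ hu using hM
  exact ⟨μ, fun v => (hu (μ v) v (hμ v).symm).symm, fun v => (hμ v).adj_sub⟩

end Pool.Agent.MP_9a3194_co

end

section

open Finset
open scoped symmDiff

namespace Pool.Agent.MP_9a3194_co

private theorem orient_GStr {V : Type} [Fintype V] [DecidableEq V] (N : V → Finset V)
    (hc : ∀ v, (N v).card = 2) (hs : ∀ v w, w ∈ N v → v ∈ N w) (hl : ∀ v, v ∉ N v) :
    ∃ p : V → V, Function.Injective p ∧ (∀ v, p v ∈ N v) ∧ ∀ v, p (p v) ≠ v := by
  obtain ⟨e, he, hm⟩ := (Finset.all_card_le_biUnion_card_iff_exists_injective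
    fun v => (N v).image fun w => s(v, w)).1 fun A => by
      refine Nat.le_of_mul_le_mul_right (c := 2) (card_mul_le_card_mul
        (fun v x => x ∈ (N v).image fun w => s(v, w)) (fun v hv => ?_) fun x _ => ?_) two_pos
      · have h1 : ((N v).image fun w => s(v, w)).card = 2 := by
          rw [card_image_of_injective _ fun w w' h => Sym2.congr_right.1 h, hc]
        rw [← h1]
        exact card_le_card fun x hx =>
          mem_bipartiteAbove _ |>.2 ⟨mem_biUnion.2 ⟨v, hv, hx⟩, hx⟩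
      · induction x using Sym2.ind with
        | h a b =>
          refine le_trans (card_le_card (t := {a, b}) fun v hv => ?_) card_le_two
          obtain ⟨w, -, hw⟩ := mem_image.1 ((mem_bipartiteBelow _).1 hv).2
          have h1 : v ∈ s(a, b) := hw ▸ Sym2.mem_mk_left v w
          simpa using h1
  choose p hp hpe using fun v => mem_image.1 (hm v)
  have h1 : ∀ v, p (p v) ≠ v := fun v h => by
    have h2 : e (p v) = e v := by rw [← hpe, ← hpe, h, Sym2.eq_swap]
    exact hl v (by simpa only [he h2] using hp v)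
  refine ⟨p, fun u u' h => ?_, hp, h1⟩
  by_contra hne
  have h2 : ({u, u'} : Finset V) = N (p u) := by
    refine eq_of_subset_of_card_le (fun x hx => ?_) (by rw [hc, card_pair hne])
    rcases mem_insert.1 hx with rfl | hx
    · exact hs _ _ (hp x)
    · rw [mem_singleton.1 hx, h]
      exact hs _ _ (hp u')
  have h3 := hp (p u)
  rw [← h2] at h3
  rcases mem_insert.1 h3 with h4 | h4
  · exact h1 u h4
  · rw [h] at h4
    exact h1 u' (mem_singleton.1 h4)

private theorem nbr_GStr {V : Type} [Fintype V] [DecidableEq V] (G : SimpleGraph V)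
    [DecidableRel G.Adj] (S : Str V) (ha : ∀ u v, G.Adj u v ↔ ∃ i, S.step u i = v) (u : V) :
    G.neighborFinset u = univ.image (S.step u) := by
  ext v
  simp [ha]

variable {V : Type} [Fintype V] [DecidableEq V] (G : SimpleGraph V) [DecidableRel G.Adj]

/-- orienting the 2-factor -/
theorem exists_str (h : G.IsRegularOfDegree 3) (μ : V → V) (hμ : ∀ v, μ (μ v) = v)
    (ha : ∀ v, G.Adj v (μ v)) :
    ∃ S : Str V, (∀ u, Function.Injective (S.step u)) ∧
      ∀ u v, G.Adj u v ↔ ∃ i, S.step u i = v := by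
  obtain ⟨p, hp, hN, hpp⟩ := orient_GStr (fun v => (G.neighborFinset v).erase (μ v))
    (fun v => by
      rw [card_erase_of_mem ((G.mem_neighborFinset _ _).2 (ha v)), G.card_neighborFinset_eq_degree,
        h.degree_eq v])
    (fun v w hw => by
      rw [mem_erase, SimpleGraph.mem_neighborFinset] at hw ⊢
      exact ⟨fun e => hw.1 (by rw [e, hμ]), hw.2.symm⟩)
    (fun v hv => G.irrefl ((G.mem_neighborFinset _ _).1 (mem_of_mem_erase hv)))
  obtain ⟨π, hπ⟩ : ∃ π : Equiv.Perm V, ∀ v, π v = p v :=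
    ⟨Equiv.ofBijective p (Finite.injective_iff_bijective.1 hp), fun _ => rfl⟩
  simp only [← hπ, mem_erase, SimpleGraph.mem_neighborFinset] at hN hpp
  have h1 : ∀ u, π (π⁻¹ u) = u := fun u => π.apply_symm_apply u
  have h2 : ∀ u, π⁻¹ u ≠ μ u := fun u e => (hN (π⁻¹ u)).1 (by rw [h1, e, hμ])
  have h3 : ∀ u, π⁻¹ u ≠ π u := fun u e => hpp u (by rw [← e, h1])
  have h4 : ∀ u, G.Adj u (π⁻¹ u) := fun u => by
    have h5 := (hN (π⁻¹ u)).2
    rw [h1] at h5
    exact h5.symm
  have hi : ∀ u, Function.Injective ((⟨π, μ, hμ⟩ : Str V).step u) := by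
    intro u i j hij
    fin_cases i <;> fin_cases j
    · rfl
    · exact absurd hij.symm (hN u).1
    · exact absurd hij.symm (h2 u)
    · exact absurd hij (hN u).1
    · rfl
    · exact absurd hij.symm (h3 u)
    · exact absurd hij (h2 u)
    · exact absurd hij (h3 u)
    · rfl
  refine ⟨⟨π, μ, hμ⟩, hi, fun u v => ?_⟩
  have h5 : univ.image ((⟨π, μ, hμ⟩ : Str V).step u) = G.neighborFinset u := by
    refine eq_of_subset_of_card_le (fun x hx => ?_) ?_
    · obtain ⟨i, -, rfl⟩ := mem_image.1 hx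
      rw [SimpleGraph.mem_neighborFinset]
      fin_cases i
      · exact ha u
      · exact (hN u).2
      · exact h4 u
    · rw [card_image_of_injective _ (hi u), G.card_neighborFinset_eq_degree, h.degree_eq u]
      simp
  rw [← SimpleGraph.mem_neighborFinset, ← h5]
  simp

theorem b_eq_inter (S : Str V) (hi : ∀ u, Function.Injective (S.step u))
    (ha : ∀ u v, G.Adj u v ↔ ∃ i, S.step u i = v) (X : Finset V) :
    S.b X = 2 * (G.interedges X Xᶜ).card := by
  rw [S.b_eq]
  congr 1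
  refine card_bij (fun d _ => (d.1, S.hd d)) (fun d hd => ?_) (fun d _ d' _ h => ?_) fun x hx => ?_
  · obtain ⟨h1, h2⟩ := S.mem_out.1 hd
    exact G.mem_interedges_iff.2 ⟨h1, mem_compl.2 h2, (ha _ _).2 ⟨d.2, rfl⟩⟩
  · obtain ⟨u, i⟩ := d
    obtain ⟨u', j⟩ := d'
    obtain ⟨h1, h2⟩ := Prod.ext_iff.1 h
    obtain rfl : u = u' := h1
    exact Prod.ext rfl (hi u h2)
  · obtain ⟨h1, h2, h3⟩ := G.mem_interedges_iff.1 hx
    obtain ⟨i, h4⟩ := (ha _ _).1 h3
    have h5 : S.hd (x.1, i) = x.2 := h4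
    exact ⟨(x.1, i), S.mem_out.2 ⟨h1, by rw [h5]; exact mem_compl.1 h2⟩, Prod.ext rfl h5⟩

omit [DecidableEq V] in
theorem flow_transfer (S : Str V) (hi : ∀ u, Function.Injective (S.step u))
    (ha : ∀ u v, G.Adj u v ↔ ∃ i, S.step u i = v) (P : ℤ → Prop) (f : Dt V → ℤ)
    (h1 : ∀ d, f (S.rv d) = -f d) (h2 : ∀ d, P (f d)) (h3 : ∀ v, ∑ i, f (v, i) = 0) :
    ∃ g : V → V → ℤ, (∀ u v, g v u = -g u v) ∧ (∀ u v, G.Adj u v → P (g u v)) ∧
      ∀ u, ∑ v ∈ G.neighborFinset u, g u v = 0 := by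
  classical
  obtain ⟨g, hg, hg0⟩ : ∃ g : V → V → ℤ, (∀ u i, g u (S.step u i) = f (u, i)) ∧
      ∀ u v, ¬ G.Adj u v → g u v = 0 := by
    refine ⟨fun u v => ∑ i, if S.step u i = v then f (u, i) else 0, fun u i => ?_,
      fun u v h => sum_eq_zero fun i _ => if_neg fun e => h ((ha u v).2 ⟨i, e⟩)⟩
    simp only [(hi u).eq_iff, sum_ite_eq', mem_univ, if_true]
  refine ⟨g, fun u v => ?_, fun u v h => ?_, fun u => ?_⟩
  · by_cases h : G.Adj u v
    · obtain ⟨i, rfl⟩ := (ha u v).1 h
      have h4 := hg (S.step u i) (rd i)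
      rw [S.step_step] at h4
      rw [h4, hg]
      exact h1 (u, i)
    · rw [hg0 u v h, hg0 v u fun e => h e.symm, neg_zero]
  · obtain ⟨i, rfl⟩ := (ha u v).1 h
    rw [hg]
    exact h2 _
  · rw [nbr_GStr G S ha u, sum_image fun i _ j _ e => hi u e]
    simp only [hg]
    exact h3 u

end Pool.Agent.MP_9a3194_co

end
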