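import Pool.Agent.Mg.F9a3194.G505f3a
import Pool.Agent.MP_3fd310_co.GHaxell
import Pool.Agent.MP_ee574f_co.LLL

section

open Finset
open scoped symmDiff

namespace Pool.Agent.MP_9a3194_co

theorem length_dirs (w : List Bool) : (dirs w).length = w.length + 1 := by
  induction w with
  | nil => rfl
  | cons β w ih => rw [dirs, List.length_append, ih]; rfl

private theorem last_dirs_Words (w : List Bool) : (dirs w).getLast? = some (dir w) := by
  cases w with
  | nil => rfl
  | cons β w => rw [dirs, dir, List.getLast?_append]; rfl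

private theorem head_dirs_Words (w : List Bool) : ∃ t, dirs w = 0 :: t := by
  induction w with
  | nil => exact ⟨[], rfl⟩
  | cons β w ih =>
    obtain ⟨t, ht⟩ := ih
    exact ⟨t ++ [kid (dir w) β], by rw [dirs, ht]; rfl⟩

private theorem kid_ne_Words (d : Fin 3) (β : Bool) : kid d β ≠ rd d := by
  revert d β
  decide

private theorem kid_inj_Words (d : Fin 3) (β β' : Bool) (h : kid d β = kid d β') : β = β' := by
  revert d β β'
  decide

theorem red_dirs (w : List Bool) : Red (dirs w) := by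
  induction w with
  | nil => exact List.isChain_singleton _
  | cons β w ih =>
    rw [dirs]
    refine List.isChain_append.2 ⟨ih, List.isChain_singleton _, fun x hx y hy => ?_⟩
    rw [last_dirs_Words] at hx
    obtain rfl : dir w = x := Option.some.inj hx
    obtain rfl : kid (dir w) β = y := Option.some.inj hy
    exact kid_ne_Words _ _

private theorem dirs_inj_Words {w w' : List Bool} (h : dirs w = dirs w') : w = w' := by
  induction w generalizing w' with
  | nil =>
    have := congrArg List.length h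
    rw [length_dirs, length_dirs] at this
    exact (List.length_eq_zero_iff.1 (by simpa using this.symm)).symm
  | cons β w ih =>
    cases w' with
    | nil =>
      have := congrArg List.length h
      rw [length_dirs, length_dirs] at this
      simp at this
    | cons β' w' =>
      rw [dirs, dirs] at h
      obtain ⟨h1, h2⟩ := List.append_inj' h rfl
      obtain rfl := ih h1
      rw [kid_inj_Words _ _ _ (List.singleton_inj.1 h2)]

private theorem rep_dirs_inj_Words {i i' : ℕ} {w w' : List Bool}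
    (h : List.replicate i (1 : Fin 3) ++ dirs w = List.replicate i' 1 ++ dirs w') :
    i = i' ∧ w = w' := by
  induction i generalizing i' with
  | zero =>
    cases i' with
    | zero => exact ⟨rfl, dirs_inj_Words h⟩
    | succ i' =>
      obtain ⟨t, ht⟩ := head_dirs_Words w
      rw [ht, List.replicate_succ] at h
      exact absurd (List.cons.inj h).1 (by decide)
  | succ i ih =>
    cases i' with
    | zero =>
      obtain ⟨t, ht⟩ := head_dirs_Words w'
      rw [ht, List.replicate_succ] at h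
      exact absurd (List.cons.inj h).1 (by decide)
    | succ i' =>
      rw [List.replicate_succ, List.replicate_succ] at h
      obtain ⟨h1, h2⟩ := ih (List.cons.inj h).2
      exact ⟨by rw [h1], h2⟩

private theorem red_rep_Words (i : ℕ) : Red (List.replicate i 1) := by
  induction i with
  | zero => exact List.isChain_nil
  | succ i ih =>
    cases i with
    | zero => exact List.isChain_singleton _
    | succ i =>
      rw [List.replicate_succ, List.replicate_succ]
      rw [List.replicate_succ] at ih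
      exact List.isChain_cons_cons.2 ⟨by decide, ih⟩

private theorem red_rep_dirs_Words (i : ℕ) (w : List Bool) :
    Red (List.replicate i 1 ++ dirs w) := by
  refine List.isChain_append.2 ⟨red_rep_Words i, red_dirs w, fun x hx y hy => ?_⟩
  obtain ⟨t, ht⟩ := head_dirs_Words w
  rw [ht] at hy
  obtain rfl : 0 = y := Option.some.inj hy
  rw [List.eq_of_mem_replicate (List.mem_of_mem_getLast? hx)]
  decide

private theorem last_rep_dirs_Words (i : ℕ) (w : List Bool) :
    (List.replicate i (1 : Fin 3) ++ dirs w).getLast? = some (dir w) := by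
  rw [List.getLast?_append, last_dirs_Words]
  rfl

private theorem red_rep_dirs_rep_Words (i n : ℕ) {w : List Bool} (hw : dir w = 0) :
    Red (List.replicate i 1 ++ dirs w ++ List.replicate n 1) := by
  refine List.isChain_append.2 ⟨red_rep_dirs_Words i w, red_rep_Words n, fun x hx y hy => ?_⟩
  rw [last_rep_dirs_Words, hw] at hx
  obtain rfl : 0 = x := Option.some.inj hx
  rw [List.eq_of_mem_replicate (List.mem_of_mem_head? hy)]
  decide

private theorem red_rev_Words {u : List (Fin 3)} (h : Red u) : Red (u.reverse.map rd) := by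
  unfold Red at *
  rw [List.isChain_map, List.isChain_reverse]
  refine h.imp fun a b hab he => hab ?_
  rw [rd_rd] at he
  exact he.symm

namespace Str

variable {V : Type} {S : Str V} {c : ℕ}

theorem act_append (v : V) (u w : List (Fin 3)) : S.act v (u ++ w) = S.act (S.act v u) w := by
  induction u generalizing v with
  | nil => rfl
  | cons d u ih => exact ih _

theorem act_rep_one (v : V) (i : ℕ) : S.act v (List.replicate i 1) = (S.π ^ i) v := by
  induction i generalizing v with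
  | zero => rfl
  | succ i ih => rw [List.replicate_succ, act, ih, pow_succ]; rfl

theorem act_rep_two (v : V) (i : ℕ) : S.act v (List.replicate i 2) = (S.π⁻¹ ^ i) v := by
  induction i generalizing v with
  | zero => rfl
  | succ i ih => rw [List.replicate_succ, act, ih, pow_succ]; rfl

theorem act_dirs (a : V) (w : List Bool) : S.act a (dirs w) = S.tip a w := by
  induction w with
  | nil => rfl
  | cons β w ih =>
    rw [dirs, act_append, ih, ← S.dart_snd a w]
    rfl

theorem act_rev (v : V) (u : List (Fin 3)) : S.act (S.act v u) (u.reverse.map rd) = v := by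
  induction u generalizing v with
  | nil => rfl
  | cons d u ih =>
    rw [List.reverse_cons, List.map_append, act_append, act, ih]
    exact S.step_step v d

theorem tip_left_inj (w : List Bool) : Function.Injective fun a => S.tip a w := by
  intro a a' h
  have h' : S.tip a w = S.tip a' w := h
  rw [← act_rev (S := S) a (dirs w), act_dirs, h', ← act_dirs, act_rev]

/-- short reduced walks with the same ends are equal -/
theorem Gir.uq (h : S.Gir c) {v : V} {u u' : List (Fin 3)} (hu : Red u) (hu' : Red u')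
    (he : S.act v u = S.act v u') (hl : u.length + u'.length < c) : u = u' := by
  induction u generalizing v u' with
  | nil =>
    by_contra hne
    exact h v u' hu' (Ne.symm hne) (by omega) he.symm
  | cons d u ih =>
    cases u' with
    | nil => exact absurd he (h v _ hu (List.cons_ne_nil _ _) (by omega))
    | cons d' u' =>
      by_cases hd : d = d'
      · subst hd
        rw [ih (v := S.step v d) (u' := u') hu.tail hu'.tail he
          (by simp only [List.length_cons] at hl; omega)]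
      · exfalso
        refine h (S.act v (d' :: u')) ((d' :: u').reverse.map rd ++ d :: u) ?_ (by simp)
          (by simp only [List.length_append, List.length_map, List.length_reverse]; omega) ?_
        · refine List.isChain_append.2 ⟨red_rev_Words hu', hu, fun x hx y hy => ?_⟩
          obtain rfl : d = y := Option.some.inj hy
          rw [List.reverse_cons, List.map_append, List.getLast?_append] at hx
          obtain rfl : rd d' = x := Option.some.inj hx
          rwa [rd_rd]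
        · rw [act_append, act_rev, he]

theorem Gir.pow_inj (h : S.Gir c) {v : V} {i j : ℕ} (hi : i < c) (hj : j < c)
    (he : (S.π ^ i) v = (S.π ^ j) v) : i = j := by
  wlog hij : i ≤ j generalizing i j
  · exact (this hj hi he.symm (by omega)).symm
  obtain ⟨n, rfl⟩ := Nat.exists_eq_add_of_le hij
  by_contra hne
  refine h ((S.π ^ i) v) (List.replicate n 1) (red_rep_Words n) ?_
    (by rw [List.length_replicate]; omega) ?_
  · intro h0
    have := congrArg List.length h0
    rw [List.length_replicate, List.length_nil] at this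
    omega
  · rw [act_rep_one, ← Equiv.Perm.mul_apply, ← pow_add, add_comm, ← he]

private theorem act_rep_dirs_Words (v : V) (i : ℕ) (w : List Bool) :
    S.act v (List.replicate i 1 ++ dirs w) = S.tip ((S.π ^ i) v) w := by
  rw [act_append, act_rep_one, act_dirs]

private theorem act_rep_dirs_rep_Words (v : V) (i n : ℕ) (w : List Bool) :
    S.act v (List.replicate i 1 ++ dirs w ++ List.replicate n 1) =
      (S.π ^ n) (S.tip ((S.π ^ i) v) w) := by
  rw [act_append, act_rep_dirs_Words, act_rep_one]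

theorem Gir.tip_inj (h : S.Gir c) {v : V} {i i' : ℕ} {w w' : List Bool}
    (hl : i + w.length + 1 + (i' + w'.length + 1) < c)
    (he : S.tip ((S.π ^ i) v) w = S.tip ((S.π ^ i') v) w') : i = i' ∧ w = w' := by
  refine rep_dirs_inj_Words (h.uq (v := v) (red_rep_dirs_Words i w) (red_rep_dirs_Words i' w')
    (by rw [act_rep_dirs_Words, act_rep_dirs_Words, he]) ?_)
  simp only [List.length_append, List.length_replicate, length_dirs]
  omega

theorem Gir.tip_ne_pow (h : S.Gir c) {v : V} {i j : ℕ} {w : List Bool}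
    (hl : i + w.length + 1 + j < c) : S.tip ((S.π ^ i) v) w ≠ (S.π ^ j) v := by
  intro he
  have h1 := h.uq (v := v) (red_rep_dirs_Words i w) (red_rep_Words j)
    (by rw [act_rep_dirs_Words, act_rep_one, he])
    (by simp only [List.length_append, List.length_replicate, length_dirs]; omega)
  obtain ⟨t, ht⟩ := head_dirs_Words w
  have h2 : (0 : Fin 3) ∈ List.replicate j (1 : Fin 3) := by
    rw [← h1, ht]
    simp
  exact absurd (List.eq_of_mem_replicate h2) (by decide)

theorem Gir.pow_tip_inj (h : S.Gir c) {v : V} {n i i' : ℕ} {w w' : List Bool} (hw : dir w = 0)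
    (hw' : dir w' = 0) (hl : n + i + w.length + 1 + (i' + w'.length + 1) < c)
    (he : (S.π ^ n) (S.tip ((S.π ^ i) v) w) = S.tip ((S.π ^ i') v) w') : i = i' ∧ w = w' := by
  have h1 := h.uq (v := v) (red_rep_dirs_rep_Words i n hw) (red_rep_dirs_Words i' w')
    (by rw [act_rep_dirs_rep_Words, act_rep_dirs_Words, he])
    (by simp only [List.length_append, List.length_replicate, length_dirs]; omega)
  cases n with
  | zero =>
    rw [List.replicate_zero, List.append_nil] at h1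
    exact rep_dirs_inj_Words h1
  | succ n =>
    exfalso
    have h2 := congrArg List.getLast? h1
    rw [last_rep_dirs_Words, hw', List.replicate_succ', ← List.append_assoc,
      List.getLast?_append] at h2
    exact absurd (Option.some.inj h2) (by decide)

theorem Gir.pow_tip_ne (h : S.Gir c) {v : V} {n i j : ℕ} {w : List Bool} (hw : dir w = 0)
    (hl : n + i + w.length + 1 + j < c) :
    (S.π ^ n) (S.tip ((S.π ^ i) v) w) ≠ (S.π ^ j) v := by
  intro he
  have h1 := h.uq (v := v) (red_rep_dirs_rep_Words i n hw) (red_rep_Words j)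
    (by rw [act_rep_dirs_rep_Words, act_rep_one, he])
    (by simp only [List.length_append, List.length_replicate, length_dirs]; omega)
  obtain ⟨t, ht⟩ := head_dirs_Words w
  have h2 : (0 : Fin 3) ∈ List.replicate j (1 : Fin 3) := by
    rw [← h1, ht]
    simp
  exact absurd (List.eq_of_mem_replicate h2) (by decide)

theorem Gir.mu_ne (h : S.Gir c) (hc : 1 < c) (v : V) : S.μ v ≠ v :=
  h v [0] (List.isChain_singleton _) (List.cons_ne_nil _ _) hc

private theorem act_take_succ_Words (v : V) (w : List (Fin 3)) (i : ℕ) (hi : i < w.length) :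
    S.act v (w.take (i + 1)) = S.step (S.act v (w.take i)) w[i] := by
  rw [List.take_succ_eq_append_getElem hi, act_append]
  rfl

/-- the isoperimetric inequality forces large girth -/
theorem Iso.gir [Fintype V] [DecidableEq V] (h : S.Iso (c + 1)) (hV : 2 * c ≤ Fintype.card V) :
    S.Gir c := by
  intro v w hr hne hl hc
  have hL : 0 < w.length := List.length_pos_iff.2 hne
  set X : Finset V := (range w.length).image fun i => S.act v (w.take i) with hX
  have hmem : ∀ i ≤ w.length, S.act v (w.take i) ∈ X := by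
    intro i hi
    rcases hi.eq_or_lt with rfl | hi
    · rw [List.take_length, hc]
      exact mem_image.2 ⟨0, mem_range.2 hL, rfl⟩
    · exact mem_image.2 ⟨i, mem_range.2 hi, rfl⟩
  have hv : v ∈ X := hmem 0 (Nat.zero_le _)
  have hcard : X.card ≤ w.length := card_image_le.trans_eq (card_range _)
  have hco : Xᶜ.card = Fintype.card V - X.card := card_compl X
  have h1 := h X ⟨v, hv⟩ (card_pos.1 (by omega))
  rw [b_eq] at h1
  have h2 : X.card + 2 ≤ (S.out X).card := by omega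
  have h3 : (S.out X).card = ∑ u ∈ X, ((S.out X).filter fun d => d.1 = u).card :=
    card_eq_sum_card_fiberwise fun d hd => (S.mem_out.1 hd).1
  have h4 : ∀ u (D : Finset (Fin 3)), (∀ e ∈ D, S.step u e ∈ X) →
      ((S.out X).filter fun d => d.1 = u).card + D.card ≤ 3 := by
    intro u D hD
    have h5 : ((S.out X).filter fun d => d.1 = u).card ≤ Dᶜ.card := by
      refine card_le_card_of_injOn Prod.snd (fun d hd => ?_) fun d hd d' hd' he => ?_
      · obtain ⟨hd1, rfl⟩ := mem_filter.1 hd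
        exact mem_compl.2 fun hm => (S.mem_out.1 hd1).2 (hD _ hm)
      · exact Prod.ext ((mem_filter.1 hd).2.trans (mem_filter.1 hd').2.symm) he
    have h6 := card_add_card_compl D
    rw [Fintype.card_fin] at h6
    omega
  have h5 : ∀ u ∈ X, ((S.out X).filter fun d => d.1 = u).card ≤ 1 + if u = v then 1 else 0 := by
    intro u hu
    obtain ⟨i, hi, rfl⟩ := mem_image.1 hu
    have hi' := mem_range.1 hi
    have h6 : S.step (S.act v (w.take i)) w[i] ∈ X := by
      rw [← act_take_succ_Words]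
      exact hmem _ hi'
    cases i with
    | zero =>
      have h7 := h4 _ {w[0]} fun e he => by rw [mem_singleton.1 he]; exact h6
      rw [card_singleton] at h7
      rw [if_pos (show S.act v (w.take 0) = v from rfl)]
      omega
    | succ i =>
      have h7 : S.step (S.act v (w.take (i + 1))) (rd w[i]) ∈ X := by
        rw [act_take_succ_Words v w i (by omega), step_step]
        exact hmem _ (by omega)
      have h8 : w[i + 1] ≠ rd w[i] := List.isChain_iff_getElem.1 hr i hi'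
      have h9 := h4 _ {w[i + 1], rd w[i]} fun e he => by
        rcases mem_insert.1 he with rfl | he
        · exact h6
        · rw [mem_singleton.1 he]
          exact h7
      rw [card_pair h8] at h9
      omega
  have h6 := sum_le_sum h5
  rw [← h3, sum_add_distrib, sum_const, smul_eq_mul, mul_one, sum_ite_eq', if_pos hv] at h6
  omega

end Str

end Pool.Agent.MP_9a3194_co

end

section

open Finset
open scoped symmDiff

namespace Pool.Agent.MP_9a3194_co

namespace Str

variable {V : Type} {S : Str V}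

theorem Near.refl (ρ : ℕ) (u : V) : S.Near ρ u u := ⟨[], Nat.zero_le _, rfl⟩

theorem Near.symm {ρ : ℕ} {u v : V} (h : S.Near ρ u v) : S.Near ρ v u := by
  obtain ⟨w, hw, rfl⟩ := h
  exact ⟨w.reverse.map rd, by simpa using hw, act_rev u w⟩

theorem Near.trans {ρ ρ' : ℕ} {u v x : V} (h : S.Near ρ u v) (h' : S.Near ρ' v x) :
    S.Near (ρ + ρ') u x := by
  obtain ⟨w, hw, rfl⟩ := h
  obtain ⟨w', hw', rfl⟩ := h'
  exact ⟨w ++ w', by rw [List.length_append]; omega, act_append u w w'⟩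

theorem Near.mono {ρ ρ' : ℕ} {u v : V} (h : S.Near ρ u v) (hρ : ρ ≤ ρ') : S.Near ρ' u v := by
  obtain ⟨w, hw, e⟩ := h
  exact ⟨w, hw.trans hρ, e⟩

theorem near_pow_Ball (v : V) {i j n : ℕ} (hi : i ≤ j) (hj : j ≤ i + n) :
    S.Near n ((S.π ^ i) v) ((S.π ^ j) v) := by
  refine ⟨List.replicate (j - i) 1, by rw [List.length_replicate]; omega, ?_⟩
  rw [act_rep_one, ← Equiv.Perm.mul_apply, ← pow_add, Nat.sub_add_cancel hi]

theorem near_pow (v : V) {i j n : ℕ} (hi : i ≤ j + n) (hj : j ≤ i + n) :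
    S.Near n ((S.π ^ i) v) ((S.π ^ j) v) := by
  rcases le_total i j with h | h
  · exact near_pow_Ball v h hj
  · exact (near_pow_Ball v h hi).symm

theorem near_tip (a : V) (w : List Bool) : S.Near (w.length + 1) a (S.tip a w) :=
  ⟨dirs w, (length_dirs w).le, act_dirs a w⟩

theorem near_Om [DecidableEq V] {r : ℕ} {g v : V} (h : v ∈ S.Om r g) :
    ∃ i < 10, S.Near (r + 1) ((S.π ^ i) g) v := by
  obtain ⟨i, hi, rfl | ⟨w, hw, rfl⟩⟩ := S.mem_Om.1 h
  · exact ⟨i, hi, Near.refl _ _⟩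
  · exact ⟨i, hi, (near_tip _ w).mono (by omega)⟩

theorem card_near {ρ : ℕ} {u : V} {s : Finset V} (h : ∀ v ∈ s, S.Near ρ u v) :
    s.card ≤ 4 ^ ρ := by
  classical
  induction ρ generalizing u s with
  | zero =>
    rw [pow_zero]
    refine card_le_one.2 fun a ha b hb => ?_
    obtain ⟨w, hw, rfl⟩ := h a ha
    obtain ⟨w', hw', rfl⟩ := h b hb
    rw [List.length_eq_zero_iff.1 (Nat.le_zero.1 hw), List.length_eq_zero_iff.1 (Nat.le_zero.1 hw')]
  | succ ρ ih =>
    have h1 : s ⊆ insert u (univ.biUnion fun d : Fin 3 =>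
        s.filter fun v => S.Near ρ (S.step u d) v) := by
      intro v hv
      obtain ⟨w, hw, e⟩ := h v hv
      cases w with
      | nil => exact mem_insert.2 (Or.inl e.symm)
      | cons d w =>
        refine mem_insert_of_mem (mem_biUnion.2 ⟨d, mem_univ _, mem_filter.2 ⟨hv, w, ?_, e⟩⟩)
        simpa using hw
    have h2 : (univ.biUnion fun d : Fin 3 =>
        s.filter fun v => S.Near ρ (S.step u d) v).card ≤ 3 * 4 ^ ρ := by
      refine (card_biUnion_le_card_mul _ _ (4 ^ ρ) fun d _ =>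
        ih fun v hv => (mem_filter.1 hv).2).trans_eq ?_
      rw [card_univ, Fintype.card_fin]
    have h3 := (card_le_card h1).trans (card_insert_le _ _)
    have h4 : 0 < 4 ^ ρ := by positivity
    rw [pow_succ]
    omega

theorem TN.symm {κ κ' ρ : ℕ} {x x' : V} (h : S.TN κ κ' ρ x x') : S.TN κ' κ ρ x' x := by
  obtain ⟨i, hi, j, hj, h⟩ := h
  exact ⟨j, hj, i, hi, h.symm⟩

theorem card_TN {κ κ' ρ : ℕ} {x : V} {s : Finset V} (h : ∀ x' ∈ s, S.TN κ κ' ρ x x') :
    s.card ≤ κ * κ' * 4 ^ ρ := by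
  classical
  have h1 : s ⊆ (range κ ×ˢ range κ').biUnion fun p =>
      s.filter fun x' => S.Near ρ ((S.π ^ p.1) x) ((S.π ^ p.2) x') := by
    intro x' hx'
    obtain ⟨i, hi, j, hj, hn⟩ := h x' hx'
    exact mem_biUnion.2 ⟨(i, j), mem_product.2 ⟨mem_range.2 hi, mem_range.2 hj⟩,
      mem_filter.2 ⟨hx', hn⟩⟩
  refine (card_le_card h1).trans
    ((card_biUnion_le_card_mul _ _ (4 ^ ρ) fun p _ => ?_).trans_eq ?_)
  · rw [← card_image_of_injective _ (S.π ^ p.2).injective]
    refine card_near (S := S) (u := (S.π ^ p.1) x) fun v hv => ?_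
    obtain ⟨x', hx', rfl⟩ := mem_image.1 hv
    exact (mem_filter.1 hx').2
  · rw [card_product, card_range, card_range]

/-- far apart arcs carry disjoint trees -/
theorem hinj_tube [DecidableEq V] {c κ ρ : ℕ} (hG : S.Gir c) (hc : 2 * (κ + ρ + 1) < c)
    {J : Finset V} (hJ : ∀ x ∈ J, ∀ x' ∈ J, x ≠ x' → ¬ S.TN κ κ (2 * ρ + 2) x x') :
    S.HInj (S.tube J κ) ρ ∧ ∀ x ∈ J, ∀ x' ∈ J, ∀ i < κ, ∀ j < κ,
      (S.π ^ i) x = (S.π ^ j) x' → x = x' ∧ i = j := by
  refine ⟨⟨fun a ha a' ha' w w' hw hw' he => ?_, fun a ha w hw hm => ?_⟩,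
    fun x hx x' hx' i hi j hj he => ?_⟩
  · obtain ⟨x, hx, i, hi, rfl⟩ := S.mem_tube.1 ha
    obtain ⟨x', hx', j, hj, rfl⟩ := S.mem_tube.1 ha'
    by_cases hxx : x = x'
    · subst hxx
      obtain ⟨h1, h2⟩ := hG.tip_inj (by omega) he
      exact ⟨by rw [h1], h2⟩
    · refine (hJ x hx x' hx' hxx ⟨i, hi, j, hj, ?_⟩).elim
      have h1 := near_tip (S := S) ((S.π ^ i) x) w
      rw [he] at h1
      exact (h1.trans (near_tip _ w').symm).mono (by omega)
  · obtain ⟨x, hx, i, hi, rfl⟩ := S.mem_tube.1 ha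
    obtain ⟨x', hx', j, hj, he⟩ := S.mem_tube.1 hm
    by_cases hxx : x = x'
    · subst hxx
      exact hG.tip_ne_pow (by omega) he.symm
    · refine hJ x hx x' hx' hxx ⟨i, hi, j, hj, ?_⟩
      rw [he]
      exact (near_tip _ w).mono (by omega)
  · by_cases hxx : x = x'
    · subst hxx
      exact ⟨rfl, hG.pow_inj (by omega) (by omega) he⟩
    · refine (hJ x hx x' hx' hxx ⟨i, hi, j, hj, ?_⟩).elim
      rw [he]
      exact Near.refl _ _

theorem window_Ball {c W ρ R a : ℕ} (hG : S.Gir c) (hc : a + 10 * W * 4 ^ ρ < c)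
    (hρ : 2 * ρ + 10 ≤ 2 * R + 2) {J : Finset V}
    (hJ : ∀ x ∈ J, ∀ x' ∈ J, x ≠ x' → ¬ S.TN W W (2 * R + 2) x x') (v : V) :
    ∃ s ≤ 10 * W * 4 ^ ρ, ∀ x ∈ J, ¬ S.TN 10 W ρ ((S.π ^ (a + s)) v) x := by
  classical
  by_contra hcon
  push Not at hcon
  obtain ⟨x₀, hx₀, h₀⟩ := hcon 0 (Nat.zero_le _)
  have h1 : ∀ s ≤ 10 * W * 4 ^ ρ, S.TN 10 W ρ ((S.π ^ (a + s)) v) x₀ := by
    intro s
    induction s with
    | zero => exact fun _ => h₀
    | succ s ih =>
      intro hs
      obtain ⟨x, hx, h⟩ := hcon (s + 1) hs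
      by_cases hxx : x₀ = x
      · rwa [hxx]
      · obtain ⟨i, hi, j, hj, hn⟩ := ih (by omega)
        obtain ⟨i', hi', j', hj', hn'⟩ := h
        rw [← Equiv.Perm.mul_apply, ← pow_add] at hn hn'
        refine (hJ x₀ hx₀ x hx hxx ⟨j, hj, j', hj', ?_⟩).elim
        exact ((hn.symm.trans (near_pow (n := 10) v (by omega) (by omega))).trans hn').mono
          (by omega)
  have h2 : ((range (10 * W * 4 ^ ρ + 1)).image fun s => (S.π ^ (a + s)) v).card ≤
      W * 10 * 4 ^ ρ := by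
    refine card_TN (S := S) (x := x₀) fun y hy => ?_
    obtain ⟨s, hs, rfl⟩ := mem_image.1 hy
    exact (h1 s (Nat.lt_succ_iff.1 (mem_range.1 hs))).symm
  rw [card_image_of_injOn, card_range, mul_comm W 10] at h2
  · omega
  · intro s hs s' hs' he
    have h3 := mem_range.1 (mem_coe.1 hs)
    have h4 := mem_range.1 (mem_coe.1 hs')
    have := hG.pow_inj (by omega) (by omega) he
    omega

/-- every long arc has many places far from a sparse family of arcs -/
theorem free {c W ρ R M : ℕ} (hG : S.Gir c) (hc : M * (10 * W * 4 ^ ρ + 11) ≤ c)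
    (hρ : 2 * ρ + 10 ≤ 2 * R + 2) {J : Finset V}
    (hJ : ∀ x ∈ J, ∀ x' ∈ J, x ≠ x' → ¬ S.TN W W (2 * R + 2) x x') (v : V) :
    ∃ T : Finset ℕ, M ≤ T.card ∧ (∀ t ∈ T, t + 10 ≤ M * (10 * W * 4 ^ ρ + 11)) ∧
      (∀ t ∈ T, ∀ t' ∈ T, t < t' → t + 10 ≤ t') ∧
      ∀ t ∈ T, ∀ x ∈ J, ¬ S.TN 10 W ρ ((S.π ^ t) v) x := by
  set N := 10 * W * 4 ^ ρ with hN
  have hstep : ∀ m m' : ℕ, m < m' → m * (N + 11) + (N + 11) ≤ m' * (N + 11) := fun m m' h => by
    rw [← add_one_mul]
    exact Nat.mul_le_mul_right _ h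
  have h1 : ∀ m, ∃ s ≤ N, m < M → ∀ x ∈ J, ¬ S.TN 10 W ρ ((S.π ^ (m * (N + 11) + s)) v) x := by
    intro m
    by_cases hm : m < M
    · have := hstep m M hm
      obtain ⟨s, hs, h⟩ := window_Ball (a := m * (N + 11)) hG (by omega) hρ hJ v
      exact ⟨s, hs, fun _ => h⟩
    · exact ⟨0, Nat.zero_le _, fun h => absurd h hm⟩
  choose s hs h using h1
  have hlt : ∀ m m', m < m' → m * (N + 11) + s m + 10 < m' * (N + 11) + s m' := fun m m' hm => by
    have := hstep m m' hm
    have := hs m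
    omega
  refine ⟨(range M).image fun m => m * (N + 11) + s m, ?_, ?_, ?_, ?_⟩
  · rw [card_image_of_injective, card_range]
    refine StrictMono.injective fun m m' hm => ?_
    have := hlt m m' hm
    omega
  · intro t ht
    obtain ⟨m, hm, rfl⟩ := mem_image.1 ht
    have := hstep m M (mem_range.1 hm)
    have := hs m
    omega
  · intro t ht t' ht' htt
    obtain ⟨m, -, rfl⟩ := mem_image.1 ht
    obtain ⟨m', -, rfl⟩ := mem_image.1 ht'
    rcases lt_trichotomy m m' with hm | rfl | hm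
    · exact (hlt m m' hm).le
    · omega
    · have := hlt m' m hm
      omega
  · intro t ht
    obtain ⟨m, hm, rfl⟩ := mem_image.1 ht
    exact h m (mem_range.1 hm)

end Str

end Pool.Agent.MP_9a3194_co

end

section

open Finset
open scoped symmDiff

namespace Pool.Agent.MP_9a3194_co

namespace Str

variable {V : Type} [Fintype V] [DecidableEq V] {S : Str V}

private theorem pow_add_Hit {V : Type} (π : Equiv.Perm V) (i j : ℕ) (v : V) :
    (π ^ (i + j)) v = (π ^ i) ((π ^ j) v) := by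
  rw [pow_add, Equiv.Perm.mul_apply]

private theorem pow_inv_Hit {V : Type} (π : Equiv.Perm V) (i j : ℕ) (v : V) :
    (π ^ i) ((π⁻¹ ^ (i + j)) v) = (π⁻¹ ^ j) v := by
  rw [pow_add_Hit, inv_pow π i]
  simp

private theorem mark_Hit {c n : ℕ} (hG : S.Gir c) (hc : n ≤ c) (hn : 0 < n) :
    ∃ J : Finset V, S.Mark J n (2 * n) := by
  classical
  obtain ⟨J, hJ, hmax⟩ := exists_max_image
    (univ.filter fun J : Finset V => ∀ x ∈ J, ∀ i, 0 < i → i < n → (S.π ^ i) x ∉ J) card
    ⟨∅, by simp⟩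
  simp only [mem_filter, mem_univ, true_and] at hJ hmax
  refine ⟨J, hJ, fun v => ?_⟩
  by_contra hv
  push Not at hv
  have hu : (S.π⁻¹ ^ n) v ∉ J := hv n (by omega)
  have h1 := hmax (insert ((S.π⁻¹ ^ n) v) J) (by
    intro x hx i hi hin hm
    rcases mem_insert.1 hx with rfl | hx
    · rcases mem_insert.1 hm with hm | hm
      · have := hG.pow_inj (i := i) (j := 0) (by omega) (by omega) hm
        omega
      · obtain ⟨j, rfl⟩ := Nat.exists_eq_add_of_le hin.le
        rw [pow_inv_Hit] at hm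
        exact hv j (by omega) hm
    · rcases mem_insert.1 hm with hm | hm
      · refine hv (i + n) (by omega) ?_
        rw [pow_add_Hit, ← hm, inv_pow]
        simpa using hx
      · exact hJ x hx i hi hin hm)
  rw [card_insert_of_notMem hu] at h1
  omega

/-- conflict free marks with controlled gaps -/
theorem hit {c W Δ : ℕ} (hG : S.Gir c) (hc : 2 * ((2 * Δ + 1) * W) ≤ c) (A : V → Prop)
    (hA : ∀ v, ∃ i < W, A ((S.π ^ i) v)) (conf : V → V → Prop)
    (hs : ∀ x x', conf x x' → conf x' x)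
    (hd : ∀ x, ∀ s : Finset V, (∀ x' ∈ s, conf x x') → s.card ≤ Δ) :
    ∃ J : Finset V, (∀ x ∈ J, A x) ∧ (∀ x ∈ J, ∀ x' ∈ J, x ≠ x' → ¬ conf x x') ∧
      S.Mark J ((2 * Δ + 1) * W) (6 * ((2 * Δ + 1) * W)) := by
  classical
  rcases Nat.eq_zero_or_pos W with rfl | hW
  · refine ⟨∅, by simp, by simp, by simp, fun v => ?_⟩
    obtain ⟨i, hi, -⟩ := hA v
    omega
  obtain ⟨b, hb⟩ : ∃ b, b = (2 * Δ + 1) * W := ⟨_, rfl⟩
  rw [← hb] at hc ⊢
  have hb0 : 0 < b := by rw [hb]; positivity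
  obtain ⟨J0, hJ0⟩ := mark_Hit hG hc (by omega)
  have huq : ∀ x ∈ J0, ∀ x' ∈ J0, ∀ i j, i < 2 * b → j < 2 * b →
      (S.π ^ i) x = (S.π ^ j) x' → x = x' ∧ i = j := by
    intro x hx x' hx' i j hi hj he
    have h1 := hJ0.idx_pow hx hi
    have h2 := hJ0.idx_pow hx' hj
    rw [he] at h1
    exact ⟨h1.2.symm.trans h2.2, h1.1.symm.trans h2.1⟩
  let pt : {p : J0 × Fin b // A ((S.π ^ (p.2 : ℕ)) p.1)} → V :=
    fun p => (S.π ^ (p.1.2 : ℕ)) p.1.1
  have hpt : Function.Injective pt := by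
    intro p q he
    have h1 := huq _ p.1.1.2 _ q.1.1.2 _ _ (by have := p.1.2.2; omega)
      (by have := q.1.2.2; omega) he
    exact Subtype.ext (Prod.ext (Subtype.ext h1.1) (Fin.ext h1.2))
  obtain ⟨T, hT, hTc⟩ := Pool.Agent.MP_3fd310_co.Gen.haxell_stmt J0
    {p : J0 × Fin b // A ((S.π ^ (p.2 : ℕ)) p.1)} (fun p => p.1.1)
    (fun p q => conf (pt p) (pt q)) Δ (fun p q => hs _ _)
    (fun p s h => by
      rw [← card_image_of_injective s hpt]
      refine hd (pt p) _ fun x hx => ?_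
      obtain ⟨q, hq, rfl⟩ := mem_image.1 hx
      exact h q hq)
    (fun x => by
      choose f hf hfA using fun m : Fin (2 * Δ + 1) => hA ((S.π ^ ((m : ℕ) * W)) x)
      have hlt : ∀ m : Fin (2 * Δ + 1), f m + (m : ℕ) * W < b := fun m => by
        have h1 : ((m : ℕ) + 1) * W ≤ (2 * Δ + 1) * W := Nat.mul_le_mul_right _ m.2
        have h2 := hf m
        rw [add_mul, one_mul] at h1
        omega
      refine ⟨univ.image fun m : Fin (2 * Δ + 1) =>
        ⟨(x, ⟨f m + (m : ℕ) * W, hlt m⟩), by rw [pow_add_Hit]; exact hfA m⟩, ?_, ?_⟩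
      · rw [card_image_of_injective]
        · simp
        · intro m m' he
          have h1 : f m + (m : ℕ) * W = f m' + (m' : ℕ) * W :=
            congrArg (fun p : {p : J0 × Fin b // A ((S.π ^ (p.2 : ℕ)) p.1)} => (p.1.2 : ℕ)) he
          have h2 := congrArg (· / W) h1
          simp only [Nat.add_mul_div_right _ _ hW, Nat.div_eq_of_lt (hf m),
            Nat.div_eq_of_lt (hf m'), zero_add] at h2
          exact Fin.ext h2
      · intro p hp
        obtain ⟨m, -, rfl⟩ := mem_image.1 hp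
        rfl)
  refine ⟨univ.image fun x => pt (T x), ?_, ?_, ?_, ?_⟩
  · intro y hy
    obtain ⟨x, -, rfl⟩ := mem_image.1 hy
    exact (T x).2
  · intro y hy y' hy' hne
    obtain ⟨x, -, rfl⟩ := mem_image.1 hy
    obtain ⟨x', -, rfl⟩ := mem_image.1 hy'
    exact hTc x x' fun e => hne (by rw [e])
  · intro y hy j hj hjb hm
    obtain ⟨x, -, rfl⟩ := mem_image.1 hy
    obtain ⟨x', -, he⟩ := mem_image.1 hm
    have h0 := (T x).1.2.2
    have h0' := (T x').1.2.2
    have h1 := huq _ (T x').1.1.2 _ (T x).1.1.2 (T x').1.2 (j + (T x).1.2)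
      (by omega) (by omega)
      (by rw [pow_add_Hit]; exact he)
    have h2 : x' = x := by
      rw [← hT x', ← hT x]
      exact Subtype.ext h1.1
    have h3 := h1.2
    rw [h2] at h3
    omega
  · intro v
    obtain ⟨i, hi, hx⟩ := hJ0.2 ((S.π⁻¹ ^ b) v)
    rw [← pow_add_Hit] at hx
    have h0 := (T ⟨_, hx⟩).1.2.2
    refine ⟨i + b - (T ⟨_, hx⟩).1.2, by omega, mem_image.2 ⟨⟨_, hx⟩, mem_univ _, ?_⟩⟩
    have h1 : ((T ⟨_, hx⟩).1.1 : V) = (S.π⁻¹ ^ (i + b)) v := congrArg Subtype.val (hT ⟨_, hx⟩)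
    have h2 := pow_inv_Hit S.π (T ⟨_, hx⟩).1.2 (i + b - (T ⟨_, hx⟩).1.2) v
    rw [Nat.add_sub_cancel' (by omega)] at h2
    exact (congrArg _ h1).trans h2

end Str

end Pool.Agent.MP_9a3194_co

end

section

open Finset
open scoped symmDiff

namespace Pool.Agent.MP_9a3194_co

open Pool.Agent.MP_ee574f_co

private theorem step_Cnt {ι : Type} [Fintype ι] [DecidableEq ι] (S : Finset ι) (n : ℕ)
    (hS : S.card ≤ n) (P Q : (ι → Bool) → Prop)
    (hP : ∀ ω ω' : ι → Bool, (∀ i ∉ S, ω' i = ω i) → P ω → P ω')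
    (hQ : ∀ ω : ι → Bool, ∃ ω', (∀ i ∉ S, ω' i = ω i) ∧ Q ω') :
    (LLL.cnt (fun ω => ¬ Q ω ∧ P ω) : ℝ) ≤ (1 - 1 / 2 ^ n) * LLL.cnt P := by
  classical
  choose rep hrep hok using hQ
  have h1 : LLL.cnt P ≤ LLL.cnt (fun ω => Q ω ∧ P ω) * 2 ^ S.card := by
    have e : 2 ^ S.card = (univ : Finset (S → Bool)).card := by simp
    unfold LLL.cnt
    rw [e, ← card_product]
    refine card_le_card_of_injOn (fun ω => (rep ω, fun i : S => ω i)) ?_ ?_
    · intro ω hω
      simp only [coe_product, coe_filter, mem_univ, true_and, Set.mem_prod, Set.mem_ofPred_eq,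
        coe_univ, Set.mem_univ, and_true] at hω ⊢
      exact ⟨hok ω, hP ω _ (hrep ω) hω⟩
    · intro u _ v _ h
      simp only [Prod.mk.injEq] at h
      funext i
      by_cases hi : i ∈ S
      · exact congrFun h.2 ⟨i, hi⟩
      · rw [← hrep u i hi, ← hrep v i hi, h.1]
  have h4 : 2 ^ S.card ≤ 2 ^ n := Nat.pow_le_pow_right (by norm_num) hS
  have h5 := h1.trans (Nat.mul_le_mul_left _ h4)
  have h2 := LLL.cnt_split P Q
  have h5' : (LLL.cnt P : ℝ) ≤ LLL.cnt (fun ω => Q ω ∧ P ω) * 2 ^ n := by exact_mod_cast h5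
  have h2' : (LLL.cnt P : ℝ) = LLL.cnt (fun ω => Q ω ∧ P ω) +
      LLL.cnt (fun ω => ¬ Q ω ∧ P ω) := by exact_mod_cast h2
  have hpos : (0 : ℝ) < 2 ^ n := by positivity
  have h6 : 1 / 2 ^ n * (LLL.cnt P : ℝ) ≤ LLL.cnt (fun ω => Q ω ∧ P ω) := by
    rw [one_div, inv_mul_le_iff₀ hpos]
    linarith
  linarith

/-- blocks that can be repaired on private coordinates rarely all fail -/
theorem cnt_blocks {ι α : Type} [Fintype ι] [DecidableEq ι] [DecidableEq α] (T : Finset α)
    (priv : α → Finset ι) (ok : α → (ι → Bool) → Prop) (n : ℕ) (hn : ∀ t ∈ T, (priv t).card ≤ n)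
    (h1 : ∀ s ∈ T, ∀ t ∈ T, s ≠ t → ∀ ω ω' : ι → Bool, (∀ i ∉ priv s, ω i = ω' i) →
      ok t ω → ok t ω')
    (h2 : ∀ t ∈ T, ∀ ω : ι → Bool, ∃ ω', (∀ i ∉ priv t, ω' i = ω i) ∧ ok t ω') :
    (LLL.cnt (fun ω : ι → Bool => ∀ t ∈ T, ¬ ok t ω) : ℝ) ≤
      (1 - 1 / 2 ^ n) ^ T.card * Fintype.card (ι → Bool) := by
  induction T using Finset.induction_on with
  | empty =>
    have := LLL.cnt_mono (P := fun ω : ι → Bool => ∀ t ∈ (∅ : Finset α), ¬ ok t ω)
      (Q := fun _ => True) (fun _ _ => trivial)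
    rw [LLL.cnt_true] at this
    simpa using (by exact_mod_cast this :
      (LLL.cnt (fun ω : ι → Bool => ∀ t ∈ (∅ : Finset α), ¬ ok t ω) : ℝ) ≤
        Fintype.card (ι → Bool))
  | insert s U hs ih =>
    have ih' := ih (fun t ht => hn t (mem_insert_of_mem ht))
      (fun a ha b hb => h1 a (mem_insert_of_mem ha) b (mem_insert_of_mem hb))
      (fun t ht => h2 t (mem_insert_of_mem ht))
    have hstep := step_Cnt (priv s) n (hn s (mem_insert_self _ _))
      (fun ω => ∀ t ∈ U, ¬ ok t ω) (ok s)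
      (fun ω ω' h hω t ht hok => hω t ht (h1 s (mem_insert_self _ _) t (mem_insert_of_mem ht)
        (fun e => hs (e ▸ ht)) ω' ω h hok))
      (h2 s (mem_insert_self _ _))
    have h3 : LLL.cnt (fun ω : ι → Bool => ∀ t ∈ insert s U, ¬ ok t ω) ≤
        LLL.cnt (fun ω => ¬ ok s ω ∧ ∀ t ∈ U, ¬ ok t ω) :=
      LLL.cnt_mono fun ω h => ⟨h s (mem_insert_self _ _), fun t ht => h t (mem_insert_of_mem ht)⟩
    have h3' : (LLL.cnt (fun ω : ι → Bool => ∀ t ∈ insert s U, ¬ ok t ω) : ℝ) ≤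
        LLL.cnt (fun ω => ¬ ok s ω ∧ ∀ t ∈ U, ¬ ok t ω) := by exact_mod_cast h3
    have hc : (0 : ℝ) ≤ 1 - 1 / 2 ^ n := by
      have : (1 : ℝ) / 2 ^ n ≤ 1 := by
        rw [div_le_one (by positivity)]
        exact one_le_pow₀ (by norm_num)
      linarith
    rw [card_insert_of_notMem hs, pow_succ]
    calc _ ≤ _ := h3'
      _ ≤ _ := hstep
      _ ≤ (1 - 1 / 2 ^ n) * ((1 - 1 / 2 ^ n) ^ U.card * Fintype.card (ι → Bool)) :=
          mul_le_mul_of_nonneg_left ih' hc
      _ = _ := by ring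

end Pool.Agent.MP_9a3194_co

end

section

open Finset
open scoped symmDiff

namespace Pool.Agent.MP_9a3194_co

open Pool.Agent.MP_ee574f_co

private def WS_Pat (k : ℕ) : Finset (List Bool) := (range (2 * k)).biUnion Wd

private theorem mem_WS_Pat {k : ℕ} {w : List Bool} : w ∈ WS_Pat k ↔ w.length < 2 * k := by
  simp [WS_Pat, mem_Wd]

private theorem card_WS_Pat (k : ℕ) : (WS_Pat k).card ≤ 4 ^ k := by
  refine card_biUnion_le.trans ?_
  simp only [card_Wd]
  have h := Nat.geomSum_lt (m := 2) (s := range (2 * k)) (n := 2 * k) le_rfl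
    (fun _ h => mem_range.1 h)
  rw [pow_mul] at h
  exact h.le

open Classical in
private noncomputable def GW_Pat (k : ℕ) : Finset (List Bool) :=
  (WS_Pat k).filter fun w => Even w.length ∧ amt k w ≠ 0

private theorem mem_GW_Pat {k : ℕ} {w : List Bool} :
    w ∈ GW_Pat k ↔ w.length < 2 * k ∧ Even w.length ∧ amt k w ≠ 0 := by
  simp [GW_Pat, mem_WS_Pat]

private theorem card_GW_Pat (k : ℕ) : (GW_Pat k).card ≤ 4 ^ k :=
  (card_filter_le _ _).trans (card_WS_Pat k)

private def I8_Pat : Finset ℕ := {0, 1, 3, 4, 5, 6, 8, 9}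

private theorem I8_le_Pat {i : ℕ} (h : i ∈ I8_Pat) : i ≤ 9 := by
  simp only [I8_Pat, mem_insert, mem_singleton] at h
  omega

namespace Str

variable {V : Type} [Fintype V] [DecidableEq V] {S : Str V}

omit [Fintype V] [DecidableEq V] in
private theorem pat_iff_Pat {k : ℕ} {y : V → Bool} {v : V} {t : ℕ} :
    S.Pat k y ((S.π ^ t) v) ↔ ∀ i ∈ I8_Pat, ∀ w ∈ GW_Pat k,
      y (S.tip ((S.π ^ (i + t)) v) w) =
        if i ≤ 4 then !y ((S.π ^ t) v) else y ((S.π ^ t) v) := by
  have e : ∀ i, (S.π ^ i) ((S.π ^ t) v) = (S.π ^ (i + t)) v := fun i => by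
    rw [pow_add, Equiv.Perm.mul_apply]
  constructor
  · rintro ⟨ha, hb⟩ i hi w hw
    obtain ⟨w1, w2, w3⟩ := mem_GW_Pat.1 hw
    split_ifs with h4
    · have hi' : i ∈ ({0, 1, 3, 4} : Finset ℕ) := by
        simp only [I8_Pat, mem_insert, mem_singleton] at hi ⊢
        omega
      have := ha i hi' w w2 w1 w3
      rw [e] at this
      exact Bool.eq_not_iff.2 this
    · have hi' : i ∈ ({5, 6, 8, 9} : Finset ℕ) := by
        simp only [I8_Pat, mem_insert, mem_singleton] at hi ⊢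
        omega
      have := hb i hi' w w2 w1 w3
      rw [e] at this
      revert this
      cases y (S.tip ((S.π ^ (i + t)) v) w) <;> cases y ((S.π ^ t) v) <;> simp
  · intro h
    refine ⟨fun i hi w w2 w1 w3 => ?_, fun i hi w w2 w1 w3 => ?_⟩
    · simp only [mem_insert, mem_singleton] at hi
      have := h i (by simp only [I8_Pat, mem_insert, mem_singleton]; omega) w
        (mem_GW_Pat.2 ⟨w1, w2, w3⟩)
      rw [if_pos (by omega)] at this
      rw [e, this]
      simp
    · simp only [mem_insert, mem_singleton] at hi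
      have := h i (by simp only [I8_Pat, mem_insert, mem_singleton]; omega) w
        (mem_GW_Pat.2 ⟨w1, w2, w3⟩)
      rw [if_neg (by omega)] at this
      rw [e, this]
      simp

omit [Fintype V] [DecidableEq V] in
private theorem pat_congr_Pat {k : ℕ} {J : Finset V} {ω ω' : V → Bool} {v : V} {t : ℕ}
    (h0 : ω (S.seg J ((S.π ^ t) v)) = ω' (S.seg J ((S.π ^ t) v)))
    (h1 : ∀ i ∈ I8_Pat, ∀ w ∈ GW_Pat k, ω (S.seg J (S.tip ((S.π ^ (i + t)) v) w)) =
      ω' (S.seg J (S.tip ((S.π ^ (i + t)) v) w)))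
    (h : S.Pat k (S.y0 J ω) ((S.π ^ t) v)) : S.Pat k (S.y0 J ω') ((S.π ^ t) v) := by
  rw [pat_iff_Pat] at h ⊢
  intro i hi w hw
  have := h i hi w hw
  simp only [y0] at this ⊢
  rw [← h0, ← h1 i hi w hw]
  exact this

omit [Fintype V] [DecidableEq V] in
private theorem segA_Pat {c k W lo hi : ℕ} (hG : S.Gir c)
    (hc : 2 * (W + 2 * k + 1) + 2 * hi < c) {J : Finset V} (hJ : S.Mark J lo hi) {v : V}
    {j j' : ℕ} (hj : j < W) (hj' : j' < W) {w w' : List Bool} (hw : w ∈ GW_Pat k)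
    (hw' : w' ∈ GW_Pat k)
    (he : S.seg J (S.tip ((S.π ^ j) v) w) = S.seg J (S.tip ((S.π ^ j') v) w')) :
    j = j' ∧ w = w' := by
  obtain ⟨a1, a2, a3⟩ := mem_GW_Pat.1 hw
  obtain ⟨b1, b2, b3⟩ := mem_GW_Pat.1 hw'
  have da := dir_eq_zero a2 a1.le a3
  have db := dir_eq_zero b2 b1.le b3
  obtain ⟨n, hn, h | h⟩ := hJ.same_seg he
  · exact hG.pow_tip_inj da db (by omega) h
  · obtain ⟨e1, e2⟩ := hG.pow_tip_inj db da (by omega) h
    exact ⟨e1.symm, e2.symm⟩

omit [Fintype V] [DecidableEq V] in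
private theorem segB_Pat {c k W lo hi : ℕ} (hG : S.Gir c)
    (hc : 2 * (W + 2 * k + 1) + 2 * hi < c) {J : Finset V} (hJ : S.Mark J lo hi) {v : V}
    {j t : ℕ} (hj : j < W) (ht : t < W) {w : List Bool} (hw : w ∈ GW_Pat k) :
    S.seg J (S.tip ((S.π ^ j) v) w) ≠ S.seg J ((S.π ^ t) v) := by
  intro he
  obtain ⟨a1, a2, a3⟩ := mem_GW_Pat.1 hw
  have da := dir_eq_zero a2 a1.le a3
  obtain ⟨n, hn, h | h⟩ := hJ.same_seg he
  · exact hG.pow_tip_ne da (by omega) h
  · rw [← Equiv.Perm.mul_apply, ← pow_add] at h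
    exact hG.tip_ne_pow (by omega) h.symm

private theorem cnt_Pat {c k W lo hi : ℕ} (hG : S.Gir c)
    (hc : 2 * (W + 2 * k + 1) + 2 * hi < c) {J : Finset V} (hJ : S.Mark J lo hi) (v : V)
    (T : Finset ℕ) (h1 : ∀ t ∈ T, t + 10 ≤ W) (h2 : ∀ t ∈ T, ∀ t' ∈ T, t < t' → t + 10 ≤ t') :
    (LLL.cnt (fun ω : V → Bool => ∀ t ∈ T, ¬ S.Pat k (S.y0 J ω) ((S.π ^ t) v)) : ℝ) ≤
      (1 - 1 / 2 ^ (8 * 4 ^ k)) ^ T.card * Fintype.card (V → Bool) := by
  classical
  let f : ℕ → ℕ × List Bool → V := fun t p => S.tip ((S.π ^ (p.1 + t)) v) p.2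
  let priv : ℕ → Finset V := fun t => (I8_Pat ×ˢ GW_Pat k).image fun p => S.seg J (f t p)
  have hB : ∀ s ∈ T, ∀ t ∈ T, S.seg J ((S.π ^ t) v) ∉ priv s := by
    intro s hs t ht hm
    obtain ⟨p, hp, e⟩ := mem_image.1 hm
    obtain ⟨p1, p2⟩ := mem_product.1 hp
    have := I8_le_Pat p1
    have := h1 s hs
    have := h1 t ht
    exact segB_Pat hG hc hJ (j := p.1 + s) (by omega) (by omega) p2 e
  refine cnt_blocks T priv (fun t ω => S.Pat k (S.y0 J ω) ((S.π ^ t) v)) (8 * 4 ^ k)
    (fun t _ => ?_) (fun s hs t ht hst ω ω' he hok => ?_) (fun t ht ω => ?_)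
  · refine card_image_le.trans ?_
    rw [card_product]
    exact Nat.mul_le_mul (by decide) (card_GW_Pat k)
  · refine pat_congr_Pat (he _ (hB s hs t ht)) (fun i hi w hw => he _ fun hm => ?_) hok
    obtain ⟨p, hp, e⟩ := mem_image.1 hm
    obtain ⟨p1, p2⟩ := mem_product.1 hp
    have := I8_le_Pat p1
    have := I8_le_Pat hi
    have := h1 s hs
    have := h1 t ht
    have e' := (segA_Pat hG hc hJ (j := p.1 + s) (j' := i + t) (by omega) (by omega) p2 hw e).1
    rcases lt_or_gt_of_ne hst with hl | hl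
    · have := h2 s hs t ht hl
      omega
    · have := h2 t ht s hs hl
      omega
  · let g : ℕ × List Bool → Bool := fun p =>
      xor (if p.1 ≤ 4 then !S.y0 J ω ((S.π ^ t) v) else S.y0 J ω ((S.π ^ t) v))
        (decide (Odd (S.idx J (f t p))))
    let ω' : V → Bool := fun x =>
      if hx : ∃ p ∈ I8_Pat ×ˢ GW_Pat k, S.seg J (f t p) = x then g hx.choose else ω x
    have hoff : ∀ x ∉ priv t, ω' x = ω x := fun x hx => dif_neg fun h => hx (mem_image.2 h)
    refine ⟨ω', hoff, ?_⟩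
    have h0 : S.y0 J ω' ((S.π ^ t) v) = S.y0 J ω ((S.π ^ t) v) := by
      simp only [y0]
      rw [hoff _ (hB t ht t ht)]
    rw [pat_iff_Pat]
    intro i hi w hw
    have hx : ∃ p ∈ I8_Pat ×ˢ GW_Pat k, S.seg J (f t p) = S.seg J (f t (i, w)) :=
      ⟨(i, w), mem_product.2 ⟨hi, hw⟩, rfl⟩
    have hch : hx.choose = (i, w) := by
      obtain ⟨hp, e⟩ := hx.choose_spec
      obtain ⟨p1, p2⟩ := mem_product.1 hp
      have := I8_le_Pat p1
      have := I8_le_Pat hi
      have := h1 t ht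
      obtain ⟨e1, e2⟩ := segA_Pat hG hc hJ (j := hx.choose.1 + t) (j' := i + t) (by omega)
        (by omega) p2 hw e
      exact Prod.ext (by omega) e2
    have e : ω' (S.seg J (f t (i, w))) = g (i, w) := by
      have : ω' (S.seg J (f t (i, w))) = g hx.choose := dif_pos hx
      rw [this, hch]
    rw [h0]
    change xor (ω' (S.seg J (f t (i, w)))) (decide (Odd (S.idx J (f t (i, w))))) = _
    rw [e]
    simp only [g, Bool.xor_assoc, Bool.xor_self, Bool.xor_false]

private noncomputable def SS_Pat (S : Str V) (J : Finset V) (k W : ℕ) (v : V) : Finset V :=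
  (range W).image (fun j => S.seg J ((S.π ^ j) v)) ∪
    (range W ×ˢ WS_Pat k).image fun p => S.seg J (S.tip ((S.π ^ p.1) v) p.2)

omit [Fintype V] in
private theorem card_SS_Pat (J : Finset V) (k W : ℕ) (v : V) :
    (SS_Pat S J k W v).card ≤ W * (1 + 4 ^ k) := by
  refine (card_union_le _ _).trans ?_
  rw [mul_add, mul_one]
  refine Nat.add_le_add (card_image_le.trans (card_range W).le) (card_image_le.trans ?_)
  rw [card_product, card_range]
  exact Nat.mul_le_mul_left _ (card_WS_Pat k)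

private theorem card_inv_Pat {lo hi : ℕ} {J : Finset V} (hJ : S.Mark J lo hi) (k W : ℕ) (x : V) :
    (univ.filter fun g : V × Bool => x ∈ SS_Pat S J k W g.1).card ≤
      hi * (W * (1 + 4 ^ k)) * 2 := by
  let N : V → Finset V := fun u => (range W).biUnion fun j =>
    (univ.filter fun v => (S.π ^ j) v = u) ∪
      (WS_Pat k).biUnion fun w => univ.filter fun v => S.tip ((S.π ^ j) v) w = u
  have hN : ∀ u, (N u).card ≤ W * (1 + 4 ^ k) := by
    intro u
    refine (card_biUnion_le_card_mul _ _ (1 + 4 ^ k) fun j _ => ?_).trans (by rw [card_range])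
    refine (card_union_le _ _).trans (Nat.add_le_add ?_ ?_)
    · refine card_le_one.2 fun a ha b hb => (S.π ^ j).injective ?_
      rw [(mem_filter.1 ha).2, (mem_filter.1 hb).2]
    · refine (card_biUnion_le_card_mul _ _ 1 fun w _ => ?_).trans
        (by rw [mul_one]; exact card_WS_Pat k)
      refine card_le_one.2 fun a ha b hb => (S.π ^ j).injective (tip_left_inj (S := S) w ?_)
      exact (mem_filter.1 ha).2.trans (mem_filter.1 hb).2.symm
  have hsub : (univ.filter fun g : V × Bool => x ∈ SS_Pat S J k W g.1) ⊆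
      ((univ.filter fun u => S.seg J u = x).biUnion N) ×ˢ (univ : Finset Bool) := by
    intro g hg
    refine mem_product.2 ⟨?_, mem_univ _⟩
    rcases mem_union.1 (mem_filter.1 hg).2 with h | h
    · obtain ⟨j, hj, e⟩ := mem_image.1 h
      exact mem_biUnion.2 ⟨_, mem_filter.2 ⟨mem_univ _, e⟩, mem_biUnion.2 ⟨j, hj,
        mem_union_left _ (mem_filter.2 ⟨mem_univ _, rfl⟩)⟩⟩
    · obtain ⟨p, hp, e⟩ := mem_image.1 h
      obtain ⟨p1, p2⟩ := mem_product.1 hp
      exact mem_biUnion.2 ⟨_, mem_filter.2 ⟨mem_univ _, e⟩, mem_biUnion.2 ⟨p.1, p1,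
        mem_union_right _ (mem_biUnion.2 ⟨p.2, p2, mem_filter.2 ⟨mem_univ _, rfl⟩⟩)⟩⟩
  refine (card_le_card hsub).trans ?_
  rw [card_product, card_univ, Fintype.card_bool]
  refine Nat.mul_le_mul_right _ ?_
  exact (card_biUnion_le_card_mul _ _ _ fun u _ => hN u).trans
    (Nat.mul_le_mul_right _ (hJ.card_seg x))

/-- good patterns in all prescribed windows -/
theorem pat {c k W lo hi M : ℕ} (hG : S.Gir c) (hc : 2 * (W + 2 * k + 1) + 2 * hi < c)
    {J : Finset V} (hJ : S.Mark J lo hi) (Tof : V × Bool → Finset ℕ) (hM : 0 < M)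
    (h1 : ∀ h, ∀ t ∈ Tof h, t + 10 ≤ W) (h2 : ∀ h, ∀ t ∈ Tof h, ∀ t' ∈ Tof h, t < t' → t + 10 ≤ t')
    (h3 : ∀ h, M ≤ (Tof h).card)
    (hn : (8 * hi * W ^ 2 * (1 + 4 ^ k) ^ 2 : ℝ) * (1 - 1 / 2 ^ (8 * 4 ^ k)) ^ M ≤ 1) :
    ∃ ω : V → Bool, ∀ h, ∃ t ∈ Tof h, S.Pat k (S.y0 J ω) ((S.π ^ t) h.1) := by
  rcases isEmpty_or_nonempty V with hV | ⟨⟨v0⟩⟩
  · exact ⟨fun _ => true, fun h => hV.elim h.1⟩
  have hhi : 1 ≤ hi := by
    have := hJ.idx_lt v0
    omega
  have hW : 1 ≤ W := by
    obtain ⟨t, ht⟩ := card_pos.1 (hM.trans_le (h3 (v0, true)))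
    have := h1 _ t ht
    omega
  set q : ℝ := 1 - 1 / 2 ^ (8 * 4 ^ k) with hq
  have hq0 : 0 ≤ q := by
    rw [hq, sub_nonneg, div_le_one (by positivity)]
    exact one_le_pow₀ (by norm_num)
  have hq1 : q ≤ 1 := by
    rw [hq]
    exact sub_le_self _ (by positivity)
  have hp0 : 0 ≤ q ^ M := pow_nonneg hq0 M
  have hbig : (8 : ℝ) ≤ 8 * hi * W ^ 2 * (1 + 4 ^ k) ^ 2 := by
    have a1 : (1 : ℝ) ≤ hi := by exact_mod_cast hhi
    have a2 : (1 : ℝ) ≤ W ^ 2 := one_le_pow₀ (by exact_mod_cast hW)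
    have a3 : (1 : ℝ) ≤ (1 + 4 ^ k) ^ 2 :=
      one_le_pow₀ (le_add_of_nonneg_right (by positivity))
    calc (8 : ℝ) = 8 * 1 * 1 * 1 := by norm_num
      _ ≤ _ := by gcongr
  suffices H : ∃ ω : V → Bool, ∀ h : V × Bool,
      ¬ ∀ t ∈ Tof h, ¬ S.Pat k (S.y0 J ω) ((S.π ^ t) h.1) by
    obtain ⟨ω, hω⟩ := H
    refine ⟨ω, fun h => ?_⟩
    have := hω h
    push Not at this
    exact this
  refine LLL.lll (ι := V) (η := V × Bool)
    (fun h ω => ∀ t ∈ Tof h, ¬ S.Pat k (S.y0 J ω) ((S.π ^ t) h.1))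
    (fun h => SS_Pat S J k W h.1) (fun h ω ω' he hω t ht hp => ?_) (q ^ M)
    (W * (1 + 4 ^ k) * (hi * (W * (1 + 4 ^ k)) * 2)) hp0 (by nlinarith) ?_ (fun h => ?_)
    (fun h => ?_)
  · have := h1 h t ht
    refine hω t ht (pat_congr_Pat (he _ ?_).symm (fun i hi w hw => (he _ ?_).symm) hp)
    · exact mem_union_left _ (mem_image.2 ⟨t, mem_range.2 (by omega), rfl⟩)
    · have := I8_le_Pat hi
      exact mem_union_right _ (mem_image.2 ⟨(i + t, w), mem_product.2
        ⟨mem_range.2 (by simp only; omega), mem_WS_Pat.2 (mem_GW_Pat.1 hw).1⟩, rfl⟩)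
  · refine le_of_eq_of_le ?_ hn
    push_cast
    ring
  · refine (cnt_Pat hG hc hJ h.1 (Tof h) (h1 h) (h2 h)).trans ?_
    exact mul_le_mul_of_nonneg_right (pow_le_pow_of_le_one hq0 hq1 (h3 h)) (by positivity)
  · have hsub : (univ.filter fun g : V × Bool =>
        ¬ Disjoint (SS_Pat S J k W h.1) (SS_Pat S J k W g.1)) ⊆
        (SS_Pat S J k W h.1).biUnion fun x =>
          univ.filter fun g : V × Bool => x ∈ SS_Pat S J k W g.1 := by
      intro g hg
      obtain ⟨x, x1, x2⟩ := not_disjoint_iff.1 (mem_filter.1 hg).2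
      exact mem_biUnion.2 ⟨x, x1, mem_filter.2 ⟨mem_univ _, x2⟩⟩
    refine (card_le_card hsub).trans ?_
    exact (card_biUnion_le_card_mul _ _ _ fun x _ => card_inv_Pat hJ k W x).trans
      (Nat.mul_le_mul_right _ (card_SS_Pat J k W h.1))

end Str

end Pool.Agent.MP_9a3194_co

end

section

open Finset
open scoped symmDiff

namespace Pool.Agent.MP_9a3194_co

/-- length of the windows for controllers -/
def W2 (k r M : ℕ) : ℕ := M * (10 * (10 * M) * 4 ^ (r + 2 * k + 2) + 11)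

/-- minimal length of a segment -/
def loJ (M R : ℕ) : ℕ := (2 * (10 * M * (10 * M) * 4 ^ (2 * R + 2)) + 1) * 1

/-- minimal size of a cell -/
def lc (k r M : ℕ) : ℕ := (2 * (10 * 10 * 4 ^ (2 * r + 2)) + 1) * W2 k r M

theorem ev_Num (K : ℝ) (n : ℕ) {c : ℝ} (hc : 1 < c) :
    ∀ᶠ R : ℕ in Filter.atTop, K * (R : ℝ) ^ n ≤ c ^ R := by
  have h := (tendsto_pow_const_div_const_pow_of_one_lt n hc).const_mul K
  rw [mul_zero] at h
  refine (h.eventually_le_const one_pos).mono fun R hR => ?_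
  rwa [← mul_div_assoc, div_le_one (by positivity)] at hR

theorem W2_le_Num (k r : ℕ) {M : ℕ} (hM : 0 < M) :
    W2 k r M ≤ (100 * 4 ^ (r + 2 * k + 2) + 11) * M ^ 2 := by
  have h : M * 11 ≤ M * (11 * M) := Nat.mul_le_mul_left _ (by omega)
  unfold W2
  nlinarith

theorem loJ_le_Num (R : ℕ) {M : ℕ} (hM : 0 < M) : loJ M R ≤ 3201 * (M ^ 2 * 16 ^ R) := by
  have h : 0 < M ^ 2 * 16 ^ R := by positivity
  have e : 4 ^ (2 * R + 2) = 16 * 16 ^ R := by rw [pow_add, pow_mul]; ring
  unfold loJ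
  rw [e]
  nlinarith

theorem le_lc_Num (k r M : ℕ) : M ≤ lc k r M := by
  have h : M ≤ W2 k r M := Nat.le_mul_of_pos_right _ (by omega)
  exact h.trans (Nat.le_mul_of_pos_left _ (by omega))

theorem num (k r l₀ : ℕ) (A : ℝ) : ∃ R M : ℕ, 0 < M ∧ r + 2 * k + 6 ≤ R ∧ l₀ ≤ lc k r M ∧
    A * (lc k r M : ℝ) ^ 2 ≤ 2 ^ R ∧
    (8 * (6 * loJ M R : ℕ) * (W2 k r M : ℝ) ^ 2 * (1 + 4 ^ k) ^ 2 : ℝ) *
      (1 - 1 / 2 ^ (8 * 4 ^ k)) ^ M ≤ 1 := by
  have h2 : (0 : ℝ) < 2 ^ (8 * 4 ^ k) := by positivity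
  have hq0 : (0 : ℝ) ≤ 1 - 1 / 2 ^ (8 * 4 ^ k) := by
    rw [sub_nonneg, div_le_one h2]
    exact one_le_pow₀ one_le_two
  have hq1 : (1 : ℝ) - 1 / 2 ^ (8 * 4 ^ k) < 1 := sub_lt_self _ (by positivity)
  generalize (1 : ℝ) - 1 / 2 ^ (8 * 4 ^ k) = q at hq0 hq1 ⊢
  obtain ⟨L, hL⟩ := exists_pow_lt_of_lt_one (by norm_num : (0 : ℝ) < 1 / 64) hq1
  have hL0 : 0 < L := by
    rcases L.eq_zero_or_pos with rfl | h
    · norm_num at hL
    · exact h
  obtain ⟨a, ha⟩ : ∃ a : ℕ, a = 100 * 4 ^ (r + 2 * k + 2) + 11 := ⟨_, rfl⟩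
  obtain ⟨b, hb⟩ : ∃ b : ℕ, b = 2 * (10 * 10 * 4 ^ (2 * r + 2)) + 1 := ⟨_, rfl⟩
  obtain ⟨R, h1, h3, h4⟩ := ((ev_Num (|A| * (b * a * L ^ 2) ^ 2) 4 one_lt_two).and
    ((ev_Num (48 * 3201 * a ^ 2 * (1 + 4 ^ k) ^ 2 * L ^ 6) 6 (by norm_num : (1 : ℝ) < 4)).and
      (Filter.eventually_ge_atTop (r + 2 * k + 6 + l₀)))).exists
  have hM : 0 < L * R := Nat.mul_pos hL0 (by omega)
  have hW : (W2 k r (L * R) : ℝ) ≤ a * (L * R) ^ 2 := by
    have := W2_le_Num k r hM
    rw [← ha] at this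
    exact_mod_cast this
  refine ⟨R, L * R, hM, by omega, ?_, ?_, ?_⟩
  · exact (by omega : l₀ ≤ R).trans ((Nat.le_mul_of_pos_left _ hL0).trans (le_lc_Num k r _))
  · have e : (lc k r (L * R) : ℝ) ≤ b * (a * (L * R) ^ 2) := by
      rw [lc, ← hb, Nat.cast_mul]
      exact mul_le_mul_of_nonneg_left hW (Nat.cast_nonneg b)
    refine le_trans ?_ h1
    calc A * (lc k r (L * R) : ℝ) ^ 2 ≤ |A| * (b * (a * (L * R) ^ 2)) ^ 2 :=
          mul_le_mul (le_abs_self A) (pow_le_pow_left₀ (Nat.cast_nonneg _) e 2) (by positivity)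
            (abs_nonneg A)
      _ = _ := by ring
  · have e1 : ((6 * loJ (L * R) R : ℕ) : ℝ) ≤ 6 * (3201 * ((L * R) ^ 2 * 16 ^ R)) := by
      exact_mod_cast Nat.mul_le_mul_left 6 (loJ_le_Num R hM)
    have e2 : q ^ (L * R) ≤ (1 / 64) ^ R := by
      rw [pow_mul]
      exact pow_le_pow_left₀ (by positivity) hL.le R
    have e3 : (4 : ℝ) ^ R * (16 ^ R * (1 / 64) ^ R) = 1 := by
      rw [← mul_pow, ← mul_pow]
      norm_num
    calc (8 * (6 * loJ (L * R) R : ℕ) * (W2 k r (L * R) : ℝ) ^ 2 * (1 + 4 ^ k) ^ 2 : ℝ) *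
          q ^ (L * R)
        ≤ 8 * (6 * (3201 * ((L * R) ^ 2 * 16 ^ R))) * (a * (L * R) ^ 2) ^ 2 * (1 + 4 ^ k) ^ 2 *
          (1 / 64) ^ R := by gcongr
      _ = 48 * 3201 * a ^ 2 * (1 + 4 ^ k) ^ 2 * L ^ 6 * R ^ 6 * (16 ^ R * (1 / 64) ^ R) := by ring
      _ ≤ 4 ^ R * (16 ^ R * (1 / 64) ^ R) := mul_le_mul_of_nonneg_right h3 (by positivity)
      _ = 1 := e3

end Pool.Agent.MP_9a3194_co

end

section

open Finset
open scoped symmDiff

namespace Pool.Agent.MP_9a3194_co

/-- the configuration exists when the girth is large -/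
theorem cfg (k r l₀ : ℕ) (A : ℝ) : ∃ R l c : ℕ, 2 * k ≤ R ∧ l₀ ≤ l ∧ A * (l : ℝ) ^ 2 ≤ 2 ^ R ∧
    ∀ {V : Type} [Fintype V] [DecidableEq V] (S : Str V), S.Gir c →
      ∃ (y : V → Bool) (F G : Finset V) (cell : V → V), S.Cfg k R r l y F G cell := by
  obtain ⟨R, M, hM, hR, hl, hA, hn⟩ := num k r l₀ A
  refine ⟨R, lc k r M, 2 * (W2 k r M + 2 * k + 1) + 2 * (6 * loJ M R) + 2 * (10 * M + R + 1) +
    2 * lc k r M + 2 * (10 + r + 1) + 1, by omega, hl, hA, fun {V} _ _ S hG => ?_⟩
  have hW : 11 * M ≤ W2 k r M := by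
    rw [W2, mul_add]
    omega
  have hlo : 10 * M ≤ loJ M R := by
    have h1 := Nat.le_mul_self (10 * M)
    have h2 := Nat.le_mul_of_pos_right (10 * M * (10 * M)) (pow_pos four_pos (2 * R + 2))
    rw [loJ]
    omega
  obtain ⟨J, -, hJ, hm⟩ := Str.hit (W := 1) (Δ := 10 * M * (10 * M) * 4 ^ (2 * R + 2)) hG
    (show 2 * loJ M R ≤ _ by omega) (fun _ => True) (fun _ => ⟨0, one_pos, trivial⟩)
    (S.TN (10 * M) (10 * M) (2 * R + 2)) (fun _ _ => Str.TN.symm) fun _ _ => Str.card_TN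
  change S.Mark J (loJ M R) (6 * loJ M R) at hm
  have hH := (Str.hinj_tube hG (by omega) hJ).1
  choose T hT1 hT2 hT3 hT4 using Str.free (ρ := r + 2 * k + 2) (M := M) hG
    (show W2 k r M ≤ _ by omega) (by omega) hJ
  obtain ⟨ω, hω⟩ := Str.pat (k := k) (W := W2 k r M) hG (by omega) hm
    (fun h => if h.2 then T h.1 else (range M).image (10 * ·)) hM
    (fun h t ht => by
      split_ifs at ht
      · exact hT2 _ t ht
      · obtain ⟨i, hi, rfl⟩ := mem_image.1 ht
        have := mem_range.1 hi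
        omega)
    (fun h t ht t' ht' hlt => by
      split_ifs at ht ht'
      · exact hT3 _ t ht t' ht' hlt
      · obtain ⟨i, -, rfl⟩ := mem_image.1 ht
        obtain ⟨j, -, rfl⟩ := mem_image.1 ht'
        omega)
    (fun h => by
      split_ifs
      · exact hT1 _
      · rw [card_image_of_injective _ (mul_right_injective₀ (by norm_num)), card_range]) hn
  obtain ⟨y, F, hc, hF, hy⟩ := Str.colF hm hlo hH (show 2 * k ≤ R by omega) ω fun x _ => by
    obtain ⟨t, ht, h⟩ := hω (x, false)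
    obtain ⟨i, hi, rfl⟩ := mem_image.1 ht
    have := mem_range.1 hi
    exact ⟨_, by omega, h⟩
  obtain ⟨G, hA', hG', hm'⟩ := Str.hit (W := W2 k r M) (Δ := 10 * 10 * 4 ^ (2 * r + 2)) hG
    (show 2 * lc k r M ≤ _ by omega)
    (fun g => S.Pat k (S.y0 J ω) g ∧ ∀ x ∈ J, ¬S.TN 10 (10 * M) (r + 2 * k + 2) g x)
    (fun v => by
      obtain ⟨t, ht, h⟩ := hω (v, true)
      exact ⟨t, (Nat.lt_add_of_pos_right (by norm_num)).trans_le (hT2 v t ht), h, hT4 v t ht⟩)
    (S.TN 10 10 (2 * r + 2)) (fun _ _ => Str.TN.symm) fun _ _ => Str.card_TN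
  have hK := Str.hinj_tube hG (by omega) hG'
  have key : ∀ g ∈ G, ∀ i < 10, ∀ v ∈ S.tube J (10 * M), ∀ ρ, S.Near ρ ((S.π ^ i) g) v →
      r + 2 * k + 2 < ρ := fun g hg i hi v hv ρ h => by
    obtain ⟨x, hx, j, hj, rfl⟩ := S.mem_tube.1 hv
    exact not_le.1 fun hρ => (hA' g hg).2 x hx ⟨i, hi, j, hj, h.mono hρ⟩
  refine ⟨y, F, G, S.seg G, hc, hH.mono hF le_rfl, fun g hg => ?_, hK.1, hK.2,
    fun a ha g hg => ⟨fun h => ?_, fun w hw h => ?_⟩, hm'.part⟩
  · have h0 : y g = S.y0 J ω g := hy g fun h =>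
      absurd (key g hg 0 (by norm_num) g h 0 (Str.Near.refl 0 g)) (Nat.not_lt_zero _)
    have h1 : ∀ i < 10, ∀ x, S.Good k (S.y0 J ω) ((S.π ^ i) g) x → S.Good k y ((S.π ^ i) g) x :=
      fun i hi x h w h2 h3 h4 => by
        rw [hy _ fun h5 => absurd (key g hg i hi _ h5 _ (Str.near_tip _ w)) (by omega)]
        exact h w h2 h3 h4
    rw [Str.Pat, h0]
    refine ⟨fun i hi => h1 i ?_ _ ((hA' g hg).1.1 i hi), fun i hi => h1 i ?_ _ ((hA' g hg).1.2 i hi)⟩
    all_goals
      simp only [mem_insert, mem_singleton] at hi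
      omega
  · obtain ⟨i, hi, h1⟩ := Str.near_Om h
    exact absurd (key g hg i hi a (hF ha) _ h1) (by omega)
  · obtain ⟨i, hi, h1⟩ := Str.near_Om h
    exact absurd (key g hg i hi a (hF ha) _ (h1.trans (Str.near_tip a w).symm)) (by omega)

end Pool.Agent.MP_9a3194_co

end
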