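import Pool.Agent.Mg.F9a3194.G6e6e19
import Pool.Agent.Mg.F9a3194.G885162
import Pool.Agent.Mg.F9a3194.G505f3a

section

open Finset
open scoped symmDiff

namespace Pool.Agent.MP_9a3194_co

namespace Str

variable {V : Type} {S : Str V} {ι : V → V}

theorem Aut.inj (h : S.Aut ι) : Function.Injective ι := Function.LeftInverse.injective h.inv
theorem Aut.bij (h : S.Aut ι) : Function.Bijective ι := Function.Involutive.bijective h.inv
theorem Aut.pi (h : S.Aut ι) (v : V) : S.π (ι v) = ι (S.π v) := h.step v 1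
theorem Aut.pi_inv (h : S.Aut ι) (v : V) : S.π⁻¹ (ι v) = ι (S.π⁻¹ v) := h.step v 2
theorem Aut.pow (h : S.Aut ι) (i : ℕ) (v : V) : (S.π ^ i) (ι v) = ι ((S.π ^ i) v) := by
  induction i with
  | zero => rfl
  | succ i ih => rw [pow_succ', Equiv.Perm.mul_apply, Equiv.Perm.mul_apply, ih, h.pi]
theorem Aut.inv_pow (h : S.Aut ι) (i : ℕ) (v : V) : (S.π⁻¹ ^ i) (ι v) = ι ((S.π⁻¹ ^ i) v) := by
  induction i with
  | zero => rfl
  | succ i ih => rw [pow_succ', Equiv.Perm.mul_apply, Equiv.Perm.mul_apply, ih, h.pi_inv]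
theorem Aut.hd (h : S.Aut ι) (d : Dt V) : S.hd (ι d.1, d.2) = ι (S.hd d) := h.step d.1 d.2

private theorem dart_UAut (h : S.Aut ι) (a : V) (w : List Bool) :
    S.dart (ι a) w = (ι (S.dart a w).1, (S.dart a w).2) := by
  induction w with
  | nil => rfl
  | cons β w ih => rw [dart, dart, ih, h.hd]

theorem Aut.tip (h : S.Aut ι) (a : V) (w : List Bool) : S.tip (ι a) w = ι (S.tip a w) := by
  rw [Str.tip, Str.tip, dart_UAut h, h.hd]
theorem Aut.idx (h : S.Aut ι) {J : Finset V} (hJ : ∀ v, ι v ∈ J ↔ v ∈ J) (v : V) :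
    S.idx J (ι v) = S.idx J v := by
  simp only [Str.idx, h.inv_pow, hJ]
theorem Aut.seg (h : S.Aut ι) {J : Finset V} (hJ : ∀ v, ι v ∈ J ↔ v ∈ J) (v : V) :
    S.seg J (ι v) = ι (S.seg J v) := by
  rw [Str.seg, Str.seg, h.idx hJ, h.inv_pow]
theorem Aut.y0 (h : S.Aut ι) {J : Finset V} (hJ : ∀ v, ι v ∈ J ↔ v ∈ J) {ω : V → Bool}
    (hω : ∀ v, ω (ι v) = !ω v) (v : V) : S.y0 J ω (ι v) = !S.y0 J ω v := by
  rw [Str.y0, Str.y0, h.idx hJ, h.seg hJ, hω, Bool.not_xor]

private theorem good_UAut (h : S.Aut ι) {k : ℕ} {y : V → Bool} (hy : ∀ v, y (ι v) = !y v)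
    {a : V} {x : Bool} (hg : S.Good k y a x) : S.Good k y (ι a) (!x) := fun w h1 h2 h3 => by
  rw [h.tip, hy]
  exact fun e => hg w h1 h2 h3 (Bool.not_inj e)

theorem Aut.pat (h : S.Aut ι) {k : ℕ} {y : V → Bool} (hy : ∀ v, y (ι v) = !y v) {g : V}
    (hg : S.Pat k y g) : S.Pat k y (ι g) :=
  ⟨fun i hi => by rw [h.pow, hy]; exact good_UAut h hy (hg.1 i hi),
    fun i hi => by rw [h.pow, hy]; exact good_UAut h hy (hg.2 i hi)⟩

private theorem mem_image_UAut [DecidableEq V] (h : S.Aut ι) (X : Finset V) (v : V) :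
    v ∈ X.image ι ↔ ι v ∈ X := by
  rw [mem_image]
  exact ⟨fun ⟨u, hu, e⟩ => by rwa [← e, h.inv], fun hv => ⟨_, hv, h.inv v⟩⟩

theorem Aut.Om [DecidableEq V] (h : S.Aut ι) (r : ℕ) (g : V) :
    S.Om r (ι g) = (S.Om r g).image ι := by
  ext v
  have e : ∀ u, ι u = v ↔ u = ι v := fun u =>
    ⟨fun e => by rw [← e, h.inv], fun e => by rw [e, h.inv]⟩
  rw [mem_image_UAut h, mem_Om, mem_Om]
  simp only [h.pow, h.tip, e]
theorem Aut.b [Fintype V] [DecidableEq V] (h : S.Aut ι) (X : Finset V) :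
    S.b (X.image ι) = S.b X := by
  rw [Str.b, Str.b]
  refine card_nbij' (fun d => (ι d.1, d.2)) (fun d => (ι d.1, d.2)) (fun d hd => ?_)
    (fun d hd => ?_) (fun d _ => by simp [h.inv]) (fun d _ => by simp [h.inv])
  · rw [mem_coe, mem_bd] at hd ⊢
    rwa [h.hd, ← mem_image_UAut h, ← mem_image_UAut h]
  · rw [mem_coe, mem_bd] at hd ⊢
    rwa [h.hd, mem_image_UAut h, mem_image_UAut h, h.inv, h.inv]
theorem Aut.mino [DecidableEq V] (h : S.Aut ι) (Ω X : Finset V) :
    mino (Ω.image ι) X = mino Ω (X.image ι) := by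
  have e1 : Ω.image ι ∩ X = (Ω ∩ X.image ι).image ι := by
    ext v
    simp only [mem_inter, mem_image_UAut h, h.inv]
  have e2 : Ω.image ι \ X = (Ω \ X.image ι).image ι := by
    ext v
    simp only [mem_sdiff, mem_image_UAut h, h.inv]
  rw [Pool.Agent.MP_9a3194_co.mino, Pool.Agent.MP_9a3194_co.mino, e1, e2,
    card_image_of_injective _ h.inj, card_image_of_injective _ h.inj]
/-- symmetrising a flow -/
theorem Aut.anti (h : S.Aut ι) {f : Dt V → ℝ} (hf : S.Anti f) :
    S.Anti fun d => (f d - f (ι d.1, d.2)) / 2 := by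
  intro d
  have e : (ι (S.rv d).1, (S.rv d).2) = S.rv (ι d.1, d.2) := by
    rw [rv, rv, h.hd]
  simp only [e, hf _]
  ring

private theorem pow_add_UAut (i j : ℕ) (v : V) :
    (S.π ^ (i + j)) v = (S.π ^ i) ((S.π ^ j) v) := by
  rw [pow_add]; rfl

private theorem junction_UAut {J : Finset V} {lo hi : ℕ} (h : S.Mark J lo hi) {v : V}
    (hv : S.π v ∈ J) : lo ≤ S.idx J v + 1 := by
  by_contra hlt
  refine h.1 _ (h.seg_mem v) (S.idx J v + 1) (by omega) (by omega) ?_
  rw [add_comm, pow_add_UAut, pow_seg]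
  simpa using hv

/-- repairing the junctions equivariantly -/
theorem colF2 [Fintype V] [DecidableEq V] {J : Finset V} {lo hi W R k : ℕ} (hJ : S.Mark J lo hi)
    (hW : W ≤ lo) (hH : S.HInj (S.tube J W) R) (hk : 2 * k ≤ R) (ω : V → Bool) (t : V → ℕ)
    (hp : ∀ x ∈ J, t x + 10 ≤ W ∧ S.Pat k (S.y0 J ω) ((S.π ^ t x) x)) (h : S.Aut ι)
    (hJι : ∀ v, ι v ∈ J ↔ v ∈ J) (ht : ∀ v, t (ι v) = t v) (hω : ∀ v, ω (ι v) = !ω v) :
    ∃ (y : V → Bool) (F : Finset V), S.Col k y F ∧ F ⊆ S.tube J W ∧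
      (∀ v ∉ S.tube J W, y v = S.y0 J ω v) ∧ (∀ v, y (ι v) = !y v) ∧
      ∀ v, ι v ∈ F ↔ v ∈ F := by
  have htι := ht
  clear ht
  have ht := fun x hx => (hp x hx).1
  have hpat := fun x hx => (hp x hx).2
  clear hp
  set z := S.y0 J ω with hz
  have htv : ∀ v, t (S.seg J v) + 10 ≤ W := fun v => ht _ (hJ.seg_mem v)
  obtain ⟨m, hm⟩ : ∃ m : V → Prop, ∀ x, m x ↔ z (S.π⁻¹ x) = z x := ⟨_, fun _ => Iff.rfl⟩
  classical
  obtain ⟨y, hy⟩ : ∃ y : V → Bool, ∀ v, y v =
    xor (z v) (decide (m (S.seg J v) ∧ S.idx J v ≤ t (S.seg J v) + 3)) := ⟨_, fun _ => rfl⟩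
  obtain ⟨F, hF⟩ : ∃ F : Finset V, ∀ v, v ∈ F ↔ m (S.seg J v) ∧
      (S.idx J v = t (S.seg J v) + 3 ∨ S.idx J v = t (S.seg J v) + 4) :=
    ⟨univ.filter fun v => m (S.seg J v) ∧
      (S.idx J v = t (S.seg J v) + 3 ∨ S.idx J v = t (S.seg J v) + 4), fun v => by simp⟩
  have key : ∀ v, y (S.π v) = y v ↔ m (S.seg J v) ∧ S.idx J v = t (S.seg J v) + 3 := by
    intro v
    by_cases hv : S.π v ∈ J
    · have h1 := junction_UAut hJ hv
      have h2 := htv v
      obtain ⟨h3, h4⟩ := idx_mem (S := S) hv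
      have h5 : ¬ S.idx J v ≤ t (S.seg J v) + 3 := by omega
      have h6 : ¬ S.idx J v = t (S.seg J v) + 3 := by omega
      have h7 := hm (S.π v)
      rw [show S.π⁻¹ (S.π v) = v by simp] at h7
      rw [hy, hy, h3, h4]
      simp only [h5, h6, h7, and_false, iff_false, Nat.zero_le, and_true]
      cases z v <;> cases z (S.π v) <;> simp
    · obtain ⟨h1, h2⟩ := hJ.idx_succ hv
      rw [hy, hy, h1, h2, hz, hJ.y0_succ ω hv]
      by_cases h3 : m (S.seg J v)
      · rcases lt_trichotomy (S.idx J v) (t (S.seg J v) + 3) with h4 | h4 | h4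
        · have h5 : S.idx J v + 1 ≤ t (S.seg J v) + 3 := h4
          simp [h3, h5, h4.le, h4.ne]
        · simp [h3, h4]
        · have h5 : ¬ S.idx J v + 1 ≤ t (S.seg J v) + 3 := by omega
          simp [h3, h5, h4.not_ge, h4.ne']
      · simp [h3]
  have key2 : ∀ v, y v = y (S.π⁻¹ v) ↔ m (S.seg J v) ∧ S.idx J v = t (S.seg J v) + 4 := by
    intro v
    obtain ⟨u, rfl⟩ := S.π.surjective v
    rw [show S.π⁻¹ (S.π u) = u by simp, key]
    by_cases hv : S.π u ∈ J
    · have h1 := junction_UAut hJ hv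
      have h2 := htv u
      have h3 := (idx_mem (S := S) hv).1
      constructor
      · rintro ⟨-, h4⟩
        omega
      · rintro ⟨-, h4⟩
        omega
    · obtain ⟨h1, h2⟩ := hJ.idx_succ hv
      rw [h1, h2]
      exact and_congr_right fun _ => by omega
  have htube : ∀ v, S.idx J v < W → v ∈ S.tube J W := fun v hv =>
    S.mem_tube.2 ⟨_, hJ.seg_mem v, _, hv, pow_seg v⟩
  have hsub : F ⊆ S.tube J W := fun v hv => htube v (by
    have h1 := ((hF v).1 hv).2
    have h2 := htv v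
    omega)
  have hout : ∀ v ∉ S.tube J W, y v = z v := by
    intro v hv
    have h1 : ¬ S.idx J v ≤ t (S.seg J v) + 3 := fun h => hv (htube v (by
      have h2 := htv v
      omega))
    rw [hy]
    simp [h1]
  have hzι : ∀ v, z (ι v) = !z v := h.y0 hJι hω
  have hmι : ∀ x, m (ι x) ↔ m x := fun x => by
    rw [hm, hm, h.pi_inv, hzι, hzι]
    exact Bool.not_inj_iff
  have hyι : ∀ v, y (ι v) = !y v := fun v => by
    rw [hy, hy, hzι, h.seg hJι, h.idx hJι, htι]
    simp only [hmι, Bool.not_xor]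
  have hFι : ∀ v, ι v ∈ F ↔ v ∈ F := fun v => by
    rw [hF, hF, h.seg hJι, h.idx hJι, htι, hmι]
  refine ⟨y, F, ⟨fun v hv => ⟨fun h => ?_, fun h => ?_⟩, fun a ha h => ?_, fun a ha => ?_⟩,
    hsub, hout, hyι, hFι⟩
  · exact hv ((hF v).2 ⟨((key v).1 h).1, Or.inl ((key v).1 h).2⟩)
  · exact hv ((hF v).2 ⟨((key2 v).1 h.symm).1, Or.inr ((key2 v).1 h.symm).2⟩)
  · obtain ⟨h1, h2 | h2⟩ := (hF a).1 ha
    · have h3 := ((key2 a).1 (((key a).2 ⟨h1, h2⟩).symm.trans h)).2
      omega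
    · have h3 := ((key a).1 (h.trans ((key2 a).2 ⟨h1, h2⟩).symm)).2
      omega
  · obtain ⟨h1, h2⟩ := (hF a).1 ha
    have hx := hJ.seg_mem a
    have h3 := htv a
    have h4 := pow_seg (S := S) (J := J) a
    obtain ⟨h5, h6⟩ := hJ.idx_pow hx (i := t (S.seg J a)) (by omega)
    have h7 : y a = z ((S.π ^ t (S.seg J a)) (S.seg J a)) := by
      rw [hy, hz, y0, y0, h5, h6]
      rcases h2 with h2 | h2
      · rw [h2]
        by_cases ho : Odd (t (S.seg J a)) <;> simp [h1, ho, Nat.odd_add, parity_simps]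
      · rw [h2]
        by_cases ho : Odd (t (S.seg J a)) <;> simp [h1, ho, Nat.odd_add, parity_simps]
    have h8 : S.Good k z a (z ((S.π ^ t (S.seg J a)) (S.seg J a))) := by
      rcases h2 with h2 | h2
      · have h9 := (hpat _ hx).1 3 (by simp)
        rwa [← pow_add_UAut, add_comm, ← h2, h4] at h9
      · have h9 := (hpat _ hx).1 4 (by simp)
        rwa [← pow_add_UAut, add_comm, ← h2, h4] at h9
    intro w hw1 hw2 hw3
    rw [h7, hout _ (hH.2 a (hsub ha) w (by omega))]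
    exact h8 w hw1 hw2 hw3

end Str

end Pool.Agent.MP_9a3194_co

end

section

open Finset
open scoped symmDiff

namespace Pool.Agent.MP_9a3194_co

namespace Str

variable {V : Type} {S : Str V} {sg : Dt V → Bool} {hs : ∀ d, sg (S.rv d) = sg d}

theorem cov_step (x : V × Bool) (i : Fin 3) :
    (S.cov sg hs).step x i = (S.step x.1 i, xor x.2 (sg (x.1, i))) := by
  fin_cases i <;> rfl

private theorem act_UCov (x : V × Bool) (u : List (Fin 3)) :
    ((S.cov sg hs).act x u).1 = S.act x.1 u := by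
  induction u generalizing x with
  | nil => rfl
  | cons d u ih => rw [act, act, ih, cov_step]

private theorem del_UCov {W : Type} (T : Str W) (v : W) (l l' : List (Fin 3)) (a : Fin 3) :
    T.act v (l ++ a :: rd a :: l') = T.act v (l ++ l') := by
  rw [act_append, act_append, act, act, step_step]

private theorem rd_fix_UCov : ∀ i : Fin 3, rd i = i → i = 0 := by decide

private theorem rv_ne_UCov (hμ : ∀ v, S.μ v ≠ v) (d : Dt V) : S.rv d ≠ d := fun h => by
  have h1 : S.step d.1 d.2 = d.1 := congrArg Prod.fst h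
  rw [rd_fix_UCov d.2 (congrArg Prod.snd h)] at h1
  exact hμ _ h1

private theorem even_UCov (hμ : ∀ v, S.μ v ≠ v) (A : Finset (Dt V))
    (hA : ∀ d ∈ A, S.rv d ∈ A) : Even A.card := by
  have h := sum_involution (s := A) (f := fun _ => (1 : ZMod 2)) (fun d _ => S.rv d)
    (fun _ _ => rfl) (fun d _ _ => rv_ne_UCov hμ d) hA fun d _ => S.rv_rv d
  rw [sum_const, nsmul_eq_mul, mul_one] at h
  exact ZMod.natCast_eq_zero_iff_even.1 h

theorem cov_aut : (S.cov sg hs).Aut flipB :=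
  ⟨fun v => by simp [flipB], fun v h => by simpa [flipB] using congrArg Prod.snd h,
    fun v i => by simp [cov_step, flipB]⟩

theorem cov_pow (i : ℕ) (x : V × Bool) : (((S.cov sg hs).π ^ i) x).1 = (S.π ^ i) x.1 := by
  rw [← act_rep_one, act_UCov, act_rep_one]

theorem cov_inv_pow (i : ℕ) (x : V × Bool) :
    (((S.cov sg hs).π⁻¹ ^ i) x).1 = (S.π⁻¹ ^ i) x.1 := by
  rw [← act_rep_two, act_UCov, act_rep_two]

theorem cov_act (x : V × Bool) (u : List (Fin 3)) :
    ((S.cov sg hs).act x u).1 = S.act x.1 u := act_UCov x u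

theorem cov_tip (x : V × Bool) (w : List Bool) : ((S.cov sg hs).tip x w).1 = S.tip x.1 w := by
  rw [← act_dirs, act_UCov, act_dirs]

theorem cov_idx (J : Finset V) (x : V × Bool) :
    (S.cov sg hs).idx (J ×ˢ univ) x = S.idx J x.1 := by
  simp only [idx, mem_product, mem_univ, and_true, cov_inv_pow]

theorem cov_seg (J : Finset V) (x : V × Bool) :
    ((S.cov sg hs).seg (J ×ˢ univ) x).1 = S.seg J x.1 := by
  rw [seg, seg, cov_inv_pow, cov_idx]

theorem cov_mark {J : Finset V} {lo hi : ℕ} (h : S.Mark J lo hi) :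
    (S.cov sg hs).Mark (J ×ˢ univ) lo hi := by
  simp only [Mark, mem_product, mem_univ, and_true, cov_inv_pow, cov_pow]
  exact ⟨fun x hx => h.1 x.1 hx, fun v => h.2 v.1⟩

theorem cov_gir {c : ℕ} (h : S.Gir c) : (S.cov sg hs).Gir c := fun v w h1 h2 h3 h4 =>
  h v.1 w h1 h2 h3 (by rw [← act_UCov (hs := hs), h4])

theorem cov_TN {κ κ' ρ : ℕ} {x x' : V × Bool} (h : (S.cov sg hs).TN κ κ' ρ x x') :
    S.TN κ κ' ρ x.1 x'.1 := by
  obtain ⟨i, hi, j, hj, w, hw, e⟩ := h
  exact ⟨i, hi, j, hj, w, hw, by rw [← cov_pow (hs := hs), ← cov_pow (hs := hs), ← e, cov_act]⟩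

/-- short closed walks lift to closed walks -/
theorem cov_closed {c : ℕ} (h : S.Gir c) (u : List (Fin 3)) (hu : u.length < c) (x : V × Bool)
    (hx : S.act x.1 u = x.1) : (S.cov sg hs).act x u = x := by
  induction hn : u.length using Nat.strong_induction_on generalizing u with
  | _ n ih =>
    by_cases hr : Red u
    · by_cases h0 : u = []
      · rw [h0]
        rfl
      · exact absurd hx (h _ u hr h0 hu)
    · rw [Red, List.isChain_iff_forall_rel_of_append_cons_cons] at hr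
      push Not at hr
      obtain ⟨a, b, l, l', rfl, rfl⟩ := hr
      rw [del_UCov] at hx ⊢
      simp only [List.length_append, List.length_cons] at hu hn
      refine ih _ ?_ _ ?_ hx rfl <;> rw [List.length_append] <;> omega

theorem cov_far {c κ ρ : ℕ} (h : S.Gir c) (hc : 2 * κ + ρ < c) {J : Finset V}
    (hJ : ∀ x ∈ J, ∀ x' ∈ J, x ≠ x' → ¬ S.TN κ κ ρ x x') :
    ∀ x ∈ J ×ˢ (univ : Finset Bool), ∀ x' ∈ J ×ˢ (univ : Finset Bool), x ≠ x' →
      ¬ (S.cov sg hs).TN κ κ ρ x x' := by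
  intro x hx x' hx' hne hT
  by_cases h1 : x.1 = x'.1
  · obtain ⟨i, hi, j, hj, w, hw, e⟩ := hT
    have h2 : (S.cov sg hs).act x (List.replicate i 1 ++ w ++ List.replicate j 2) = x' := by
      rw [act_append, act_append, act_rep_one, e, act_rep_two, ← Equiv.Perm.mul_apply, inv_pow,
        inv_mul_cancel, Equiv.Perm.one_apply]
    refine hne ((cov_closed h _ ?_ x ?_).symm.trans h2)
    · simp only [List.length_append, List.length_replicate]
      omega
    · rw [← cov_act (hs := hs), h2, h1]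
  · exact hJ _ (mem_product.1 hx).1 _ (mem_product.1 hx').1 h1 (cov_TN hT)

variable [Fintype V] [DecidableEq V]

theorem cov_b (X : Finset V) : (S.cov sg hs).b (X ×ˢ univ) = 2 * S.b X := by
  have h : ((S.cov sg hs).bd (X ×ˢ univ)).card = (S.bd X ×ˢ (univ : Finset Bool)).card :=
    card_nbij' (fun d => ((d.1.1, d.2), d.1.2)) (fun e => ((e.1.1, e.2), e.1.2))
      (fun d h => by
        simpa only [mem_coe, mem_bd, hd, cov_step, mem_product, mem_univ, and_true] using h)
      (fun d h => by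
        simpa only [mem_coe, mem_bd, hd, cov_step, mem_product, mem_univ, and_true] using h)
      (fun _ _ => rfl) fun _ _ => rfl
  rw [b, h, card_product, card_univ, Fintype.card_bool, mul_comm, b]

theorem cov_iso1 {c : ℕ} (h : (S.cov sg hs).Iso (2 * c)) : S.Iso1 c := fun X h1 h2 => by
  have h3 : (X ×ˢ (univ : Finset Bool))ᶜ = Xᶜ ×ˢ univ := by
    ext x
    simp
  have h4 := h (X ×ˢ univ) (h1.product univ_nonempty) (h3 ▸ h2.product univ_nonempty)
  rw [h3, cov_b, card_product, card_product, card_univ, Fintype.card_bool] at h4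
  omega

theorem Iso1.mono {c c' : ℕ} (h : S.Iso1 c) (hc : c' ≤ c) : S.Iso1 c' := fun X h1 h2 =>
  (Nat.mul_le_mul_left 2 (min_le_min_right _ hc)).trans (h X h1 h2)

/-- a small set has a vertex with at most one dart into the set -/
private theorem leaf_UCov {c : ℕ} (h : S.Iso1 c) {X : Finset V} (h0 : X.Nonempty)
    (hX : X.card < c) (hX' : X.card ≤ Xᶜ.card) :
    ∃ v ∈ X, ∀ i j, S.step v i ∈ X → S.step v j ∈ X → i = j := by
  by_contra hc
  push Not at hc
  have h1 := h X h0 (card_pos.1 (h0.card_pos.trans_le hX'))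
  rw [b_eq] at h1
  have h2 : (S.out X).card ≤ X.card := by
    refine card_le_card_of_injOn Prod.fst (fun d hd => (S.mem_out.1 hd).1) fun d hd e he h3 => ?_
    obtain ⟨i, j, hi, hj, hij⟩ := hc d.1 (S.mem_out.1 hd).1
    have h4 : ∀ i, S.step d.1 i ∈ X → d.2 ≠ i ∧ e.2 ≠ i := fun i hi =>
      ⟨fun h5 => (S.mem_out.1 hd).2 (by rwa [Str.hd, h5]),
        fun h5 => (S.mem_out.1 he).2 (by rwa [Str.hd, h5, ← h3])⟩
    have h5 := h4 i hi
    have h6 := h4 j hj
    exact Prod.ext h3 (by omega)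
  omega

omit [Fintype V] [DecidableEq V] in
private theorem take_UCov (v : V) (w : List (Fin 3)) (i : ℕ) (hi : i < w.length) :
    S.act v (w.take (i + 1)) = S.step (S.act v (w.take i)) w[i] := by
  rw [List.take_succ_eq_append_getElem hi, act_append]
  rfl

private theorem cyc_UCov {c : ℕ} (h : S.Iso1 c) (hV : 2 * c ≤ Fintype.card V) {v : V}
    {w : List (Fin 3)} (hr : Red w) (hL : 0 < w.length) (hl : w.length < c) (hc : S.act v w = v) :
    w[0] = rd w[w.length - 1] := by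
  by_contra hB
  set X : Finset V := (range w.length).image fun i => S.act v (w.take i) with hX
  have hmem : ∀ i ≤ w.length, S.act v (w.take i) ∈ X := by
    intro i hi
    rcases hi.eq_or_lt with rfl | hi
    · rw [List.take_length, hc]
      exact mem_image.2 ⟨0, mem_range.2 hL, rfl⟩
    · exact mem_image.2 ⟨i, mem_range.2 hi, rfl⟩
  have hcard : X.card ≤ w.length := card_image_le.trans_eq (card_range _)
  have hco : Xᶜ.card = Fintype.card V - X.card := card_compl X
  obtain ⟨u, hu, h1⟩ := leaf_UCov h ⟨v, hmem 0 (Nat.zero_le _)⟩ (by omega) (by omega)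
  obtain ⟨i, hi, rfl⟩ := mem_image.1 hu
  have hi' := mem_range.1 hi
  have h2 : S.step (S.act v (w.take i)) w[i] ∈ X := by
    rw [← take_UCov]
    exact hmem _ hi'
  have h3 : ∀ j (hj : j < w.length), S.step (S.act v (w.take (j + 1))) (rd w[j]) ∈ X := by
    intro j hj
    rw [take_UCov v w j hj, step_step]
    exact hmem _ hj.le
  cases i with
  | zero =>
    have h4 := h3 (w.length - 1) (by omega)
    rw [List.take_of_length_le (by omega), hc] at h4
    exact hB (h1 _ _ h2 h4)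
  | succ i => exact List.isChain_iff_getElem.1 hr i hi' (h1 _ _ h2 (h3 i (by omega)))

theorem Iso1.gir {c : ℕ} (h : S.Iso1 c) (hμ : ∀ v, S.μ v ≠ v) (hV : 2 * c ≤ Fintype.card V) :
    S.Gir c := by
  intro v w hr hne hl hc
  induction hn : w.length using Nat.strong_induction_on generalizing v w with
  | _ n ih =>
    have h1 := cyc_UCov h hV hr (List.length_pos_iff.2 hne) hl hc
    obtain ⟨d, t, rfl⟩ := List.exists_cons_of_ne_nil hne
    rcases t.eq_nil_or_concat' with rfl | ⟨w', e, rfl⟩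
    · obtain rfl := rd_fix_UCov d h1.symm
      exact hμ v hc
    · obtain rfl : d = rd e := by simpa using h1
      rw [act, act_append] at hc
      simp only [List.length_append, List.length_cons] at hl hn
      refine ih _ (by omega) (S.step v (rd e)) w' (List.isChain_append.1 hr.tail).1 ?_ (by omega)
        ?_ rfl
      · rintro rfl
        exact (List.isChain_cons_cons.1 hr).1 (rd_rd e).symm
      · rw [← S.step_step (S.act _ w') e]
        exact congrArg (fun u => S.step u (rd e)) hc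

/-- every signature is balanced on a small set -/
theorem Iso1.two_col {c : ℕ} (h : S.Iso1 c) (hμ : ∀ v, S.μ v ≠ v) (t : Dt V → Bool)
    (ht : ∀ d, t (S.rv d) = t d) (X : Finset V) (hX : X.card < c) (hX' : X.card ≤ Xᶜ.card) :
    ∃ χ : V → Bool, ∀ d : Dt V, d.1 ∈ X → S.hd d ∈ X → χ (S.hd d) = xor (χ d.1) (t d) := by
  induction hn : X.card generalizing X with
  | zero =>
    rw [card_eq_zero.1 hn]
    exact ⟨fun _ => true, fun d hd => absurd hd (notMem_empty _)⟩
  | succ n ih =>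
    obtain ⟨v, hv, h1⟩ := leaf_UCov h (card_pos.1 (by omega)) hX hX'
    have h2 := card_erase_of_mem hv
    have h3 := card_compl X
    have h4 := card_compl (X.erase v)
    obtain ⟨χ, hχ⟩ := ih (X.erase v) (by omega) (by omega) (by omega)
    have h5 : ∀ i, S.step v i ≠ v := fun i e => by
      have h6 := S.step_step v i
      rw [e] at h6
      rw [rd_fix_UCov i (h1 _ _ (h6.symm ▸ hv) (e.symm ▸ hv))] at e
      exact hμ v e
    obtain ⟨β, hβ⟩ : ∃ β : Bool, ∀ i, S.step v i ∈ X → β = xor (χ (S.step v i)) (t (v, i)) := by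
      by_cases h6 : ∃ i, S.step v i ∈ X
      · obtain ⟨i, hi⟩ := h6
        exact ⟨_, fun j hj => by rw [h1 j i hj hi]⟩
      · exact ⟨true, fun i hi => absurd ⟨i, hi⟩ h6⟩
    refine ⟨Function.update χ v β, fun d hd hd' => ?_⟩
    by_cases e : d.1 = v
    · obtain ⟨u, i⟩ := d
      obtain rfl : u = v := e
      rw [Str.hd, Function.update_of_ne (h5 i), Function.update_self, hβ i hd']
      simp
    · by_cases e' : S.hd d = v
      · have h6 : S.step v (rd d.2) = d.1 := e' ▸ S.hd_rv d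
        rw [e', Function.update_self, Function.update_of_ne e, hβ (rd d.2) (h6 ▸ hd), h6, ← e']
        exact congrArg _ (ht d)
      · rw [Function.update_of_ne e, Function.update_of_ne e']
        exact hχ d (mem_erase.2 ⟨e, hd⟩) (mem_erase.2 ⟨e', hd'⟩)

theorem typ_rv (hs : ∀ d, sg (S.rv d) = sg d) (Y : V → Bool) (d : Dt V) :
    S.typ sg Y (S.rv d) = S.typ sg Y d := by
  rw [typ, typ, hd_rv, rv_fst, hs, Bool.xor_comm (Y d.1)]

theorem typ_even (hμ : ∀ v, S.μ v ≠ v) (hs : ∀ d, sg (S.rv d) = sg d) (Y : V → Bool) :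
    Even (univ.filter fun d => S.typ sg Y d = false).card :=
  even_UCov hμ _ fun d h => by
    rw [mem_filter] at h ⊢
    exact ⟨mem_univ _, (typ_rv hs Y d).trans h.2⟩

theorem typ_parity (hμ : ∀ v, S.μ v ≠ v) (hs : ∀ d, sg (S.rv d) = sg d) (Y Y' : V → Bool) :
    (4 : ℤ) ∣ ((univ.filter fun d => S.typ sg Y' d = false).card : ℤ) -
      (univ.filter fun d => S.typ sg Y d = false).card -
      2 * (univ.filter fun v => Y' v ≠ Y v).card := by
  set Φ := univ.filter fun v => Y' v ≠ Y v with hΦ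
  set A := univ.filter fun d => S.typ sg Y d = false with hA
  have h1 : (univ.filter fun d => S.typ sg Y' d = false) = A \ S.bd Φ ∪ S.bd Φ \ A := by
    ext d
    simp only [hA, hΦ, typ, mem_filter, mem_univ, true_and, mem_union, mem_sdiff, mem_bd]
    generalize Y d.1 = a, Y (S.hd d) = a', Y' d.1 = e, Y' (S.hd d) = e', sg d = s
    revert a a' e e' s
    decide
  have h2 := card_sdiff_add_card_inter A (S.bd Φ)
  have h3 := card_sdiff_add_card_inter (S.bd Φ) A
  obtain ⟨m, hm⟩ := even_UCov hμ (A ∩ S.bd Φ) fun d h => by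
    rw [mem_inter, hA, mem_filter] at h ⊢
    exact ⟨⟨mem_univ _, (typ_rv hs Y d).trans h.1.2⟩, S.rv_mem_bd.2 h.2⟩
  obtain ⟨n, hn⟩ := even_UCov hμ ((Φ ×ˢ univ).filter fun d => S.hd d ∈ Φ) fun d h => by
    simp only [mem_filter (s := Φ ×ˢ univ), mem_product, mem_univ, and_true, hd_rv, rv_fst]
      at h ⊢
    exact h.symm
  have h4 := card_filter_add_card_filter_not (s := Φ ×ˢ (univ : Finset (Fin 3)))
    fun d => S.hd d ∈ Φ
  have h5 : ((Φ ×ˢ univ).filter fun d => ¬ S.hd d ∈ Φ) = S.out Φ := by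
    ext d
    simp only [mem_filter (s := Φ ×ˢ univ), mem_product, mem_univ, and_true, mem_out]
  have h6 : (S.bd Φ).card = 2 * (S.out Φ).card := S.b_eq Φ
  rw [h5, card_product, card_univ, Fintype.card_fin, hn] at h4
  rw [inter_comm] at h3
  rw [h1, card_union_of_disjoint disjoint_sdiff_sdiff]
  omega

end Str

end Pool.Agent.MP_9a3194_co

end

section

open Finset
open scoped symmDiff

namespace Pool.Agent.MP_9a3194_co

open Pool.Agent.MP_ee574f_co

private def WS_UPat (k : ℕ) : Finset (List Bool) := (range (2 * k)).biUnion Wd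

private theorem mem_WS_UPat {k : ℕ} {w : List Bool} : w ∈ WS_UPat k ↔ w.length < 2 * k := by
  simp [WS_UPat, mem_Wd]

private theorem card_WS_UPat (k : ℕ) : (WS_UPat k).card ≤ 4 ^ k := by
  refine card_biUnion_le.trans ?_
  simp only [card_Wd]
  have h := Nat.geomSum_lt (m := 2) (s := range (2 * k)) (n := 2 * k) le_rfl
    (fun _ h => mem_range.1 h)
  rw [pow_mul] at h
  exact h.le

open Classical in
private noncomputable def GW_UPat (k : ℕ) : Finset (List Bool) :=
  (WS_UPat k).filter fun w => Even w.length ∧ amt k w ≠ 0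

private theorem mem_GW_UPat {k : ℕ} {w : List Bool} :
    w ∈ GW_UPat k ↔ w.length < 2 * k ∧ Even w.length ∧ amt k w ≠ 0 := by
  simp [GW_UPat, mem_WS_UPat]

private theorem card_GW_UPat (k : ℕ) : (GW_UPat k).card ≤ 4 ^ k :=
  (card_filter_le _ _).trans (card_WS_UPat k)

private def I8_UPat : Finset ℕ := {0, 1, 3, 4, 5, 6, 8, 9}

private theorem I8_le_UPat {i : ℕ} (h : i ∈ I8_UPat) : i ≤ 9 := by
  simp only [I8_UPat, mem_insert, mem_singleton] at h
  omega

namespace Str

variable {V : Type} [Fintype V] [DecidableEq V] {S : Str V}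

omit [Fintype V] [DecidableEq V] in
private theorem pat_iff_UPat {k : ℕ} {y : V → Bool} {v : V} {t : ℕ} :
    S.Pat k y ((S.π ^ t) v) ↔ ∀ i ∈ I8_UPat, ∀ w ∈ GW_UPat k,
      y (S.tip ((S.π ^ (i + t)) v) w) =
        if i ≤ 4 then !y ((S.π ^ t) v) else y ((S.π ^ t) v) := by
  have e : ∀ i, (S.π ^ i) ((S.π ^ t) v) = (S.π ^ (i + t)) v := fun i => by
    rw [pow_add, Equiv.Perm.mul_apply]
  constructor
  · rintro ⟨ha, hb⟩ i hi w hw
    obtain ⟨w1, w2, w3⟩ := mem_GW_UPat.1 hw
    split_ifs with h4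
    · have hi' : i ∈ ({0, 1, 3, 4} : Finset ℕ) := by
        simp only [I8_UPat, mem_insert, mem_singleton] at hi ⊢
        omega
      have := ha i hi' w w2 w1 w3
      rw [e] at this
      exact Bool.eq_not_iff.2 this
    · have hi' : i ∈ ({5, 6, 8, 9} : Finset ℕ) := by
        simp only [I8_UPat, mem_insert, mem_singleton] at hi ⊢
        omega
      have := hb i hi' w w2 w1 w3
      rw [e] at this
      revert this
      cases y (S.tip ((S.π ^ (i + t)) v) w) <;> cases y ((S.π ^ t) v) <;> simp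
  · intro h
    refine ⟨fun i hi w w2 w1 w3 => ?_, fun i hi w w2 w1 w3 => ?_⟩
    · simp only [mem_insert, mem_singleton] at hi
      have := h i (by simp only [I8_UPat, mem_insert, mem_singleton]; omega) w
        (mem_GW_UPat.2 ⟨w1, w2, w3⟩)
      rw [if_pos (by omega)] at this
      rw [e, this]
      simp
    · simp only [mem_insert, mem_singleton] at hi
      have := h i (by simp only [I8_UPat, mem_insert, mem_singleton]; omega) w
        (mem_GW_UPat.2 ⟨w1, w2, w3⟩)
      rw [if_neg (by omega)] at this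
      rw [e, this]
      simp

private def ok_UPat (S : Str V) (k : ℕ) (J : Finset V) (θ : V → ℕ → ℕ → List Bool → Bool)
    (ω : V → Bool) (v : V) (t : ℕ) : Prop :=
  ∀ i ∈ I8_UPat, ∀ w ∈ GW_UPat k, ω (S.seg J (S.tip ((S.π ^ (i + t)) v) w)) =
    xor (ω (S.seg J ((S.π ^ t) v))) (θ v t i w)

omit [Fintype V] [DecidableEq V] in
private theorem pat_congr_UPat {k : ℕ} {J : Finset V} {θ : V → ℕ → ℕ → List Bool → Bool}
    {ω ω' : V → Bool} {v : V} {t : ℕ}
    (h0 : ω (S.seg J ((S.π ^ t) v)) = ω' (S.seg J ((S.π ^ t) v)))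
    (h1 : ∀ i ∈ I8_UPat, ∀ w ∈ GW_UPat k, ω (S.seg J (S.tip ((S.π ^ (i + t)) v) w)) =
      ω' (S.seg J (S.tip ((S.π ^ (i + t)) v) w)))
    (h : ok_UPat S k J θ ω v t) : ok_UPat S k J θ ω' v t := by
  intro i hi w hw
  rw [← h0, ← h1 i hi w hw]
  exact h i hi w hw

omit [Fintype V] [DecidableEq V] in
private theorem segA_UPat {c k W lo hi : ℕ} (hG : S.Gir c)
    (hc : 2 * (W + 2 * k + 1) + 2 * hi < c) {J : Finset V} (hJ : S.Mark J lo hi) {v : V}
    {j j' : ℕ} (hj : j < W) (hj' : j' < W) {w w' : List Bool} (hw : w ∈ GW_UPat k)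
    (hw' : w' ∈ GW_UPat k)
    (he : S.seg J (S.tip ((S.π ^ j) v) w) = S.seg J (S.tip ((S.π ^ j') v) w')) :
    j = j' ∧ w = w' := by
  obtain ⟨a1, a2, a3⟩ := mem_GW_UPat.1 hw
  obtain ⟨b1, b2, b3⟩ := mem_GW_UPat.1 hw'
  have da := dir_eq_zero a2 a1.le a3
  have db := dir_eq_zero b2 b1.le b3
  obtain ⟨n, hn, h | h⟩ := hJ.same_seg he
  · exact hG.pow_tip_inj da db (by omega) h
  · obtain ⟨e1, e2⟩ := hG.pow_tip_inj db da (by omega) h
    exact ⟨e1.symm, e2.symm⟩

omit [Fintype V] [DecidableEq V] in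
private theorem segB_UPat {c k W lo hi : ℕ} (hG : S.Gir c)
    (hc : 2 * (W + 2 * k + 1) + 2 * hi < c) {J : Finset V} (hJ : S.Mark J lo hi) {v : V}
    {j t : ℕ} (hj : j < W) (ht : t < W) {w : List Bool} (hw : w ∈ GW_UPat k) :
    S.seg J (S.tip ((S.π ^ j) v) w) ≠ S.seg J ((S.π ^ t) v) := by
  intro he
  obtain ⟨a1, a2, a3⟩ := mem_GW_UPat.1 hw
  have da := dir_eq_zero a2 a1.le a3
  obtain ⟨n, hn, h | h⟩ := hJ.same_seg he
  · exact hG.pow_tip_ne da (by omega) h
  · rw [← Equiv.Perm.mul_apply, ← pow_add] at h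
    exact hG.tip_ne_pow (by omega) h.symm

private theorem cnt_UPat {c k W lo hi : ℕ} (hG : S.Gir c)
    (hc : 2 * (W + 2 * k + 1) + 2 * hi < c) {J : Finset V} (hJ : S.Mark J lo hi) (v : V)
    (θ : V → ℕ → ℕ → List Bool → Bool) (T : Finset ℕ)
    (h1 : ∀ t ∈ T, t + 10 ≤ W) (h2 : ∀ t ∈ T, ∀ t' ∈ T, t < t' → t + 10 ≤ t') :
    (LLL.cnt (fun ω : V → Bool => ∀ t ∈ T, ¬ ok_UPat S k J θ ω v t) : ℝ) ≤
      (1 - 1 / 2 ^ (8 * 4 ^ k)) ^ T.card * Fintype.card (V → Bool) := by
  classical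
  let f : ℕ → ℕ × List Bool → V := fun t p => S.tip ((S.π ^ (p.1 + t)) v) p.2
  let priv : ℕ → Finset V := fun t => (I8_UPat ×ˢ GW_UPat k).image fun p => S.seg J (f t p)
  have hB : ∀ s ∈ T, ∀ t ∈ T, S.seg J ((S.π ^ t) v) ∉ priv s := by
    intro s hs t ht hm
    obtain ⟨p, hp, e⟩ := mem_image.1 hm
    obtain ⟨p1, p2⟩ := mem_product.1 hp
    have := I8_le_UPat p1
    have := h1 s hs
    have := h1 t ht
    exact segB_UPat hG hc hJ (j := p.1 + s) (by omega) (by omega) p2 e
  refine cnt_blocks T priv (fun t ω => ok_UPat S k J θ ω v t) (8 * 4 ^ k)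
    (fun t _ => ?_) (fun s hs t ht hst ω ω' he hok => ?_) (fun t ht ω => ?_)
  · refine card_image_le.trans ?_
    rw [card_product]
    exact Nat.mul_le_mul (by decide) (card_GW_UPat k)
  · refine pat_congr_UPat (he _ (hB s hs t ht)) (fun i hi w hw => he _ fun hm => ?_) hok
    obtain ⟨p, hp, e⟩ := mem_image.1 hm
    obtain ⟨p1, p2⟩ := mem_product.1 hp
    have := I8_le_UPat p1
    have := I8_le_UPat hi
    have := h1 s hs
    have := h1 t ht
    have e' := (segA_UPat hG hc hJ (j := p.1 + s) (j' := i + t) (by omega) (by omega) p2 hw e).1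
    rcases lt_or_gt_of_ne hst with hl | hl
    · have := h2 s hs t ht hl
      omega
    · have := h2 t ht s hs hl
      omega
  · let g : ℕ × List Bool → Bool := fun p =>
      xor (ω (S.seg J ((S.π ^ t) v))) (θ v t p.1 p.2)
    let ω' : V → Bool := fun x =>
      if hx : ∃ p ∈ I8_UPat ×ˢ GW_UPat k, S.seg J (f t p) = x then g hx.choose else ω x
    have hoff : ∀ x ∉ priv t, ω' x = ω x := fun x hx => dif_neg fun h => hx (mem_image.2 h)
    refine ⟨ω', hoff, ?_⟩
    intro i hi w hw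
    have hx : ∃ p ∈ I8_UPat ×ˢ GW_UPat k, S.seg J (f t p) = S.seg J (f t (i, w)) :=
      ⟨(i, w), mem_product.2 ⟨hi, hw⟩, rfl⟩
    have hch : hx.choose = (i, w) := by
      obtain ⟨hp, e⟩ := hx.choose_spec
      obtain ⟨p1, p2⟩ := mem_product.1 hp
      have := I8_le_UPat p1
      have := I8_le_UPat hi
      have := h1 t ht
      obtain ⟨e1, e2⟩ := segA_UPat hG hc hJ (j := hx.choose.1 + t) (j' := i + t) (by omega)
        (by omega) p2 hw e
      exact Prod.ext (by omega) e2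
    have e : ω' (S.seg J (f t (i, w))) = g (i, w) := by
      have : ω' (S.seg J (f t (i, w))) = g hx.choose := dif_pos hx
      rw [this, hch]
    rw [hoff _ (hB t ht t ht)]
    exact e

private noncomputable def SS_UPat (S : Str V) (J : Finset V) (k W : ℕ) (v : V) : Finset V :=
  (range W).image (fun j => S.seg J ((S.π ^ j) v)) ∪
    (range W ×ˢ WS_UPat k).image fun p => S.seg J (S.tip ((S.π ^ p.1) v) p.2)

omit [Fintype V] in
private theorem card_SS_UPat (J : Finset V) (k W : ℕ) (v : V) :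
    (SS_UPat S J k W v).card ≤ W * (1 + 4 ^ k) := by
  refine (card_union_le _ _).trans ?_
  rw [mul_add, mul_one]
  refine Nat.add_le_add (card_image_le.trans (card_range W).le) (card_image_le.trans ?_)
  rw [card_product, card_range]
  exact Nat.mul_le_mul_left _ (card_WS_UPat k)

private theorem card_inv_UPat {lo hi : ℕ} {J : Finset V} (hJ : S.Mark J lo hi) (k W : ℕ) (x : V) :
    (univ.filter fun g : V × Bool => x ∈ SS_UPat S J k W g.1).card ≤
      hi * (W * (1 + 4 ^ k)) * 2 := by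
  let N : V → Finset V := fun u => (range W).biUnion fun j =>
    (univ.filter fun v => (S.π ^ j) v = u) ∪
      (WS_UPat k).biUnion fun w => univ.filter fun v => S.tip ((S.π ^ j) v) w = u
  have hN : ∀ u, (N u).card ≤ W * (1 + 4 ^ k) := by
    intro u
    refine (card_biUnion_le_card_mul _ _ (1 + 4 ^ k) fun j _ => ?_).trans (by rw [card_range])
    refine (card_union_le _ _).trans (Nat.add_le_add ?_ ?_)
    · refine card_le_one.2 fun a ha b hb => (S.π ^ j).injective ?_
      rw [(mem_filter.1 ha).2, (mem_filter.1 hb).2]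
    · refine (card_biUnion_le_card_mul _ _ 1 fun w _ => ?_).trans
        (by rw [mul_one]; exact card_WS_UPat k)
      refine card_le_one.2 fun a ha b hb => (S.π ^ j).injective (tip_left_inj (S := S) w ?_)
      exact (mem_filter.1 ha).2.trans (mem_filter.1 hb).2.symm
  have hsub : (univ.filter fun g : V × Bool => x ∈ SS_UPat S J k W g.1) ⊆
      ((univ.filter fun u => S.seg J u = x).biUnion N) ×ˢ (univ : Finset Bool) := by
    intro g hg
    refine mem_product.2 ⟨?_, mem_univ _⟩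
    rcases mem_union.1 (mem_filter.1 hg).2 with h | h
    · obtain ⟨j, hj, e⟩ := mem_image.1 h
      exact mem_biUnion.2 ⟨_, mem_filter.2 ⟨mem_univ _, e⟩, mem_biUnion.2 ⟨j, hj,
        mem_union_left _ (mem_filter.2 ⟨mem_univ _, rfl⟩)⟩⟩
    · obtain ⟨p, hp, e⟩ := mem_image.1 h
      obtain ⟨p1, p2⟩ := mem_product.1 hp
      exact mem_biUnion.2 ⟨_, mem_filter.2 ⟨mem_univ _, e⟩, mem_biUnion.2 ⟨p.1, p1,
        mem_union_right _ (mem_biUnion.2 ⟨p.2, p2, mem_filter.2 ⟨mem_univ _, rfl⟩⟩)⟩⟩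
  refine (card_le_card hsub).trans ?_
  rw [card_product, card_univ, Fintype.card_bool]
  refine Nat.mul_le_mul_right _ ?_
  exact (card_biUnion_le_card_mul _ _ _ fun u _ => hN u).trans
    (Nat.mul_le_mul_right _ (hJ.card_seg x))

/-- prescribed relative bits in all windows -/
theorem pat_abs {c k W lo hi M : ℕ} (hG : S.Gir c) (hc : 2 * (W + 2 * k + 1) + 2 * hi < c)
    {J : Finset V} (hJ : S.Mark J lo hi) (Tof : V × Bool → Finset ℕ) (hM : 0 < M)
    (h1 : ∀ h, ∀ t ∈ Tof h, t + 10 ≤ W) (h2 : ∀ h, ∀ t ∈ Tof h, ∀ t' ∈ Tof h, t < t' → t + 10 ≤ t')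
    (h3 : ∀ h, M ≤ (Tof h).card)
    (hn : (8 * hi * W ^ 2 * (1 + 4 ^ k) ^ 2 : ℝ) * (1 - 1 / 2 ^ (8 * 4 ^ k)) ^ M ≤ 1)
    (θ : V → ℕ → ℕ → List Bool → Bool) :
    ∃ ω : V → Bool, ∀ h, ∃ t ∈ Tof h, ∀ i ∈ ({0, 1, 3, 4, 5, 6, 8, 9} : Finset ℕ),
      ∀ w : List Bool, Even w.length → w.length < 2 * k → amt k w ≠ 0 →
        ω (S.seg J (S.tip ((S.π ^ (i + t)) h.1) w)) =
          xor (ω (S.seg J ((S.π ^ t) h.1))) (θ h.1 t i w) := by
  rcases isEmpty_or_nonempty V with hV | ⟨⟨v0⟩⟩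
  · exact ⟨fun _ => true, fun h => hV.elim h.1⟩
  have hhi : 1 ≤ hi := by
    have := hJ.idx_lt v0
    omega
  have hW : 1 ≤ W := by
    obtain ⟨t, ht⟩ := card_pos.1 (hM.trans_le (h3 (v0, true)))
    have := h1 _ t ht
    omega
  set q : ℝ := 1 - 1 / 2 ^ (8 * 4 ^ k) with hq
  have hq0 : 0 ≤ q := by
    rw [hq, sub_nonneg, div_le_one (by positivity)]
    exact one_le_pow₀ (by norm_num)
  have hq1 : q ≤ 1 := by
    rw [hq]
    exact sub_le_self _ (by positivity)
  have hp0 : 0 ≤ q ^ M := pow_nonneg hq0 M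
  have hbig : (8 : ℝ) ≤ 8 * hi * W ^ 2 * (1 + 4 ^ k) ^ 2 := by
    have a1 : (1 : ℝ) ≤ hi := by exact_mod_cast hhi
    have a2 : (1 : ℝ) ≤ W ^ 2 := one_le_pow₀ (by exact_mod_cast hW)
    have a3 : (1 : ℝ) ≤ (1 + 4 ^ k) ^ 2 :=
      one_le_pow₀ (le_add_of_nonneg_right (by positivity))
    calc (8 : ℝ) = 8 * 1 * 1 * 1 := by norm_num
      _ ≤ _ := by gcongr
  suffices H : ∃ ω : V → Bool, ∀ h : V × Bool,
      ¬ ∀ t ∈ Tof h, ¬ ok_UPat S k J θ ω h.1 t by
    obtain ⟨ω, hω⟩ := H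
    refine ⟨ω, fun h => ?_⟩
    have := hω h
    push Not at this
    obtain ⟨t, ht, hok⟩ := this
    exact ⟨t, ht, fun i hi w w2 w1 w3 => hok i hi w (mem_GW_UPat.2 ⟨w1, w2, w3⟩)⟩
  refine LLL.lll (ι := V) (η := V × Bool)
    (fun h ω => ∀ t ∈ Tof h, ¬ ok_UPat S k J θ ω h.1 t)
    (fun h => SS_UPat S J k W h.1) (fun h ω ω' he hω t ht hp => ?_) (q ^ M)
    (W * (1 + 4 ^ k) * (hi * (W * (1 + 4 ^ k)) * 2)) hp0 (by nlinarith) ?_ (fun h => ?_)
    (fun h => ?_)
  · have := h1 h t ht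
    refine hω t ht (pat_congr_UPat (he _ ?_).symm (fun i hi w hw => (he _ ?_).symm) hp)
    · exact mem_union_left _ (mem_image.2 ⟨t, mem_range.2 (by omega), rfl⟩)
    · have := I8_le_UPat hi
      exact mem_union_right _ (mem_image.2 ⟨(i + t, w), mem_product.2
        ⟨mem_range.2 (by simp only; omega), mem_WS_UPat.2 (mem_GW_UPat.1 hw).1⟩, rfl⟩)
  · refine le_of_eq_of_le ?_ hn
    push_cast
    ring
  · refine (cnt_UPat hG hc hJ h.1 θ (Tof h) (h1 h) (h2 h)).trans ?_
    exact mul_le_mul_of_nonneg_right (pow_le_pow_of_le_one hq0 hq1 (h3 h)) (by positivity)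
  · have hsub : (univ.filter fun g : V × Bool =>
        ¬ Disjoint (SS_UPat S J k W h.1) (SS_UPat S J k W g.1)) ⊆
        (SS_UPat S J k W h.1).biUnion fun x =>
          univ.filter fun g : V × Bool => x ∈ SS_UPat S J k W g.1 := by
      intro g hg
      obtain ⟨x, x1, x2⟩ := not_disjoint_iff.1 (mem_filter.1 hg).2
      exact mem_biUnion.2 ⟨x, x1, mem_filter.2 ⟨mem_univ _, x2⟩⟩
    refine (card_le_card hsub).trans ?_
    exact (card_biUnion_le_card_mul _ _ _ fun x _ => card_inv_UPat hJ k W x).trans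
      (Nat.mul_le_mul_right _ (card_SS_UPat J k W h.1))

/-- good patterns on both sheets of the double cover -/
theorem pat2 {c k W lo hi M : ℕ} (hG : S.Gir c) (hc : 2 * (W + 2 * k + 1) + 2 * hi < c)
    {J : Finset V} (hJ : S.Mark J lo hi) (Tof : V × Bool → Finset ℕ) (hM : 0 < M)
    (h1 : ∀ h, ∀ t ∈ Tof h, t + 10 ≤ W) (h2 : ∀ h, ∀ t ∈ Tof h, ∀ t' ∈ Tof h, t < t' → t + 10 ≤ t')
    (h3 : ∀ h, M ≤ (Tof h).card)
    (hn : (8 * hi * W ^ 2 * (1 + 4 ^ k) ^ 2 : ℝ) * (1 - 1 / 2 ^ (8 * 4 ^ k)) ^ M ≤ 1)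
    (sg : Dt V → Bool) (hs : ∀ d, sg (S.rv d) = sg d) :
    ∃ ω : V → Bool, ∀ h, ∃ t ∈ Tof h, ∀ b : Bool,
      (S.cov sg hs).Pat k ((S.cov sg hs).y0 (J ×ˢ univ) fun x => xor (ω x.1) x.2)
        (((S.cov sg hs).π ^ t) (h.1, b)) := by
  set C := S.cov sg hs with hC
  let tw : V × Bool → Bool := fun u =>
    xor (C.seg (J ×ˢ univ) u).2 (decide (Odd (C.idx (J ×ˢ univ) u)))
  obtain ⟨ω, hω⟩ := pat_abs hG hc hJ Tof hM h1 h2 h3 hn fun v t i w =>
    xor (xor (tw ((C.π ^ t) (v, false))) (tw (C.tip ((C.π ^ (i + t)) (v, false)) w)))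
      (decide (i ≤ 4))
  have hy : ∀ u, C.y0 (J ×ˢ univ) (fun x => xor (ω x.1) x.2) u =
      xor (ω (S.seg J u.1)) (tw u) := fun u => by
    simp only [y0, tw, hC, cov_seg, Bool.xor_assoc]
  refine ⟨ω, fun h => ?_⟩
  obtain ⟨t, ht, hok⟩ := hω h
  have hf : C.Pat k (C.y0 (J ×ˢ univ) fun x => xor (ω x.1) x.2) ((C.π ^ t) (h.1, false)) := by
    rw [pat_iff_UPat]
    intro i hi w hw
    obtain ⟨w1, w2, w3⟩ := mem_GW_UPat.1 hw
    have e := hok i hi w w2 w1 w3
    have e1 : (C.tip ((C.π ^ (i + t)) (h.1, false)) w).1 = S.tip ((S.π ^ (i + t)) h.1) w := by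
      rw [hC, cov_tip, cov_pow]
    have e2 : ((C.π ^ t) (h.1, false)).1 = (S.π ^ t) h.1 := cov_pow t _
    rw [hy, hy, e1, e2, e]
    generalize ω (S.seg J ((S.π ^ t) h.1)) = a
    generalize tw ((C.π ^ t) (h.1, false)) = b
    generalize tw (C.tip ((C.π ^ (i + t)) (h.1, false)) w) = d
    by_cases h4 : i ≤ 4 <;> cases a <;> cases b <;> cases d <;> simp [h4]
  refine ⟨t, ht, fun b => ?_⟩
  cases b
  · exact hf
  · have hA : C.Aut flipB := cov_aut
    have e : (C.π ^ t) (h.1, true) = flipB ((C.π ^ t) (h.1, false)) := hA.pow t (h.1, false)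
    rw [e]
    exact hA.pat (hA.y0 (fun v => by simp [flipB]) fun v => by simp [flipB]) hf

end Str

end Pool.Agent.MP_9a3194_co

end

section

open Finset
open scoped symmDiff

namespace Pool.Agent.MP_9a3194_co

private theorem flip_mem_UNet {V : Type} (J : Finset V) (x : V × Bool) :
    flipB x ∈ J ×ˢ (univ : Finset Bool) ↔ x ∈ J ×ˢ (univ : Finset Bool) := by
  simp [flipB, mem_product]

private theorem lift_UNet {V : Type} {x : V × Bool} {v : V} (h : x.1 = v) (b : Bool) :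
    x = (v, b) ∨ flipB x = (v, b) := by
  obtain ⟨u, c⟩ := x
  subst h
  cases b <;> cases c <;> simp [flipB]

/-- the equivariant configuration on a double cover -/
theorem cfg2 (k r l₀ : ℕ) (A : ℝ) : ∃ R l c : ℕ, 2 * k ≤ R ∧ l₀ ≤ l ∧ A * (l : ℝ) ^ 2 ≤ 2 ^ R ∧
    ∀ {V : Type} [Fintype V] [DecidableEq V] (S : Str V) (sg : Dt V → Bool)
      (hs : ∀ d, sg (S.rv d) = sg d), S.Gir c →
      ∃ (y : V × Bool → Bool) (F G : Finset (V × Bool)) (cell : V × Bool → V × Bool),
        (S.cov sg hs).Cfg k R r l y F G cell ∧ (∀ x, y (flipB x) = !y x) ∧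
        (∀ x, flipB x ∈ F ↔ x ∈ F) ∧ ∀ x, flipB x ∈ G ↔ x ∈ G := by
  obtain ⟨R, M, hM, hR, hl, hA, hn⟩ := num k r l₀ A
  refine ⟨R, lc k r M, 2 * (W2 k r M + 2 * k + 1) + 2 * (6 * loJ M R) + 2 * (10 * M + R + 1) +
    2 * lc k r M + 2 * (10 + r + 1) + 1, by omega, hl, hA, fun {V} _ _ S sg hs hG => ?_⟩
  have hW : 11 * M ≤ W2 k r M := by
    rw [W2, mul_add]
    omega
  have hlo : 10 * M ≤ loJ M R := by
    have h1 := Nat.le_mul_self (10 * M)
    have h2 := Nat.le_mul_of_pos_right (10 * M * (10 * M)) (pow_pos four_pos (2 * R + 2))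
    rw [loJ]
    omega
  obtain ⟨J, -, hJ, hm⟩ := Str.hit (W := 1) (Δ := 10 * M * (10 * M) * 4 ^ (2 * R + 2)) hG
    (show 2 * loJ M R ≤ _ by omega) (fun _ => True) (fun _ => ⟨0, one_pos, trivial⟩)
    (S.TN (10 * M) (10 * M) (2 * R + 2)) (fun _ _ => Str.TN.symm) fun _ _ => Str.card_TN
  change S.Mark J (loJ M R) (6 * loJ M R) at hm
  have hGc := Str.cov_gir (sg := sg) (hs := hs) hG
  have hH := (Str.hinj_tube hGc (by omega) (Str.cov_far (sg := sg) (hs := hs) hG (by omega) hJ)).1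
  choose T hT1 hT2 hT3 hT4 using Str.free (ρ := r + 2 * k + 2) (M := M) hG
    (show W2 k r M ≤ _ by omega) (by omega) hJ
  obtain ⟨ω, hω⟩ := Str.pat2 (k := k) (W := W2 k r M) hG (by omega) hm
    (fun h => if h.2 then T h.1 else (range M).image (10 * ·)) hM
    (fun h t ht => by
      split_ifs at ht
      · exact hT2 _ t ht
      · obtain ⟨i, hi, rfl⟩ := mem_image.1 ht
        have := mem_range.1 hi
        omega)
    (fun h t ht t' ht' hlt => by
      split_ifs at ht ht'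
      · exact hT3 _ t ht t' ht' hlt
      · obtain ⟨i, -, rfl⟩ := mem_image.1 ht
        obtain ⟨j, -, rfl⟩ := mem_image.1 ht'
        omega)
    (fun h => by
      split_ifs
      · exact hT1 _
      · rw [card_image_of_injective _ (mul_right_injective₀ (by norm_num)), card_range]) hn sg hs
  choose τ hτ1 hτ2 using hω
  have hJι := flip_mem_UNet J
  have hωι : ∀ x : V × Bool, xor (ω (flipB x).1) (flipB x).2 = !xor (ω x.1) x.2 := fun x => by
    simp [flipB]
  obtain ⟨y, F, hc, hF, hy, hyι, hFι⟩ := Str.colF2 (Str.cov_mark (sg := sg) (hs := hs) hm) hlo hH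
    (show 2 * k ≤ R by omega) (fun x => xor (ω x.1) x.2) (fun x => τ (x.1, false))
    (fun x _ => by
      refine ⟨?_, hτ2 (x.1, false) x.2⟩
      obtain ⟨i, hi, e⟩ := mem_image.1 (hτ1 (x.1, false))
      have := mem_range.1 hi
      omega) Str.cov_aut hJι (fun _ => rfl) hωι
  obtain ⟨G, hA', hG', hm'⟩ := Str.hit (W := W2 k r M) (Δ := 10 * 10 * 4 ^ (2 * r + 2)) hG
    (show 2 * lc k r M ≤ _ by omega)
    (fun g => (∀ b : Bool, (S.cov sg hs).Pat k
        ((S.cov sg hs).y0 (J ×ˢ univ) fun x => xor (ω x.1) x.2) (g, b)) ∧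
      ∀ x ∈ J, ¬S.TN 10 (10 * M) (r + 2 * k + 2) g x)
    (fun v => by
      have ht : τ (v, true) ∈ T v := hτ1 (v, true)
      refine ⟨τ (v, true), (Nat.lt_add_of_pos_right (by norm_num)).trans_le (hT2 v _ ht),
        fun b => ?_, hT4 v _ ht⟩
      have h1 := hτ2 (v, true) true
      have h2 := Str.cov_aut.pat (Str.cov_aut.y0 hJι hωι) h1
      rcases lift_UNet (Str.cov_pow (S := S) (sg := sg) (hs := hs) (τ (v, true)) (v, true)) b with
        e | e
      · exact e ▸ h1
      · exact e ▸ h2)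
    (S.TN 10 10 (2 * r + 2)) (fun _ _ => Str.TN.symm) fun _ _ => Str.card_TN
  have hK := Str.hinj_tube hGc (by omega) (Str.cov_far (sg := sg) (hs := hs) hG (by omega) hG')
  have key : ∀ g ∈ G ×ˢ (univ : Finset Bool), ∀ i < 10,
      ∀ v ∈ (S.cov sg hs).tube (J ×ˢ univ) (10 * M), ∀ ρ,
      (S.cov sg hs).Near ρ (((S.cov sg hs).π ^ i) g) v → r + 2 * k + 2 < ρ :=
    fun g hg i hi v hv ρ h => by
      obtain ⟨x, hx, j, hj, rfl⟩ := (S.cov sg hs).mem_tube.1 hv
      exact not_le.1 fun hρ => (hA' g.1 (mem_product.1 hg).1).2 x.1 (mem_product.1 hx).1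
        (Str.cov_TN ⟨i, hi, j, hj, h.mono hρ⟩)
  refine ⟨y, F, G ×ˢ univ, (S.cov sg hs).seg (G ×ˢ univ), ⟨hc, hH.mono hF le_rfl, fun g hg => ?_,
    hK.1, hK.2, fun a ha g hg => ⟨fun h => ?_, fun w hw h => ?_⟩, (Str.cov_mark hm').part⟩,
    hyι, hFι, flip_mem_UNet G⟩
  · have hp := (hA' g.1 (mem_product.1 hg).1).1 g.2
    have h0 := hy g fun h =>
      absurd (key g hg 0 (by norm_num) g h 0 (Str.Near.refl 0 g)) (Nat.not_lt_zero _)
    have h1 : ∀ i < 10, ∀ x, (S.cov sg hs).Good k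
        ((S.cov sg hs).y0 (J ×ˢ univ) fun x => xor (ω x.1) x.2) (((S.cov sg hs).π ^ i) g) x →
        (S.cov sg hs).Good k y (((S.cov sg hs).π ^ i) g) x :=
      fun i hi x h w h2 h3 h4 => by
        rw [hy _ fun h5 => absurd (key g hg i hi _ h5 _ (Str.near_tip _ w)) (by omega)]
        exact h w h2 h3 h4
    rw [Str.Pat, h0]
    refine ⟨fun i hi => h1 i ?_ _ (hp.1 i hi), fun i hi => h1 i ?_ _ (hp.2 i hi)⟩
    all_goals
      simp only [mem_insert, mem_singleton] at hi
      omega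
  · obtain ⟨i, hi, h1⟩ := Str.near_Om h
    exact absurd (key g hg i hi a (hF ha) _ h1) (by omega)
  · obtain ⟨i, hi, h1⟩ := Str.near_Om h
    exact absurd (key g hg i hi a (hF ha) _ (h1.trans (Str.near_tip a w).symm)) (by omega)

end Pool.Agent.MP_9a3194_co

end

section

open Finset
open scoped symmDiff

namespace Pool.Agent.MP_9a3194_co

variable {W : Type} [Fintype W] [DecidableEq W]

/-- a fractional perfect matching with heavy odd cuts gives a perfect matching -/
theorem match_one (x : W → W → ℝ) (hs : ∀ u v, x u v = x v u) (h0 : ∀ u v, 0 ≤ x u v)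
    (hd : ∀ u, x u u = 0) (h1 : ∀ u, ∑ v, x u v = 1)
    (ho : ∀ K : Finset W, Odd K.card → 1 ≤ ∑ u ∈ K, ∑ v ∈ Kᶜ, x u v) :
    ∃ μ : W → W, (∀ u, μ (μ u) = u) ∧ ∀ u, x u (μ u) ≠ 0 := by
  classical
  let G : SimpleGraph W :=
    { Adj := fun u v => x u v ≠ 0
      symm := ⟨fun u v h => by rwa [hs]⟩
      loopless := ⟨fun u h => h (hd u)⟩ }
  have key : ∀ u : Set W, ¬ G.IsTutteViolator u := by
    intro u
    unfold SimpleGraph.IsTutteViolator
    rw [not_lt]
    set H := ((⊤ : G.Subgraph).deleteVerts u).coe with hH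
    let XC : H.ConnectedComponent → Finset W := fun c => (Subtype.val '' c.supp).toFinset
    have hmem : ∀ c a, a ∈ XC c ↔ ∃ hx : a ∈ ((⊤ : G.Subgraph).deleteVerts u).verts,
        H.connectedComponentMk ⟨a, hx⟩ = c := by
      intro c a
      simp only [XC, Set.mem_toFinset, Set.mem_image, SimpleGraph.ConnectedComponent.mem_supp_iff]
      constructor
      · rintro ⟨y, hy, rfl⟩
        exact ⟨y.2, hy⟩
      · rintro ⟨hx, hc⟩
        exact ⟨⟨a, hx⟩, hc, rfl⟩
    have hcard : ∀ c, (XC c).card = c.supp.ncard := by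
      intro c
      rw [← Set.ncard_image_of_injective c.supp Subtype.val_injective, Set.ncard_eq_toFinset_card']
    let O : Finset H.ConnectedComponent := H.oddComponents.toFinset
    let U : Finset W := u.toFinset
    have h3 : ∀ c ∈ O, (1 : ℝ) ≤ ∑ a ∈ XC c, ∑ v ∈ U, x a v := by
      intro c hc
      refine (ho (XC c) (by rw [hcard]; simpa [O] using hc)).trans (sum_le_sum fun a ha => ?_)
      rw [← sum_filter_ne_zero]
      refine sum_le_sum_of_subset_of_nonneg (fun v hv => ?_) fun v _ _ => h0 a v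
      obtain ⟨hv, hadj⟩ := mem_filter.1 hv
      by_contra hu
      have hu' : v ∉ u := by simpa [U] using hu
      obtain ⟨hx, hc⟩ := (hmem c _).1 ha
      have hy : v ∈ ((⊤ : G.Subgraph).deleteVerts u).verts := by simp [hu']
      apply mem_compl.1 hv
      refine (hmem c _).2 ⟨hy, ?_⟩
      rw [← hc]
      refine (SimpleGraph.ConnectedComponent.connectedComponentMk_eq_of_adj ?_).symm
      have hx' : a ∉ u := by simpa using hx
      have hadj' : G.Adj a v := hadj
      simp [hH, SimpleGraph.Subgraph.deleteVerts_adj, hx', hu', hadj']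
    have hdisj : (O : Set H.ConnectedComponent).PairwiseDisjoint XC := by
      intro c _ d _ hcd
      refine disjoint_left.2 fun a a1 a2 => ?_
      obtain ⟨_, hc⟩ := (hmem c _).1 a1
      obtain ⟨_, hd⟩ := (hmem d _).1 a2
      exact hcd (hc.symm.trans hd)
    have h4 : (O.card : ℝ) ≤ U.card := by
      calc (O.card : ℝ) = ∑ _c ∈ O, (1 : ℝ) := by simp
        _ ≤ ∑ c ∈ O, ∑ a ∈ XC c, ∑ v ∈ U, x a v := sum_le_sum h3
        _ = ∑ a ∈ O.biUnion XC, ∑ v ∈ U, x a v := (sum_biUnion hdisj).symm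
        _ ≤ ∑ a, ∑ v ∈ U, x a v := sum_le_univ_sum_of_nonneg fun a => sum_nonneg fun v _ => h0 a v
        _ = ∑ _v ∈ U, (1 : ℝ) := by
          rw [sum_comm]
          exact sum_congr rfl fun v _ => (sum_congr rfl fun a _ => hs a v).trans (h1 v)
        _ = U.card := by simp
    rw [Set.ncard_eq_toFinset_card', Set.ncard_eq_toFinset_card']
    exact_mod_cast h4
  obtain ⟨M, hM⟩ := (SimpleGraph.tutte (G := G)).2 key
  rw [SimpleGraph.Subgraph.isPerfectMatching_iff] at hM
  choose μ hμ hu using hM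
  exact ⟨μ, fun v => (hu (μ v) v (hμ v).symm).symm, fun v => (hμ v).adj_sub⟩

/-- the same for `b`-matchings -/
theorem bmatch (b : W → ℕ) (x : W → W → ℝ) (hs : ∀ u v, x u v = x v u) (h0 : ∀ u v, 0 ≤ x u v)
    (hd : ∀ u, x u u = 0) (h1 : ∀ u, ∑ v, x u v = b u)
    (ho : ∀ K : Finset W, Odd (∑ u ∈ K, b u) → 1 ≤ ∑ u ∈ K, ∑ v ∈ Kᶜ, x u v) :
    ∃ n : W → W → ℕ, (∀ u v, n u v = n v u) ∧ (∀ u v, x u v = 0 → n u v = 0) ∧
      ∀ u, ∑ v, n u v = b u := by
  classical
  have hz : ∀ u v (c : ℝ), (b v : ℝ) * (x u v / (c * b v)) = x u v / c := fun u v c => by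
    by_cases h : (b v : ℝ) = 0
    · have h2 := single_le_sum (f := x v) (fun w _ => h0 v w) (mem_univ u)
      rw [h1, h, hs] at h2
      rw [h, le_antisymm h2 (h0 u v)]
      simp
    · rw [mul_div_assoc', mul_comm c, mul_div_mul_left _ _ h]
  let y : (Σ u, Fin (b u)) → (Σ u, Fin (b u)) → ℝ := fun p q => x p.1 q.1 / (b p.1 * b q.1)
  have ys : ∀ p q, y p q = y q p := fun p q => by simp only [y, hs p.1, mul_comm]
  have y0 : ∀ p q, 0 ≤ y p q := fun p q => div_nonneg (h0 _ _) (by positivity)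
  have y1 : ∀ p, ∑ q, y p q = 1 := fun p => by
    simp only [y, Fintype.sum_sigma, sum_const, card_univ, Fintype.card_fin, nsmul_eq_mul, hz]
    rw [← sum_div, h1, div_self (Nat.cast_ne_zero.2 p.2.pos.ne')]
  obtain ⟨μ, hμ, hx⟩ := match_one y ys y0 (fun p => by simp only [y, hd, zero_div]) y1 (by
    intro K hK
    by_cases h : ∃ p ∈ K, ∃ q ∉ K, p.1 = q.1
    · obtain ⟨p, hp, q, hq, e⟩ := h
      have e1 : ∀ a, y a q = y p a := fun a => by simp only [y, e, hs a.1, mul_comm]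
      have e2 : y p p = 0 := by simp only [y, hd, zero_div]
      rw [← y1 p, ← sum_add_sum_compl K, ← add_sum_erase _ _ hp, ← add_sum_erase _ _ hp, e2,
        zero_add, add_comm]
      refine add_le_add_right (sum_le_sum fun a _ => ?_) _
      rw [← e1]
      exact single_le_sum (f := y a) (fun c _ => y0 a c) (mem_compl.2 hq)
    · have e : ∀ p, p ∈ K ↔ p.1 ∈ K.image Sigma.fst := fun p =>
        ⟨mem_image_of_mem _, fun hp => by
          obtain ⟨q, hq, e⟩ := mem_image.1 hp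
          by_contra hp'
          exact h ⟨q, hq, p, hp', e⟩⟩
      generalize K.image Sigma.fst = L at e
      have e1 : K = L.sigma fun _ => univ := by
        ext p
        simp [e]
      have e2 : Kᶜ = Lᶜ.sigma fun _ => univ := by
        ext p
        simp [e]
      rw [e1, card_sigma] at hK
      rw [e2, e1]
      simp only [card_univ, Fintype.card_fin] at hK
      refine (ho L hK).trans_eq ?_
      simp only [y, sum_sigma, sum_const, card_univ, Fintype.card_fin, nsmul_eq_mul, hz, mul_sum]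
      refine sum_congr rfl fun u _ => sum_congr rfl fun v _ => ?_
      have := hz v u 1
      rwa [one_mul, div_one, hs, eq_comm] at this)
  refine ⟨fun u v => (univ.filter fun p => p.1 = u ∧ (μ p).1 = v).card, fun u v => ?_,
    fun u v h => ?_, fun u => ?_⟩
  · refine card_nbij' μ μ (fun p hp => ?_) (fun p hp => ?_) (fun p _ => hμ p) fun p _ => hμ p
    all_goals
      simp only [coe_filter, mem_univ, true_and, Set.mem_ofPred_eq, hμ] at hp ⊢
      exact hp.symm
  · refine card_eq_zero.2 (filter_eq_empty_iff.2 ?_)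
    rintro p - ⟨rfl, rfl⟩
    exact hx p (by simp only [y, h, zero_div])
  · have e : (univ.filter fun p : (Σ u, Fin (b u)) => p.1 = u) = ({u} : Finset W).sigma
        fun _ => univ := by
      ext p
      simp
    have := card_eq_sum_card_fiberwise (f := fun p => (μ p).1)
      (s := univ.filter fun p : (Σ u, Fin (b u)) => p.1 = u) (t := univ) fun _ _ => mem_univ _
    simp only [filter_filter] at this
    rw [← this, e, card_sigma]
    simp

end Pool.Agent.MP_9a3194_co

end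

section

open Finset
open scoped symmDiff

namespace Pool.Agent.MP_9a3194_co

variable {V : Type} [Fintype V] [DecidableEq V] (S : Str V)

section abs

variable {D W : Type} [Fintype D] [Fintype W] [DecidableEq W]

private theorem ori_URound (r : D → D) (h1 : ∀ d, r (r d) = d) (h2 : ∀ d, r d ≠ d) :
    ∃ o : D → Bool, ∀ d, o (r d) = !o d := by
  refine ⟨fun d => decide (Fintype.equivFin D d < Fintype.equivFin D (r d)), fun d => ?_⟩
  have := (Fintype.equivFin D).injective.ne (h2 d)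
  simp only
  rw [h1, ← decide_not, decide_eq_decide, not_lt]
  exact ⟨le_of_lt, fun h => lt_of_le_of_ne h this⟩

private theorem half_URound (r : D → D) (h1 : ∀ d, r (r d) = d) (o : D → Bool)
    (ho : ∀ d, o (r d) = !o d) (t : D → Bool) (ht : ∀ d, t (r d) = t d) :
    (univ.filter fun d => t d = false).card =
      2 * (univ.filter fun d => t d = false ∧ o d = true).card := by
  rw [← card_filter_add_card_filter_not (s := univ.filter fun d => t d = false)
    fun d => o d = true, filter_filter, filter_filter, two_mul]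
  congr 1
  refine card_bij' (fun d _ => r d) (fun d _ => r d) ?_ ?_ (fun d _ => h1 d) fun d _ => h1 d <;>
    simp [ho, ht]

private theorem sum_pair_URound (p q : D → W) (c : D → ℝ) (A B : Finset W) :
    ∑ u ∈ A, ∑ v ∈ B, ∑ d, (if p d = u ∧ q d = v then c d else 0) =
      ∑ d, if p d ∈ A ∧ q d ∈ B then c d else 0 := by
  simp only [sum_comm (t := (univ : Finset D))]
  refine sum_congr rfl fun d _ => ?_
  simp [ite_and]

private theorem graph_URound (p q : D → W) (c : D → ℝ) (hc : ∀ d, 0 ≤ c d) (hpq : ∀ d, p d ≠ q d)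
    (bb : W → ℕ)
    (hb : ∀ w, ∑ d, ((if p d = w then c d else 0) + if q d = w then c d else 0) = bb w)
    (hK : ∀ K : Finset W, Odd (∑ u ∈ K, bb u) → 1 ≤ crs p q c K) :
    ∃ n : W → W → ℕ, (∀ u v, n u v = n v u) ∧
      (∀ u v, n u v ≠ 0 → ∃ d, (p d = u ∧ q d = v) ∨ (q d = u ∧ p d = v)) ∧
      ∀ u, ∑ v, n u v = bb u := by
  obtain ⟨n, h1, h2, h3⟩ := bmatch bb (fun u v => ∑ d, (if p d = u ∧ q d = v then c d else 0) +
    ∑ d, if q d = u ∧ p d = v then c d else 0)
    (fun u v => by simp only [and_comm (a := q _ = _)]; exact add_comm _ _)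
    (fun u v => add_nonneg (sum_nonneg fun d _ => ite_nonneg (hc d) le_rfl)
      (sum_nonneg fun d _ => ite_nonneg (hc d) le_rfl))
    (fun u => by
      rw [sum_eq_zero fun d _ => if_neg fun h => hpq d (h.1.trans h.2.symm),
        sum_eq_zero fun d _ => if_neg fun h => hpq d (h.2.trans h.1.symm), add_zero])
    (fun u => by
      have e1 := sum_pair_URound p q c {u} univ
      have e2 := sum_pair_URound q p c {u} univ
      simp only [sum_singleton, mem_singleton, mem_univ, and_true] at e1 e2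
      rw [sum_add_distrib, e1, e2, ← sum_add_distrib, hb])
    (fun K h => (hK K h).trans (le_of_eq (by
      simp only [sum_add_distrib]
      rw [sum_pair_URound, sum_pair_URound, ← sum_add_distrib]
      refine sum_congr rfl fun d _ => ?_
      by_cases h1 : p d ∈ K <;> by_cases h2 : q d ∈ K <;> simp [h1, h2])))
  refine ⟨n, h1, fun u v h => ?_, h3⟩
  by_contra h4
  simp only [not_exists, not_or] at h4
  refine h (h2 u v ?_)
  rw [sum_eq_zero fun d _ => if_neg (h4 d).1, sum_eq_zero fun d _ => if_neg (h4 d).2, add_zero]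

omit [Fintype W] in
private theorem par_URound (p q : D → W) (c : D → ℝ) (hc : ∀ d, 0 ≤ c d) (bb : W → ℕ)
    (hb : ∀ w, ∑ d, ((if p d = w then c d else 0) + if q d = w then c d else 0) = bb w)
    (K : Finset W) (hK : Odd (∑ u ∈ K, bb u)) (χ : W → Bool)
    (hχ : ∀ d, p d ∈ K → q d ∈ K → χ (p d) ≠ χ (q d)) : 1 ≤ crs p q c K := by
  have h1 : Odd (∑ u ∈ K, if χ u then (bb u : ℤ) else -bb u) := by
    have e : ∑ u ∈ K, (if χ u then (bb u : ℤ) else -bb u) =
        ((∑ u ∈ K, bb u : ℕ) : ℤ) - 2 * ∑ u ∈ K, if χ u then 0 else (bb u : ℤ) := by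
      rw [Nat.cast_sum, mul_sum, ← sum_sub_distrib]
      refine sum_congr rfl fun u _ => ?_
      split_ifs <;> ring
    rw [e]
    exact (hK.natCast (R := ℤ)).sub_even (even_two_mul _)
  have h2 : (1 : ℝ) ≤ |∑ u ∈ K, sgn (χ u) * bb u| := by
    have h3 := Int.one_le_abs fun h => Int.not_odd_zero (h ▸ h1)
    have e : ∑ u ∈ K, sgn (χ u) * bb u =
        ((∑ u ∈ K, if χ u then (bb u : ℤ) else -bb u : ℤ) : ℝ) := by
      push_cast
      refine sum_congr rfl fun u _ => ?_
      cases χ u <;> simp [sgn]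
    rw [e]
    exact_mod_cast h3
  refine h2.trans ?_
  simp only [← hb, mul_sum]
  rw [sum_comm]
  refine (abs_sum_le_sum_abs _ _).trans (sum_le_sum fun d _ => ?_)
  simp only [mul_add, sum_add_distrib, mul_ite, mul_zero, sum_ite_eq]
  by_cases h1 : p d ∈ K <;> by_cases h2 : q d ∈ K
  · simp [h1, h2, sgn_of_ne (hχ d h1 h2)]
  all_goals simp [h1, h2, abs_mul, abs_sgn, abs_of_nonneg (hc d)]

end abs

/-- the second end of the edge of a dart in the subdivided graph -/
private def nb_URound (t o : Dt V → Bool) (d : Dt V) : V ⊕ Dt V :=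
  if t d then .inl (S.hd d) else .inr (if o d then d else S.rv d)

omit [Fintype V] [DecidableEq V] in
private theorem nb_inl_URound {t o : Dt V → Bool} {d : Dt V} {v : V} :
    nb_URound S t o d = .inl v ↔ t d = true ∧ S.hd d = v := by
  unfold nb_URound
  split_ifs with h <;> simp [h]

omit [Fintype V] [DecidableEq V] in
private theorem nb_inr_URound {t o : Dt V → Bool} (ht : ∀ d, t (S.rv d) = t d)
    (ho : ∀ d, o (S.rv d) = !o d) {d e : Dt V} :
    nb_URound S t o d = .inr e ↔ (t e = false ∧ o e = true) ∧ (d = e ∨ d = S.rv e) := by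
  unfold nb_URound
  constructor
  · intro h
    split_ifs at h with h1 h2 <;> obtain rfl := Sum.inr.inj h
    · simp [h1, h2]
    · simp [h1, h2, ht, ho, S.rv_rv]
  · rintro ⟨⟨h1, h2⟩, rfl | rfl⟩ <;> simp [h1, h2, ht, ho, S.rv_rv]

omit [Fintype V] [DecidableEq V] in
private theorem nb_rv_URound {t o : Dt V → Bool} (ht : ∀ d, t (S.rv d) = t d)
    (ho : ∀ d, o (S.rv d) = !o d) {d : Dt V} (h : t d = false) :
    ∃ e, (t e = false ∧ o e = true) ∧ (e = d ∨ e = S.rv d) ∧ nb_URound S t o d = .inr e ∧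
      nb_URound S t o (S.rv d) = .inr e := by
  cases h1 : o d
  · exact ⟨S.rv d, by simp [ht, ho, h, h1], Or.inr rfl, by simp [nb_URound, h, h1],
      by simp [nb_URound, h, h1, ht, ho]⟩
  · exact ⟨d, ⟨h, h1⟩, Or.inl rfl, by simp [nb_URound, h, h1],
      by simp [nb_URound, h, h1, ht, ho, S.rv_rv]⟩

omit [DecidableEq V] in
private theorem sum_rv_URound (f : Dt V → ℝ) : ∑ d, f (S.rv d) = ∑ d, f d :=
  (Function.Involutive.bijective S.rv_rv).sum_comp f

private theorem big_URound {t o : Dt V → Bool} (ht : ∀ d, t (S.rv d) = t d)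
    (ho : ∀ d, o (S.rv d) = !o d) {m : ℕ} {x : Dt V → ℝ} (hx0 : ∀ d, 0 < x d)
    (hx : ∀ d, 1 ≤ m * x d) (h1 : ∀ d, t d = true → x (S.rv d) = x d) (K : Finset (V ⊕ Dt V)) :
    (S.b (univ.filter fun v => Sum.inl v ∈ K) : ℝ) ≤ m * (2 * crs (fun d : Dt V => Sum.inl d.1)
      (nb_URound S t o) (fun d => if t d then x d / 2 else x d) K) := by
  rw [two_mul, crs]
  nth_rw 2 [← sum_rv_URound S]
  rw [← sum_add_distrib, mul_sum, Str.b, Str.bd, card_filter]
  push_cast
  refine sum_le_sum fun d _ => ?_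
  have h2 := hx d
  have h3 := hx (S.rv d)
  have h4 := hx0 d
  have h5 := hx0 (S.rv d)
  simp only [mem_filter, mem_univ, true_and, S.rv_fst, ht]
  cases h : t d
  · obtain ⟨e, -, -, e1, e2⟩ := nb_rv_URound S ht ho h
    rw [e1, e2]
    by_cases k1 : Sum.inl d.1 ∈ K <;> by_cases k2 : Sum.inl (S.hd d) ∈ K <;>
      by_cases k3 : Sum.inr e ∈ K <;> simp [k1, k2, k3, h2, h3] <;> positivity
  · rw [(nb_inl_URound S).2 ⟨h, rfl⟩, (nb_inl_URound S).2 ⟨(ht d).trans h, S.hd_rv d⟩, h1 d h]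
    by_cases k1 : Sum.inl d.1 ∈ K <;> by_cases k2 : Sum.inl (S.hd d) ∈ K <;> simp [k1, k2, h2]

private theorem col_URound {t o : Dt V → Bool} (ht : ∀ d, t (S.rv d) = t d)
    (ho : ∀ d, o (S.rv d) = !o d) {m : ℕ} (hI : S.Iso1 m) (hμ : ∀ v, S.μ v ≠ v)
    (K : Finset (V ⊕ Dt V)) {X : Finset V} (hX : ∀ v, v ∈ X ↔ Sum.inl v ∈ K) (h1 : X.card < m)
    (h2 : X.card ≤ Xᶜ.card) : ∃ χ : V ⊕ Dt V → Bool, ∀ d : Dt V, Sum.inl d.1 ∈ K →
      nb_URound S t o d ∈ K → χ (Sum.inl d.1) ≠ χ (nb_URound S t o d) := by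
  obtain ⟨χ, h⟩ := hI.two_col hμ t ht X h1 h2
  refine ⟨Sum.elim χ fun e => !χ (if e.1 ∈ X then e.1 else S.hd e), fun d k1 k2 => ?_⟩
  rw [← hX] at k1
  cases k : t d
  · obtain ⟨e, -, rfl | rfl, e1, -⟩ := nb_rv_URound S ht ho k
    · simp [e1, k1]
    · by_cases k3 : S.hd d ∈ X
      · simp [e1, S.rv_fst, k3, h d k1 k3, k]
      · simp [e1, S.rv_fst, k3, S.hd_rv]
  · rw [(nb_inl_URound S).2 ⟨k, rfl⟩] at k2 ⊢
    simp [h d k1 ((hX _).2 k2), k]

/-- rounding on a signed cubic graph -/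
theorem round (hi : ∀ u, Function.Injective (S.step u)) (hl : ∀ u i, S.step u i ≠ u)
    (t : Dt V → Bool) (ht : ∀ d, t (S.rv d) = t d) (a b m : ℕ) (hI : S.Iso1 m)
    (x : Dt V → ℝ) (hx0 : ∀ d, 0 < x d) (hx : ∀ d, 1 ≤ m * x d) (hs : ∀ v, ∑ i, x (v, i) = a)
    (h1 : ∀ d, t d = true → x (S.rv d) = x d) (h2 : ∀ d, t d = false → x d + x (S.rv d) = b)
    (hp : 4 ∣ (univ.filter fun d => t d = false).card) :
    ∃ n : Dt V → ℕ, (∀ v, ∑ i, n (v, i) = a) ∧ (∀ d, t d = true → n (S.rv d) = n d) ∧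
      ∀ d, t d = false → n d + n (S.rv d) = b := by
  rcases isEmpty_or_nonempty V with hV | ⟨⟨v₀⟩⟩
  · exact ⟨0, fun v => isEmptyElim v, fun d => isEmptyElim d.1, fun d => isEmptyElim d.1⟩
  have hm : 0 < m := Nat.pos_of_ne_zero fun h => by
    have := hx (v₀, 0)
    rw [h, Nat.cast_zero, zero_mul] at this
    exact absurd this (by norm_num)
  have hμ : ∀ v, S.μ v ≠ v := fun v => hl v 0
  have hrv : ∀ d, S.rv d ≠ d := fun d h => hl d.1 d.2 (congrArg Prod.fst h)
  obtain ⟨o, ho⟩ := ori_URound S.rv S.rv_rv hrv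
  obtain ⟨o', ho'⟩ := ori_URound S.μ S.μμ hμ
  let bb : V ⊕ Dt V → ℕ := Sum.elim (fun _ => a) fun e => if t e = false ∧ o e = true then b else 0
  have hev : Even (∑ w, bb w) := by
    have e1 := half_URound S.μ S.μμ o' ho' (fun _ => false) fun _ => rfl
    have e2 := half_URound S.rv S.rv_rv o ho t ht
    rw [Fintype.sum_sum_type]
    simp only [bb, Sum.elim_inl, Sum.elim_inr, ← sum_filter, sum_const, smul_eq_mul]
    rw [filter_true_of_mem fun _ _ => rfl] at e1
    exact Even.add (Even.mul_right ⟨_, e1.trans (two_mul _)⟩ _)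
      (Even.mul_right (even_iff_two_dvd.2 (by omega)) _)
  have hc : ∀ d, 0 ≤ if t d then x d / 2 else x d := fun d => by
    have := hx0 d
    positivity
  have hb : ∀ w, ∑ d : Dt V, ((if Sum.inl d.1 = w then (if t d then x d / 2 else x d) else 0) +
      if nb_URound S t o d = w then (if t d then x d / 2 else x d) else 0) = bb w := by
    rintro (v | e)
    · rw [sum_add_distrib]
      nth_rw 2 [← sum_rv_URound S]
      rw [← sum_add_distrib]
      have e : ∑ d : Dt V, (if d.1 = v then x d else 0) = a := by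
        rw [Fintype.sum_prod_type, sum_eq_single v (fun u _ h => by simp [h]) (by simp), ← hs v]
        simp
      refine Eq.trans (sum_congr rfl fun d _ => ?_) e
      simp only [Sum.inl.injEq, nb_inl_URound, ht, S.hd_rv]
      cases k : t d
      · simp
      · rw [h1 d k]
        split_ifs <;> simp_all
    · simp only [reduceCtorEq, if_false, zero_add, nb_inr_URound S ht ho, bb, Sum.elim_inr]
      split_ifs with k
      · rw [← sum_filter, filter_congr (q := fun d => d ∈ ({e, S.rv e} : Finset _))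
          (fun d _ => by simp [k]), filter_mem_eq_inter, univ_inter, sum_pair (hrv e).symm]
        simp [ht, k.1, h2 e k.1]
      · simp [k]
  obtain ⟨n, n1, n2, n3⟩ := graph_URound (fun d : Dt V => Sum.inl d.1) (nb_URound S t o) _ hc
    (fun d h => hl d.1 d.2 ((nb_inl_URound S).1 h.symm).2) bb hb fun K hK => by
      have hbig := big_URound S ht ho hx0 hx h1 K
      set X := univ.filter fun v => Sum.inl v ∈ K with hX
      by_cases k : 2 * m ≤ S.b X
      · have k1 : (2 * m : ℝ) ≤ S.b X := by exact_mod_cast k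
        have k2 : (0 : ℝ) < m := by exact_mod_cast hm
        nlinarith
      have k1 : min X.card Xᶜ.card < m := by
        rcases X.eq_empty_or_nonempty with h | h
        · simp [h, hm]
        rcases Xᶜ.eq_empty_or_nonempty with h' | h'
        · simp [h', hm]
        have := hI X h h'
        omega
      rcases le_total X.card Xᶜ.card with k2 | k2
      · obtain ⟨χ, hχ⟩ := col_URound S ht ho hI hμ K (X := X) (by simp [hX]) (by omega) k2
        exact par_URound _ _ _ hc bb hb K hK χ hχ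
      · obtain ⟨χ, hχ⟩ := col_URound S ht ho hI hμ Kᶜ (X := Xᶜ) (by simp [hX]) (by omega)
          (by rwa [compl_compl])
        refine (par_URound _ _ _ hc bb hb Kᶜ ?_ χ hχ).trans (le_of_eq ?_)
        · rw [← sum_add_sum_compl K] at hev
          exact Nat.not_even_iff_odd.1 fun h =>
            Nat.not_even_iff_odd.2 hK ((Nat.even_add.1 hev).2 h)
        · simp only [crs, mem_compl, not_iff_not]
  refine ⟨fun d => n (.inl d.1) (nb_URound S t o d), fun v => ?_, fun d k => ?_, fun d k => ?_⟩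
  · have inj : Function.Injective fun i => nb_URound S t o (v, i) := by
      intro i j h
      cases k : t (v, j)
      · obtain ⟨e, -, -, e1, -⟩ := nb_rv_URound S ht ho k
        obtain ⟨-, a1⟩ := (nb_inr_URound S ht ho).1 (h.trans e1)
        obtain ⟨-, a2⟩ := (nb_inr_URound S ht ho).1 e1
        rcases a1 with a1 | a1 <;> rcases a2 with a2 | a2
        · exact congrArg Prod.snd (a1.trans a2.symm)
        · exact absurd (congrArg Prod.fst (a1 ▸ a2)).symm (hl v i)
        · exact absurd (congrArg Prod.fst (a2 ▸ a1)).symm (hl v j)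
        · exact congrArg Prod.snd (a1.trans a2.symm)
      · exact hi v ((nb_inl_URound S).1 (h.trans ((nb_inl_URound S).2 ⟨k, rfl⟩))).2
    refine Eq.trans ?_ (n3 (.inl v))
    refine sum_of_injOn (fun i => nb_URound S t o (v, i)) inj.injOn (fun _ _ => mem_univ _)
      (fun w _ hw => ?_) fun _ _ => rfl
    by_contra h
    obtain ⟨d, ⟨k1, k2⟩ | ⟨k1, k2⟩⟩ := n2 _ _ h
    · obtain rfl := Sum.inl.inj k1
      exact hw ⟨d.2, mem_coe.2 (mem_univ _), k2⟩
    · obtain ⟨k3, rfl⟩ := (nb_inl_URound S).1 k1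
      exact hw ⟨(S.rv d).2, mem_coe.2 (mem_univ _),
        ((nb_inl_URound S).2 ⟨(ht d).trans k3, S.hd_rv d⟩).trans k2⟩
  · simp only
    rw [(nb_inl_URound S).2 ⟨k, rfl⟩, (nb_inl_URound S).2 ⟨(ht d).trans k, S.hd_rv d⟩, n1,
      S.rv_fst]
  · obtain ⟨e, e0, e3, e1, e2⟩ := nb_rv_URound S ht ho k
    have h3 : ∑ w, n (.inr e) w = b := (n3 _).trans (if_pos e0)
    simp only
    rw [e1, e2, n1, n1 _ (.inr e), ← h3, ← sum_pair (f := n (.inr e))
      (b := .inl (S.rv d).1) fun h => hl d.1 d.2 (Sum.inl.inj h).symm]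
    refine sum_subset (subset_univ _) fun w _ hw => ?_
    by_contra h
    obtain ⟨d', ⟨k1, -⟩ | ⟨k1, rfl⟩⟩ := n2 _ _ h
    · exact Sum.inl_ne_inr k1
    · apply hw
      rcases ((nb_inr_URound S ht ho).1 k1).2 with rfl | rfl <;> rcases e3 with rfl | rfl <;>
        simp [S.rv_rv]

end Pool.Agent.MP_9a3194_co

end
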