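import Pool.Agent.Mg.F9a3194.G505f3a

section

open Finset
open scoped symmDiff

namespace Pool.Agent.MP_9a3194_co

variable {V : Type} [Fintype V] [DecidableEq V] (S : Str V)

open Classical in
private theorem card_sat_Kar (lab : V → V) :
    (univ.filter (Sat lab)).card ≤ 2 ^ (univ.image lab).card := by
  rw [← card_powerset]
  refine card_le_card_of_injOn (fun U => U.image lab) ?_ ?_
  · intro U _
    simp only [coe_powerset, Set.mem_preimage, Set.mem_powerset_iff, coe_subset]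
    exact image_subset_image (subset_univ U)
  · intro U hU U' hU' h
    simp only [coe_filter, mem_univ, true_and, Set.mem_ofPred_eq] at hU hU'
    have key : ∀ A B : Finset V, Sat lab B → A.image lab = B.image lab → A ⊆ B := by
      intro A B hB hAB v hv
      have : lab v ∈ B.image lab := hAB ▸ mem_image_of_mem lab hv
      obtain ⟨u, hu, huv⟩ := mem_image.mp this
      exact (hB u v huv).mp hu
    exact Subset.antisymm (key U U' hU' h) (key U' U hU h.symm)

/-- merge the class of `y` into the class of `x` -/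
private def mrg_Kar (lab : V → V) (x y : V) : V → V :=
  fun v => if lab v = lab y then lab x else lab v

private theorem mrg_card_Kar (lab : V → V) {x y : V} (h : lab x ≠ lab y) :
    (univ.image (mrg_Kar lab x y)).card + 1 = (univ.image lab).card := by
  have : univ.image (mrg_Kar lab x y) = (univ.image lab).erase (lab y) := by
    ext c
    simp only [mem_image, mem_univ, true_and, mem_erase, mrg_Kar]
    constructor
    · rintro ⟨v, rfl⟩
      split_ifs with hv
      · exact ⟨h, x, rfl⟩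
      · exact ⟨hv, v, rfl⟩
    · rintro ⟨hc, v, rfl⟩
      exact ⟨v, if_neg hc⟩
  rw [this, card_erase_add_one (mem_image_of_mem lab (mem_univ y))]

omit [Fintype V] in
private theorem sat_of_mrg_Kar {lab : V → V} {x y : V} {U : Finset V}
    (h : Sat (mrg_Kar lab x y) U) : Sat lab U := by
  intro u v huv
  refine h u v ?_
  simp only [mrg_Kar, huv]

omit [Fintype V] in
private theorem mrg_of_sat_Kar {lab : V → V} {x y : V} {U : Finset V}
    (h : Sat lab U) (hxy : x ∈ U ↔ y ∈ U) : Sat (mrg_Kar lab x y) U := by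
  intro u v huv
  simp only [mrg_Kar] at huv
  split_ifs at huv with h1 h2 h2
  · exact (h u y h1).trans (h v y h2).symm
  · exact (h u y h1).trans (hxy.symm.trans (h x v huv))
  · exact (h u x huv).trans (hxy.trans (h v y h2).symm)
  · exact h u v huv

private theorem card_D_Kar (Λ : ℕ) (lab : V → V) (h2 : 2 ≤ (univ.image lab).card)
    (hc : ∀ U : Finset V, Sat lab U → U.Nonempty → Uᶜ.Nonempty → 2 * Λ ≤ S.b U) :
    (univ.image lab).card * Λ ≤
      (univ.filter fun d : Dt V => lab d.1 ≠ lab (S.hd d)).card := by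
  rw [card_eq_sum_card_fiberwise (f := fun d : Dt V => lab d.1) (t := univ.image lab)
    (fun d _ => mem_image_of_mem lab (mem_univ d.1))]
  rw [← smul_eq_mul]
  refine card_nsmul_le_sum _ _ _ fun c hcm => ?_
  obtain ⟨x, -, rfl⟩ := mem_image.mp hcm
  have hP : Sat lab (univ.filter fun v => lab v = lab x) := by
    intro u v huv
    simp only [mem_filter, mem_univ, true_and, huv]
  have hne : (univ.filter fun v => lab v = lab x)ᶜ.Nonempty := by
    obtain ⟨c, hc1, hc2⟩ := exists_mem_ne (by omega : 1 < (univ.image lab).card) (lab x)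
    obtain ⟨y, -, rfl⟩ := mem_image.mp hc1
    exact ⟨y, by simpa using hc2⟩
  have h1 := hc _ hP ⟨x, by simp⟩ hne
  rw [S.b_eq] at h1
  have h3 : S.out (univ.filter fun v => lab v = lab x) =
      (univ.filter fun d : Dt V => lab d.1 ≠ lab (S.hd d)).filter fun d => lab d.1 = lab x := by
    ext d
    rw [S.mem_out]
    simp only [mem_filter, mem_univ, true_and]
    constructor
    · rintro ⟨h4, h5⟩
      exact ⟨fun h6 => h5 (h6 ▸ h4), h4⟩
    · rintro ⟨h4, h5⟩
      exact ⟨h5, fun h6 => h4 (h5.trans h6.symm)⟩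
  rw [h3] at h1
  omega

private theorem exp_le_Kar {x : ℝ} (h0 : 0 ≤ x) (h1 : 2 * x ≤ 1) :
    Real.exp (-(2 * x)) ≤ 1 - x := by
  have h2 : 2 * x + 1 ≤ Real.exp (2 * x) := Real.add_one_le_exp _
  rw [Real.exp_neg, inv_le_iff_one_le_mul₀ (Real.exp_pos _)]
  nlinarith [mul_nonneg h0 (sub_nonneg.mpr h1)]

private theorem four_le_Kar : (4 : ℝ) ≤ Real.exp (3 / 2) := by
  have h1 := Real.exp_one_gt_d9
  have h2 : (1 / 2 : ℝ) + 1 ≤ Real.exp (1 / 2) := Real.add_one_le_exp _
  have h3 : Real.exp (3 / 2) = Real.exp 1 * Real.exp (1 / 2) := by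
    rw [← Real.exp_add]; norm_num
  rw [h3]
  nlinarith

open Classical in
private theorem gen_Kar (Λ N₀ : ℕ) (hΛ : 3 ≤ Λ) (hN : 1 ≤ N₀) (N : ℕ) :
    ∀ (lab : V → V), (univ.image lab).card = N →
    (∀ U : Finset V, Sat lab U → U.Nonempty → Uᶜ.Nonempty → 2 * Λ ≤ S.b U) →
    ∀ g : ℝ, 0 ≤ g → 1 + 2 / (Λ : ℝ) * Real.log ((N : ℝ) / N₀) ≤ g →
    ∑ U ∈ univ.filter (Sat lab), Real.exp (-g * S.b U) ≤ 2 ^ N₀ + 1 - (1 / 2) ^ N := by
  have hΛr : (3 : ℝ) ≤ Λ := by exact_mod_cast hΛ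
  have hN0r : (1 : ℝ) ≤ N₀ := by exact_mod_cast hN
  have base : ∀ (N : ℕ) (lab : V → V), (univ.image lab).card = N → N ≤ N₀ → ∀ g : ℝ, 0 ≤ g →
      ∑ U ∈ univ.filter (Sat lab), Real.exp (-g * S.b U) ≤ 2 ^ N₀ + 1 - (1 / 2) ^ N := by
    intro N lab hlab hle g hg
    have h1 : ∑ U ∈ univ.filter (Sat lab), Real.exp (-g * S.b U) ≤
        (univ.filter (Sat lab)).card • (1 : ℝ) := by
      refine sum_le_card_nsmul _ _ _ fun U _ => ?_
      rw [Real.exp_le_one_iff]
      have : (0 : ℝ) ≤ S.b U := Nat.cast_nonneg _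
      nlinarith
    have h2 : ((univ.filter (Sat lab)).card : ℝ) ≤ 2 ^ N₀ := by
      have h3 := card_sat_Kar lab
      rw [hlab] at h3
      have h4 : 2 ^ N ≤ 2 ^ N₀ := Nat.pow_le_pow_right (by norm_num) hle
      exact_mod_cast h3.trans h4
    have h5 : ((1 : ℝ) / 2) ^ N ≤ 1 := pow_le_one₀ (by norm_num) (by norm_num)
    rw [nsmul_eq_mul, mul_one] at h1
    linarith
  induction N with
  | zero => exact fun lab hlab _ g hg _ => base 0 lab hlab (Nat.zero_le _) g hg
  | succ M ih =>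
    intro lab hlab hc g hg hinv
    by_cases hle : M + 1 ≤ N₀
    · exact base _ lab hlab hle g hg
    have hM : N₀ ≤ M := by omega
    have hMr : (N₀ : ℝ) ≤ M := by exact_mod_cast hM
    have hD := card_D_Kar S Λ lab (by omega) hc
    rw [hlab] at hD
    set D := univ.filter fun d : Dt V => lab d.1 ≠ lab (S.hd d) with hDdef
    have hDr : ((M : ℝ) + 1) * Λ ≤ D.card := by exact_mod_cast hD
    have hNΛ : 0 < ((M : ℝ) + 1) * Λ := by positivity
    have hDpos : (0 : ℝ) < D.card := lt_of_lt_of_le hNΛ hDr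
    have hlog0 : 0 ≤ Real.log ((M : ℝ) / N₀) :=
      Real.log_nonneg ((one_le_div (by linarith)).mpr hMr)
    have hlog : Real.log ((M : ℝ) / N₀) + 1 / ((M : ℝ) + 1) ≤
        Real.log (((M + 1 : ℕ) : ℝ) / N₀) := by
      have h1 : Real.log ((M : ℝ) / ((M : ℝ) + 1)) ≤ (M : ℝ) / ((M : ℝ) + 1) - 1 :=
        Real.log_le_sub_one_of_pos (div_pos (by linarith) (by linarith))
      have h2 : (M : ℝ) / ((M : ℝ) + 1) - 1 = -(1 / ((M : ℝ) + 1)) := by
        field_simp; ring
      rw [Real.log_div (by linarith) (by linarith)] at h1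
      push_cast
      rw [Real.log_div (by linarith) (by linarith), Real.log_div (by linarith) (by linarith)]
      linarith
    set g' : ℝ := g - 2 / (((M : ℝ) + 1) * Λ) with hg'
    have hinv' : 1 + 2 / (Λ : ℝ) * Real.log ((M : ℝ) / N₀) ≤ g' := by
      have h1 : 2 / (((M : ℝ) + 1) * Λ) = 2 / (Λ : ℝ) * (1 / ((M : ℝ) + 1)) := by
        field_simp
      have h2 : 0 ≤ 2 / (Λ : ℝ) := by positivity
      have h3 := mul_le_mul_of_nonneg_left hlog h2
      rw [hg', h1]
      linarith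
    have hg'1 : 1 ≤ g' := by
      have : 0 ≤ 2 / (Λ : ℝ) * Real.log ((M : ℝ) / N₀) := by positivity
      linarith
    have hg1 : 1 ≤ g := by
      have : 0 ≤ 2 / (((M : ℝ) + 1) * Λ) := by positivity
      linarith
    -- the contracted sums
    have hsub : ∀ d ∈ D, ∑ U ∈ univ.filter (Sat (mrg_Kar lab d.1 (S.hd d))),
        Real.exp (-g' * S.b U) ≤ 2 ^ N₀ + 1 - (1 / 2) ^ M := by
      intro d hd
      have hd' : lab d.1 ≠ lab (S.hd d) := (mem_filter.mp hd).2
      refine ih _ ?_ (fun U hU => hc U (sat_of_mrg_Kar hU)) g' (by linarith) hinv'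
      have := mrg_card_Kar lab hd'
      omega
    -- termwise bound
    have hterm : ∀ U ∈ univ.filter (Sat lab), Real.exp (-g * S.b U) ≤
        (D.card : ℝ)⁻¹ * ∑ d ∈ D, (if Sat (mrg_Kar lab d.1 (S.hd d)) U then
          Real.exp (-g' * S.b U) else 0) + (1 / 4) ^ (M + 1) := by
      intro U hU
      have hU' : Sat lab U := (mem_filter.mp hU).2
      have hb0 : (0 : ℝ) ≤ S.b U := Nat.cast_nonneg _
      have hnn : 0 ≤ (D.card : ℝ)⁻¹ * ∑ d ∈ D, (if Sat (mrg_Kar lab d.1 (S.hd d)) U then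
          Real.exp (-g' * S.b U) else 0) := by
        refine mul_nonneg (by positivity) (sum_nonneg fun d _ => ?_)
        split_ifs
        · positivity
        · exact le_rfl
      by_cases hsm : 2 * (S.b U : ℝ) ≤ D.card
      · have h1 : ((D.card : ℝ) - S.b U) * Real.exp (-g' * S.b U) ≤
            ∑ d ∈ D, (if Sat (mrg_Kar lab d.1 (S.hd d)) U then
              Real.exp (-g' * S.b U) else 0) := by
          rw [← sum_filter, sum_const, nsmul_eq_mul]
          refine mul_le_mul_of_nonneg_right ?_ (Real.exp_pos _).le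
          have h2 : D \ S.bd U ⊆ D.filter fun d => Sat (mrg_Kar lab d.1 (S.hd d)) U := by
            intro d hd
            rw [mem_sdiff, S.mem_bd, not_not] at hd
            exact mem_filter.mpr ⟨hd.1, mrg_of_sat_Kar hU' hd.2⟩
          have h3 := card_le_card h2
          have h4 := le_card_sdiff (S.bd U) D
          have h5 : D.card ≤ (D.filter fun d => Sat (mrg_Kar lab d.1 (S.hd d)) U).card +
              S.b U := by
            unfold Str.b
            omega
          have h6 : (D.card : ℝ) ≤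
              (D.filter fun d => Sat (mrg_Kar lab d.1 (S.hd d)) U).card + (S.b U : ℝ) := by
            exact_mod_cast h5
          linarith
        have h2 : Real.exp (-(2 * ((S.b U : ℝ) / D.card))) ≤ 1 - (S.b U : ℝ) / D.card :=
          exp_le_Kar (by positivity) (by
            rw [← mul_div_assoc, div_le_one hDpos]; exact hsm)
        have h3 : Real.exp (-g * S.b U) ≤
            Real.exp (-(2 * ((S.b U : ℝ) / D.card))) * Real.exp (-g' * S.b U) := by
          rw [← Real.exp_add, Real.exp_le_exp, hg']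
          have h4 : (S.b U : ℝ) / D.card ≤ (S.b U : ℝ) / (((M : ℝ) + 1) * Λ) :=
            div_le_div_of_nonneg_left hb0 hNΛ hDr
          have h5 : 2 / (((M : ℝ) + 1) * Λ) * S.b U =
              2 * ((S.b U : ℝ) / (((M : ℝ) + 1) * Λ)) := by ring
          nlinarith
        have h6 : (1 - (S.b U : ℝ) / D.card) * Real.exp (-g' * S.b U) =
            (D.card : ℝ)⁻¹ * (((D.card : ℝ) - S.b U) * Real.exp (-g' * S.b U)) := by
          field_simp
        have h7 := mul_le_mul_of_nonneg_left h1 (inv_nonneg.mpr hDpos.le)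
        have h8 := mul_le_mul_of_nonneg_right h2 (Real.exp_pos (-g' * S.b U)).le
        have h9 : (0 : ℝ) ≤ (1 / 4) ^ (M + 1) := by positivity
        linarith
      · push Not at hsm
        have h1 : Real.exp (-g * S.b U) ≤ (1 / 4) ^ (M + 1) := by
          have h2 : -g * S.b U ≤ ((M + 1 : ℕ) : ℝ) * (-(3 / 2)) := by
            push_cast
            have h3 : ((M : ℝ) + 1) * 3 ≤ ((M : ℝ) + 1) * Λ :=
              mul_le_mul_of_nonneg_left hΛr (by positivity)
            nlinarith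
          refine (Real.exp_le_exp.mpr h2).trans ?_
          rw [Real.exp_nat_mul]
          refine pow_le_pow_left₀ (Real.exp_pos _).le ?_ _
          rw [Real.exp_neg, one_div]
          exact inv_anti₀ (by norm_num) four_le_Kar
        linarith
    refine (sum_le_sum hterm).trans ?_
    rw [sum_add_distrib, ← mul_sum, sum_comm, sum_const, nsmul_eq_mul]
    have h1 : ∑ d ∈ D, ∑ U ∈ univ.filter (Sat lab), (if Sat (mrg_Kar lab d.1 (S.hd d)) U then
        Real.exp (-g' * S.b U) else 0) ≤ D.card • ((2 : ℝ) ^ N₀ + 1 - (1 / 2) ^ M) := by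
      refine sum_le_card_nsmul _ _ _ fun d hd => ?_
      refine le_trans ?_ (hsub d hd)
      rw [← sum_filter]
      refine sum_le_sum_of_subset_of_nonneg ?_ fun U _ _ => (Real.exp_pos _).le
      intro U hU
      exact mem_filter.mpr ⟨mem_univ _, (mem_filter.mp hU).2⟩
    rw [nsmul_eq_mul] at h1
    have h2 := mul_le_mul_of_nonneg_left h1 (inv_nonneg.mpr hDpos.le)
    rw [← mul_assoc, inv_mul_cancel₀ hDpos.ne', one_mul] at h2
    have h3 : ((univ.filter (Sat lab)).card : ℝ) ≤ 2 ^ (M + 1) := by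
      have h4 := card_sat_Kar lab
      rw [hlab] at h4
      exact_mod_cast h4
    have h4 : ((univ.filter (Sat lab)).card : ℝ) * (1 / 4) ^ (M + 1) ≤ (1 / 2) ^ (M + 1) := by
      refine (mul_le_mul_of_nonneg_right h3 (by positivity)).trans (le_of_eq ?_)
      rw [← mul_pow]; norm_num
    have h5 : ((1 : ℝ) / 2) ^ M = 2 * (1 / 2) ^ (M + 1) := by
      rw [pow_succ]; ring
    linarith

open Classical in
/-- few small cuts in a highly connected quotient -/
theorem karger (Λ N₀ : ℕ) (hΛ : 3 ≤ Λ) (hN : 1 ≤ N₀) (lab : V → V)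
    (hn : ((univ.image lab).card : ℝ) ≤ N₀ * Real.exp (Λ / 2))
    (hc : ∀ U : Finset V, Sat lab U → U.Nonempty → Uᶜ.Nonempty → 2 * Λ ≤ S.b U) :
    ∑ U ∈ univ.filter (Sat lab), Real.exp (-2 * S.b U) ≤ 2 ^ N₀ + 1 := by
  have hΛr : (3 : ℝ) ≤ Λ := by exact_mod_cast hΛ
  have hN0r : (1 : ℝ) ≤ N₀ := by exact_mod_cast hN
  have hlog : Real.log (((univ.image lab).card : ℝ) / N₀) ≤ Λ / 2 := by
    rcases Nat.eq_zero_or_pos (univ.image lab).card with h | h
    · rw [h, Nat.cast_zero, zero_div, Real.log_zero]; positivity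
    · have h1 : (0 : ℝ) < (univ.image lab).card := by exact_mod_cast h
      rw [Real.log_le_iff_le_exp (by positivity), div_le_iff₀ (by linarith), mul_comm]
      exact hn
  have h := gen_Kar S Λ N₀ hΛ hN _ lab rfl hc 2 (by norm_num) (by
    have h1 := mul_le_mul_of_nonneg_left hlog (by positivity : 0 ≤ 2 / (Λ : ℝ))
    have h2 : 2 / (Λ : ℝ) * (Λ / 2) = 1 := by field_simp
    linarith)
  have h3 : (0 : ℝ) ≤ (1 / 2) ^ (univ.image lab).card := by positivity
  linarith

end Pool.Agent.MP_9a3194_co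

end

section

open Finset
open scoped symmDiff

namespace Pool.Agent.MP_9a3194_co

variable {V : Type} [Fintype V] [DecidableEq V] (S : Str V)

/-- the class of a vertex -/
def cls_Bor (lab : V → V) (v : V) : Finset V := univ.filter fun u => lab u = lab v

/-- the weight of a cut -/
noncomputable def wt_Bor (lab : V → V) (U : Finset V) : ℝ :=
  Real.exp (-∑ d ∈ S.bd U, (2 + 8 / √((cls_Bor lab d.1).card : ℝ)))

theorem mem_cls_Bor {lab : V → V} {u v : V} : u ∈ cls_Bor lab v ↔ lab u = lab v := by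
  simp [cls_Bor]

theorem one_le_Bor (lab : V → V) (v : V) : 1 ≤ (cls_Bor lab v).card :=
  card_pos.2 ⟨v, mem_cls_Bor.2 rfl⟩

theorem sat_card_Bor {lab : V → V} {U : Finset V} (h : Sat lab U) {v : V} :
    (v ∈ U → (cls_Bor lab v).card ≤ U.card) ∧ (v ∈ Uᶜ → (cls_Bor lab v).card ≤ Uᶜ.card) :=
  ⟨fun hv => card_le_card fun u hu => (h u v (mem_cls_Bor.1 hu)).2 hv,
    fun hv => card_le_card fun u hu => mem_compl.2 fun hu' =>
      mem_compl.1 hv ((h u v (mem_cls_Bor.1 hu)).1 hu')⟩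

theorem num_Bor {p d k : ℕ} (hp : 1 ≤ p) (hpd : p ≤ d) (hk : k < d) :
    (d : ℝ) ≤ ((d : ℝ) - k) * Real.exp (k * (2 / √(p : ℝ))) := by
  have hp' : (1 : ℝ) ≤ p := by exact_mod_cast hp
  have hpd' : (p : ℝ) ≤ d := by exact_mod_cast hpd
  have hk' : (k : ℝ) + 1 ≤ d := by exact_mod_cast hk
  have hk0 : (0 : ℝ) ≤ k := k.cast_nonneg
  have hr : 1 ≤ √(d : ℝ) := Real.one_le_sqrt.2 (by linarith)
  have hrr : √(d : ℝ) * √(d : ℝ) = d := Real.mul_self_sqrt (by linarith)
  have h1 : k * (2 / √(d : ℝ)) ≤ k * (2 / √(p : ℝ)) := by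
    have : 0 < √(p : ℝ) := Real.sqrt_pos.2 (by linarith)
    gcongr
  refine le_trans ?_ (mul_le_mul_of_nonneg_left (Real.exp_le_exp.2 h1) (by linarith))
  set r := √(d : ℝ)
  by_cases h : 2 * (k : ℝ) ≤ d
  · have h2 : k * (2 / (d : ℝ)) ≤ k * (2 / r) := by
      gcongr
      nlinarith
    have h3 := Real.add_one_le_exp (k * (2 / r))
    have h4 : ((d : ℝ) - k) * (k * (2 / (d : ℝ)) + 1) = d + k * (d - 2 * k) / d := by
      have : (d : ℝ) ≠ 0 := by linarith
      field_simp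
      ring
    have h5 : 0 ≤ (k : ℝ) * (d - 2 * k) / d :=
      div_nonneg (mul_nonneg hk0 (by linarith)) (by linarith)
    nlinarith
  · have h2 : r ≤ k * (2 / r) := by
      rw [← mul_div_assoc, le_div_iff₀ (by linarith)]
      linarith
    have h3 : r ≤ Real.exp (r / 2) := by
      have a := Real.add_one_le_exp (r / 2 - 1)
      have b := Real.add_one_le_exp 1
      have e : Real.exp (r / 2) = Real.exp (r / 2 - 1) * Real.exp 1 := by
        rw [← Real.exp_add, sub_add_cancel]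
      nlinarith
    have h4 : (d : ℝ) ≤ Real.exp (k * (2 / r)) := by
      refine le_trans ?_ (Real.exp_le_exp.2 h2)
      rw [← hrr, ← add_halves r, Real.exp_add, add_halves]
      exact mul_le_mul h3 h3 (by linarith) (by linarith)
    nlinarith

theorem gain_Bor {p q : ℕ} (hp : 1 ≤ p) (h : 2 * p ≤ q) :
    2 / √(p : ℝ) ≤ 8 / √(p : ℝ) - 8 / √(q : ℝ) := by
  have hp' : (1 : ℝ) ≤ p := by exact_mod_cast hp
  have hq : (2 : ℝ) * p ≤ q := by exact_mod_cast h
  have h0 : 0 < √(p : ℝ) := Real.sqrt_pos.2 (by linarith)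
  have h1 : 4 / 3 * √(p : ℝ) ≤ √(q : ℝ) := by
    refine Real.le_sqrt_of_sq_le ?_
    rw [mul_pow, Real.sq_sqrt (by linarith)]
    linarith
  have h2 : 8 / √(q : ℝ) ≤ 8 / (4 / 3 * √(p : ℝ)) := by gcongr
  have h3 : 8 / (4 / 3 * √(p : ℝ)) = 8 / √(p : ℝ) - 2 / √(p : ℝ) := by
    field_simp
    norm_num
  linarith

/-- merging the class of `w` into the class of `v` -/
def mrg_Bor (lab : V → V) (v w : V) : V → V := fun u => if lab u = lab w then lab v else lab u

theorem cls_mrg_Bor (lab : V → V) (v w u : V) : cls_Bor lab u ⊆ cls_Bor (mrg_Bor lab v w) u :=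
  fun x hx => mem_cls_Bor.2 (by simp only [mrg_Bor, mem_cls_Bor.1 hx])

theorem wt_mrg_Bor {lab : V → V} {v w : V} (hw : lab w ≠ lab v)
    (hm : (cls_Bor lab v).card ≤ (cls_Bor lab w).card) (U : Finset V) :
    wt_Bor S lab U * Real.exp (((S.out (cls_Bor lab v)).filter (· ∈ S.bd U)).card *
      (2 / √((cls_Bor lab v).card : ℝ))) ≤ wt_Bor S (mrg_Bor lab v w) U := by
  rw [wt_Bor, wt_Bor, ← Real.exp_add, Real.exp_le_exp, ← nsmul_eq_mul, ← sum_const]
  have h1 : ∑ d ∈ (S.out (cls_Bor lab v)).filter (· ∈ S.bd U),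
      2 / √((cls_Bor lab v).card : ℝ) ≤ ∑ d ∈ S.bd U,
        (8 / √((cls_Bor lab d.1).card : ℝ) - 8 / √((cls_Bor (mrg_Bor lab v w) d.1).card : ℝ)) := by
    refine le_trans (sum_le_sum fun d hd => ?_)
      (sum_le_sum_of_subset_of_nonneg (fun d hd => (mem_filter.1 hd).2) fun d _ _ => ?_)
    · have h2 : lab d.1 = lab v := mem_cls_Bor.1 (S.mem_out.1 (mem_filter.1 hd).1).1
      have h3 : cls_Bor lab d.1 = cls_Bor lab v := by simp only [cls_Bor, h2]
      rw [h3]
      refine gain_Bor (one_le_Bor _ _) ?_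
      have h4 : cls_Bor lab v ∪ cls_Bor lab w ⊆ cls_Bor (mrg_Bor lab v w) d.1 := by
        refine union_subset (h3 ▸ cls_mrg_Bor lab v w d.1) fun x hx => mem_cls_Bor.2 ?_
        simp [mrg_Bor, mem_cls_Bor.1 hx, h2]
      have h5 := card_le_card h4
      rw [card_union_of_disjoint (disjoint_left.2 fun x hx hx' =>
        hw ((mem_cls_Bor.1 hx').symm.trans (mem_cls_Bor.1 hx)))] at h5
      omega
    · have h2 : (0 : ℝ) < (cls_Bor lab d.1).card := by exact_mod_cast one_le_Bor _ _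
      have h3 := card_le_card (cls_mrg_Bor lab v w d.1)
      rw [sub_nonneg]
      gcongr
  rw [sum_sub_distrib] at h1
  rw [sum_add_distrib, sum_add_distrib]
  linarith

open Classical in
theorem ind_Bor {c s N₀ : ℕ} (hI : S.Iso c) (hc : s + 2 ≤ c) (hs : 3 ≤ s)
    (hV : s ≤ Fintype.card V) (hN : 1 ≤ N₀) (n : ℕ) : ∀ lab : V → V, (univ.image lab).card = n →
    (n : ℝ) ≤ N₀ * Real.exp (s / 2) →
    ∑ U ∈ univ.filter (fun U => Sat lab U ∧ S.Big s U), wt_Bor S lab U ≤ 2 ^ N₀ + 1 := by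
  induction n using Nat.strong_induction_on with
  | _ n ih =>
  intro lab hn hb
  obtain ⟨v, -, hv⟩ := exists_min_image univ (fun v => (cls_Bor lab v).card)
    (card_pos.1 (by rw [card_univ]; omega))
  by_cases hp : s ≤ (cls_Bor lab v).card
  · refine le_trans ?_ (karger S s N₀ hs hN lab (hn ▸ hb) fun U hU h1 h2 => ?_)
    · refine le_trans (sum_le_sum fun U _ => ?_) (sum_le_sum_of_subset_of_nonneg
        (fun U hU => mem_filter.2 ⟨mem_univ _, (mem_filter.1 hU).2.1⟩)
        fun _ _ _ => (Real.exp_pos _).le)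
      rw [wt_Bor, Real.exp_le_exp, neg_mul, neg_le_neg_iff, Str.b, mul_comm, ← nsmul_eq_mul,
        ← sum_const]
      exact sum_le_sum fun d _ => le_add_of_nonneg_right (by positivity)
    · have h3 := hI U h1 h2
      obtain ⟨x, hx⟩ := h1
      obtain ⟨y, hy⟩ := h2
      have h4 := (sat_card_Bor hU).1 hx
      have h5 := (sat_card_Bor hU).2 hy
      have h6 := hv x (mem_univ _)
      have h7 := hv y (mem_univ _)
      omega
  set P := cls_Bor lab v with hP
  have hP1 : 1 ≤ P.card := one_le_Bor _ _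
  have hPc : Pᶜ.Nonempty := card_pos.1 (by rw [card_compl]; omega)
  have hd : P.card + 2 ≤ (S.out P).card := by
    have h3 := hI P (card_pos.1 hP1) hPc
    obtain ⟨y, hy⟩ := hPc
    have h4 : Sat lab P := fun a b hab => by rw [hP, mem_cls_Bor, mem_cls_Bor, hab]
    have h5 := (sat_card_Bor h4).2 hy
    have h6 := hv y (mem_univ _)
    rw [S.b_eq] at h3
    omega
  have hne : ∀ e ∈ S.out P, lab (S.hd e) ≠ lab v := fun e he h =>
    (S.mem_out.1 he).2 (mem_cls_Bor.2 h)
  have key : ∀ U ∈ univ.filter (fun U => Sat lab U ∧ S.Big s U),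
      (S.out P).card * wt_Bor S lab U ≤
        ∑ e ∈ S.out P, if e ∈ S.bd U then 0 else wt_Bor S (mrg_Bor lab v (S.hd e)) U := by
    intro U hU
    have hk : ((S.out P).filter (· ∈ S.bd U)).card < (S.out P).card := by
      refine card_lt_card (filter_ssubset.2 ?_)
      by_contra! h
      refine (mem_filter.1 hU).2.2 P (card_pos.1 hP1) (by omega) fun d hd => ?_
      by_cases h1 : d.1 ∈ P
      · exact h d (S.mem_out.2 ⟨h1, fun h2 => S.mem_bd.1 hd (iff_of_true h1 h2)⟩)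
      · refine S.rv_mem_bd.1 (h _ (S.mem_out.2 ⟨?_, by rwa [S.hd_rv]⟩))
        by_contra h2
        exact S.mem_bd.1 hd (iff_of_false h1 h2)
    have h1 := num_Bor hP1 (by omega) hk
    have h2 : ((S.out P).card : ℝ) - ((S.out P).filter (· ∈ S.bd U)).card =
        ((S.out P).filter fun e => ¬ e ∈ S.bd U).card := by
      rw [← card_filter_add_card_filter_not (s := S.out P) (· ∈ S.bd U)]
      push_cast
      ring
    rw [h2] at h1
    refine le_trans (mul_le_mul_of_nonneg_right h1 (Real.exp_pos _).le) ?_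
    rw [mul_assoc, ← nsmul_eq_mul, ← sum_const, sum_ite, sum_const_zero, zero_add]
    refine sum_le_sum fun e he => ?_
    rw [mul_comm]
    exact wt_mrg_Bor S (hne e (mem_filter.1 he).1) (hv _ (mem_univ _)) U
  have h1 := sum_le_sum key
  rw [← mul_sum, sum_comm] at h1
  have hpos : (0 : ℝ) < (S.out P).card := by exact_mod_cast (by omega : 0 < (S.out P).card)
  refine le_of_mul_le_mul_left (h1.trans ?_) hpos
  rw [← nsmul_eq_mul, ← sum_const]
  refine sum_le_sum fun e he => ?_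
  have h2 : (univ.image (mrg_Bor lab v (S.hd e))).card < n := by
    rw [← hn]
    refine card_lt_card ⟨fun x hx => ?_, fun h => ?_⟩
    · obtain ⟨u, -, rfl⟩ := mem_image.1 hx
      unfold mrg_Bor
      split_ifs <;> exact mem_image_of_mem _ (mem_univ _)
    · obtain ⟨u, -, hu⟩ := mem_image.1 (h (mem_image_of_mem lab (mem_univ (S.hd e))))
      unfold mrg_Bor at hu
      split_ifs at hu with h3
      · exact hne e he hu.symm
      · exact h3 hu
  refine le_trans ?_ (ih _ h2 _ rfl (le_trans (by exact_mod_cast h2.le) hb))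
  rw [sum_ite, sum_const_zero, zero_add]
  refine sum_le_sum_of_subset_of_nonneg (fun U hU => ?_) fun _ _ _ => (Real.exp_pos _).le
  obtain ⟨hU, h3⟩ := mem_filter.1 hU
  obtain ⟨h4, h5⟩ := (mem_filter.1 hU).2
  refine mem_filter.2 ⟨mem_univ _, fun a b hab => ?_, h5⟩
  rw [S.mem_bd, not_not] at h3
  have h6 : v ∈ U ↔ S.hd e ∈ U := (h4 _ _ (mem_cls_Bor.1 (S.mem_out.1 he).1)).symm.trans h3
  unfold mrg_Bor at hab
  split_ifs at hab with ha hb hb
  · exact h4 a b (ha.trans hb.symm)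
  · exact (h4 a _ ha).trans (h6.symm.trans (h4 _ _ hab))
  · exact (h4 a _ hab).trans (h6.trans (h4 _ _ hb.symm))
  · exact h4 a b hab

open Classical in
/-- few cuts both sides of which have only large pieces -/
theorem boruvka {c s N₀ : ℕ} (hI : S.Iso c) (hc : s + 2 ≤ c) (hs : 3 ≤ s)
    (hV : s ≤ Fintype.card V) (hN : 1 ≤ N₀) (W : Finset V)
    (hn : (W.card + 1 : ℝ) ≤ N₀ * Real.exp (s / 2)) :
    ∑ U ∈ W.powerset.filter (S.Big s), Real.exp (-10 * S.b U) ≤ 2 ^ N₀ + 1 := by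
  obtain ⟨v, hv⟩ : ∃ v : V, v ∈ W → ∀ u, u ∈ W := by
    by_cases h : ∀ u, u ∈ W
    · obtain ⟨v⟩ : Nonempty V := Fintype.card_pos_iff.1 (by omega)
      exact ⟨v, fun _ => h⟩
    · push Not at h
      obtain ⟨v, hv⟩ := h
      exact ⟨v, fun h => absurd h hv⟩
  have h1 : (univ.image fun u => if u ∈ W then u else v).card ≤ W.card + 1 := by
    refine le_trans (card_le_card fun x hx => ?_) (card_insert_le v W)
    obtain ⟨u, -, rfl⟩ := mem_image.1 hx
    split_ifs with h
    · exact mem_insert_of_mem h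
    · exact mem_insert_self _ _
  refine le_trans ?_ (ind_Bor S hI hc hs hV hN _ (fun u => if u ∈ W then u else v) rfl
    (le_trans (by exact_mod_cast h1) hn))
  refine le_trans (sum_le_sum fun U _ => ?_) (sum_le_sum_of_subset_of_nonneg (fun U hU => ?_)
    fun _ _ _ => (Real.exp_pos _).le)
  · rw [wt_Bor, Real.exp_le_exp, neg_mul, neg_le_neg_iff, Str.b, mul_comm, ← nsmul_eq_mul,
      ← sum_const]
    refine sum_le_sum fun d _ => ?_
    have h2 : 1 ≤ √((cls_Bor (fun u => if u ∈ W then u else v) d.1).card : ℝ) :=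
      Real.one_le_sqrt.2 (by exact_mod_cast one_le_Bor _ _)
    have h3 := div_le_self (by norm_num : (0 : ℝ) ≤ 8) h2
    linarith
  · obtain ⟨h2, h3⟩ := mem_filter.1 hU
    have h4 := mem_powerset.1 h2
    refine mem_filter.2 ⟨mem_univ _, fun a b hab => ?_, h3⟩
    beta_reduce at hab
    split_ifs at hab with ha hb hb
    · rw [hab]
    · exact absurd (hv (hab ▸ ha) b) hb
    · exact absurd (hv (hab ▸ hb) a) ha
    · exact iff_of_false (fun h => ha (h4 h)) fun h => hb (h4 h)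

end Pool.Agent.MP_9a3194_co

end

section

open Finset
open scoped symmDiff

namespace Pool.Agent.MP_9a3194_co

section
variable {T : Type} [Fintype T] [DecidableEq T]

/-- one edge -/
private def ed_Split (a b x y : T) : ℕ :=
  (if x = a ∧ y = b then 1 else 0) + if x = b ∧ y = a then 1 else 0

/-- whether `A` separates `a` from `b` -/
private def sp_Split (A : Finset T) (a b : T) : ℕ := if (a ∈ A ↔ b ∈ A) then 0 else 1

omit [Fintype T] in
private theorem ed_symm_Split (a b x y : T) : ed_Split a b x y = ed_Split a b y x := by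
  simp only [ed_Split, and_comm, add_comm]

private theorem cut_eq_Split (w : T → T → ℕ) (A : Finset T) :
    cutw w A = ∑ x, ∑ y, if x ∈ A ∧ y ∉ A then w x y else 0 := by
  rw [cutw, ← Fintype.sum_ite_mem]
  refine sum_congr rfl fun x _ => ?_
  rw [← Fintype.sum_ite_mem]
  by_cases h : x ∈ A <;> simp [h]

private theorem cut_compl_Split {w : T → T → ℕ} (hs : ∀ s t, w s t = w t s) (A : Finset T) :
    cutw w Aᶜ = cutw w A := by
  rw [cutw, cutw, compl_compl, sum_comm]
  exact sum_congr rfl fun x _ => sum_congr rfl fun y _ => hs _ _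

private theorem cut_add_Split {w w₀ : T → T → ℕ} {a b : T}
    (h : ∀ x y, w x y = w₀ x y + ed_Split a b x y) (A : Finset T) :
    cutw w A = cutw w₀ A + sp_Split A a b := by
  have key : ∀ a b : T, (∑ x ∈ A, ∑ y ∈ Aᶜ, if x = a ∧ y = b then 1 else 0) =
      if a ∈ A ∧ b ∉ A then 1 else 0 := fun a b => by
    simp only [ite_and, sum_ite_irrel, sum_ite_eq', sum_const_zero, mem_compl]
  simp only [cutw, h, ed_Split, sum_add_distrib, key, sp_Split]
  by_cases ha : a ∈ A <;> by_cases hb : b ∈ A <;> simp [ha, hb]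

private theorem submod_Split (w : T → T → ℕ) (A B : Finset T) :
    cutw w (A ∩ B) + cutw w (A ∪ B) ≤ cutw w A + cutw w B := by
  simp only [cut_eq_Split, ← sum_add_distrib]
  refine sum_le_sum fun x _ => sum_le_sum fun y _ => ?_
  by_cases h1 : x ∈ A <;> by_cases h2 : x ∈ B <;> by_cases h3 : y ∈ A <;> by_cases h4 : y ∈ B <;>
    simp [h1, h2, h3, h4]

private theorem posi_Split {w : T → T → ℕ} (hs : ∀ s t, w s t = w t s) (A B : Finset T) :
    cutw w (A \ B) + cutw w (B \ A) ≤ cutw w A + cutw w B := by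
  have h := submod_Split w A Bᶜ
  rw [cut_compl_Split hs B, ← cut_compl_Split hs (A ∪ Bᶜ)] at h
  convert h using 3
  · ext x
    simp
  · ext x
    simp [and_comm]

omit [Fintype T] in
private theorem dec_Split {w : T → T → ℕ} (hs : ∀ s t, w s t = w t s) {a b : T} (hab : a ≠ b)
    (h : 0 < w a b) : ∃ w₀ : T → T → ℕ, (∀ s t, w₀ s t = w₀ t s) ∧
      ∀ x y, w x y = w₀ x y + ed_Split a b x y := by
  refine ⟨fun x y => w x y - ed_Split a b x y,
    fun x y => congrArg₂ _ (hs x y) (ed_symm_Split a b x y), fun x y => ?_⟩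
  have : ed_Split a b x y ≤ w x y := by
    unfold ed_Split
    split_ifs with h1 h2 h2
    · exact absurd (h1.1.symm.trans h2.1) hab
    · rw [h1.1, h1.2]
      omega
    · rw [h2.1, h2.2, hs]
      omega
    · omega
  exact (Nat.sub_add_cancel this).symm

/-- `A` separates the terminals -/
private def Sep_Split (Tm A : Finset T) : Prop := (∃ s ∈ Tm, s ∈ A) ∧ ∃ t ∈ Tm, t ∉ A

private theorem union_Split {w : T → T → ℕ} (hs : ∀ s t, w s t = w t s) {Tm : Finset T} {lam : ℕ}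
    (hc : ∀ A, Sep_Split Tm A → lam ≤ cutw w A) {s u : T} (hsu : s ≠ u) (h : 0 < w s u)
    {A B : Finset T} (hA : Sep_Split Tm A) (hB : Sep_Split Tm B) (cA : cutw w A = lam)
    (cB : cutw w B = lam) (uA : u ∈ A) (uB : u ∈ B) (sA : s ∉ A) (sB : s ∉ B) :
    Sep_Split Tm (A ∪ B) ∧ cutw w (A ∪ B) = lam := by
  obtain ⟨w₀, h0, h1⟩ := dec_Split hs hsu h
  obtain ⟨⟨a₁, ha₁, ha₁'⟩, t₁, ht₁, ht₁'⟩ := hA
  obtain ⟨⟨a₂, ha₂, ha₂'⟩, t₂, ht₂, ht₂'⟩ := hB
  have key : ¬ (Sep_Split Tm (A \ B) ∧ Sep_Split Tm (B \ A)) := by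
    rintro ⟨e1, e2⟩
    have f1 := hc _ e1
    have f2 := hc _ e2
    have f3 := posi_Split h0 A B
    rw [cut_add_Split h1] at f1 f2 cA cB
    simp only [sp_Split, mem_sdiff, uA, uB, sA, sB, not_true, and_false, false_and, if_true,
      iff_true, if_false] at f1 f2 cA cB
    omega
  have k1 : ∃ a ∈ Tm, a ∈ A ∩ B := by
    by_contra hn
    exact key ⟨⟨⟨a₁, ha₁, mem_sdiff.2 ⟨ha₁', fun e => hn ⟨a₁, ha₁, mem_inter.2 ⟨ha₁', e⟩⟩⟩⟩,
      t₁, ht₁, fun e => ht₁' (mem_sdiff.1 e).1⟩,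
      ⟨a₂, ha₂, mem_sdiff.2 ⟨ha₂', fun e => hn ⟨a₂, ha₂, mem_inter.2 ⟨e, ha₂'⟩⟩⟩⟩,
      t₂, ht₂, fun e => ht₂' (mem_sdiff.1 e).1⟩
  have k2 : ∃ t ∈ Tm, t ∉ A ∪ B := by
    by_contra hn
    push Not at hn
    exact key ⟨⟨⟨t₂, ht₂, mem_sdiff.2 ⟨(mem_union.1 (hn t₂ ht₂)).resolve_right ht₂', ht₂'⟩⟩,
      t₁, ht₁, fun e => ht₁' (mem_sdiff.1 e).1⟩,
      ⟨t₁, ht₁, mem_sdiff.2 ⟨(mem_union.1 (hn t₁ ht₁)).resolve_left ht₁', ht₁'⟩⟩,
      t₂, ht₂, fun e => ht₂' (mem_sdiff.1 e).1⟩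
  have s1 : Sep_Split Tm (A ∩ B) := ⟨k1, t₁, ht₁, fun e => ht₁' (mem_inter.1 e).1⟩
  have s2 : Sep_Split Tm (A ∪ B) := ⟨⟨a₁, ha₁, mem_union_left _ ha₁'⟩, k2⟩
  have f1 := hc _ s1
  have f2 := hc _ s2
  have f3 := submod_Split w A B
  exact ⟨s2, by omega⟩

private theorem insert_Split {w : T → T → ℕ} (hs : ∀ s t, w s t = w t s) {s u : T}
    (h : 0 < w s u) {M : Finset T} (uM : u ∈ M) (sM : s ∉ M)
    (hn : ∀ v, v ≠ s → v ∉ M → w s v = 0) : cutw w (insert s M) < cutw w M := by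
  have e : Mᶜ = insert s (insert s M)ᶜ := by
    ext x
    by_cases hx : x = s <;> simp [hx, sM]
  rw [cutw, cutw, sum_insert sM, sum_eq_zero fun v hv => hn v
    (fun e => mem_compl.1 hv (e ▸ mem_insert_self _ _))
    fun e => mem_compl.1 hv (mem_insert_of_mem e), zero_add, e]
  simp only [sum_insert (show s ∉ (insert s M)ᶜ by simp)]
  refine sum_lt_sum (fun x _ => Nat.le_add_left _ _) ⟨u, uM, ?_⟩
  rw [hs u s]
  omega

private theorem partner_Split {w w₀ : T → T → ℕ} (hs : ∀ s t, w s t = w t s) {Tm : Finset T}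
    {lam : ℕ} (hc : ∀ A, Sep_Split Tm A → lam ≤ cutw w A) {s u : T} (hT : s ∉ Tm) (hsu : s ≠ u)
    (h : 0 < w s u) (hev : Even (cutw w {s})) (h1 : ∀ x y, w x y = w₀ x y + ed_Split s u x y) :
    ∃ v, s ≠ v ∧ 0 < w₀ s v ∧
      ∀ A, Sep_Split Tm A → s ∉ A → u ∈ A → v ∈ A → cutw w A ≠ lam := by
  classical
  by_cases hne : (univ.filter fun A : Finset T =>
      Sep_Split Tm A ∧ cutw w A = lam ∧ u ∈ A ∧ s ∉ A).Nonempty
  · obtain ⟨M, hM, hmax⟩ := exists_max_image _ card hne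
    obtain ⟨m1, m2, m3, m4⟩ := (mem_filter.1 hM).2
    obtain ⟨v, v1, v2, v3⟩ : ∃ v, v ≠ s ∧ v ∉ M ∧ w s v ≠ 0 := by
      by_contra hn
      push Not at hn
      have f1 := insert_Split hs h m3 m4 hn
      obtain ⟨⟨a, ha, ha'⟩, t, ht, ht'⟩ := m1
      have f2 := hc (insert s M) ⟨⟨a, ha, mem_insert_of_mem ha'⟩, t, ht, fun e =>
        (mem_insert.1 e).elim (fun e => hT (e ▸ ht)) ht'⟩
      omega
    refine ⟨v, v1.symm, ?_, fun A a1 a2 a3 a4 a5 => v2 ?_⟩
    · have f := h1 s v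
      have hv : v ≠ u := fun e => v2 (e ▸ m3)
      simp only [ed_Split, hv, v1, and_false, if_false] at f
      omega
    · obtain ⟨f1, f2⟩ := union_Split hs hc hsu h m1 a1 m2 a5 m3 a3 m4 a2
      have f3 := hmax (M ∪ A) (mem_filter.2 ⟨mem_univ _, f1, f2, mem_union_left _ m3,
        fun e => (mem_union.1 e).elim m4 a2⟩)
      rw [eq_of_subset_of_card_le subset_union_left f3]
      exact mem_union_right _ a4
  · obtain ⟨v, v1, v2⟩ : ∃ v, s ≠ v ∧ w₀ s v ≠ 0 := by
      by_contra hn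
      push Not at hn
      have f : cutw w₀ {s} = 0 := by
        rw [cutw, sum_singleton]
        exact sum_eq_zero fun v hv => hn v fun e => mem_compl.1 hv (mem_singleton.2 e.symm)
      rw [cut_add_Split h1, f] at hev
      simp [sp_Split, hsu.symm] at hev
    exact ⟨v, v1, Nat.pos_of_ne_zero v2, fun A a1 a2 a3 _ a5 =>
      hne ⟨A, mem_filter.2 ⟨mem_univ _, a1, a5, a3, a2⟩⟩⟩

private theorem step_Split {w : T → T → ℕ} (hs : ∀ s t, w s t = w t s) {Tm : Finset T} {lam : ℕ}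
    (hl : Even lam) (hev : ∀ A, Even (cutw w A)) (hc : ∀ A, Sep_Split Tm A → lam ≤ cutw w A)
    {s u : T} (hT : s ∉ Tm) (hsu : s ≠ u) (h : 0 < w s u) :
    ∃ w' : T → T → ℕ, (∀ s t, w' s t = w' t s) ∧ (∀ A, Even (cutw w' A)) ∧
      (∀ A, cutw w' A ≤ cutw w A) ∧ (∀ A, Sep_Split Tm A → lam ≤ cutw w' A) ∧
      cutw w' {s} < cutw w {s} := by
  obtain ⟨w₀, h0, h1⟩ := dec_Split hs hsu h
  obtain ⟨v, hsv, hv, hA⟩ := partner_Split hs hc hT hsu h (hev _) h1
  obtain ⟨w₁, h2, h3⟩ := dec_Split h0 hsv hv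
  have e1 : ∀ A, cutw w A = cutw w₁ A + sp_Split A s v + sp_Split A s u := fun A => by
    rw [cut_add_Split h1, cut_add_Split h3]
  have e2 : ∀ A, cutw (fun x y => w₁ x y + ed_Split u v x y) A = cutw w₁ A + sp_Split A u v :=
    cut_add_Split fun _ _ => rfl
  have e3 : ∀ A, sp_Split A s v + sp_Split A s u = sp_Split A u v ∨
      (sp_Split A s v + sp_Split A s u = sp_Split A u v + 2 ∧
        ((s ∉ A ∧ u ∈ A ∧ v ∈ A) ∨ (s ∉ Aᶜ ∧ u ∈ Aᶜ ∧ v ∈ Aᶜ))) := fun A => by
    by_cases a1 : s ∈ A <;> by_cases a2 : u ∈ A <;> by_cases a3 : v ∈ A <;>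
      simp [sp_Split, a1, a2, a3]
  refine ⟨fun x y => w₁ x y + ed_Split u v x y,
    fun x y => congrArg₂ _ (h2 x y) (ed_symm_Split u v x y),
    fun A => ?_, fun A => ?_, fun A a => ?_, ?_⟩
  · have f := hev A
    rw [e1, Nat.even_iff] at f
    rw [e2, Nat.even_iff]
    rcases e3 A with g | ⟨g, -⟩ <;> omega
  · rw [e1, e2]
    rcases e3 A with g | ⟨g, -⟩ <;> omega
  · have f := hev A
    have f1 := hc A a
    have f2 := e1 A
    rw [Nat.even_iff] at f hl
    rw [e2]
    rcases e3 A with g | ⟨g, g' | g'⟩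
    · omega
    · have := hA A a g'.1 g'.2.1 g'.2.2
      omega
    · obtain ⟨⟨x, hx, hx'⟩, t, ht, ht'⟩ := a
      have := hA Aᶜ ⟨⟨t, ht, mem_compl.2 ht'⟩, x, hx, fun e => mem_compl.1 e hx'⟩
        g'.1 g'.2.1 g'.2.2
      rw [cut_compl_Split hs] at this
      omega
  · rw [e1, e2]
    simp [sp_Split, hsu.symm, hsv.symm]

end

/-- complete splitting off at the vertices outside `Tm` -/
theorem split {T : Type} [Fintype T] [DecidableEq T] (w : T → T → ℕ) (hs : ∀ s t, w s t = w t s)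
    (Tm : Finset T) (lam : ℕ) (hl : Even lam) (hev : ∀ A, Even (cutw w A))
    (hc : ∀ A : Finset T, (∃ s ∈ Tm, s ∈ A) → (∃ t ∈ Tm, t ∉ A) → lam ≤ cutw w A) :
    ∃ w' : T → T → ℕ, (∀ s t, w' s t = w' t s) ∧ (∀ A, cutw w' A ≤ cutw w A) ∧
      (∀ A : Finset T, (∃ s ∈ Tm, s ∈ A) → (∃ t ∈ Tm, t ∉ A) → lam ≤ cutw w' A) ∧
      ∀ s t, s ∉ Tm → s ≠ t → w' s t = 0 := by
  induction hD : ∑ s ∈ Tmᶜ, cutw w {s} using Nat.strong_induction_on generalizing w with
  | _ n ih =>
    by_cases h : ∃ s u, s ∉ Tm ∧ s ≠ u ∧ 0 < w s u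
    · obtain ⟨s, u, h1, h2, h3⟩ := h
      obtain ⟨w₁, a1, a2, a3, a4, a5⟩ := step_Split hs hl hev (fun A a => hc A a.1 a.2) h1 h2 h3
      obtain ⟨w', b1, b2, b3, b4⟩ := ih _
        (hD ▸ sum_lt_sum (fun x _ => a3 {x}) ⟨s, mem_compl.2 h1, a5⟩) w₁ a1 a2
        (fun A a b => a4 A ⟨a, b⟩) rfl
      exact ⟨w', b1, fun A => (b2 A).trans (a3 A), b3, b4⟩
    · exact ⟨w, hs, fun _ => le_rfl, hc, fun s t h1 h2 =>
        Nat.eq_zero_of_not_pos fun h3 => h ⟨s, t, h1, h2, h3⟩⟩

end Pool.Agent.MP_9a3194_co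

end
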