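import Pool.Agent.Mg.F9a3194.G505f3a
import Pool.Agent.Mg.F9a3194.G92728e

section

open Finset
open scoped symmDiff

namespace Pool.Agent.MP_9a3194_co

variable {V : Type} [Fintype V] [DecidableEq V] (S : Str V)

open Classical in
/-- the cluster of `v`: the vertices that no cut inside `Γ` separates from `v` -/
noncomputable def cl_Dich (Γ : Finset (Dt V)) (v : V) : Finset V :=
  univ.filter fun u => ∀ P : Finset V, S.bd P ⊆ Γ → (u ∈ P ↔ v ∈ P)

theorem mem_Dich {Γ : Finset (Dt V)} {u v : V} :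
    u ∈ cl_Dich S Γ v ↔ ∀ P : Finset V, S.bd P ⊆ Γ → (u ∈ P ↔ v ∈ P) := by
  simp [cl_Dich]

theorem self_Dich (Γ : Finset (Dt V)) (v : V) : v ∈ cl_Dich S Γ v :=
  (mem_Dich S).2 fun _ _ => Iff.rfl

theorem eq_Dich {Γ : Finset (Dt V)} {u v : V} (h : u ∈ cl_Dich S Γ v) :
    cl_Dich S Γ u = cl_Dich S Γ v := by
  rw [mem_Dich] at h
  ext w
  rw [mem_Dich, mem_Dich]
  exact forall₂_congr fun P hP => by rw [h P hP]

theorem hd_Dich {Γ : Finset (Dt V)} {d : Dt V} (h : d ∉ Γ) : S.hd d ∈ cl_Dich S Γ d.1 :=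
  (mem_Dich S).2 fun P hP => by
    have h1 : d ∉ S.bd P := fun h' => h (hP h')
    rw [S.mem_bd, not_not] at h1
    exact h1.symm

/-- a union of clusters has its boundary inside `Γ` -/
theorem sat_Dich {Γ : Finset (Dt V)} {U : Finset V}
    (h : ∀ u v, cl_Dich S Γ u = cl_Dich S Γ v → v ∈ U → u ∈ U) : S.bd U ⊆ Γ := by
  intro d hd
  by_contra hΓ
  have e := eq_Dich S (hd_Dich S hΓ)
  exact S.mem_bd.1 hd ⟨h _ _ e, h _ _ e.symm⟩

theorem bd_Dich (Γ : Finset (Dt V)) (v : V) : S.bd (cl_Dich S Γ v) ⊆ Γ :=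
  sat_Dich S fun u w e hw => by
    rw [← eq_Dich S hw, ← e]
    exact self_Dich S Γ u

/-- clusters are connected -/
theorem conn_Dich {Γ : Finset (Dt V)} {X : Finset V} {x r : V} (hx : x ∈ X) (hr : r ∉ X)
    (h : x ∈ cl_Dich S Γ r) : ∃ d : Dt V, d.1 ∈ X ∧ S.hd d ∈ cl_Dich S Γ r \ X := by
  have h1 : ¬ S.bd (X ∩ cl_Dich S Γ r) ⊆ Γ := fun h1 =>
    hr (mem_inter.1 (((mem_Dich S).1 h _ h1).1 (mem_inter.2 ⟨hx, h⟩))).1
  obtain ⟨d, hd, hΓ⟩ := not_subset.1 h1
  have h2 : d ∉ S.bd (cl_Dich S Γ r) := fun h' => hΓ (bd_Dich S Γ r h')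
  rw [S.mem_bd, not_not] at h2
  rw [S.mem_bd, mem_inter, mem_inter] at hd
  by_cases h3 : d.1 ∈ X
  · exact ⟨d, h3, mem_sdiff.2 (by tauto)⟩
  · refine ⟨S.rv d, ?_, ?_⟩
    · rw [S.rv_fst]
      tauto
    · rw [S.hd_rv, mem_sdiff]
      tauto

theorem small_Dich {c l : ℕ} (hI : S.Iso c) (hc : l + 2 ≤ c) (hV : 2 * l ≤ Fintype.card V)
    {C : Finset V} (h0 : C.Nonempty) (hl : C.card < l) : C.card ≤ (S.out C).card := by
  have h1 := card_compl C
  have h2 := hI C h0 (card_pos.1 (by omega))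
  rw [S.b_eq] at h2
  omega

/-- small clusters that are not joined to each other have a large boundary -/
theorem sum_Dich {c l : ℕ} (hI : S.Iso c) (hc : l + 2 ≤ c) (hV : 2 * l ≤ Fintype.card V)
    {Γ : Finset (Dt V)} {U : Finset V} (hl : ∀ v ∈ U, (cl_Dich S Γ v).card < l)
    (hU : ∀ v ∈ U, cl_Dich S Γ v ⊆ U) (hΓ : ∀ d ∈ Γ, d.1 ∈ U → S.hd d ∉ U) :
    2 * U.card ≤ S.b U := by
  rw [S.b_eq]
  refine Nat.mul_le_mul_left 2 ?_
  rw [card_eq_sum_card_fiberwise (f := cl_Dich S Γ) (t := U.image (cl_Dich S Γ))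
      fun v hv => mem_coe.2 (mem_image_of_mem _ hv),
    card_eq_sum_card_fiberwise (s := S.out U) (f := fun d => cl_Dich S Γ d.1)
      (t := U.image (cl_Dich S Γ))
      fun d hd => mem_coe.2 (mem_image_of_mem _ (S.mem_out.1 hd).1)]
  refine sum_le_sum fun C hC => ?_
  obtain ⟨v, hv, rfl⟩ := mem_image.1 hC
  refine (card_le_card fun u hu => ?_).trans
    ((small_Dich S hI hc hV ⟨v, self_Dich S Γ v⟩ (hl v hv)).trans (card_le_card fun d hd => ?_))
  · rw [← (mem_filter.1 hu).2]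
    exact self_Dich S Γ u
  · obtain ⟨h1, h2⟩ := S.mem_out.1 hd
    exact mem_filter.2 ⟨S.mem_out.2 ⟨hU v hv h1,
      hΓ d (bd_Dich S Γ v (S.mem_bd.2 fun h => h2 (h.1 h1))) (hU v hv h1)⟩, eq_Dich S h1⟩

theorem one_Dich {c l : ℕ} (hI : S.Iso c) (hc : l + 2 ≤ c) (hV : 2 * l ≤ Fintype.card V)
    {Ω : V → Finset V} {W Z M M₁ : Finset V} {Γ : Finset (Dt V)} (hΓ : Γ = S.bd Z ∪ S.bd W)
    (hdj : ∀ g ∈ M, ∀ g' ∈ M, g ≠ g' → Disjoint (Ω g) (Ω g')) (hMW : ∀ g ∈ M, Ω g ⊆ W)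
    (hM : M₁ ⊆ M) (hcard : M.card ≤ 2 * M₁.card) {t : ℝ} (ht : 0 < t)
    (hZ : ∀ g ∈ M₁, t ≤ (Ω g ∩ Z).card)
    (hD : ∀ g ∈ M₁, ∀ v ∈ Ω g ∩ Z, (cl_Dich S Γ v).card < l) :
    ∃ U ⊆ W, S.bd U ⊆ Γ ∧ S.Rooted (M.biUnion Ω) U ∧ t * M.card ≤ 2 * U.card ∧
      2 * U.card ≤ S.b U := by
  have hZΓ : S.bd Z ⊆ Γ := hΓ ▸ subset_union_left
  have hWΓ : S.bd W ⊆ Γ := hΓ ▸ subset_union_right
  set U : Finset V := univ.filter fun u => u ∈ Z ∧ (cl_Dich S Γ u).card < l ∧
    ∃ r ∈ M.biUnion Ω, u ∈ cl_Dich S Γ r with hUdef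
  have hU : ∀ u, u ∈ U ↔ u ∈ Z ∧ (cl_Dich S Γ u).card < l ∧
      ∃ r ∈ M.biUnion Ω, u ∈ cl_Dich S Γ r := fun u => by
    rw [hUdef, mem_filter, and_iff_right (mem_univ u)]
  have hUW : U ⊆ W := fun u hu => by
    obtain ⟨-, -, r, hr, h⟩ := (hU u).1 hu
    obtain ⟨g, hg, hr⟩ := mem_biUnion.1 hr
    exact ((mem_Dich S).1 h W hWΓ).2 (hMW g hg hr)
  have hcl : ∀ v ∈ U, cl_Dich S Γ v ⊆ U := fun v hv u hu => by
    obtain ⟨h1, h2, r, hr, h⟩ := (hU v).1 hv
    refine (hU u).2 ⟨((mem_Dich S).1 hu Z hZΓ).2 h1, by rwa [eq_Dich S hu], r, hr, ?_⟩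
    rwa [← eq_Dich S h]
  refine ⟨U, hUW, sat_Dich S fun u v e hv => hcl v hv (e ▸ self_Dich S Γ u), ?_, ?_,
    sum_Dich S hI hc hV (fun v hv => ((hU v).1 hv).2.1) hcl fun d hd h1 h2 => ?_⟩
  · rintro X hX ⟨x, hx⟩ hdis
    obtain ⟨-, -, r, hr, h⟩ := (hU x).1 (hX hx)
    obtain ⟨d, h1, h2⟩ := conn_Dich S hx (disjoint_right.1 hdis hr) h
    rw [← eq_Dich S h] at h2
    exact ⟨d, h1, sdiff_subset_sdiff (hcl x (hX hx)) Subset.rfl h2⟩
  · have h1 : M₁.biUnion (fun g => Ω g ∩ Z) ⊆ U := fun u hu => by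
      obtain ⟨g, hg, hu⟩ := mem_biUnion.1 hu
      exact (hU u).2 ⟨(mem_inter.1 hu).2, hD g hg u hu, u,
        mem_biUnion.2 ⟨g, hM hg, (mem_inter.1 hu).1⟩, self_Dich S Γ u⟩
    have h2 := card_le_card h1
    rw [card_biUnion fun g hg g' hg' hne => (hdj g (hM hg) g' (hM hg') hne).mono
      inter_subset_left inter_subset_left] at h2
    have h3 : (∑ g ∈ M₁, ((Ω g ∩ Z).card : ℝ)) ≤ U.card := by exact_mod_cast h2
    have h4 := card_nsmul_le_sum M₁ _ _ hZ
    rw [nsmul_eq_mul] at h4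
    have h5 : (M.card : ℝ) ≤ 2 * M₁.card := by exact_mod_cast hcard
    nlinarith [mul_le_mul_of_nonneg_left h5 ht.le]
  · rw [hΓ, mem_union, S.mem_bd, S.mem_bd] at hd
    have h3 := ((hU _).1 h1).1
    have h4 := ((hU _).1 h2).1
    have h5 := hUW h1
    have h6 := hUW h2
    tauto

theorem two_Dich {c l : ℕ} {G : Finset V} {cell : V → V} (hI : S.Iso c) (hc : l + 2 ≤ c)
    (hV : 2 * l ≤ Fintype.card V) (hP : S.Part G cell l) (W : Finset V) (hW : Sat cell W)
    (Y : Finset V) : ∃ U ⊆ W, S.bd U ⊆ S.bd Y ∪ S.bd W ∧ S.Big l U ∧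
      ∀ v, ¬ (cl_Dich S (S.bd Y ∪ S.bd W) v).card < l → (v ∈ U ↔ v ∈ Y ∧ v ∈ W) := by
  classical
  set Γ := S.bd Y ∪ S.bd W with hΓ
  obtain ⟨U, hU, hmin⟩ := exists_min_image (univ.filter fun U : Finset V => U ⊆ W ∧ S.bd U ⊆ Γ ∧
      ∀ v, ¬ (cl_Dich S Γ v).card < l → (v ∈ U ↔ v ∈ Y ∧ v ∈ W)) S.b
    ⟨Y ∩ W, mem_filter.2 ⟨mem_univ _, inter_subset_right, fun d hd => by
      rw [S.mem_bd, mem_inter, mem_inter] at hd
      rw [hΓ, mem_union, S.mem_bd, S.mem_bd]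
      tauto, fun v _ => mem_inter⟩⟩
  obtain ⟨-, h1, h2, h3⟩ := mem_filter.1 hU
  refine ⟨U, h1, h2, fun P hP0 hPl hPU => ?_, h3⟩
  have hD : ∀ v ∈ P, (cl_Dich S Γ v).card < l := fun v hv =>
    (card_le_card fun u hu => ((mem_Dich S).1 hu P (hPU.trans h2)).2 hv).trans_lt hPl
  have hPW : P ⊆ W := fun v hv => by
    by_contra hvW
    obtain ⟨u, hu, huP⟩ := exists_mem_notMem_of_card_lt_card
      (hPl.trans_le (hP.lo _ (hP.mem v)))
    obtain ⟨d, hd, e1, e2⟩ := hP.conn _ (hP.mem v) P ⟨v, mem_filter.2 ⟨mem_univ _, rfl⟩, hv⟩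
      ⟨u, hu, huP⟩
    have a1 : d.1 ∉ U := fun h => hvW ((hW _ _ (mem_filter.1 e1).2).1 (h1 h))
    have a2 : S.hd d ∉ U := fun h => hvW ((hW _ _ (mem_filter.1 e2).2).1 (h1 h))
    exact S.mem_bd.1 (hPU hd) (iff_of_false a1 a2)
  have hsub : S.bd (U ∆ P) ⊆ S.bd U := fun d hd => by
    rw [S.bd_symmDiff, mem_symmDiff] at hd
    exact hd.elim (fun h => h.1) fun h => hPU h.1
  have h4 := hmin (U ∆ P) (mem_filter.2 ⟨mem_univ _, fun v hv => by
    rw [mem_symmDiff] at hv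
    exact hv.elim (fun h => h1 h.1) fun h => hPW h.1, hsub.trans h2, fun v hv => by
    have a1 : v ∉ P := fun h => hv (hD v h)
    rw [← h3 v hv, mem_symmDiff]
    tauto⟩)
  have h5 := card_compl P
  obtain ⟨d, hd⟩ := card_pos.1 (hI.b_pos (by omega) hP0 (card_pos.1 (by omega)))
  refine absurd (card_lt_card ⟨hsub, fun h => ?_⟩) (not_lt.2 h4)
  have h6 := h (hPU hd)
  rw [S.bd_symmDiff, mem_symmDiff] at h6
  exact h6.elim (fun h => h.2 hd) fun h => h.2 (hPU hd)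

/-- many cut trees come from many small clusters or from a cut between large clusters -/
theorem dichotomy {c l ω : ℕ} {G : Finset V} {Ω : V → Finset V} {cell : V → V} (hI : S.Iso c)
    (hc : l + 2 ≤ c) (hV : 2 * l ≤ Fintype.card V) (hP : S.Part G cell l) (hT : S.Trees G Ω ω)
    (W : Finset V) (hW : Sat cell W) (N : Finset V) (hN : N ⊆ G) (hNW : ∀ g ∈ N, Ω g ⊆ W)
    (Y : Finset V) {t : ℝ} (ht : 0 < t) (hY : ∀ g ∈ N, t ≤ mino (Ω g) Y) :
    (∃ M ⊆ N, N.card ≤ 2 * M.card ∧ ∃ U ⊆ W, S.bd U ⊆ S.bd Y ∪ S.bd W ∧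
      S.Rooted (M.biUnion Ω) U ∧ t * M.card ≤ 2 * U.card ∧ 2 * U.card ≤ S.b U) ∨
    ∃ U ⊆ W, S.bd U ⊆ S.bd Y ∪ S.bd W ∧ S.Big l U ∧ N.card ≤ 2 * S.b U := by
  classical
  set Γ := S.bd Y ∪ S.bd W with hΓ
  let A : V → Prop := fun g => ∀ v ∈ Ω g ∩ Y, (cl_Dich S Γ v).card < l
  let B : V → Prop := fun g => ∀ v ∈ Ω g ∩ Yᶜ, (cl_Dich S Γ v).card < l
  have hsplit := card_filter_add_card_filter_not (s := N) fun g => A g ∨ B g
  by_cases hcase : N.card ≤ 2 * (N.filter fun g => A g ∨ B g).card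
  · left
    have hM : (N.filter fun g => A g ∨ B g) ⊆ N := filter_subset _ _
    refine ⟨_, hM, hcase, ?_⟩
    have hdj : ∀ g ∈ (N.filter fun g => A g ∨ B g), ∀ g' ∈ (N.filter fun g => A g ∨ B g),
        g ≠ g' → Disjoint (Ω g) (Ω g') := fun g hg g' hg' =>
      hT.disj g (hN (hM hg)) g' (hN (hM hg'))
    have h1 : (N.filter fun g => A g ∨ B g).card ≤ (N.filter A).card + (N.filter B).card := by
      rw [filter_or]
      exact card_union_le _ _
    rcases le_total (N.filter B).card (N.filter A).card with h2 | h2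
    · refine one_Dich S hI hc hV (Z := Y) (M₁ := N.filter A) hΓ hdj (fun g hg => hNW g (hM hg))
        (monotone_filter_right N fun g _ h => Or.inl h) (by omega) ht (fun g hg => ?_)
        fun g hg => (mem_filter.1 hg).2
      refine (hY g (mem_filter.1 hg).1).trans ?_
      exact_mod_cast min_le_left _ _
    · refine one_Dich S hI hc hV (Z := Yᶜ) (M₁ := N.filter B) (by rw [hΓ, S.bd_compl]) hdj
        (fun g hg => hNW g (hM hg)) (monotone_filter_right N fun g _ h => Or.inr h) (by omega) ht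
        (fun g hg => ?_) fun g hg => (mem_filter.1 hg).2
      refine (hY g (mem_filter.1 hg).1).trans ?_
      rw [← sdiff_eq_inter_compl]
      exact_mod_cast min_le_right _ _
  · right
    obtain ⟨U, h1, h2, h3, h4⟩ := two_Dich S hI hc hV hP W hW Y
    refine ⟨U, h1, h2, h3, ?_⟩
    have hM : (N.filter fun g => ¬ (A g ∨ B g)) ⊆ N := filter_subset _ _
    have h5 := S.touch (N.filter fun g => ¬ (A g ∨ B g)) Ω (fun g hg => hT.conn g (hN (hM hg)))
      (fun g hg g' hg' => hT.disj g (hN (hM hg)) g' (hN (hM hg'))) U fun g hg => by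
        obtain ⟨a1, a2⟩ := not_or.1 (mem_filter.1 hg).2
        obtain ⟨u, hu⟩ := not_forall.1 a1
        obtain ⟨v, hv⟩ := not_forall.1 a2
        obtain ⟨u1, u2⟩ := Classical.not_imp.1 hu
        obtain ⟨v1, v2⟩ := Classical.not_imp.1 hv
        rw [mem_inter] at u1 v1
        exact ⟨⟨u, u1.1, (h4 u u2).2 ⟨u1.2, hNW g (hM hg) u1.1⟩⟩, v, v1.1,
          fun h => mem_compl.1 v1.2 ((h4 v v2).1 h).1⟩
    omega

end Pool.Agent.MP_9a3194_co

end

section

open Finset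
open scoped symmDiff

namespace Pool.Agent.MP_9a3194_co

variable {V : Type} [Fintype V] [DecidableEq V] (S : Str V)

private theorem sum_biUnion_Exp {α β : Type} [DecidableEq β] (s : Finset α) (T : α → Finset β)
    (f : β → ℝ) (hf : ∀ b, 0 ≤ f b) : ∑ b ∈ s.biUnion T, f b ≤ ∑ a ∈ s, ∑ b ∈ T a, f b := by
  classical
  induction s using Finset.induction_on with
  | empty => simp
  | insert a s ha ih =>
    rw [biUnion_insert, sum_insert ha]
    have h1 := sum_union_inter (s₁ := T a) (s₂ := s.biUnion T) (f := f)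
    have h2 : 0 ≤ ∑ b ∈ T a ∩ s.biUnion T, f b := sum_nonneg fun b _ => hf b
    linarith

private theorem markov_Exp {α β : Type} [Fintype β] (N : Finset α) (hN : 0 < N.card) (w : β → ℝ)
    (hw : ∀ y, 0 ≤ w y) (P : α → β → Prop) [∀ a y, Decidable (P a y)] {θ : ℝ} (hθ : 0 ≤ θ)
    (h : ∀ a ∈ N, 2 * θ * ∑ y, w y ≤ ∑ y ∈ univ.filter (fun y => P a y), w y) :
    θ * ∑ y, w y ≤ ∑ y ∈ univ.filter (fun y => θ * N.card ≤ (N.filter fun a => P a y).card),
      w y := by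
  have h1 : N.card * (2 * θ * ∑ y, w y) ≤ ∑ y, w y * ((N.filter fun a => P a y).card : ℝ) := by
    have := sum_le_sum h
    rw [sum_const, nsmul_eq_mul] at this
    refine this.trans (le_of_eq ?_)
    simp only [sum_filter, card_filter, Nat.cast_sum, mul_sum]
    rw [sum_comm]
    refine sum_congr rfl fun y _ => sum_congr rfl fun a _ => ?_
    split_ifs <;> simp
  have h2 : ∑ y, w y * ((N.filter fun a => P a y).card : ℝ) ≤
      ∑ y, (N.card * (if θ * N.card ≤ (N.filter fun a => P a y).card then w y else 0) +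
        θ * N.card * w y) := by
    refine sum_le_sum fun y _ => ?_
    have h3 : ((N.filter fun a => P a y).card : ℝ) ≤ N.card := Nat.cast_le.2 (card_filter_le _ _)
    have h4 := hw y
    have h5 : 0 ≤ θ * N.card * w y := by positivity
    split_ifs with h6
    · nlinarith
    · nlinarith [not_le.1 h6]
  rw [sum_add_distrib, ← mul_sum, ← mul_sum, ← sum_filter] at h2
  have h7 : (0 : ℝ) < N.card := Nat.cast_pos.2 hN
  refine le_of_mul_le_mul_left ?_ h7
  linarith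

open Classical in
private theorem sumA_Exp {ω : ℕ} {Ω : V → Finset V} (N : Finset V)
    (hN : ∀ g ∈ N, (Ω g).card = ω) {γ t θ : ℝ} (hγ : 11 ≤ γ)
    (h1 : 8 * Real.exp (1 - 2 * γ) ≤ t) (h2 : 4 * Real.exp (1 - t * ω / 4) ≤ θ) :
    ∑ U ∈ (N.powerset.filter fun M => θ * N.card ≤ 2 * M.card).biUnion (fun M => univ.filter
      fun U => S.Rooted (M.biUnion Ω) U ∧ t * ω * M.card ≤ 2 * U.card ∧ 2 * U.card ≤ S.b U),
      Real.exp (-γ * S.b U) ≤ Real.exp (-(θ * N.card / 4)) := by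
  obtain ⟨x, hx⟩ : ∃ x, x = Real.exp (1 - 2 * γ) := ⟨_, rfl⟩
  obtain ⟨r, hr⟩ : ∃ r, r = Real.exp (1 - t * ω / 4) := ⟨_, rfl⟩
  have hx0 : 0 ≤ x := hx ▸ (Real.exp_pos _).le
  have hr0 : 0 ≤ r := hr ▸ (Real.exp_pos _).le
  have hx1 : x ≤ 1 / 10 := by
    rw [hx, show 1 - 2 * γ = -(2 * γ - 1) by ring, Real.exp_neg, one_div]
    exact inv_anti₀ (by norm_num) (by linarith [Real.add_one_le_exp (2 * γ - 1)])
  refine (sum_biUnion_Exp _ _ _ fun _ => (Real.exp_pos _).le).trans ?_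
  have key : ∀ M ∈ N.powerset.filter fun M => θ * N.card ≤ 2 * M.card,
      ∑ U ∈ univ.filter (fun U => S.Rooted (M.biUnion Ω) U ∧ t * ω * M.card ≤ 2 * U.card ∧
        2 * U.card ≤ S.b U), Real.exp (-γ * S.b U) ≤
        r ^ M.card * Real.exp (-(θ * N.card / 2)) := by
    intro M hM
    obtain ⟨hM1, hM2⟩ := mem_filter.1 hM
    have a1 : ∑ U ∈ univ.filter (fun U => S.Rooted (M.biUnion Ω) U ∧
        t * ω * M.card ≤ 2 * U.card ∧ 2 * U.card ≤ S.b U), Real.exp (-γ * S.b U) ≤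
        ∑ U ∈ univ.filter (S.Rooted (M.biUnion Ω)),
          x ^ U.card * Real.exp (-(t * ω * M.card / 2)) := by
      refine le_trans (sum_le_sum fun U hU => ?_) (sum_le_sum_of_subset_of_nonneg
        (fun U hU => mem_filter.2 ⟨mem_univ _, (mem_filter.1 hU).2.1⟩) fun U _ _ => by positivity)
      obtain ⟨-, -, u1, u2⟩ := mem_filter.1 hU
      have u3 : (2 * U.card : ℝ) ≤ S.b U := by exact_mod_cast u2
      rw [hx, ← Real.exp_nat_mul, ← Real.exp_add]
      refine Real.exp_le_exp.2 ?_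
      nlinarith
    have a2 := rooted_sum S (M.biUnion Ω) hx0 hx1
    have a3 : (M.biUnion Ω).card ≤ M.card * ω :=
      card_biUnion_le_card_mul _ _ _ fun g hg => (hN g (mem_powerset.1 hM1 hg)).le
    have a4 : (1 + 2 * x) ^ (M.biUnion Ω).card ≤ Real.exp (t * ω * M.card / 4) := by
      refine (pow_le_pow_left₀ (by positivity) (b := Real.exp (2 * x))
        (by linarith [Real.add_one_le_exp (2 * x)]) _).trans ?_
      rw [← Real.exp_nat_mul]
      refine Real.exp_le_exp.2 ?_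
      have a5 : ((M.biUnion Ω).card : ℝ) ≤ M.card * ω := by exact_mod_cast a3
      have a6 : (0 : ℝ) ≤ M.card * ω := by positivity
      rw [← hx] at h1
      nlinarith
    rw [← sum_mul] at a1
    refine a1.trans ((mul_le_mul_of_nonneg_right (a2.trans a4) (Real.exp_pos _).le).trans ?_)
    rw [hr, ← Real.exp_nat_mul, ← Real.exp_add, ← Real.exp_add]
    refine Real.exp_le_exp.2 ?_
    linarith
  refine (sum_le_sum key).trans ((sum_le_sum_of_subset_of_nonneg (filter_subset _ _)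
    fun M _ _ => by positivity).trans ?_)
  have b1 : ∑ M ∈ N.powerset, r ^ M.card = (r + 1) ^ N.card := by
    rw [← sum_pow_mul_eq_add_pow]
    simp only [one_pow, mul_one]
  have b2 : (r + 1) ^ N.card ≤ Real.exp (θ * N.card / 4) := by
    refine (pow_le_pow_left₀ (by positivity) (Real.add_one_le_exp r) _).trans ?_
    rw [← Real.exp_nat_mul]
    refine Real.exp_le_exp.2 ?_
    rw [← hr] at h2
    have : (0 : ℝ) ≤ N.card := Nat.cast_nonneg _
    nlinarith
  rw [← sum_mul, b1]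
  refine (mul_le_mul_of_nonneg_right b2 (Real.exp_pos _).le).trans ?_
  rw [← Real.exp_add]
  exact Real.exp_le_exp.2 (by linarith)

open Classical in
private theorem sumB_Exp {c l n : ℕ} (hI : S.Iso c) (hc : l + 2 ≤ c) (hl : 3 ≤ l)
    (hV : l ≤ Fintype.card V) {γ θ : ℝ} (hγ : 11 ≤ γ) (hθ : 0 < θ) (hn : 0 < n)
    (h3 : 144 * l ≤ θ * Real.exp (l / 2)) (W : Finset V) (hW : W.card ≤ 12 * l * n) :
    ∑ U ∈ W.powerset.filter (fun U => S.Big l U ∧ θ * n ≤ 2 * S.b U), Real.exp (-γ * S.b U) ≤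
      3 * Real.exp (-(θ * n / 4)) := by
  have hn' : (1 : ℝ) ≤ n := Nat.one_le_cast.2 hn
  have hl' : (3 : ℝ) ≤ l := by exact_mod_cast hl
  have hW' : (W.card : ℝ) ≤ 12 * l * n := by exact_mod_cast hW
  have hp : 0 < θ * n / 8 := by positivity
  obtain ⟨m, hm⟩ : ∃ m, ⌈θ * n / 8⌉₊ = m + 1 := ⟨_, (Nat.succ_pred_eq_of_pos (Nat.ceil_pos.2 hp)).symm⟩
  have a1 : θ * n / 8 ≤ (m + 1 : ℕ) := hm ▸ Nat.le_ceil _
  have a2 : ((m + 1 : ℕ) : ℝ) < θ * n / 8 + 1 := hm ▸ Nat.ceil_lt_add_one hp.le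
  have a3 := boruvka S hI hc hl hV (Nat.le_add_left 1 m) W (by
    have e1 := mul_le_mul_of_nonneg_right a1 (Real.exp_pos (l / 2 : ℝ)).le
    have e2 := mul_le_mul_of_nonneg_right h3 (zero_le_one.trans hn')
    nlinarith)
  have a4 : (2 : ℝ) ^ (m + 1) + 1 ≤ 3 * Real.exp (θ * n / 8) := by
    have e1 : (2 : ℝ) ^ m ≤ Real.exp (θ * n / 8) := by
      refine (pow_le_pow_left₀ zero_le_two (b := Real.exp 1)
        (by linarith [Real.add_one_le_exp 1]) _).trans ?_
      rw [← Real.exp_nat_mul]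
      push_cast at a2
      exact Real.exp_le_exp.2 (by linarith)
    have e2 := Real.one_le_exp hp.le
    rw [pow_succ]
    linarith
  have a5 : ∑ U ∈ W.powerset.filter (fun U => S.Big l U ∧ θ * n ≤ 2 * S.b U),
      Real.exp (-γ * S.b U) ≤ ∑ U ∈ W.powerset.filter (S.Big l),
        Real.exp (-10 * S.b U) * Real.exp (-(θ * n / 2)) := by
    refine le_trans (sum_le_sum fun U hU => ?_) (sum_le_sum_of_subset_of_nonneg
      (fun U hU => mem_filter.2 ⟨(mem_filter.1 hU).1, (mem_filter.1 hU).2.1⟩)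
      fun U _ _ => by positivity)
    obtain ⟨-, -, u1⟩ := mem_filter.1 hU
    rw [← Real.exp_add]
    refine Real.exp_le_exp.2 ?_
    have : (0 : ℝ) ≤ S.b U := Nat.cast_nonneg _
    nlinarith
  rw [← sum_mul] at a5
  refine a5.trans ((mul_le_mul_of_nonneg_right (a3.trans a4) (Real.exp_pos _).le).trans ?_)
  rw [mul_assoc, ← Real.exp_add]
  exact mul_le_mul_of_nonneg_left (Real.exp_le_exp.2 (by linarith)) (by norm_num)

private theorem rho_Exp {ω : ℕ} {G : Finset V} {Ω : V → Finset V} (hT : S.Trees G Ω ω)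
    {A : Finset V} (hA : A ⊆ G) (W : Finset V) (hWA : Disjoint W A) (Y U : Finset V)
    (hU : U ⊆ W) :
    ∑ g ∈ A, (mino (Ω g) Y : ℝ) / ω ≤ ∑ g ∈ A, (mino (Ω g) (Y ∆ U) : ℝ) / ω + S.b W := by
  have h1 : (A.filter fun g => ¬ Disjoint (Ω g) W).card ≤ S.b W := by
    refine S.touch _ Ω (fun g hg => hT.conn g (hA (mem_filter.1 hg).1))
      (fun g hg g' hg' => hT.disj g (hA (mem_filter.1 hg).1) g' (hA (mem_filter.1 hg').1)) W
      fun g hg => ?_
    obtain ⟨g1, g2⟩ := mem_filter.1 hg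
    exact ⟨not_disjoint_iff.1 g2, g, hT.mem g (hA g1), fun h => disjoint_left.1 hWA h g1⟩
  have h2 : ∑ g ∈ A, (mino (Ω g) Y : ℝ) / ω ≤
      ∑ g ∈ A, ((mino (Ω g) (Y ∆ U) : ℝ) / ω + if ¬ Disjoint (Ω g) W then 1 else 0) := by
    refine sum_le_sum fun g hg => ?_
    split_ifs with h
    · rw [mino_symmDiff _ _ _ (Or.inr (h.mono_right hU)), add_zero]
    · have e1 := two_mino_le (Ω g) Y
      rw [hT.card g (hA hg)] at e1
      have e2 : (mino (Ω g) Y : ℝ) / ω ≤ 1 :=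
        div_le_one_of_le₀ (Nat.cast_le.2 (by omega)) (Nat.cast_nonneg _)
      have e3 : (0 : ℝ) ≤ (mino (Ω g) (Y ∆ U) : ℝ) / ω := by positivity
      linarith
  rw [sum_add_distrib, sum_boole] at h2
  have h3 : ((A.filter fun g => ¬ Disjoint (Ω g) W).card : ℝ) ≤ S.b W := Nat.cast_le.2 h1
  linarith

open Classical in
/-- a union of inactive cells has a large boundary -/
theorem expand {c l ω : ℕ} {G : Finset V} {Ω : V → Finset V} {cell : V → V} (hI : S.Iso c)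
    (hc : l + 2 ≤ c) (hl : 3 ≤ l) (hV : 2 * l ≤ Fintype.card V) (hP : S.Part G cell l)
    (hT : S.Trees G Ω ω) {γ β t θ : ℝ} (hγ : 11 ≤ γ) (hβ : 0 ≤ β) (ht : 0 < t) (hθ : 0 < θ)
    (hθ1 : θ ≤ 1) (h1 : 8 * Real.exp (1 - 2 * γ) ≤ t) (h2 : 4 * Real.exp (1 - t * ω / 4) ≤ θ)
    (h3 : 144 * l ≤ θ * Real.exp (l / 2)) {A : Finset V} (hA : A ⊆ G)
    (hin : ∀ g ∈ G, g ∉ A → 2 * θ * ∑ Y, S.wt γ β Ω ω A Y ≤
      ∑ Y ∈ univ.filter (fun Y => t * ω ≤ mino (Ω g) Y), S.wt γ β Ω ω A Y)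
    (W : Finset V) (hW : Sat cell W) (hWA : Disjoint W A) :
    ((G ∩ W).card : ℝ) ≤ (2 + 4 / θ * (2 * γ + β + Real.log (4 / θ))) * (S.b W + 1) := by
  obtain ⟨N, hN⟩ : ∃ N, N = (G ∩ W).filter fun g => Ω g ⊆ W := ⟨_, rfl⟩
  have hNG : ∀ g ∈ N, g ∈ G ∧ g ∈ W ∧ Ω g ⊆ W := fun g hg => by
    rw [hN, mem_filter, mem_inter] at hg
    exact ⟨hg.1.1, hg.1.2, hg.2⟩
  have c1 : (G ∩ W).card ≤ N.card + S.b W := by
    have e1 := card_filter_add_card_filter_not (s := G ∩ W) fun g => Ω g ⊆ W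
    have e2 : ((G ∩ W).filter fun g => ¬ Ω g ⊆ W).card ≤ S.b W := by
      have e3 : ∀ g ∈ (G ∩ W).filter fun g => ¬ Ω g ⊆ W, g ∈ G := fun g hg =>
        (mem_inter.1 (mem_filter.1 hg).1).1
      refine S.touch _ Ω (fun g hg => hT.conn g (e3 g hg))
        (fun g hg g' hg' => hT.disj g (e3 g hg) g' (e3 g' hg')) W fun g hg => ?_
      exact ⟨⟨g, hT.mem g (e3 g hg), (mem_inter.1 (mem_filter.1 hg).1).2⟩,
        not_subset.1 (mem_filter.1 hg).2⟩
    rw [← hN] at e1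
    omega
  have c2 : ((G ∩ W).card : ℝ) ≤ N.card + S.b W := by exact_mod_cast c1
  have hlog : 0 ≤ Real.log (4 / θ) := Real.log_nonneg ((one_le_div hθ).2 (by linarith))
  have hb : (0 : ℝ) ≤ S.b W := Nat.cast_nonneg _
  have hL : 0 ≤ 4 / θ * (2 * γ + β + Real.log (4 / θ)) * (S.b W + 1) := by
    have : 0 ≤ 2 * γ + β + Real.log (4 / θ) := by linarith
    positivity
  by_cases hn : N.card ≤ S.b W
  · have : (N.card : ℝ) ≤ S.b W := Nat.cast_le.2 hn
    rw [add_mul]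
    linarith
  have hn0 : 0 < N.card := by omega
  have hω : (0 : ℝ) < ω := by
    obtain ⟨g, hg⟩ := card_pos.1 hn0
    rw [← hT.card g (hNG g hg).1]
    exact Nat.cast_pos.2 (card_pos.2 ⟨g, hT.mem g (hNG g hg).1⟩)
  have hWc : W.card ≤ 12 * l * N.card := by
    have e1 : W ⊆ (G ∩ W).biUnion fun g => univ.filter fun v => cell v = g := fun v hv =>
      mem_biUnion.2 ⟨cell v, mem_inter.2 ⟨hP.mem v, (hW _ _ (hP.self _ (hP.mem v))).2 hv⟩,
        mem_filter.2 ⟨mem_univ _, rfl⟩⟩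
    have e2 := (card_le_card e1).trans
      (card_biUnion_le_card_mul _ _ _ fun g hg => hP.hi g (mem_inter.1 hg).1)
    have e3 : (G ∩ W).card * (6 * l) ≤ 2 * N.card * (6 * l) := Nat.mul_le_mul_right _ (by omega)
    calc W.card ≤ 2 * N.card * (6 * l) := e2.trans e3
      _ = 12 * l * N.card := by ring
  have m1 := markov_Exp N hn0 (S.wt γ β Ω ω A) (fun _ => (Real.exp_pos _).le)
    (fun g Y => t * ω ≤ mino (Ω g) Y) hθ.le fun g hg =>
      hin g (hNG g hg).1 fun h => disjoint_left.1 hWA (hNG g hg).2.1 h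
  have sA := sumA_Exp S N (fun g hg => hT.card g (hNG g hg).1) hγ h1 h2
  have sB := sumB_Exp S hI hc hl (by omega) hγ hθ hn0 h3 W hWc
  generalize hCa : (N.powerset.filter fun M => θ * N.card ≤ 2 * M.card).biUnion (fun M =>
    univ.filter fun U => S.Rooted (M.biUnion Ω) U ∧ t * ω * M.card ≤ 2 * U.card ∧
      2 * U.card ≤ S.b U) = Ca at sA
  generalize hCb : W.powerset.filter (fun U => S.Big l U ∧ θ * N.card ≤ 2 * S.b U) = Cb at sB
  have pe := peierls S (γ := γ) (κ := β * S.b W) (by linarith)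
    (fun Y => β * ∑ g ∈ A, (mino (Ω g) Y : ℝ) / ω) W (fun Y U hU => by
      rw [← mul_add]
      exact mul_le_mul_of_nonneg_left (rho_Exp S hT hA W hWA Y U hU) hβ) (Ca ∪ Cb)
  have sC : ∑ U ∈ Ca ∪ Cb, Real.exp (-γ * S.b U) ≤ 4 * Real.exp (-(θ * N.card / 4)) := by
    have e1 := sum_union_inter (s₁ := Ca) (s₂ := Cb) (f := fun U => Real.exp (-γ * S.b U))
    have e2 : 0 ≤ ∑ U ∈ Ca ∩ Cb, Real.exp (-γ * S.b U) :=
      sum_nonneg fun _ _ => (Real.exp_pos _).le
    linarith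
  have hZ : 0 < ∑ Y, S.wt γ β Ω ω A Y :=
    sum_pos (fun _ _ => Real.exp_pos _) univ_nonempty
  have m2 : θ * ∑ Y, S.wt γ β Ω ω A Y ≤ Real.exp (2 * γ * S.b W + β * S.b W) *
      (∑ U ∈ Ca ∪ Cb, Real.exp (-γ * S.b U)) * ∑ Y, S.wt γ β Ω ω A Y := by
    refine m1.trans (le_trans (sum_le_sum_of_subset_of_nonneg (fun Y hY => ?_)
      fun _ _ _ => (Real.exp_pos _).le) pe)
    have y1 := (mem_filter.1 hY).2
    refine mem_filter.2 ⟨mem_univ _, ?_⟩
    rcases dichotomy S hI hc hV hP hT W hW (N.filter fun g => t * ω ≤ mino (Ω g) Y)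
      (fun g hg => (hNG g (mem_filter.1 hg).1).1) (fun g hg => (hNG g (mem_filter.1 hg).1).2.2) Y
      (mul_pos ht hω) (fun g hg => (mem_filter.1 hg).2) with
      ⟨M, hM, hM', U, u1, u2, u3⟩ | ⟨U, u1, u2, u3, u4⟩
    · refine ⟨U, mem_union_left _ ?_, u1, u2⟩
      rw [← hCa]
      exact mem_biUnion.2 ⟨M, mem_filter.2 ⟨mem_powerset.2 (hM.trans (filter_subset _ _)),
        y1.trans (by exact_mod_cast hM')⟩, mem_filter.2 ⟨mem_univ _, u3⟩⟩
    · refine ⟨U, mem_union_right _ ?_, u1, u2⟩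
      rw [← hCb]
      exact mem_filter.2 ⟨mem_powerset.2 u1, u3, y1.trans (by exact_mod_cast u4)⟩
  have m3 := (le_of_mul_le_mul_right m2 hZ).trans
    (mul_le_mul_of_nonneg_left sC (Real.exp_pos _).le)
  rw [mul_left_comm, ← Real.exp_add] at m3
  have m4 : -Real.log (4 / θ) ≤ 2 * γ * S.b W + β * S.b W + -(θ * N.card / 4) := by
    rw [← Real.log_inv, inv_div]
    exact (Real.log_le_iff_le_exp (by positivity)).2 (by linarith)
  have m5 : θ * N.card / 4 ≤ (2 * γ + β + Real.log (4 / θ)) * (S.b W + 1) := by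
    have := mul_nonneg hlog hb
    nlinarith
  have m6 : (N.card : ℝ) ≤ 4 / θ * (2 * γ + β + Real.log (4 / θ)) * (S.b W + 1) := by
    rw [mul_assoc, div_mul_eq_mul_div, le_div_iff₀ hθ]
    linarith
  rw [add_mul]
  linarith

end Pool.Agent.MP_9a3194_co

end

section

open Finset
open scoped symmDiff

namespace Pool.Agent.MP_9a3194_co

private theorem gam_Thin {e : ℝ} (he : 0 < e) :
    ∃ γ : ℝ, 11 ≤ γ ∧ 256 * γ * Real.exp (1 - 2 * γ) ≤ e ^ 2 := by
  have h := (Real.tendsto_pow_mul_exp_neg_atTop_nhds_zero 1).eventually_le_const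
    (show (0 : ℝ) < e ^ 2 / 256 by positivity)
  obtain ⟨γ, h1, h2⟩ := (h.and (Filter.eventually_ge_atTop 11)).exists
  refine ⟨γ, h2, ?_⟩
  have h3 : Real.exp (1 - 2 * γ) ≤ Real.exp (-γ) := Real.exp_le_exp.2 (by linarith)
  have h4 := mul_le_mul_of_nonneg_left h3 (show 0 ≤ γ by linarith)
  rw [pow_one] at h1
  linarith

private theorem cells_Thin {V : Type} [Fintype V] [DecidableEq V] {S : Str V} {G : Finset V}
    {cell : V → V} {l : ℕ} (hP : S.Part G cell l) (Y H : Finset V) (h : ∀ v ∈ Y, cell v ∈ H) :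
    Y.card ≤ 6 * l * (G ∩ H).card := by
  refine card_le_mul_card_image_of_maps_to (f := cell)
    (fun v hv => mem_inter.2 ⟨hP.mem v, h v hv⟩) _ fun g hg => ?_
  exact (card_le_card (filter_subset_filter _ (subset_univ Y))).trans (hP.hi g (mem_inter.1 hg).1)

private theorem core_Thin {V : Type} [Fintype V] [DecidableEq V] {S : Str V} {G : Finset V}
    {cell : V → V} {l : ℕ} (hP : S.Part G cell l) (X : Finset V) :
    ∃ W ⊆ X, Sat cell W ∧ (X \ W).card ≤ 6 * l * S.b X ∧ W.card ≤ 6 * l * (G ∩ W).card := by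
  obtain ⟨W, hW⟩ : ∃ W : Finset V, ∀ v, v ∈ W ↔ ∀ u, cell u = cell v → u ∈ X :=
    ⟨univ.filter fun v => ∀ u, cell u = cell v → u ∈ X, fun v => by simp⟩
  have hs : Sat cell W := fun u v h => by rw [hW, hW, h]
  refine ⟨W, fun v hv => (hW v).1 hv v rfl, hs, ?_,
    cells_Thin hP W W fun v hv => (hs _ _ (hP.self _ (hP.mem v))).2 hv⟩
  refine (cells_Thin hP (X \ W) ((X \ W).image cell) fun v hv => mem_image_of_mem _ hv).trans
    (Nat.mul_le_mul_left _ ?_)
  refine S.touch _ (fun g => univ.filter fun v => cell v = g)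
    (fun g hg => hP.conn g (mem_inter.1 hg).1) (fun g _ g' _ hne => ?_) X fun g hg => ?_
  · exact disjoint_left.2 fun v h1 h2 => hne ((mem_filter.1 h1).2.symm.trans (mem_filter.1 h2).2)
  · obtain ⟨v, hv, rfl⟩ := mem_image.1 (mem_inter.1 hg).2
    obtain ⟨h1, h2⟩ := mem_sdiff.1 hv
    rw [hW] at h2
    obtain ⟨u, hu⟩ := not_forall.1 h2
    obtain ⟨h3, h4⟩ := Classical.not_imp.1 hu
    exact ⟨⟨v, mem_filter.2 ⟨mem_univ v, rfl⟩, h1⟩, u, mem_filter.2 ⟨mem_univ u, h3⟩, h4⟩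

private theorem num_Thin {x w r g bX bW l C : ℝ} (hl : 1 ≤ l) (hC : 0 ≤ C) (hb : 0 ≤ bX)
    (h1 : x ≤ w + r) (h2 : r ≤ 6 * l * bX) (h3 : w ≤ 6 * l * g) (h4 : g ≤ C * (bW + 1))
    (h5 : bW ≤ bX + 6 * r) : x ≤ (6 + 222 * C) * l ^ 2 * (bX + 1) := by
  have hl0 : 0 ≤ l := by linarith
  have a1 : 1 * bX ≤ l * bX := mul_le_mul_of_nonneg_right hl hb
  have a2 : bW + 1 ≤ 37 * l * (bX + 1) := by linarith
  have a3 : g ≤ C * (37 * l * (bX + 1)) := h4.trans (mul_le_mul_of_nonneg_left a2 hC)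
  have a4 := mul_le_mul_of_nonneg_left a3 (show 0 ≤ 6 * l by linarith)
  have a5 := mul_le_mul_of_nonneg_left a1 hl0
  have a6 : 0 ≤ l ^ 2 := sq_nonneg l
  linarith

/-- a thin net -/
theorem thin {ε : ℝ} (hε : 0 < ε) : ∃ (ω₀ l₀ : ℕ) (A : ℝ), 0 < A ∧
    ∀ {V : Type} [Fintype V] [DecidableEq V] (S : Str V) (c ω l : ℕ) (G : Finset V)
      (Ω : V → Finset V) (cell : V → V), ω₀ ≤ ω → l₀ ≤ l → l + 2 ≤ c → 2 * l ≤ Fintype.card V →
      S.Iso c → S.Part G cell l → S.Trees G Ω ω →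
      ∃ T ⊆ G, (∀ X : Finset V, ∑ g ∈ T, (mino (Ω g) X : ℝ) / ω ≤ ε * S.b X) ∧
        ∀ X : Finset V, Disjoint X T → (X.card : ℝ) ≤ A * l ^ 2 * (S.b X + 1) := by
  obtain ⟨e, he0, he1, heε⟩ : ∃ e : ℝ, 0 < e ∧ e ≤ 1 ∧ e ≤ ε :=
    ⟨min ε 1, lt_min hε one_pos, min_le_right _ _, min_le_left _ _⟩
  obtain ⟨γ, hγ, hγe⟩ := gam_Thin he0
  have hγ0 : 0 < γ := by linarith
  obtain ⟨β, hβ⟩ : ∃ β : ℝ, β = 2 * γ / e := ⟨_, rfl⟩
  have hβ2 : 2 ≤ β := by
    rw [hβ, le_div_iff₀ he0]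
    linarith
  obtain ⟨t, ht⟩ : ∃ t : ℝ, t = e / 4 / (4 * β) := ⟨_, rfl⟩
  have ht0 : 0 < t := by rw [ht]; positivity
  obtain ⟨θ, hθ⟩ : ∃ θ : ℝ, θ = e / 4 * Real.exp (-β / 2) / 4 := ⟨_, rfl⟩
  have hθ0 : 0 < θ := by rw [hθ]; positivity
  have hθ1 : θ ≤ 1 := by
    have h1 : Real.exp (-β / 2) ≤ 1 := Real.exp_le_one_iff.2 (by linarith)
    have h2 := mul_le_mul_of_nonneg_left h1 he0.le
    rw [hθ]
    linarith
  have hlog : 0 ≤ Real.log (4 / θ) := Real.log_nonneg (by rw [le_div_iff₀ hθ0]; linarith)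
  have hC : 0 ≤ 2 + 4 / θ * (2 * γ + β + Real.log (4 / θ)) := by positivity
  refine ⟨⌈4 * (1 - Real.log (θ / 4)) / t⌉₊, max 3 ⌈1152 / θ⌉₊,
    6 + 222 * (2 + 4 / θ * (2 * γ + β + Real.log (4 / θ))), by positivity, ?_⟩
  intro V _ _ S c ω l G Ω cell hω hl hc hV hI hP hT
  have hl3 : 3 ≤ l := (le_max_left _ _).trans hl
  have hl1 : (1 : ℝ) ≤ l := by exact_mod_cast (show 1 ≤ l by omega)
  obtain ⟨T, hTG, hT1, hT2⟩ := select S hT (π := e / 4) hγ0.le hβ2 (by positivity) (by linarith)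
  refine ⟨T, hTG, fun X => (hT1 X).trans (mul_le_mul_of_nonneg_right ?_ (Nat.cast_nonneg _)),
    fun X hX => ?_⟩
  · have h1 : γ / β = e / 2 := by
      rw [hβ]
      field_simp
    linarith
  have h1 : 8 * Real.exp (1 - 2 * γ) ≤ t := by
    have h2 : t = e ^ 2 / (32 * γ) := by
      rw [ht, hβ]
      field_simp
      ring
    rw [h2, le_div_iff₀ (by positivity)]
    linarith
  have h2 : 4 * Real.exp (1 - t * ω / 4) ≤ θ := by
    have h3 := (div_le_iff₀ ht0).1 (Nat.ceil_le.1 hω)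
    have h4 : Real.exp (1 - t * ω / 4) ≤ θ / 4 :=
      (Real.le_log_iff_exp_le (by positivity)).1 (by linarith)
    linarith
  have h3 : 144 * (l : ℝ) ≤ θ * Real.exp (l / 2) := by
    have h4 := (div_le_iff₀ hθ0).1 (Nat.ceil_le.1 ((le_max_right _ _).trans hl))
    have h5 := Real.quadratic_le_exp_of_nonneg (show (0 : ℝ) ≤ l / 2 by linarith)
    have h6 : (l : ℝ) ^ 2 / 8 ≤ Real.exp (l / 2) := by linarith
    have h7 := mul_le_mul_of_nonneg_left h6 hθ0.le
    have h8 := mul_le_mul_of_nonneg_left h4 (show (0 : ℝ) ≤ l by linarith)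
    linarith
  obtain ⟨W, hWX, hW, a1, a2⟩ := core_Thin hP X
  have a3 := expand S hI hc hl3 hV hP hT hγ (le_trans zero_le_two hβ2) ht0 hθ0 hθ1 h1 h2 h3 hTG
    (fun g hg hg' => by
      have h4 := hT2 g hg hg'
      rw [← ht] at h4
      refine le_trans (le_of_eq ?_) h4
      rw [hθ]
      ring) W hW (hX.mono_left hWX)
  have a4 := S.b_le_add W X
  rw [symmDiff_comm, symmDiff_of_ge hWX] at a4
  have a5 : X.card ≤ W.card + (X \ W).card := by
    rw [add_comm, card_sdiff_add_card_eq_card hWX]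
  exact num_Thin (r := (X \ W).card) (w := W.card) hl1 hC (Nat.cast_nonneg _)
    (by exact_mod_cast a5) (by exact_mod_cast a1) (by exact_mod_cast a2) a3 (by exact_mod_cast a4)

end Pool.Agent.MP_9a3194_co

end

section

open Finset
open scoped symmDiff

namespace Pool.Agent.MP_9a3194_co

variable {T E : Type} [Fintype T] [DecidableEq T] [Fintype E]

private theorem cross_LatA (u v : E → T) (a : E → ℝ)
    (hc : ∀ A : Finset T, A.Nonempty → Aᶜ.Nonempty → 2 ≤ crs u v a A) (A : Finset T)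
    (h1 : A.Nonempty) (h2 : Aᶜ.Nonempty) : ∃ e, ¬ (u e ∈ A ↔ v e ∈ A) := by
  by_contra hne
  have h0 : crs u v a A = 0 := by
    unfold crs
    refine Finset.sum_eq_zero fun e _ => ?_
    have : u e ∈ A ↔ v e ∈ A := by
      by_contra h
      exact hne ⟨e, h⟩
    rw [if_pos this]
  have := hc A h1 h2
  rw [h0] at this
  norm_num at this

private theorem order_LatA (u v : E → T) (a : E → ℝ) (o : T)
    (hc : ∀ A : Finset T, A.Nonempty → Aᶜ.Nonempty → 2 ≤ crs u v a A) (k : E → ℕ) (n : ℕ)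
    (hn : n + 1 ≤ Fintype.card T) :
    ∃ (pos : T → ℕ) (par : {t // t ≠ o} → E),
      (univ.filter fun x => pos x < n + 1).card = n + 1 ∧ pos o = 0 ∧
      (∀ x y, pos x < n + 1 → pos x = pos y → x = y) ∧
      ∀ t : {t // t ≠ o}, pos t.1 < n + 1 →
        ((u (par t) = t.1 ∧ pos (v (par t)) < pos t.1) ∨
          (v (par t) = t.1 ∧ pos (u (par t)) < pos t.1)) ∧
        ∀ e, ¬ (pos (u e) < pos t.1 ↔ pos (v e) < pos t.1) → k (par t) ≤ k e := by
  induction n with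
  | zero =>
    have hE : ∀ t : {t // t ≠ o}, Nonempty E := fun t => by
      obtain ⟨e, _⟩ := cross_LatA u v a hc {o} (singleton_nonempty o) ⟨t.1, by simpa using t.2⟩
      exact ⟨e⟩
    refine ⟨fun x => if x = o then 0 else 1, fun t => Classical.choice (hE t), ?_, by simp, ?_, ?_⟩
    · have : (univ.filter fun x => (if x = o then 0 else 1) < 0 + 1) = {o} := by
        ext x
        by_cases hx : x = o <;> simp [hx]
      rw [this]
      simp
    · intro x y hx hxy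
      by_cases h1 : x = o <;> by_cases h2 : y = o <;> simp_all
    · intro t ht
      simp [t.2] at ht
  | succ n ih =>
    obtain ⟨pos, par, hcard, ho, hinj, hpar⟩ := ih (by omega)
    set P : Finset T := univ.filter fun x => pos x < n + 1 with hP
    have hmem : ∀ x, x ∈ P ↔ pos x < n + 1 := fun x => by simp [hP]
    have hP1 : P.Nonempty := ⟨o, (hmem o).2 (by omega)⟩
    have hP2 : Pᶜ.Nonempty := by
      rw [← Finset.card_pos, Finset.card_compl]
      omega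
    obtain ⟨e0, he0⟩ := cross_LatA u v a hc P hP1 hP2
    obtain ⟨e, he, hmin⟩ := Finset.exists_min_image
      (univ.filter fun e => ¬ (u e ∈ P ↔ v e ∈ P)) k ⟨e0, by simpa using he0⟩
    have he' : ¬ (pos (u e) < n + 1 ↔ pos (v e) < n + 1) := by
      simpa [hmem] using (mem_filter.1 he).2
    have hmin' : ∀ e', ¬ (pos (u e') < n + 1 ↔ pos (v e') < n + 1) → k e ≤ k e' := fun e' h =>
      hmin e' (mem_filter.2 ⟨mem_univ _, by simpa [hmem] using h⟩)
    obtain ⟨s, hs, hse⟩ : ∃ s, ¬ pos s < n + 1 ∧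
        ((u e = s ∧ pos (v e) < n + 1) ∨ (v e = s ∧ pos (u e) < n + 1)) := by
      by_cases h : pos (u e) < n + 1
      · exact ⟨v e, fun h' => he' ⟨fun _ => h', fun _ => h⟩, Or.inr ⟨rfl, h⟩⟩
      · refine ⟨u e, h, Or.inl ⟨rfl, ?_⟩⟩
        by_contra h'
        exact he' ⟨fun h'' => absurd h'' h, fun h'' => absurd h'' h'⟩
    set pos' : T → ℕ := fun x => if pos x < n + 1 then pos x else if x = s then n + 1 else n + 2
      with hpos'
    have hA : ∀ x, pos x < n + 1 → pos' x = pos x := fun x hx => by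
      simp only [hpos', if_pos hx]
    have hB : pos' s = n + 1 := by simp only [hpos', if_neg hs, if_true]
    have hC : ∀ x, ¬ pos x < n + 1 → x ≠ s → pos' x = n + 2 := fun x hx hxs => by
      simp only [hpos', if_neg hx, if_neg hxs]
    have hD : ∀ x m, m ≤ n + 1 → (pos' x < m ↔ pos x < m) := fun x m hm => by
      by_cases hx : pos x < n + 1
      · rw [hA x hx]
      · by_cases hxs : x = s
        · rw [hxs, hB]
          rw [hxs] at hx
          omega
        · rw [hC x hx hxs]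
          omega
    have hE : ∀ x, pos' x < n + 1 + 1 → pos x < n + 1 ∨ x = s := fun x hx => by
      by_contra h
      rw [not_or] at h
      rw [hC x h.1 h.2] at hx
      omega
    refine ⟨pos', fun t => if t.1 = s then e else par t, ?_, ?_, ?_, ?_⟩
    · have : (univ.filter fun x => pos' x < n + 1 + 1) = insert s P := by
        ext x
        simp only [mem_filter, mem_univ, true_and, mem_insert, hmem]
        constructor
        · intro hx
          exact (hE x hx).symm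
        · rintro (hx | hx)
          · rw [hx, hB]
            omega
          · rw [hA x hx]
            omega
      rw [this, card_insert_of_notMem (by rw [hmem]; exact hs), hcard]
    · rw [hA o (by omega), ho]
    · intro x y hx hxy
      have hy : pos' y < n + 1 + 1 := hxy ▸ hx
      rcases hE x hx with h1 | h1 <;> rcases hE y hy with h2 | h2
      · rw [hA x h1, hA y h2] at hxy
        exact hinj x y h1 hxy
      · rw [hA x h1, h2, hB] at hxy
        omega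
      · rw [hA y h2, h1, hB] at hxy
        omega
      · rw [h1, h2]
    · intro t ht
      rcases hE t.1 ht with h1 | h1
      · have hts : t.1 ≠ s := fun h => hs (h ▸ h1)
        simp only [if_neg hts, hA t.1 h1, hD _ _ h1.le]
        exact hpar t h1
      · simp only [if_pos h1]
        rw [h1, hB]
        simp only [hD _ _ le_rfl]
        exact ⟨hse, hmin'⟩

private theorem layer_LatA (u v : E → T) (a : E → ℝ) (ha : ∀ e, 0 ≤ a e) (o : T)
    (hc : ∀ A : Finset T, A.Nonempty → Aᶜ.Nonempty → 2 ≤ crs u v a A) (L : T → ℕ)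
    (S : Finset T) (hinj : ∀ s ∈ S, ∀ s' ∈ S, L s = L s' → s = s') (ho : ∀ s ∈ S, L o ≠ L s) :
    (S.card : ℝ) ≤ ∑ e, if L (u e) = L (v e) then 0 else a e := by
  have h1 : ∀ s ∈ S, (2 : ℝ) ≤ crs u v a (univ.filter fun x => L x = L s) := fun s hs =>
    hc _ ⟨s, by simp⟩ ⟨o, by simpa using ho s hs⟩
  have h2 : (S.card : ℝ) * 2 ≤ ∑ s ∈ S, crs u v a (univ.filter fun x => L x = L s) := by
    have := Finset.sum_le_sum h1
    simpa using this
  have h3 : ∑ s ∈ S, crs u v a (univ.filter fun x => L x = L s) ≤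
      ∑ e, (if L (u e) = L (v e) then 0 else a e) * 2 := by
    unfold crs
    rw [Finset.sum_comm]
    refine Finset.sum_le_sum fun e _ => ?_
    simp only [mem_filter, mem_univ, true_and]
    by_cases h : L (u e) = L (v e)
    · simp [h]
    · rw [if_neg h]
      have hone : ∀ m : ℕ, ∑ s ∈ S, (if m = L s then a e else 0) ≤ a e := fun m => by
        rw [← Finset.sum_filter, Finset.sum_const, nsmul_eq_mul]
        have : (S.filter fun s => m = L s).card ≤ 1 := by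
          refine Finset.card_le_one.2 fun x hx y hy => ?_
          rw [mem_filter] at hx hy
          exact hinj x hx.1 y hy.1 (hx.2.symm.trans hy.2)
        have h' : ((S.filter fun s => m = L s).card : ℝ) ≤ 1 := by exact_mod_cast this
        nlinarith [ha e]
      have hle : ∀ s ∈ S, (if (L (u e) = L s ↔ L (v e) = L s) then 0 else a e) ≤
          (if L (u e) = L s then a e else 0) + (if L (v e) = L s then a e else 0) := fun s _ => by
        have := ha e
        by_cases p : L (u e) = L s <;> by_cases q : L (v e) = L s <;> simp [p, q, this]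
      refine (Finset.sum_le_sum hle).trans ?_
      rw [Finset.sum_add_distrib]
      linarith [hone (L (u e)), hone (L (v e))]
  rw [← Finset.sum_mul] at h3
  linarith

/-- a cheap spanning tree -/
theorem prim (u v : E → T) (a : E → ℝ) (ha : ∀ e, 0 ≤ a e) (o : T)
    (hc : ∀ A : Finset T, A.Nonempty → Aᶜ.Nonempty → 2 ≤ crs u v a A) (k : E → ℕ) :
    ∃ (pos : T → ℕ) (par : {t // t ≠ o} → E), Function.Injective pos ∧
      (∀ t, (u (par t) = t.1 ∧ pos (v (par t)) < pos t.1) ∨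
        (v (par t) = t.1 ∧ pos (u (par t)) < pos t.1)) ∧
      ∑ t, (k (par t) : ℝ) ≤ ∑ e, a e * k e := by
  have hT : 0 < Fintype.card T := Fintype.card_pos_iff.2 ⟨o⟩
  obtain ⟨n, hn⟩ : ∃ n, Fintype.card T = n + 1 := ⟨Fintype.card T - 1, by omega⟩
  obtain ⟨pos, par, hcard, ho, hinj, hpar⟩ := order_LatA u v a o hc k n hn.ge
  have hall : ∀ x, pos x < n + 1 := fun x => by
    have : (univ.filter fun x => pos x < n + 1) = univ :=
      Finset.eq_univ_of_card _ (hcard.trans hn.symm)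
    have hx : x ∈ univ.filter fun x => pos x < n + 1 := this.symm ▸ mem_univ x
    exact (mem_filter.1 hx).2
  have hinj' : Function.Injective pos := fun x y h => hinj x y (hall x) h
  refine ⟨pos, par, hinj', fun t => (hpar t (hall _)).1, ?_⟩
  have key : ∀ j : ℕ, ∑ t : {t // t ≠ o}, (if j < k (par t) then (1 : ℝ) else 0) ≤
      ∑ e, a e * (if j < k e then 1 else 0) := fun j => by
    set S0 : Finset {t // t ≠ o} := univ.filter fun t => j < k (par t) with hS0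
    set S : Finset T := S0.map (Function.Embedding.subtype _) with hS
    have hSm : ∀ s ∈ S, ∃ h : s ≠ o, j < k (par ⟨s, h⟩) := fun s hs => by
      obtain ⟨t, ht, rfl⟩ := mem_map.1 hs
      exact ⟨t.2, (mem_filter.1 ht).2⟩
    set L : T → ℕ := fun x => (S.filter fun s => pos s ≤ pos x).card with hL
    have hlt : ∀ x, ∀ s ∈ S, pos x < pos s → L x < L s := fun x s hs h => by
      refine Finset.card_lt_card ⟨fun z hz => ?_, fun hsub => ?_⟩
      · rw [mem_filter] at hz ⊢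
        exact ⟨hz.1, by omega⟩
      · have : s ∈ S.filter fun z => pos z ≤ pos x := hsub (mem_filter.2 ⟨hs, le_rfl⟩)
        have := (mem_filter.1 this).2
        omega
    have h1 := layer_LatA u v a ha o hc L S
      (fun s hs s' hs' h => by
        rcases lt_trichotomy (pos s) (pos s') with p | p | p
        · exact absurd h (hlt s s' hs' p).ne
        · exact hinj' p
        · exact absurd h (hlt s' s hs p).ne')
      (fun s hs => by
        obtain ⟨h, _⟩ := hSm s hs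
        refine (hlt o s hs ?_).ne
        rw [ho]
        refine Nat.pos_of_ne_zero fun h0 => h (hinj' (h0.trans ho.symm)))
    have h2 : ∑ t : {t // t ≠ o}, (if j < k (par t) then (1 : ℝ) else 0) = S.card := by
      rw [hS, card_map, hS0, Finset.sum_boole]
    rw [h2]
    refine h1.trans (Finset.sum_le_sum fun e _ => ?_)
    by_cases h : L (u e) = L (v e)
    · rw [if_pos h]
      have := ha e
      split_ifs <;> simp [this]
    · rw [if_neg h]
      have hj : j < k e := by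
        by_contra hj
        apply h
        have : (S.filter fun s => pos s ≤ pos (u e)) = S.filter fun s => pos s ≤ pos (v e) := by
          refine Finset.filter_congr fun s hs => ?_
          obtain ⟨hso, hk⟩ := hSm s hs
          by_contra hne
          have := (hpar ⟨s, hso⟩ (hall _)).2 e (by
            simp only
            omega)
          omega
        simp only [hL, this]
      simp [hj]
  obtain ⟨K, hK⟩ : ∃ K, ∀ e, k e ≤ K := ⟨univ.sup k, fun e => Finset.le_sup (f := k) (mem_univ e)⟩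
  have hk : ∀ e, (k e : ℝ) = ∑ j ∈ range K, if j < k e then (1 : ℝ) else 0 := fun e => by
    rw [Finset.sum_boole]
    have : ((range K).filter fun j => j < k e) = range (k e) := by
      ext j
      have := hK e
      simp only [mem_filter, mem_range]
      omega
    rw [this, card_range]
  simp only [hk, Finset.mul_sum]
  rw [Finset.sum_comm, Finset.sum_comm (s := univ)]
  exact Finset.sum_le_sum fun j _ => key j

end Pool.Agent.MP_9a3194_co

end

section

open Finset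
open scoped symmDiff

namespace Pool.Agent.MP_9a3194_co

open Matrix

variable {T E : Type} [Fintype T] [DecidableEq T] [Fintype E] [DecidableEq E]

/-- conductances with small leverage -/
theorem weights (u v : E → T) (a : E → ℝ) (ha : ∀ e, 0 < a e) (o : T)
    (hc : ∀ A : Finset T, A.Nonempty → Aᶜ.Nonempty → 2 ≤ crs u v a A) :
    ∃ c : E → ℝ, (∀ e, 0 < c e ∧ c e ≤ 1) ∧ (lap u v o c).PosDef ∧
      ∀ e, c e * ((Pi.single (u e) 1 - Pi.single (v e) 1 : T → ℝ) ⬝ᵥ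
        (lap u v o c)⁻¹ *ᵥ (Pi.single (u e) 1 - Pi.single (v e) 1)) ≤ 1.45 * a e := by
  let c : (E → ℕ) → E → ℝ := fun k e => (1 / 2) ^ k e
  have hc0 : ∀ k e, 0 < c k e := fun k e => by positivity
  let Φ : (E → ℕ) → ℝ := fun k => Real.log (lap u v o (c k)).det + Real.log 2 * ∑ e, a e * k e
  have h2 : 0 < Real.log 2 := Real.log_pos one_lt_two
  have key : ∀ k, (lap u v o (c k)).PosDef ∧ 0 ≤ Φ k := fun k => by
    obtain ⟨pos, par, hp, h, hs⟩ := prim u v a (fun e => (ha e).le) o hc k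
    obtain ⟨h1, h3⟩ := lap_tree u v o (c k) (hc0 k) pos par hp h
    refine ⟨h1, ?_⟩
    have h4 := Real.log_le_log (Finset.prod_pos fun t _ => hc0 k (par t)) h3
    rw [Real.log_prod fun t _ => (hc0 k (par t)).ne'] at h4
    have h5 : ∑ t, Real.log (c k (par t)) = -(Real.log 2 * ∑ t, (k (par t) : ℝ)) := by
      rw [Finset.mul_sum, ← Finset.sum_neg_distrib]
      refine Finset.sum_congr rfl fun t _ => ?_
      simp only [c]
      rw [Real.log_pow, one_div, Real.log_inv]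
      ring
    have h6 := mul_le_mul_of_nonneg_left hs h2.le
    simp only [Φ]
    linarith
  obtain ⟨ε, hε, hεa⟩ : ∃ ε : ℝ, 0 < ε ∧ ∀ e, ε ≤ 0.03 * a e := by
    rcases isEmpty_or_nonempty E with h | h
    · exact ⟨1, one_pos, fun e => (h.false e).elim⟩
    · obtain ⟨e₀, he₀⟩ := Finite.exists_min a
      exact ⟨0.03 * a e₀, by have := ha e₀; positivity, fun e => by have := he₀ e; linarith⟩
  have hb : BddBelow (Set.range Φ) := ⟨0, by rintro _ ⟨k, rfl⟩; exact (key k).2⟩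
  obtain ⟨k, hk⟩ := exists_lt_of_ciInf_lt (show iInf Φ < iInf Φ + ε by linarith)
  refine ⟨c k, fun e => ⟨hc0 k e, pow_le_one₀ (by norm_num) (by norm_num)⟩, (key k).1,
    fun e => ?_⟩
  have h3 := ciInf_le hb (Function.update k e (k e + 1))
  have h4 : c (Function.update k e (k e + 1)) = Function.update (c k) e (c k e / 2) := by
    funext e'
    by_cases h : e' = e
    · subst h
      simp only [c, Function.update_self, pow_succ]
      ring
    · simp only [c, Function.update_of_ne h]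
  have h5 := lap_half u v o (c k) (key k).1 e
  have h6 := (key (Function.update k e (k e + 1))).1.det_pos
  have h7 := (key k).1.det_pos
  have h8 : ∑ e', a e' * ((Function.update k e (k e + 1) e' : ℕ) : ℝ) =
      ∑ e', a e' * k e' + a e := by
    have : ∀ e', a e' * ((Function.update k e (k e + 1) e' : ℕ) : ℝ) =
        a e' * k e' + if e' = e then a e else 0 := fun e' => by
      by_cases h : e' = e
      · subst h
        simp [mul_add]
      · simp [h]
    simp only [this, Finset.sum_add_distrib, Finset.sum_ite_eq', Finset.mem_univ, if_true]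
  simp only [Φ] at h3 hk
  rw [h4] at h6
  rw [h4, h8, h5] at h3
  rw [h5] at h6
  set x := (Pi.single (u e) 1 - Pi.single (v e) 1 : T → ℝ) ⬝ᵥ
    (lap u v o (c k))⁻¹ *ᵥ (Pi.single (u e) 1 - Pi.single (v e) 1)
  have h9 : 0 < 1 - c k e / 2 * x := (pos_iff_pos_of_mul_pos h6).1 h7
  rw [Real.log_mul h7.ne' h9.ne'] at h3
  have h10 := Real.log_le_sub_one_of_pos h9
  have h11 := mul_le_mul_of_nonneg_right Real.log_two_lt_d9.le (ha e).le
  have h12 := hεa e
  have h13 := ha e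
  nlinarith

end Pool.Agent.MP_9a3194_co

end

section

open Finset
open scoped symmDiff

namespace Pool.Agent.MP_9a3194_co

open Matrix

variable {T E : Type} [Fintype T] [DecidableEq T] [Fintype E] [DecidableEq E]

omit [Fintype E] [DecidableEq E] [DecidableEq T] in
private lemma symm_LatD (M : Matrix T T ℝ) (hM : M.IsHermitian) (x y : T → ℝ) :
    x ⬝ᵥ M *ᵥ y = y ⬝ᵥ M *ᵥ x := by
  have h : Mᵀ = M := by
    have := hM.eq
    rwa [conjTranspose_eq_transpose_of_trivial] at this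
  rw [dotProduct_mulVec, ← mulVec_transpose, h, dotProduct_comm]

omit [Fintype T] [DecidableEq T] [DecidableEq E] in
private lemma delta_LatD (a : E → ℝ) (ha : ∀ e, 0 < a e) :
    ∃ δ : ℝ, 0 < δ ∧ ∀ e, δ ≤ 0.2 * a e := by
  rcases isEmpty_or_nonempty E with h | h
  · exact ⟨1, one_pos, fun e => (h.false e).elim⟩
  · obtain ⟨e₀, he₀⟩ := Finite.exists_min a
    refine ⟨0.2 * a e₀, by have := ha e₀; positivity, fun e => ?_⟩
    have := he₀ e
    linarith

omit [Fintype E] [DecidableEq E] [DecidableEq T] in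
private lemma expand_LatD (M : Matrix T T ℝ) (hM : M.IsHermitian) (y b : T → ℝ) (s : ℝ) :
    (y + s • b) ⬝ᵥ M *ᵥ (y + s • b) =
      y ⬝ᵥ M *ᵥ y + 2 * s * (b ⬝ᵥ M *ᵥ y) + s ^ 2 * (b ⬝ᵥ M *ᵥ b) := by
  rw [mulVec_add, mulVec_smul, add_dotProduct, dotProduct_add, dotProduct_add, smul_dotProduct,
    smul_dotProduct, dotProduct_smul, dotProduct_smul, symm_LatD M hM y b]
  simp only [smul_eq_mul]
  ring

/-- every coset of `2ℤ^T` has a point that can be routed -/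
theorem lattice (u v : E → T) (a : E → ℝ) (ha : ∀ e, 0 < a e) (o : T)
    (hc : ∀ A : Finset T, A.Nonempty → Aᶜ.Nonempty → 2 ≤ crs u v a A) (q : T → ℝ) (m : ℤ)
    (hq : ∑ t, q t = 2 * m) :
    ∃ z : T → ℤ, ∑ t, (q t + 2 * z t) = 0 ∧
      ∀ A : Finset T, ∑ t ∈ A, (q t + 2 * z t) ≤ 3 / 2 * crs u v a A := by
  obtain ⟨c, hc1, hL, hlev⟩ := weights u v a ha o hc
  obtain ⟨δ, hδ, hδa⟩ := delta_LatD a ha
  set L := lap u v o c with hLdef
  have hI : (L⁻¹).PosDef := hL.inv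
  have hH : (L⁻¹).IsHermitian := hI.isHermitian
  let y : (T → ℤ) → T → ℝ := fun z t => q t + 2 * z t
  let En : (T → ℤ) → ℝ := fun z => y z ⬝ᵥ L⁻¹ *ᵥ y z
  have hEn : ∀ z, 0 ≤ En z := fun z => by
    have := hI.posSemidef.dotProduct_mulVec_nonneg (y z)
    simpa using this
  let S : Set ℝ := {r | ∃ z : T → ℤ, ∑ t, y z t = 0 ∧ En z = r}
  have hSne : S.Nonempty := by
    refine ⟨_, Pi.single o (-m), ?_, rfl⟩
    simp only [y, Finset.sum_add_distrib, hq, ← Finset.mul_sum]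
    have : ∑ t, (((Pi.single o (-m) : T → ℤ) t : ℤ) : ℝ) = -m := by
      rw [← Int.cast_sum, Finset.sum_pi_single']
      simp
    rw [this]
    ring
  have hSb : BddBelow S := ⟨0, by rintro r ⟨z, -, rfl⟩; exact hEn z⟩
  obtain ⟨r, ⟨z, hz, rfl⟩, hr⟩ := Real.lt_sInf_add_pos hSne hδ
  have hmin : ∀ z' : T → ℤ, ∑ t, y z' t = 0 → En z ≤ En z' + δ := fun z' hz' => by
    have := csInf_le hSb (show En z' ∈ S from ⟨z', hz', rfl⟩)
    linarith
  set φ : T → ℝ := L⁻¹ *ᵥ y z with hφ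
  have hLφ : L *ᵥ φ = y z := by
    rw [hφ, mulVec_mulVec, mul_nonsing_inv _ (isUnit_iff_ne_zero.mpr hL.det_pos.ne'), one_mulVec]
  have hedge : ∀ e, c e * |φ (u e) - φ (v e)| ≤ 3 / 2 * a e := by
    intro e
    set b : T → ℝ := Pi.single (u e) 1 - Pi.single (v e) 1 with hb
    have hbφ : b ⬝ᵥ L⁻¹ *ᵥ y z = φ (u e) - φ (v e) := by
      rw [← hφ, hb, sub_dotProduct, single_dotProduct, single_dotProduct]
      ring
    have hbs : ∑ t, b t = 0 := by
      simp [hb, Finset.sum_sub_distrib, Finset.sum_pi_single']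
    have key : ∀ s : ℤ, En z ≤ En z + 2 * (2 * s) * (φ (u e) - φ (v e)) +
        (2 * s) ^ 2 * (b ⬝ᵥ L⁻¹ *ᵥ b) + δ := by
      intro s
      have hy : y (z + s • (Pi.single (u e) 1 - Pi.single (v e) 1)) = y z + (2 * s : ℝ) • b := by
        funext t
        simp only [y, hb, Pi.add_apply, Pi.smul_apply, Pi.sub_apply, smul_eq_mul, Pi.single_apply]
        push_cast
        ring
      have h1 := hmin (z + s • (Pi.single (u e) 1 - Pi.single (v e) 1)) (by
        rw [hy]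
        simp only [Pi.add_apply, Pi.smul_apply, smul_eq_mul, Finset.sum_add_distrib,
          ← Finset.mul_sum, hz, hbs]
        ring)
      have h2 : En (z + s • (Pi.single (u e) 1 - Pi.single (v e) 1)) =
          En z + 2 * (2 * s) * (φ (u e) - φ (v e)) + (2 * s) ^ 2 * (b ⬝ᵥ L⁻¹ *ᵥ b) := by
        simp only [En]
        rw [hy, expand_LatD _ hH, hbφ]
      linarith
    have k1 := key 1
    have k2 := key (-1)
    push_cast at k1 k2
    have habs : |φ (u e) - φ (v e)| ≤ b ⬝ᵥ L⁻¹ *ᵥ b + δ / 4 := by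
      rw [abs_le]
      constructor <;> linarith
    have h3 := hlev e
    have h4 := hδa e
    obtain ⟨h5, h6⟩ := hc1 e
    have h7 := mul_le_mul_of_nonneg_left habs h5.le
    have h8 : c e * (δ / 4) ≤ δ / 4 := by nlinarith
    rw [mul_add] at h7
    linarith
  have hφo : φ o = 0 := by
    have := lap_sum u v o c φ Finset.univ
    rw [← hLdef, hLφ, hz] at this
    simpa using this.symm
  refine ⟨z, hz, fun A => ?_⟩
  have h := lap_sum u v o c φ A
  rw [← hLdef, hLφ, hφo] at h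
  have h' : ∑ t ∈ A, (q t + 2 * (z t : ℝ)) = ∑ s ∈ A, y z s := rfl
  rw [h', h, crs, Finset.mul_sum, ite_self, zero_add]
  refine Finset.sum_le_sum fun e _ => ?_
  have h1 := hedge e
  have h2 := (hc1 e).1
  have h3 := mul_le_mul_of_nonneg_left (le_abs_self (φ (u e) - φ (v e))) h2.le
  have h4 := mul_le_mul_of_nonneg_left (neg_abs_le (φ (u e) - φ (v e))) h2.le
  by_cases hu : u e ∈ A <;> by_cases hv : v e ∈ A <;> simp only [hu, hv, if_true, if_false,
    iff_self, true_iff, iff_true, not_true, not_false_iff, iff_false, false_iff] <;> linarith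

end Pool.Agent.MP_9a3194_co

end

section

open Finset
open scoped symmDiff

namespace Pool.Agent.MP_9a3194_co

private theorem cut2_LatE {T : Type} [Fintype T] [DecidableEq T] (w : T → T → ℕ)
    (hs : ∀ s t, w s t = w t s) (A : Finset T) :
    ∑ s, ∑ t, (if (s ∈ A ↔ t ∈ A) then 0 else (w s t : ℝ)) = 2 * cutw w A := by
  have h1 : ∀ s ∈ A, ∑ t, (if (s ∈ A ↔ t ∈ A) then 0 else (w s t : ℝ)) =
      ∑ t ∈ Aᶜ, (w s t : ℝ) := by
    intro s hsA
    rw [← sum_add_sum_compl A, sum_eq_zero (fun t ht => by simp [hsA, ht]), zero_add]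
    exact sum_congr rfl fun t ht => by
      have := mem_compl.1 ht
      simp [hsA, this]
  have h2 : ∀ s ∈ Aᶜ, ∑ t, (if (s ∈ A ↔ t ∈ A) then 0 else (w s t : ℝ)) =
      ∑ t ∈ A, (w t s : ℝ) := by
    intro s hsA
    have hsA' := mem_compl.1 hsA
    rw [← sum_add_sum_compl A, sum_eq_zero (s := Aᶜ) (fun t ht => by
      have := mem_compl.1 ht
      simp [hsA', this]), add_zero]
    exact sum_congr rfl fun t ht => by simp [hsA', ht, hs s t]
  rw [← sum_add_sum_compl A, sum_congr rfl h1, sum_congr rfl h2, sum_comm (s := Aᶜ)]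
  unfold cutw
  push_cast
  ring

private theorem crs_LatE {T : Type} [Fintype T] [DecidableEq T] (w : T → T → ℕ)
    (hs : ∀ s t, w s t = w t s) (Tm : Finset T) (hz : ∀ s t, s ∉ Tm → s ≠ t → w s t = 0)
    (lam : ℝ) (A : Finset T) (B : Finset {t // t ∈ Tm}) (hB : ∀ t, t ∈ B ↔ t.1 ∈ A) :
    crs (E := {p : {t // t ∈ Tm} × {t // t ∈ Tm} // 0 < w p.1 p.2}) (fun e => e.1.1)
      (fun e => e.1.2) (fun e => (w e.1.1 e.1.2 : ℝ) / lam) B = 2 * cutw w A / lam := by
  rw [← cut2_LatE w hs A]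
  unfold crs
  have e1 : ∑ e : {p : {t // t ∈ Tm} × {t // t ∈ Tm} // 0 < w p.1 p.2},
      (if (e.1.1 ∈ B ↔ e.1.2 ∈ B) then 0 else (w e.1.1 e.1.2 : ℝ) / lam) =
      ∑ p : {t // t ∈ Tm} × {t // t ∈ Tm},
        (if (p.1 ∈ B ↔ p.2 ∈ B) then 0 else (w p.1 p.2 : ℝ) / lam) := by
    rw [← sum_subtype (univ.filter fun p : {t // t ∈ Tm} × {t // t ∈ Tm} => 0 < w p.1 p.2)
      (by simp) (fun p => if (p.1 ∈ B ↔ p.2 ∈ B) then 0 else (w p.1 p.2 : ℝ) / lam)]
    refine sum_filter_of_ne fun p _ hp => ?_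
    by_contra h
    have h0 : w p.1 p.2 = 0 := by omega
    simp [h0] at hp
  have hF : ∀ s t, s ∉ Tm ∨ t ∉ Tm → (if (s ∈ A ↔ t ∈ A) then 0 else (w s t : ℝ)) = 0 := by
    intro s t h
    by_cases hst : s = t
    · simp [hst]
    · have h0 : w s t = 0 := by
        rcases h with h | h
        · exact hz s t h hst
        · rw [hs]; exact hz t s h (Ne.symm hst)
      simp [h0]
  have e2 : ∑ s, ∑ t, (if (s ∈ A ↔ t ∈ A) then 0 else (w s t : ℝ)) =
      ∑ s ∈ Tm, ∑ t ∈ Tm, (if (s ∈ A ↔ t ∈ A) then 0 else (w s t : ℝ)) := by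
    symm
    rw [← sum_subset (subset_univ Tm)
      (fun s _ hsT => sum_eq_zero fun t _ => hF s t (Or.inl hsT))]
    exact sum_congr rfl fun s _ =>
      sum_subset (subset_univ Tm) fun t _ ht => hF s t (Or.inr ht)
  rw [e1, e2, Fintype.sum_prod_type, ← sum_coe_sort Tm, sum_div]
  refine sum_congr rfl fun s _ => ?_
  rw [← sum_coe_sort Tm, sum_div]
  refine sum_congr rfl fun t _ => ?_
  simp only [hB]
  split_ifs <;> simp

/-- the lattice lemma with Steiner vertices -/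
theorem steiner {T : Type} [Fintype T] [DecidableEq T] (w : T → T → ℕ)
    (hs : ∀ s t, w s t = w t s) (Tm : Finset T) (hT : Tm.Nonempty) (lam : ℕ) (h0 : 0 < lam)
    (hl : Even lam) (hev : ∀ A, Even (cutw w A))
    (hc : ∀ A : Finset T, (∃ s ∈ Tm, s ∈ A) → (∃ t ∈ Tm, t ∉ A) → lam ≤ cutw w A)
    (q : T → ℝ) (m : ℤ) (hq : ∑ t ∈ Tm, q t = 2 * m) :
    ∃ z : T → ℤ, (∀ t ∉ Tm, z t = 0) ∧ ∑ t ∈ Tm, (q t + 2 * z t) = 0 ∧
      ∀ A : Finset T, ∑ t ∈ Tm ∩ A, (q t + 2 * z t) ≤ 3 / lam * cutw w A := by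
  obtain ⟨w', hs', hle, hc', hz⟩ := split w hs Tm lam hl hev hc
  obtain ⟨o, ho⟩ := hT
  have hlam : (0 : ℝ) < lam := by exact_mod_cast h0
  obtain ⟨z, hz0, hzA⟩ := lattice (T := {t // t ∈ Tm})
    (E := {p : {t // t ∈ Tm} × {t // t ∈ Tm} // 0 < w' p.1 p.2}) (fun e => e.1.1)
    (fun e => e.1.2) (fun e => (w' e.1.1 e.1.2 : ℝ) / lam)
    (fun e => div_pos (by exact_mod_cast e.2) hlam) ⟨o, ho⟩
    (by
      rintro B ⟨s, hsB⟩ ⟨t, htB⟩
      have hB : ∀ t, t ∈ B ↔ t.1 ∈ B.map (Function.Embedding.subtype _) := fun t =>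
        (mem_map' (Function.Embedding.subtype _)).symm
      rw [crs_LatE w' hs' Tm hz lam _ B hB, le_div_iff₀ hlam]
      have h := hc' (B.map (Function.Embedding.subtype _)) ⟨s.1, s.2, (hB s).1 hsB⟩
        ⟨t.1, t.2, fun h => mem_compl.1 htB ((hB t).2 h)⟩
      have h' : (lam : ℝ) ≤ cutw w' (B.map (Function.Embedding.subtype _)) := by
        exact_mod_cast h
      linarith)
    (fun t => q t.1) m (by rw [← hq]; exact sum_coe_sort Tm q)
  refine ⟨fun t => if h : t ∈ Tm then z ⟨t, h⟩ else 0, fun t ht => by simp [ht], ?_, fun A => ?_⟩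
  · rw [← hz0, ← sum_coe_sort Tm]
    exact sum_congr rfl fun t _ => by simp
  · have h := hzA (univ.filter fun t => t.1 ∈ A)
    rw [crs_LatE w' hs' Tm hz lam A _ (by simp)] at h
    have h' : (cutw w' A : ℝ) ≤ cutw w A := by exact_mod_cast hle A
    have e : ∑ t ∈ Tm ∩ A, (q t + 2 * ((if h : t ∈ Tm then z ⟨t, h⟩ else 0 : ℤ) : ℝ)) =
        ∑ t ∈ univ.filter (fun t : {t // t ∈ Tm} => t.1 ∈ A), (q t.1 + 2 * (z t : ℝ)) := by
      rw [← filter_mem_eq_inter, sum_filter, sum_filter, ← sum_coe_sort Tm]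
      exact sum_congr rfl fun t _ => by simp
    rw [e]
    refine h.trans ?_
    have e3 : (3 : ℝ) / 2 * (2 * cutw w' A / lam) = 3 / lam * cutw w' A := by ring
    rw [e3]
    exact mul_le_mul_of_nonneg_left h' (by positivity)

end Pool.Agent.MP_9a3194_co

end

section

open Finset
open scoped symmDiff

namespace Pool.Agent.MP_9a3194_co

variable {V : Type} [Fintype V] [DecidableEq V] (S : Str V)

/-- the contraction map -/
noncomputable def rho_Ctr (T : Finset V) (Ω : V → Finset V) (v : V) : V :=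
  if h : ∃ g ∈ T, v ∈ Ω g then h.choose else v

/-- the preimage under the contraction map -/
noncomputable def pre_Ctr (T : Finset V) (Ω : V → Finset V) (A : Finset V) : Finset V :=
  univ.filter fun v => rho_Ctr T Ω v ∈ A

/-- the contracted weights -/
noncomputable def w_Ctr (T : Finset V) (Ω : V → Finset V) (s t : V) : ℕ :=
  2 * (univ.filter fun d : Dt V => rho_Ctr T Ω d.1 = s ∧ rho_Ctr T Ω (S.hd d) = t).card

variable {S}

omit [Fintype V] in
theorem rho_not_Ctr {T : Finset V} {Ω : V → Finset V} {v : V} (h : ¬ ∃ g ∈ T, v ∈ Ω g) :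
    rho_Ctr T Ω v = v := by
  unfold rho_Ctr
  rw [dif_neg h]

theorem rho_mem_Ctr {ω : ℕ} {T : Finset V} {Ω : V → Finset V} (hT : S.Trees T Ω ω) {g v : V}
    (hg : g ∈ T) (hv : v ∈ Ω g) : rho_Ctr T Ω v = g := by
  have h : ∃ g ∈ T, v ∈ Ω g := ⟨g, hg, hv⟩
  unfold rho_Ctr
  rw [dif_pos h]
  by_contra hne
  exact Finset.disjoint_left.1 (hT.disj _ h.choose_spec.1 _ hg hne) h.choose_spec.2 hv

theorem mem_pre_Ctr {T : Finset V} {Ω : V → Finset V} {A : Finset V} {v : V} :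
    v ∈ pre_Ctr T Ω A ↔ rho_Ctr T Ω v ∈ A := by
  simp [pre_Ctr]

theorem w_symm_Ctr (T : Finset V) (Ω : V → Finset V) (s t : V) :
    w_Ctr S T Ω s t = w_Ctr S T Ω t s := by
  unfold w_Ctr
  congr 1
  refine Finset.card_bij' (fun d _ => S.rv d) (fun d _ => S.rv d) ?_ ?_ ?_ ?_
  · intro d hd
    simp only [mem_filter, mem_univ, true_and] at hd ⊢
    rw [S.hd_rv, S.rv_fst]
    exact ⟨hd.2, hd.1⟩
  · intro d hd
    simp only [mem_filter, mem_univ, true_and] at hd ⊢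
    rw [S.hd_rv, S.rv_fst]
    exact ⟨hd.2, hd.1⟩
  · intro d _
    exact S.rv_rv d
  · intro d _
    exact S.rv_rv d

theorem cutw_Ctr (T : Finset V) (Ω : V → Finset V) (A : Finset V) :
    cutw (w_Ctr S T Ω) A = S.b (pre_Ctr T Ω A) := by
  rw [S.b_eq]
  unfold cutw w_Ctr
  simp only [← Finset.mul_sum]
  congr 1
  rw [← Finset.sum_product']
  have hmap : ∀ d ∈ S.out (pre_Ctr T Ω A),
      (rho_Ctr T Ω d.1, rho_Ctr T Ω (S.hd d)) ∈ A ×ˢ Aᶜ := by
    intro d hd
    rw [S.mem_out, mem_pre_Ctr, mem_pre_Ctr] at hd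
    simpa using hd
  rw [Finset.card_eq_sum_card_fiberwise hmap]
  refine Finset.sum_congr rfl fun p hp => ?_
  congr 1
  ext d
  simp only [mem_filter, mem_univ, true_and, S.mem_out, mem_pre_Ctr, Prod.ext_iff]
  simp only [mem_product, mem_compl] at hp
  constructor
  · rintro ⟨h1, h2⟩
    rw [h1, h2]
    exact ⟨hp, rfl, rfl⟩
  · exact fun h => h.2

theorem pre_single_Ctr {ω : ℕ} {T : Finset V} {Ω : V → Finset V} (hT : S.Trees T Ω ω) {g : V}
    (hg : g ∈ T) : pre_Ctr T Ω {g} = Ω g := by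
  ext v
  rw [mem_pre_Ctr, mem_singleton]
  constructor
  · intro h
    by_cases hv : ∃ g ∈ T, v ∈ Ω g
    · obtain ⟨g', hg', hv⟩ := hv
      rw [rho_mem_Ctr hT hg' hv] at h
      exact h ▸ hv
    · rw [rho_not_Ctr hv] at h
      rw [h]
      exact hT.mem g hg
  · exact rho_mem_Ctr hT hg

theorem pre_compl_Ctr (T : Finset V) (Ω : V → Finset V) (A : Finset V) :
    pre_Ctr T Ω Aᶜ = (pre_Ctr T Ω A)ᶜ := by
  ext v
  simp [mem_pre_Ctr]

variable (S)

/-- the lattice lemma after contracting the trees -/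
theorem contract {c ω : ℕ} {T : Finset V} {Ω : V → Finset V} (hI : S.Iso c) (hc : ω + 2 ≤ c)
    (hT : S.Trees T Ω ω) (hne : T.Nonempty) (q : V → ℝ) (m : ℤ) (hq : ∑ g ∈ T, q g = 2 * m) :
    ∃ z : V → ℤ, (∀ g ∉ T, z g = 0) ∧ ∑ g ∈ T, (q g + 2 * z g) = 0 ∧
      (∀ g ∈ T, |q g + 2 * z g| ≤ 3) ∧
      ∀ X : Finset V, ∑ g ∈ T.filter (fun g => (Ω g \ X).card ≤ (Ω g ∩ X).card), (q g + 2 * z g) ≤
        3 / (2 * (ω + 2)) * (S.b X + 6 * ∑ g ∈ T, (mino (Ω g) X : ℝ)) := by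
  classical
  obtain ⟨z, hz0, hz1, hz2⟩ := steiner (w_Ctr S T Ω) (w_symm_Ctr T Ω) T hne (2 * (ω + 2))
    (by omega) (even_two_mul _)
    (fun A => by rw [cutw_Ctr, S.b_eq]; exact even_two_mul _)
    (by
      rintro A ⟨s, hs, hsA⟩ ⟨t, ht, htA⟩
      rw [cutw_Ctr]
      have h1 : Ω s ⊆ pre_Ctr T Ω A := fun v hv => by
        rw [mem_pre_Ctr, rho_mem_Ctr hT hs hv]
        exact hsA
      have h2 : Ω t ⊆ (pre_Ctr T Ω A)ᶜ := fun v hv => by
        rw [mem_compl, mem_pre_Ctr, rho_mem_Ctr hT ht hv]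
        exact htA
      have c1 := card_le_card h1
      have c2 := card_le_card h2
      rw [hT.card s hs] at c1
      rw [hT.card t ht] at c2
      have := hI (pre_Ctr T Ω A) ⟨s, h1 (hT.mem s hs)⟩ ⟨t, h2 (hT.mem t ht)⟩
      omega) q m hq
  have hpos : (0 : ℝ) < 2 * (ω + 2) := by positivity
  have hz3 : ∀ A : Finset V, ∑ t ∈ T ∩ A, (q t + 2 * z t) ≤
      3 / (2 * (ω + 2)) * (S.b (pre_Ctr T Ω A) : ℝ) := by
    intro A
    have := hz2 A
    rw [cutw_Ctr] at this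
    push_cast at this
    exact this
  refine ⟨z, hz0, hz1, ?_, ?_⟩
  · intro g hg
    have hb : (S.b (Ω g) : ℝ) ≤ 2 * (ω + 2) := by exact_mod_cast hT.bdy g hg
    have hb3 : 3 / (2 * (ω + 2)) * (S.b (Ω g) : ℝ) ≤ 3 := by
      rw [div_mul_eq_mul_div, div_le_iff₀ hpos]
      linarith
    have a1 := hz3 {g}
    rw [pre_single_Ctr hT hg, inter_singleton_of_mem hg, sum_singleton] at a1
    have a2 := hz3 {g}ᶜ
    have e : T ∩ {g}ᶜ = T.erase g := by
      ext v
      simp [and_comm]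
    rw [pre_compl_Ctr, pre_single_Ctr hT hg, S.b_compl, e] at a2
    have a3 := Finset.add_sum_erase T (fun t => q t + 2 * (z t : ℝ)) hg
    rw [hz1] at a3
    rw [abs_le]
    constructor <;> linarith
  · intro X
    set M := T.filter (fun g => (Ω g \ X).card ≤ (Ω g ∩ X).card) with hM
    set A := M ∪ X.filter (fun v => ¬ ∃ g ∈ T, v ∈ Ω g) with hA
    have e : T ∩ A = M := by
      ext v
      simp only [hA, mem_inter, mem_union]
      constructor
      · rintro ⟨hv, h | h⟩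
        · exact h
        · exact absurd ⟨v, hv, hT.mem v hv⟩ (mem_filter.1 h).2
      · intro h
        exact ⟨(mem_filter.1 h).1, Or.inl h⟩
    have hsub : pre_Ctr T Ω A ∆ X ⊆
        T.biUnion fun g => if g ∈ M then Ω g \ X else Ω g ∩ X := by
      intro v hv
      rw [mem_symmDiff, mem_pre_Ctr] at hv
      by_cases hx : ∃ g ∈ T, v ∈ Ω g
      · obtain ⟨g, hg, hvg⟩ := hx
        rw [rho_mem_Ctr hT hg hvg] at hv
        have hgA : g ∈ A ↔ g ∈ M := by
          rw [← e, mem_inter]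
          exact ⟨fun h => ⟨hg, h⟩, fun h => h.2⟩
        rw [hgA] at hv
        refine mem_biUnion.2 ⟨g, hg, ?_⟩
        rcases hv with ⟨h1, h2⟩ | ⟨h1, h2⟩
        · rw [if_pos h1]
          exact mem_sdiff.2 ⟨hvg, h2⟩
        · rw [if_neg h2]
          exact mem_inter.2 ⟨hvg, h1⟩
      · rw [rho_not_Ctr hx] at hv
        exfalso
        rcases hv with ⟨h1, h2⟩ | ⟨h1, h2⟩
        · rcases mem_union.1 h1 with h | h
          · have hv := (mem_filter.1 h).1
            exact hx ⟨v, hv, hT.mem v hv⟩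
          · exact h2 (mem_filter.1 h).1
        · exact h2 (mem_union.2 (Or.inr (mem_filter.2 ⟨h1, hx⟩)))
    have hcard : (pre_Ctr T Ω A ∆ X).card ≤ ∑ g ∈ T, mino (Ω g) X := by
      refine (card_le_card hsub).trans (card_biUnion_le.trans (sum_le_sum fun g hg => ?_))
      unfold mino
      split_ifs with h
      · have := (mem_filter.1 h).2
        omega
      · have : ¬ (Ω g \ X).card ≤ (Ω g ∩ X).card := fun h' => h (mem_filter.2 ⟨hg, h'⟩)
        omega
    have hb : S.b (pre_Ctr T Ω A) ≤ S.b X + 6 * ∑ g ∈ T, mino (Ω g) X :=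
      (S.b_le_add _ X).trans (by omega)
    have hb' : (S.b (pre_Ctr T Ω A) : ℝ) ≤ S.b X + 6 * ∑ g ∈ T, (mino (Ω g) X : ℝ) := by
      exact_mod_cast hb
    have a1 := hz3 A
    rw [e] at a1
    exact a1.trans (mul_le_mul_of_nonneg_left hb' (by positivity))

end Pool.Agent.MP_9a3194_co

end

section

open Finset
open scoped symmDiff

namespace Pool.Agent.MP_9a3194_co

theorem point_Sign {V : Type} [DecidableEq V] {Ω X : Finset V} {g : V} (hg : g ∈ Ω)
    {a K w t r : ℝ} {z : ℤ} (ha : |a| ≤ r) (hz : z = 0 ∨ z = 1 ∨ z = -1) (h0 : 0 ≤ t) (h1 : t ≤ 1)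
    (h2 : t ≤ K * (Ω ∩ X).card / w) (h3 : 1 - t ≤ K * (Ω \ X).card / w)
    [Decidable ((∃ u ∈ Ω, u ∈ X) ∧ ∃ v ∈ Ω, v ∉ X)] :
    (if g ∈ X then a else 0) + 2 * (z * t) ≤
      (if (Ω \ X).card ≤ (Ω ∩ X).card then a + 2 * z else 0) +
      (if (∃ u ∈ Ω, u ∈ X) ∧ ∃ v ∈ Ω, v ∉ X then r else 0) + 2 * K * ((mino Ω X : ℝ) / w) := by
  have hr : 0 ≤ r := (abs_nonneg a).trans ha
  have ha' := abs_le.1 ha
  have hz' : (-1 : ℝ) ≤ z ∧ (z : ℝ) ≤ 1 := by
    rcases hz with rfl | rfl | rfl <;> norm_num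
  have hif : 0 ≤ (if (∃ u ∈ Ω, u ∈ X) ∧ ∃ v ∈ Ω, v ∉ X then r else 0) := by
    split_ifs
    · exact hr
    · exact le_rfl
  by_cases hm : (Ω \ X).card ≤ (Ω ∩ X).card
  · have e : mino Ω X = (Ω \ X).card := min_eq_right hm
    have e2 : 2 * K * (((Ω \ X).card : ℝ) / w) = 2 * (K * (Ω \ X).card / w) := by ring
    have k1 : (z : ℝ) * t ≤ z + (1 - t) := by nlinarith [hz'.1, hz'.2]
    rw [if_pos hm, e, e2]
    by_cases hX : g ∈ X
    · rw [if_pos hX]
      linarith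
    · have hp : 0 < (Ω \ X).card := card_pos.2 ⟨g, mem_sdiff.2 ⟨hg, hX⟩⟩
      obtain ⟨u, hu⟩ := card_pos.1 (hp.trans_le hm)
      rw [if_neg hX, if_pos ⟨⟨u, mem_inter.1 hu⟩, g, hg, hX⟩]
      linarith [ha'.1]
  · have e : mino Ω X = (Ω ∩ X).card := min_eq_left (not_le.1 hm).le
    have e2 : 2 * K * (((Ω ∩ X).card : ℝ) / w) = 2 * (K * (Ω ∩ X).card / w) := by ring
    have k1 : (z : ℝ) * t ≤ t := by nlinarith [hz'.1, hz'.2]
    rw [if_neg hm, e, e2]
    by_cases hX : g ∈ X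
    · obtain ⟨v, hv⟩ := card_pos.1 ((Nat.zero_le _).trans_lt (not_le.1 hm))
      rw [if_pos hX, if_pos ⟨⟨g, hg, hX⟩, v, mem_sdiff.1 hv⟩]
      linarith [ha'.2]
    · rw [if_neg hX]
      linarith

/-- small charges are cancelled by controllers -/
theorem sign {δ K : ℝ} (hδ : 0 < δ) (hK : 1 ≤ K) : ∃ (ω₀ l₀ : ℕ) (A : ℝ), 0 < A ∧
    ∀ {V : Type} [Fintype V] [DecidableEq V] (S : Str V) (c ω l : ℕ) (G : Finset V)
      (Ω : V → Finset V) (cell : V → V) (q : V → ℝ) (p : ℝ) (m : ℤ), ω₀ ≤ ω → l₀ ≤ l →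
      ω + 2 ≤ c → A * l ^ 2 < c → c ≤ Fintype.card V → S.Iso c → S.Part G cell l →
      S.Trees G Ω ω → (∀ v, |q v| ≤ p) → p * A * l ^ 2 ≤ 1 → ∑ v, q v = 2 * m →
      ∃ z : V → ℤ, (∀ g, z g = 0 ∨ g ∈ G ∧ (z g = 1 ∨ z g = -1)) ∧
        ∑ v, q v + 2 * ∑ g, (z g : ℝ) = 0 ∧
        ∀ (X : Finset V) (t : V → ℝ), (∀ g ∈ G, 0 ≤ t g ∧ t g ≤ 1 ∧
          t g ≤ K * (Ω g ∩ X).card / ω ∧ 1 - t g ≤ K * (Ω g \ X).card / ω) →
          ∑ v ∈ X, q v + 2 * ∑ g, z g * t g ≤ δ * S.b X := by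
  classical
  obtain ⟨ε, hε, hεK⟩ : ∃ ε : ℝ, 0 < ε ∧ (2 * K + 9) * ε = δ / 4 :=
    ⟨δ / (4 * (2 * K + 9)), by positivity, by field_simp⟩
  obtain ⟨ω₁, l₁, A₀, hA₀, hthin⟩ := thin hε
  obtain ⟨μ, hμ, hμ1, hμδ⟩ : ∃ μ : ℝ, 0 < μ ∧ μ ≤ 1 ∧ μ ≤ δ :=
    ⟨min 1 δ, lt_min one_pos hδ, min_le_left _ _, min_le_right _ _⟩
  obtain ⟨A, hA, hAμ⟩ : ∃ A : ℝ, 0 < A ∧ A * μ = 100 * (A₀ + 1) :=
    ⟨100 * (A₀ + 1) / μ, by positivity, by field_simp⟩
  have hA1 : 100 * (A₀ + 1) ≤ A := hAμ ▸ mul_le_of_le_one_right hA.le hμ1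
  refine ⟨max ω₁ ⌈6 / δ⌉₊, max l₁ 1, A, hA, ?_⟩
  intro V _ _ S c ω l G Ω cell q p m hω hl hc hAc hcV hI hP hT hq hp hm
  have hl1 : (1 : ℝ) ≤ l := by exact_mod_cast (le_max_right _ _).trans hl
  have hl2 : (l : ℝ) ≤ l ^ 2 := by nlinarith
  have hcV' : (c : ℝ) ≤ Fintype.card V := by exact_mod_cast hcV
  have hA3 : 3 * (l : ℝ) ^ 2 ≤ A * l ^ 2 := mul_le_mul_of_nonneg_right (by linarith) (by positivity)
  have hA4 : A₀ * (l : ℝ) ^ 2 ≤ A * l ^ 2 :=
    mul_le_mul_of_nonneg_right (by linarith) (by positivity)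
  have hc0 : 0 < c := by omega
  have hp0 : 0 ≤ p := by
    obtain ⟨v⟩ := Fintype.card_pos_iff.1 (hc0.trans_le hcV)
    exact (abs_nonneg _).trans (hq v)
  obtain ⟨T, hTG, hT1, hT2⟩ := hthin S c ω l G Ω cell ((le_max_left _ _).trans hω)
    ((le_max_left _ _).trans hl) (by exact_mod_cast (by linarith : (l : ℝ) + 2 ≤ c))
    (by exact_mod_cast (by linarith : 2 * (l : ℝ) ≤ Fintype.card V)) hI hP hT
  have hne : T.Nonempty := by
    rw [nonempty_iff_ne_empty]
    rintro rfl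
    have := hT2 univ (disjoint_empty_right _)
    rw [S.b_univ, card_univ, Nat.cast_zero, zero_add, mul_one] at this
    linarith
  obtain ⟨η, hη⟩ : ∃ η : ℝ, η = 4 * p * A₀ * l ^ 2 := ⟨_, rfl⟩
  have hη0 : 0 ≤ η := by rw [hη]; positivity
  have hsm : p + 4 * η ≤ μ / 2 := by
    have e1 : p * A ≤ 1 :=
      (le_mul_of_one_le_right (mul_nonneg hp0 hA.le) (hl1.trans hl2)).trans hp
    have e2 : η * A ≤ 4 * A₀ := by
      have := mul_le_mul_of_nonneg_left hp (by positivity : 0 ≤ 4 * A₀)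
      rw [hη]
      linarith
    refine le_of_mul_le_mul_right ?_ hA
    linarith
  obtain ⟨f, hf, hfη, hfq⟩ := gale S T q η hη0 fun X hX => by
    rcases X.eq_empty_or_nonempty with rfl | hXn
    · rw [sum_empty, abs_zero]
      positivity
    · obtain ⟨g, hg⟩ := hne
      have hb : (1 : ℝ) ≤ S.b X := by
        exact_mod_cast hI.b_pos hc0 hXn ⟨g, mem_compl.2 fun h => disjoint_left.1 hX h hg⟩
      have e1 : |∑ v ∈ X, q v| ≤ X.card * p := by
        refine (abs_sum_le_sum_abs _ _).trans ((sum_le_sum fun v _ => hq v).trans_eq ?_)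
        rw [sum_const, nsmul_eq_mul]
      have e2 : (X.card : ℝ) ≤ A₀ * l ^ 2 * (2 * S.b X) :=
        (hT2 X hX).trans (mul_le_mul_of_nonneg_left (by linarith) (by positivity))
      have e3 := mul_le_mul_of_nonneg_right e2 hp0
      rw [hη]
      linarith
  have hq' : ∀ g, |q g - dv f g| ≤ p + 3 * η := fun g => by
    have e1 : |dv f g| ≤ 3 * η := by
      refine (abs_sum_le_sum_abs _ _).trans ((sum_le_sum fun i _ => hfη (g, i)).trans_eq ?_)
      simp
    exact (abs_sub _ _).trans (add_le_add (hq g) e1)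
  have hsum : ∀ X : Finset V, ∑ v ∈ X, q v =
      ∑ v ∈ X, dv f v + ∑ g ∈ T, if g ∈ X then q g - dv f g else 0 := fun X => by
    rw [sum_ite_mem, inter_comm, ← sum_ite_mem, ← sum_add_distrib]
    refine sum_congr rfl fun v _ => ?_
    split_ifs with hv
    · ring
    · rw [hfq v hv, add_zero]
  have hsT : ∑ v, q v = ∑ g ∈ T, (q g - dv f g) := by
    rw [hsum univ, S.sum_dv_univ hf, zero_add]
    simp
  have hTT : S.Trees T Ω ω := ⟨fun g hg => hT.mem g (hTG hg), fun g hg => hT.conn g (hTG hg),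
    fun g hg => hT.card g (hTG hg), fun g hg g' hg' => hT.disj g (hTG hg) g' (hTG hg'),
    fun g hg => hT.bdy g (hTG hg)⟩
  obtain ⟨z, hz0, hz1, hz2, hz3⟩ := contract S hI hc hTT hne (fun g => q g - dv f g) m
    (hsT.symm.trans hm)
  have hz : ∀ g ∈ T, z g = 0 ∨ z g = 1 ∨ z g = -1 := fun g hg => by
    have e1 := abs_le.1 (hz2 g hg)
    have e2 := abs_le.1 (hq' g)
    have e3 : (z g : ℝ) < 2 := by linarith [e1.2, e2.1]
    have e4 : (-2 : ℝ) < z g := by linarith [e1.1, e2.2]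
    have e5 : z g < 2 := by exact_mod_cast e3
    have e6 : -2 < z g := by exact_mod_cast e4
    omega
  have hzs : ∀ t : V → ℝ, ∑ g, z g * t g = ∑ g ∈ T, z g * t g := fun t =>
    (sum_subset (subset_univ T) fun g _ hg => by rw [hz0 g hg, Int.cast_zero, zero_mul]).symm
  refine ⟨z, fun g => ?_, ?_, fun X t ht => ?_⟩
  · by_cases hg : g ∈ T
    · exact (hz g hg).imp_right fun h => ⟨hTG hg, h⟩
    · exact Or.inl (hz0 g hg)
  · have e := hzs fun _ => 1
    simp only [mul_one] at e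
    rw [hsT, e, mul_sum, ← sum_add_distrib]
    exact hz1
  · have hω6 : 6 / δ ≤ ω := Nat.ceil_le.1 ((le_max_right _ _).trans hω)
    have hω0 : (0 : ℝ) < ω := lt_of_lt_of_le (by positivity) hω6
    have hb0 : (0 : ℝ) ≤ S.b X := Nat.cast_nonneg _
    have e1 := (le_abs_self _).trans (S.abs_sum_dv_le hf hfη X)
    have e2 := sum_le_sum (s := T) fun g hg => point_Sign (X := X) (hTT.mem g hg) (hq' g) (hz g hg)
      (ht g (hTG hg)).1 (ht g (hTG hg)).2.1 (ht g (hTG hg)).2.2.1 (ht g (hTG hg)).2.2.2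
    rw [sum_add_distrib, sum_add_distrib, sum_add_distrib, ← mul_sum, ← mul_sum, ← sum_filter,
      ← sum_filter (p := fun g => (Ω g \ X).card ≤ (Ω g ∩ X).card),
      ← sum_filter (p := fun g => (∃ u ∈ Ω g, u ∈ X) ∧ ∃ v ∈ Ω g, v ∉ X), sum_const,
      nsmul_eq_mul] at e2
    have e3 : ((T.filter fun g => (∃ u ∈ Ω g, u ∈ X) ∧ ∃ v ∈ Ω g, v ∉ X).card : ℝ) ≤ S.b X := by
      exact_mod_cast S.touch _ Ω (fun g hg => hTT.conn g (mem_filter.1 hg).1)
        (fun g hg g' hg' => hTT.disj g (mem_filter.1 hg).1 g' (mem_filter.1 hg').1) X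
        fun g hg => (mem_filter.1 hg).2
    have e4 := mul_le_mul_of_nonneg_right e3 (by linarith : 0 ≤ p + 3 * η)
    have e5 := mul_le_mul_of_nonneg_left (hT1 X) (by linarith : 0 ≤ 2 * K)
    have e6 : 3 / (2 * ((ω : ℝ) + 2)) * (S.b X + 6 * ∑ g ∈ T, (mino (Ω g) X : ℝ)) ≤
        (δ / 4 + 9 * ε) * S.b X := by
      have k1 : ∑ g ∈ T, (mino (Ω g) X : ℝ) ≤ ε * S.b X * ω := by
        have := hT1 X
        rwa [← sum_div, div_le_iff₀ hω0] at this
      have k2 : 6 ≤ δ * ω := by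
        rw [div_le_iff₀ hδ] at hω6
        linarith
      have k3 := mul_le_mul_of_nonneg_right k2 hb0
      have k4 : 0 ≤ δ * S.b X := by positivity
      have k5 : 0 ≤ ε * S.b X := by positivity
      rw [div_mul_eq_mul_div, div_le_iff₀ (by positivity)]
      linarith
    have e7 := (hz3 X).trans e6
    have e8 := mul_le_mul_of_nonneg_right (hsm.trans (by linarith : μ / 2 ≤ δ / 2)) hb0
    have e9 := congrArg (· * (S.b X : ℝ)) hεK
    have e10 : 0 ≤ η * S.b X := by positivity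
    rw [hsum X, hzs t, ← sum_filter]
    linarith

end Pool.Agent.MP_9a3194_co

end
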