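import Pool.Agent.Mg.F9a3194.Ge9241e

open Finset
open scoped symmDiff

namespace Pool.Agent.MP_9a3194_co

/-- without two disjoint cycles the 2-factor is an even Hamilton cycle -/
theorem small_alt {V : Type} [Fintype V] [DecidableEq V] (S : Str V) (hμ : ∀ v, S.μ v ≠ v)
    (hI : ∀ X : Finset V, X.Nonempty → Xᶜ.Nonempty → 2 * (min X.card Xᶜ.card + 2) ≤ S.b X) :
    ∃ y : V → Bool, ∀ v, y (S.π v) ≠ y v := by
  classical
  rcases isEmpty_or_nonempty V with hV | ⟨⟨v₀⟩⟩
  · exact ⟨fun _ => true, fun v => isEmptyElim v⟩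
  have hout : ∀ X : Finset V, (∀ v, v ∈ X ↔ S.π v ∈ X) → S.b X ≤ 2 * X.card := by
    intro X hX
    rw [S.b_eq]
    refine Nat.mul_le_mul_left 2 (card_le_card_of_injOn Prod.fst
      (fun d hd => (S.mem_out.1 (mem_coe.1 hd)).1) ?_)
    have h0 : ∀ d ∈ S.out X, d.2 = 0 := by
      rintro ⟨v, i⟩ hd
      obtain ⟨h1, h2⟩ := S.mem_out.1 hd
      fin_cases i
      · rfl
      · exact absurd ((hX v).1 h1) h2
      · refine absurd ((hX _).2 ?_) h2
        change S.π (S.π⁻¹ v) ∈ X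
        simpa using h1
    intro d hd d' hd' he
    exact Prod.ext he ((h0 d hd).trans (h0 d' hd').symm)
  have hall : ∀ v, S.π.SameCycle v₀ v := by
    by_contra hne
    obtain ⟨v, hv⟩ := not_forall.1 hne
    set X : Finset V := univ.filter fun v => S.π.SameCycle v₀ v with hXd
    have hX : ∀ v, v ∈ X ↔ S.π v ∈ X := fun v => by
      simp [hXd, Equiv.Perm.sameCycle_apply_right]
    have h1 := hout X hX
    have h2 := hout Xᶜ fun v => by simp only [mem_compl, hX v]
    rw [S.b_compl] at h2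
    have h3 := hI X ⟨v₀, by simp [hXd, Equiv.Perm.SameCycle.refl]⟩ ⟨v, by simpa [hXd] using hv⟩
    omega
  have hM : S.Mark {v₀} 0 (orderOf S.π) := by
    refine ⟨fun _ _ _ _ h => absurd h (Nat.not_lt_zero _), fun v => ?_⟩
    obtain ⟨i, hi, he⟩ := (hall v).exists_pow_eq'
    refine ⟨i, hi, ?_⟩
    rw [← he, inv_pow]
    simp
  refine ⟨S.y0 {v₀} fun _ => false, fun v => ?_⟩
  set y := S.y0 {v₀} fun _ => false with hy
  have h1 : ∀ u, S.π u ≠ v₀ → y (S.π u) ≠ y u := fun u hu => by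
    rw [hy, hM.y0_succ _ (by simpa using hu)]
    cases S.y0 {v₀} (fun _ => false) u <;> simp
  by_cases hv : S.π v = v₀
  swap
  · exact h1 v hv
  intro he
  obtain ⟨m, hm⟩ := even_Bal S hμ y
  have h2 : ∑ u, (sgn (y (S.π u)) + sgn (y u)) = 2 * sgn (y v) := by
    rw [sum_eq_single v]
    · rw [he]; ring
    · intro u _ hu
      rw [sgn_of_ne (h1 u fun h => hu (S.π.injective (h.trans hv.symm)))]
      ring
    · simp
  rw [sum_add_distrib, Equiv.sum_comp S.π fun u => sgn (y u), hm] at h2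
  have h3 : sgn (y v) = ((2 * m : ℤ) : ℝ) := by push_cast; linarith
  have h4 := abs_sgn (y v)
  rw [h3, ← Int.cast_abs] at h4
  have h5 : |2 * m| = 1 := by exact_mod_cast h4
  rcases abs_eq (by norm_num : (0 : ℤ) ≤ 1) |>.1 h5 with h | h <;> omega

/-- the flow theorem without a size hypothesis -/
theorem core' (p q : ℕ) (hq : 0 < q) (hp : 4 * q < p) : ∃ c : ℕ, ∀ (V : Type) [Fintype V]
    [DecidableEq V] (G : SimpleGraph V) [DecidableRel G.Adj], G.IsRegularOfDegree 3 →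
    (∀ X : Finset V, X.Nonempty → Xᶜ.Nonempty →
      min c (min X.card Xᶜ.card + 2) ≤ (G.interedges X Xᶜ).card) →
    ∃ f : V → V → ℤ, (∀ u v, f v u = -f u v) ∧
      (∀ u v, G.Adj u v → (q : ℤ) ≤ |f u v| ∧ |f u v| ≤ p - q) ∧
      ∀ u, ∑ v ∈ G.neighborFinset u, f u v = 0 := by
  obtain ⟨c, hc⟩ := core p q hq hp
  refine ⟨c + 3, fun V _ _ G _ hG hI => ?_⟩
  by_cases hV : c ≤ Fintype.card V
  · refine hc V G hG hV fun X h1 h2 => ?_
    have := hI X h1 h2
    omega
  obtain ⟨μ, hμ, ha⟩ := petersen G hG fun X h1 h2 => by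
    have h3 := hI X h1 h2
    have h4 := h1.card_pos
    have h5 := h2.card_pos
    omega
  obtain ⟨S, hi, hs⟩ := exists_str G hG μ hμ ha
  have h1 : ∀ v, S.μ v ≠ v := fun v h => G.irrefl ((hs v v).2 ⟨0, h⟩)
  obtain ⟨y, hy⟩ := small_alt S h1 fun X h1 h2 => by
    rw [b_eq_inter G S hi hs]
    have h3 := hI X h1 h2
    have h4 := X.card_le_univ
    omega
  have hcol : S.Col 0 y ∅ := by
    refine ⟨fun v _ => ⟨hy v, ?_⟩, by simp, by simp⟩
    have := hy (S.π⁻¹ v)
    rw [show S.π (S.π⁻¹ v) = v by simp] at this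
    exact this.symm
  have hdv : ∀ v, sgn (y v) = dv (S.base y) v := fun v => by simpa using hcol.dv_base v
  have hp0 : 0 < p := by omega
  have hpq : (4 * q : ℝ) < p := by exact_mod_cast hp
  have hq0 : (0 : ℝ) ≤ q := by positivity
  obtain ⟨f, f1, f2, f3⟩ := flow_of_bal S h1 p q hp0 (by omega) y
    (by simp only [hdv]; exact S.sum_dv_univ (S.base_anti y)) fun X => by
      simp only [hdv]
      have h4 := (abs_le.1 (S.abs_sum_dv_le (S.base_anti y) (S.abs_base_le y) X)).2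
      have h5 : (0 : ℝ) ≤ S.b X := by positivity
      nlinarith
  exact flow_transfer G S hi hs (fun n => (q : ℤ) ≤ |n| ∧ |n| ≤ p - q) f f1 f2 f3

end Pool.Agent.MP_9a3194_co
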