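import Mathlib
import Pool.Agent.Mg.F9a3194.G505f3a
import Pool.Agent.MP_9a3194_co.UDefs

section

/-! Triangulated closed orientable surfaces. -/

namespace Pool.Agent.MP_9a3194_co

/-- Oriented triangles `F` whose sides are glued in pairs, reversing directions. The dart `(f, i)`
is the side of `f` from corner `i` to corner `i + 1`, and `α` sends it to the same edge
traversed backwards as a side of the neighbouring triangle. -/
structure Tri (F : Type) where
  α : F × ZMod 3 → F × ZMod 3
  αα : ∀ d, α (α d) = d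
  αne : ∀ d, α d ≠ d

namespace Tri

variable {F : Type} (T : Tri F)

/-- the next side of the same triangle -/
def nxt (d : F × ZMod 3) : F × ZMod 3 := (d.1, d.2 + 1)

/-- the next dart with the same tail, turning around that vertex -/
def rot (d : F × ZMod 3) : F × ZMod 3 := nxt (T.α d)

/-- the surface is connected -/
def Connected : Prop :=
  ∀ X : Set F, X.Nonempty → Xᶜ.Nonempty → ∃ d, d.1 ∈ X ∧ (T.α d).1 ∉ X

/-- every vertex has degree at least `c` -/
def MinDeg (c : ℕ) : Prop := ∀ d n, 0 < n → n < c → T.rot^[n] d ≠ d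

/-- each dart ends at the vertex where the next one starts, cyclically -/
def Closed (w : List (F × ZMod 3)) : Prop :=
  (w ++ w).IsChain fun d e => ∃ n, T.rot^[n] (T.α d) = e

/-- an edge followed by its reverse, and the boundary of a triangle -/
def rels : Set (FreeGroup (F × ZMod 3)) :=
  {r | ∃ d, r = .of d * .of (T.α d) ∨ r = .of d * .of (nxt d) * .of (nxt (nxt d))}

/-- the word is trivial modulo backtracking and triangles -/
def Contr (w : List (F × ZMod 3)) : Prop :=
  (w.map (PresentedGroup.of (rels := T.rels))).prod = 1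

end Tri

end Pool.Agent.MP_9a3194_co

end

section

open Finset

namespace Pool.Agent.MP_9a3194_co

namespace Tri

variable {F : Type} (T : Tri F)

/-- sides of triangles of `X` glued to triangles outside `X` -/
def out [DecidableEq F] (X : Finset F) : Finset (F × ZMod 3) :=
  (X ×ˢ univ).filter fun d => (T.α d).1 ∉ X

/-- `z` has zero divergence at every label -/
def Balanced {W : Type} [DecidableEq W] (lab : F × ZMod 3 → W) (z : F × ZMod 3 →₀ ℝ) : Prop :=
  ∀ x, (z.sum fun d t => if lab d = x then t else 0) =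
    z.sum fun d t => if lab (T.α d) = x then t else 0

/-- finite cycles are boundaries of finite chains of triangles -/
def Exact {W : Type} [DecidableEq W] (lab : F × ZMod 3 → W) : Prop :=
  ∀ z : F × ZMod 3 →₀ ℝ, T.Balanced lab z →
    ∃ a : F →₀ ℝ, ∀ d, z d - z (T.α d) = a d.1 - a (T.α d).1

/-- the group of the presentation -/
abbrev Grp : Type := PresentedGroup T.rels

/-- the generator of a dart -/
def gen (d : F × ZMod 3) : T.Grp := PresentedGroup.of d

end Tri

end Pool.Agent.MP_9a3194_co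

end

section

open Finset

namespace Pool.Agent.MP_9a3194_co

/-- the deck transformation of a double cover -/
def flipB {V : Type} (x : V × Bool) : V × Bool := (x.1, !x.2)

/-- functions annihilated by the vectors with index in `F` -/
def ann {T E : Type} [Fintype T] (b : E → T → ℤ) (F : Finset E) : Submodule ℝ (T → ℝ) where
  carrier := {φ | ∀ e ∈ F, ∑ t, (b e t : ℝ) * φ t = 0}
  add_mem' := fun {φ ψ} h1 h2 e he => by
    simp only [Pi.add_apply, mul_add, sum_add_distrib, h1 e he, h2 e he, add_zero]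
  zero_mem' := fun e _ => by simp
  smul_mem' := fun r φ h e he => by
    have := h e he
    simp only [Pi.smul_apply, smul_eq_mul, mul_left_comm _ r, ← mul_sum, this, mul_zero]

/-- weighted Gram matrix of integer vectors -/
noncomputable def gram {T E : Type} [Fintype E] (b : E → T → ℤ) (c : E → ℝ) : Matrix T T ℝ :=
  ∑ e, c e • Matrix.vecMulVec (fun t => (b e t : ℝ)) fun t => (b e t : ℝ)

namespace Str

variable {V : Type} (S : Str V)

/-- a free involutive automorphism -/
structure Aut (ι : V → V) : Prop where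
  inv : ∀ v, ι (ι v) = v
  ne : ∀ v, ι v ≠ v
  step : ∀ v i, S.step (ι v) i = ι (S.step v i)

/-- the double cover given by a signature -/
def cov (sg : Dt V → Bool) (hs : ∀ d, sg (S.rv d) = sg d) : Str (V × Bool) where
  π :=
    { toFun := fun x => (S.π x.1, xor x.2 (sg (x.1, 1)))
      invFun := fun x => (S.π⁻¹ x.1, xor x.2 (sg (x.1, 2)))
      left_inv := fun x => by
        have h : sg (S.π x.1, 2) = sg (x.1, 1) := hs (x.1, 1)
        simp [h]
      right_inv := fun x => by
        have h : sg (S.π⁻¹ x.1, 1) = sg (x.1, 2) := hs (x.1, 2)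
        simp only [h]
        simp }
  μ x := (S.μ x.1, xor x.2 (sg (x.1, 0)))
  μμ x := by
    have h : sg (S.μ x.1, 0) = sg (x.1, 0) := hs (x.1, 0)
    simp [h, S.μμ]

/-- the signature after switching at `Y` -/
def typ (sg : Dt V → Bool) (Y : V → Bool) (d : Dt V) : Bool :=
  xor (xor (Y d.1) (Y (S.hd d))) (sg d)

/-- weak isoperimetric inequality -/
def Iso1 [Fintype V] [DecidableEq V] (c : ℕ) : Prop :=
  ∀ X : Finset V, X.Nonempty → Xᶜ.Nonempty → 2 * min c (min X.card Xᶜ.card + 1) ≤ S.b X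

end Str

namespace Surf

variable {F : Type} (T : Surf F)

/-- the directed side of a dart of the orientation cover -/
def toArc (x : (F × Bool) × ZMod 3) : (F × ZMod 3) × Bool :=
  ((x.1.1, if x.1.2 then -x.2 - 1 else x.2), x.1.2)

/-- the dart of the orientation cover of a directed side -/
def ofArc (e : (F × ZMod 3) × Bool) : (F × Bool) × ZMod 3 :=
  ((e.1.1, e.2), if e.2 then -e.1.2 - 1 else e.1.2)

@[simp] theorem toArc_ofArc (e : (F × ZMod 3) × Bool) : toArc (ofArc e) = e := by
  obtain ⟨⟨f, i⟩, b⟩ := e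
  cases b <;> simp [toArc, ofArc]

@[simp] theorem ofArc_toArc (x : (F × Bool) × ZMod 3) : ofArc (toArc x) = x := by
  obtain ⟨⟨f, b⟩, i⟩ := x
  cases b <;> simp [toArc, ofArc]

/-- the orientation double cover -/
def dbl : Tri (F × Bool) where
  α x := ofArc (T.α (toArc x).1, xor (toArc x).2 (T.tw (toArc x).1))
  αα x := by simp [T.αα, T.twα]
  αne x h := by
    have := congrArg (fun y => (toArc y).1) h
    simp only [toArc_ofArc] at this
    exact T.αne _ this

end Surf

end Pool.Agent.MP_9a3194_co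

end

section

open Finset
open scoped symmDiff

namespace Pool.Agent.MP_9a3194_co

namespace Surf

variable {F : Type} (T : Surf F)

/-- the dart with the same tail corner on the other sheet -/
def kap (x : (F × Bool) × ZMod 3) : (F × Bool) × ZMod 3 := ((x.1.1, !x.1.2), -x.2)

private theorem kap_kap_UDbl (x : (F × Bool) × ZMod 3) : kap (kap x) = x := by
  simp [kap]

private theorem arc_alpha_UDbl (x : (F × Bool) × ZMod 3) :
    toArc (T.dbl.α x) = T.mate ((toArc x).1, !(toArc x).2) := by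
  simp only [dbl, toArc_ofArc, mate]
  cases T.tw (toArc x).1 <;> simp

private theorem arc_kap_UDbl (x : (F × Bool) × ZMod 3) :
    toArc (kap (Tri.nxt x)) = ((toArc x).1, !(toArc x).2) := by
  obtain ⟨⟨f, b⟩, j⟩ := x
  cases b <;> simp [toArc, kap, Tri.nxt]
  ring

private theorem mate_mate_UDbl (e : (F × ZMod 3) × Bool) : T.mate (T.mate e) = e := by
  simp only [mate, T.αα, T.twα]
  cases T.tw e.1 <;> simp

private theorem arc_inj_UDbl {x y : (F × Bool) × ZMod 3} (h : toArc x = toArc y) : x = y := by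
  rw [← ofArc_toArc x, h, ofArc_toArc]

private theorem rot_inj_UDbl {G : Type} (C : Tri G) : Function.Injective C.rot := fun d e h => by
  have h1 : C.α d = C.α e := by
    simp only [Tri.rot, Tri.nxt, Prod.mk.injEq, add_left_inj] at h
    exact Prod.ext h.1 h.2
  rw [← C.αα d, h1, C.αα]

theorem tail_kap (x : (F × Bool) × ZMod 3) : tail (toArc (kap x)) = tail (toArc x) := by
  obtain ⟨⟨f, b⟩, j⟩ := x
  cases b <;> simp [toArc, kap, tail, nxt]
theorem tail_nxt (x : (F × Bool) × ZMod 3) : tail (toArc (Tri.nxt x)) = head (toArc x) := by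
  obtain ⟨⟨f, b⟩, j⟩ := x
  cases b <;> simp [toArc, Tri.nxt, tail, head, nxt]
  ring
theorem same_alpha (x : (F × Bool) × ZMod 3) :
    T.Same (head (toArc x)) (tail (toArc (T.dbl.α x))) := by
  refine Relation.EqvGen.rel _ _ ⟨((toArc x).1, !(toArc x).2), ?_, by rw [arc_alpha_UDbl]⟩
  simp only [head, tail]
  cases (toArc x).2 <;> simp
theorem same_rot (x : (F × Bool) × ZMod 3) :
    T.Same (tail (toArc x)) (tail (toArc (T.dbl.rot x))) := by
  have h := T.same_alpha (T.dbl.α x)
  rw [T.dbl.αα] at h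
  rw [Tri.rot, tail_nxt]
  exact h.symm
theorem rot_kap_rot (x : (F × Bool) × ZMod 3) : T.dbl.rot (kap (T.dbl.rot x)) = kap x := by
  have h : T.dbl.α (kap (T.dbl.rot x)) = kap (Tri.nxt x) := by
    refine arc_inj_UDbl ?_
    rw [arc_alpha_UDbl, Tri.rot, arc_kap_UDbl, arc_kap_UDbl, Bool.not_not, arc_alpha_UDbl,
      mate_mate_UDbl]
  rw [Tri.rot, h]
  simp [Tri.nxt, kap]
theorem dbl_closed {w : List ((F × Bool) × ZMod 3)} (h : T.dbl.Closed w) :
    T.Closed (w.map toArc) := by
  rw [Closed, ← List.map_append, List.isChain_map]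
  refine List.IsChain.imp ?_ h
  rintro d _ ⟨n, rfl⟩
  induction n with
  | zero => exact T.same_alpha d
  | succ n ih =>
    rw [Function.iterate_succ_apply']
    exact ih.trans _ _ _ (T.same_rot _)

private theorem tail_two_UDbl {y z : (F × Bool) × ZMod 3} (h : tail (toArc y) = tail (toArc z)) :
    y = z ∨ y = kap z := by
  obtain ⟨⟨f, b⟩, j⟩ := y
  obtain ⟨⟨g, c⟩, i⟩ := z
  cases b <;> cases c <;> simp [toArc, kap, tail, nxt] at h ⊢
  · exact h
  · exact h
  · exact ⟨h.1, by rw [← h.2, neg_neg]⟩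
  · exact h

private theorem tail_mate_UDbl (y : (F × Bool) × ZMod 3) :
    tail (T.mate (toArc y)) = tail (toArc (T.dbl.rot y)) := by
  rw [Tri.rot, tail_nxt, arc_alpha_UDbl]
  simp only [mate, tail, head]
  cases T.tw (toArc y).1 <;> cases (toArc y).2 <;> simp

theorem dbl_minDeg {c : ℕ} (h : T.MinDeg c) : T.dbl.MinDeg c := by
  classical
  intro x n hn hc hx
  have h1 : ∀ e, (∃ i, tail e = tail (toArc (T.dbl.rot^[i] x))) →
      ∃ i, tail (T.mate e) = tail (toArc (T.dbl.rot^[i] x)) := by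
    rintro e ⟨i, hi⟩
    rw [← toArc_ofArc e] at hi ⊢
    rw [tail_mate_UDbl]
    rcases tail_two_UDbl hi with e1 | e1
    · exact ⟨i + 1, by rw [e1, Function.iterate_succ_apply']⟩
    · obtain ⟨m, rfl⟩ := Nat.exists_eq_add_one_of_ne_zero hn.ne'
      refine ⟨i + m, ?_⟩
      have h2 : T.dbl.rot^[i] x = T.dbl.rot (T.dbl.rot^[i + m] x) := by
        rw [← Function.iterate_succ_apply' T.dbl.rot, Nat.succ_eq_add_one, add_assoc,
          Function.iterate_add_apply, hx]
      rw [e1, h2, rot_kap_rot, tail_kap]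
  have h2 : ∀ a b, T.Same a b → ((∃ i, a = tail (toArc (T.dbl.rot^[i] x))) ↔
      ∃ i, b = tail (toArc (T.dbl.rot^[i] x))) := by
    intro a b hab
    induction hab with
    | rel a b hab =>
      obtain ⟨e, rfl, rfl⟩ := hab
      exact ⟨h1 e, fun h3 => by simpa only [mate_mate_UDbl] using h1 _ h3⟩
    | refl => rfl
    | symm _ _ _ ih => exact ih.symm
    | trans _ _ _ _ _ ih ih' => exact ih.trans ih'
  have h3 : {y | T.Same (tail (toArc x)) y} ⊆
      ((range n).image fun i => tail (toArc (T.dbl.rot^[i] x)) : Finset _) := by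
    intro y hy
    obtain ⟨i, rfl⟩ := (h2 _ _ hy).1 ⟨0, rfl⟩
    refine mem_coe.2 (mem_image.2 ⟨i % n, mem_range.2 (Nat.mod_lt _ hn), ?_⟩)
    rw [Function.IsPeriodicPt.iterate_mod_apply hx]
  have h4 := (h _).trans (Set.ncard_le_ncard h3 (Finset.finite_toSet _))
  rw [Set.ncard_coe_finset] at h4
  have h5 := h4.trans card_image_le
  rw [card_range] at h5
  omega

private theorem rot_ne_UDbl (n : ℕ) : ∀ x, T.dbl.rot^[n] x ≠ kap x := by
  induction n using Nat.twoStepInduction with
  | zero =>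
    intro x h
    simpa [kap] using congrArg (fun y => y.1.2) h
  | one =>
    intro x h
    have h1 := arc_kap_UDbl (T.dbl.α x)
    rw [show Tri.nxt (T.dbl.α x) = kap x from h, kap_kap_UDbl, arc_alpha_UDbl] at h1
    exact T.αne _ (congrArg Prod.fst h1).symm
  | more n ih _ =>
    intro x h
    rw [Function.iterate_succ_apply', Function.iterate_succ_apply, ← T.rot_kap_rot x] at h
    exact ih _ (rot_inj_UDbl _ h)

/-- local orientations at the vertices -/
theorem exists_sheet [Finite F] : ∃ σ : (F × Bool) × ZMod 3 → Bool,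
    (∀ x, σ (T.dbl.rot x) = σ x) ∧ ∀ x, σ (kap x) = !σ x := by
  let ρ : Equiv.Perm ((F × Bool) × ZMod 3) :=
    Equiv.ofBijective _ (Finite.injective_iff_bijective.1 (rot_inj_UDbl T.dbl))
  let s := Equiv.Perm.SameCycle.setoid ρ
  obtain ⟨idx, hidx⟩ := exists_injective_nat (Quotient s)
  have h1 : ∀ x, Quotient.mk s (T.dbl.rot x) = Quotient.mk s x := fun x =>
    Quotient.sound (Equiv.Perm.SameCycle.symm ⟨1, rfl⟩)
  have h2 : ∀ x, idx (Quotient.mk s x) ≠ idx (Quotient.mk s (kap x)) := fun x h => by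
    obtain ⟨n, hn⟩ := Equiv.Perm.SameCycle.exists_nat_pow_eq (f := ρ) (Quotient.exact (hidx h))
    rw [Equiv.Perm.coe_pow] at hn
    exact rot_ne_UDbl T n x hn
  refine ⟨fun x => decide (idx (Quotient.mk s x) < idx (Quotient.mk s (kap x))), fun x => ?_,
    fun x => ?_⟩
  · simp only [h1, ← h1 (kap (T.dbl.rot x)), rot_kap_rot]
  · have := h2 x
    simp only [kap_kap_UDbl, ← decide_not, decide_eq_decide]
    omega
/-- a disconnected orientation cover gives an orientation -/
theorem exists_orient (hn : T.Connected) (h : ¬ T.dbl.Connected) :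
    ∃ o : F → Bool, ∀ d, o (T.α d).1 = xor (o d.1) (T.tw d) := by
  classical
  simp only [Tri.Connected, not_forall, not_exists, not_and, not_not] at h
  obtain ⟨X, ⟨p, hp⟩, ⟨q, hq⟩, hX⟩ := h
  have h1 : ∀ d b, (d.1, b) ∈ X → ((T.α d).1, xor b (T.tw d)) ∈ X := fun d b hb => by
    have := hX (ofArc (d, b)) hb
    simp only [dbl, toArc_ofArc] at this
    exact this
  have h2 : ∀ d b, ((T.α d).1, b) ∈ X → (d.1, xor b (T.tw d)) ∈ X := fun d b hb => by
    simpa only [T.αα, T.twα] using h1 (T.α d) b hb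
  have h3 : ∀ f, ¬ ∀ b, (f, b) ∈ X := fun f hf => by
    obtain ⟨d, h4, h5⟩ := hn {f | ∀ b, (f, b) ∈ X} ⟨f, hf⟩ ⟨q.1, fun e => hq (e q.2)⟩
    refine h5 fun b => ?_
    simpa using h1 d _ (h4 (xor b (T.tw d)))
  have h4 : ∀ f, ¬ ∀ b, (f, b) ∉ X := fun f hf => by
    obtain ⟨d, h4, h5⟩ := hn {f | ∀ b, (f, b) ∉ X} ⟨f, hf⟩ ⟨p.1, fun e => e p.2 hp⟩
    exact h5 fun b hb => h4 _ (h2 d b hb)
  have h5 : ∀ f b, (f, b) ∈ X ↔ decide ((f, true) ∈ X) = b := fun f b => by
    have a1 := h3 f
    have a2 := h4 f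
    rw [Bool.forall_bool] at a1 a2
    cases b <;> simp only [decide_eq_false_iff_not, decide_eq_true_eq] <;> tauto
  exact ⟨fun f => decide ((f, true) ∈ X), fun d => (h5 _ _).1 (h1 d _ ((h5 _ _).2 rfl))⟩
/-- heights vanish along contractible words -/
theorem height_zero (φ : F × ZMod 3 → ℤ) (h1 : ∀ d, φ (T.α d) = if T.tw d then φ d else -φ d)
    (h2 : ∀ f, ∑ i, φ (f, i) = 0) (w : List ((F × ZMod 3) × Bool)) (hw : T.Contr w) :
    (w.map fun e => if e.2 then -φ e.1 else φ e.1).sum = 0 := by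
  have h3 : ∀ r ∈ T.rels, FreeGroup.lift (fun d => Multiplicative.ofAdd (φ d)) r = 1 := by
    rintro r ⟨d, rfl | rfl⟩
    · have := h1 d
      cases h : T.tw d <;> simp [h] at this ⊢ <;> rw [this] <;> simp
    · have h4 := h2 d.1
      rw [← Equiv.sum_comp (Equiv.addLeft d.2)] at h4
      have h5 : φ (d.1, d.2 + 0) + φ (d.1, d.2 + 1) + φ (d.1, d.2 + (1 + 1)) = 0 :=
        (Fin.sum_univ_three fun i : Fin 3 => φ (d.1, d.2 + (show ZMod 3 from i))).symm.trans h4
      simp only [map_mul, FreeGroup.lift_apply_of, ← ofAdd_add, ofAdd_eq_one, nxt]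
      rwa [add_zero, ← add_assoc] at h5
  have h4 := congrArg (PresentedGroup.toGroup h3) hw
  rw [map_one, map_list_prod, List.map_map] at h4
  have h5 : ∀ w : List ((F × ZMod 3) × Bool), (w.map (PresentedGroup.toGroup h3 ∘ fun e =>
      if e.2 then (PresentedGroup.of (rels := T.rels) e.1)⁻¹ else PresentedGroup.of e.1)).prod =
      Multiplicative.ofAdd (w.map fun e => if e.2 then -φ e.1 else φ e.1).sum := by
    intro w
    induction w with
    | nil => rfl
    | cons e w ih =>
      rw [List.map_cons, List.prod_cons, ih, List.map_cons, List.sum_cons, ofAdd_add]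
      congr 1
      cases h : e.2 <;> simp [h]
  rw [h5] at h4
  exact ofAdd_eq_one.1 h4

end Surf

end Pool.Agent.MP_9a3194_co

end

section

open Finset
open scoped symmDiff

namespace Pool.Agent.MP_9a3194_co

namespace Surf

variable {F : Type} (T : Surf F)

/-- the same side traversed backwards on the other sheet -/
private def bar_ULift (x : (F × Bool) × ZMod 3) : (F × Bool) × ZMod 3 := kap (Tri.nxt x)

private theorem nxt_bar_ULift (x : (F × Bool) × ZMod 3) : Tri.nxt (bar_ULift x) = kap x := by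
  obtain ⟨⟨f, b⟩, i⟩ := x
  simp [bar_ULift, kap, Tri.nxt]

private theorem bar_bar_ULift (x : (F × Bool) × ZMod 3) : bar_ULift (bar_ULift x) = x := by
  obtain ⟨⟨f, b⟩, i⟩ := x
  simp [bar_ULift, kap, Tri.nxt]

private theorem nnn_ULift (x : (F × Bool) × ZMod 3) : Tri.nxt (Tri.nxt (Tri.nxt x)) = x := by
  obtain ⟨f, i⟩ := x
  have : ∀ i : ZMod 3, i + 1 + 1 + 1 = i := by decide
  simp only [Tri.nxt, this]

private theorem bar_ofArc_ULift (d : F × ZMod 3) (b : Bool) :
    bar_ULift (ofArc (d, b)) = ofArc (d, !b) := by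
  obtain ⟨f, i⟩ := d
  have : ∀ i : ZMod 3, -1 + -i = -i - 1 := by decide
  cases b <;> simp [bar_ULift, kap, Tri.nxt, ofArc, this]

private theorem alpha_ofArc_ULift (d : F × ZMod 3) (b : Bool) :
    T.dbl.α (ofArc (d, b)) = ofArc (T.α d, xor b (T.tw d)) := by
  simp only [dbl, toArc_ofArc]

private theorem alpha_bar_ULift (x : (F × Bool) × ZMod 3) :
    T.dbl.α (bar_ULift x) = bar_ULift (T.dbl.α x) := by
  rw [← ofArc_toArc x]
  generalize toArc x = e
  obtain ⟨d, b⟩ := e
  rw [bar_ofArc_ULift, alpha_ofArc_ULift, alpha_ofArc_ULift, bar_ofArc_ULift, Bool.not_xor]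

private theorem rel1_ULift (x : (F × Bool) × ZMod 3) : T.dbl.gen x * T.dbl.gen (T.dbl.α x) = 1 :=
  PresentedGroup.one_of_mem (rels := T.dbl.rels) ⟨x, Or.inl rfl⟩

private theorem rel2_ULift (x : (F × Bool) × ZMod 3) :
    T.dbl.gen x * T.dbl.gen (Tri.nxt x) * T.dbl.gen (Tri.nxt (Tri.nxt x)) = 1 :=
  PresentedGroup.one_of_mem (rels := T.dbl.rels) ⟨x, Or.inr rfl⟩

/-- walking along the lift of a directed side -/
private noncomputable def go_ULift (σ : (F × Bool) × ZMod 3 → Bool) (x : (F × Bool) × ZMod 3)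
    (p : T.dbl.Grp × Bool) : T.dbl.Grp × Bool :=
  if p.2 = σ x then (p.1 * T.dbl.gen x, σ (Tri.nxt x))
  else (p.1 * (T.dbl.gen (bar_ULift x))⁻¹, !σ (Tri.nxt x))

private theorem go_pos_ULift (σ : (F × Bool) × ZMod 3 → Bool) (x : (F × Bool) × ZMod 3)
    (g : T.dbl.Grp) : T.go_ULift σ x (g, σ x) = (g * T.dbl.gen x, σ (Tri.nxt x)) := if_pos rfl

private theorem go_neg_ULift (σ : (F × Bool) × ZMod 3 → Bool) (x : (F × Bool) × ZMod 3)
    (g : T.dbl.Grp) : T.go_ULift σ x (g, !σ x) =
      (g * (T.dbl.gen (bar_ULift x))⁻¹, !σ (Tri.nxt x)) := if_neg (by simp)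

private theorem go_bar_ULift {σ : (F × Bool) × ZMod 3 → Bool} (h2 : ∀ x, σ (kap x) = !σ x)
    (x : (F × Bool) × ZMod 3) (p : T.dbl.Grp × Bool) :
    T.go_ULift σ (bar_ULift x) (T.go_ULift σ x p) = p := by
  obtain ⟨g, s⟩ := p
  have e1 : σ (bar_ULift x) = !σ (Tri.nxt x) := h2 _
  have e2 : σ (Tri.nxt (bar_ULift x)) = !σ x := by rw [nxt_bar_ULift, h2]
  rcases Bool.eq_or_eq_not s (σ x) with rfl | rfl
  · rw [go_pos_ULift, ← Bool.not_not (σ (Tri.nxt x)), ← e1, go_neg_ULift, bar_bar_ULift, e2,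
      Bool.not_not, mul_inv_cancel_right]
  · rw [go_neg_ULift, ← e1, go_pos_ULift, e2, inv_mul_cancel_right]

private theorem go_alpha_ULift {σ : (F × Bool) × ZMod 3 → Bool}
    (h1 : ∀ x, σ (T.dbl.rot x) = σ x) (x : (F × Bool) × ZMod 3) (p : T.dbl.Grp × Bool) :
    T.go_ULift σ (T.dbl.α x) (T.go_ULift σ x p) = p := by
  obtain ⟨g, s⟩ := p
  have e1 : σ (Tri.nxt x) = σ (T.dbl.α x) := by
    rw [← h1 (T.dbl.α x), Tri.rot, T.dbl.αα]
  have e2 : σ (Tri.nxt (T.dbl.α x)) = σ x := h1 x
  rcases Bool.eq_or_eq_not s (σ x) with rfl | rfl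
  · rw [go_pos_ULift, e1, go_pos_ULift, e2, mul_assoc, rel1_ULift, mul_one]
  · have := T.rel1_ULift (T.dbl.α (bar_ULift x))
    rw [T.dbl.αα] at this
    rw [go_neg_ULift, e1, go_neg_ULift, e2, ← alpha_bar_ULift, mul_assoc, ← mul_inv_rev, this,
      inv_one, mul_one]

private theorem go_tri_ULift (σ : (F × Bool) × ZMod 3 → Bool) (x : (F × Bool) × ZMod 3)
    (p : T.dbl.Grp × Bool) :
    T.go_ULift σ (Tri.nxt (Tri.nxt x)) (T.go_ULift σ (Tri.nxt x) (T.go_ULift σ x p)) = p := by
  obtain ⟨g, s⟩ := p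
  rcases Bool.eq_or_eq_not s (σ x) with rfl | rfl
  · rw [go_pos_ULift, go_pos_ULift, go_pos_ULift, nnn_ULift, mul_assoc g, mul_assoc g, rel2_ULift,
      mul_one]
  · have := T.rel2_ULift (bar_ULift (Tri.nxt (Tri.nxt x)))
    rw [nxt_bar_ULift, show kap (Tri.nxt (Tri.nxt x)) = bar_ULift (Tri.nxt x) from rfl,
      nxt_bar_ULift, show kap (Tri.nxt x) = bar_ULift x from rfl] at this
    rw [go_neg_ULift, go_neg_ULift, go_neg_ULift, nnn_ULift, mul_assoc g, mul_assoc g,
      ← mul_inv_rev, ← mul_inv_rev, ← mul_assoc, this, inv_one, mul_one]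

/-- contractible closed walks are contractible in the orientation cover -/
theorem dbl_contr [Finite F] {w : List ((F × Bool) × ZMod 3)} (h : T.dbl.Closed w)
    (hw : T.Contr (w.map toArc)) : T.dbl.Contr w := by
  obtain ⟨σ, h1, h2⟩ := T.exists_sheet
  let W : (F × Bool) × ZMod 3 → Equiv.Perm (T.dbl.Grp × Bool) := fun x =>
    ⟨T.go_ULift σ x, T.go_ULift σ (bar_ULift x), T.go_bar_ULift h2 x, fun p => by
      have := T.go_bar_ULift h2 (bar_ULift x) p
      rwa [bar_bar_ULift] at this⟩
  have hb : ∀ x, W (bar_ULift x) = (W x)⁻¹ := fun x => Equiv.ext fun _ => rfl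
  have ha : ∀ x, W (T.dbl.α x) = (W x)⁻¹ := fun x =>
    eq_inv_of_mul_eq_one_left (Equiv.ext fun p => T.go_alpha_ULift h1 x p)
  have ht : ∀ x, W (Tri.nxt (Tri.nxt x)) * W (Tri.nxt x) * W x = 1 := fun x =>
    Equiv.ext fun p => T.go_tri_ULift σ x p
  have hr : ∀ r ∈ T.rels, FreeGroup.lift (fun d => (W (ofArc (d, false)))⁻¹) r = 1 := by
    rintro r ⟨d, rfl | rfl⟩
    · have e := ha (ofArc (d, false))
      rw [alpha_ofArc_ULift] at e
      cases ht : T.tw d
      · rw [ht] at e
        simp only [Bool.false_eq_true, if_false, map_mul, FreeGroup.lift_apply_of]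
        rw [show ofArc (T.α d, false) = ofArc (T.α d, xor false false) from rfl, e, inv_inv,
          inv_mul_cancel]
      · rw [ht, show ofArc (T.α d, xor false true) = ofArc (T.α d, !false) from rfl,
          ← bar_ofArc_ULift, hb] at e
        simp only [if_true, map_mul, map_inv, FreeGroup.lift_apply_of]
        rw [e, mul_inv_cancel]
    · simp only [map_mul, FreeGroup.lift_apply_of]
      rw [← mul_inv_rev, ← mul_inv_rev, ← mul_assoc, inv_eq_one]
      exact ht (ofArc (d, false))
  let ρ : PresentedGroup T.rels →* Equiv.Perm (T.dbl.Grp × Bool) := PresentedGroup.toGroup hr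
  have hl : ∀ x, ρ (if (toArc x).2 then (PresentedGroup.of (rels := T.rels) (toArc x).1)⁻¹
      else PresentedGroup.of (toArc x).1) = (W x)⁻¹ := by
    intro x
    conv_rhs => rw [← ofArc_toArc x]
    generalize toArc x = e
    obtain ⟨d, b⟩ := e
    have e0 : ρ (PresentedGroup.of d) = (W (ofArc (d, false)))⁻¹ := PresentedGroup.toGroup.of hr
    cases b
    · exact e0
    · rw [if_pos rfl, map_inv, e0, ← hb, bar_ofArc_ULift]
      rfl
  have hp : (w.map fun x => (W x)⁻¹).prod = 1 := by
    have := congrArg ρ hw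
    rw [map_one, map_list_prod, List.map_map, List.map_map] at this
    rw [← this]
    exact congrArg List.prod (List.map_congr_left fun x _ => (hl x).symm)
  have hrot : ∀ n x, σ (T.dbl.rot^[n] x) = σ x := by
    intro n x
    induction n with
    | zero => rfl
    | succ n ih => rw [Function.iterate_succ_apply', h1, ih]
  have key : ∀ (l : List ((F × Bool) × ZMod 3)) (x : (F × Bool) × ZMod 3) (g : T.dbl.Grp),
      ((x :: l).IsChain fun d e => ∃ n, T.dbl.rot^[n] (T.dbl.α d) = e) →
      (((x :: l).map fun x => (W x)⁻¹).prod⁻¹ (g, σ x)).1 = g * ((x :: l).map T.dbl.gen).prod := by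
    intro l
    induction l with
    | nil =>
      intro x g _
      simp only [List.map_cons, List.map_nil, List.prod_cons, List.prod_nil, mul_one, inv_inv]
      exact congrArg Prod.fst (T.go_pos_ULift σ x g)
    | cons y l ih =>
      intro x g hc
      rw [List.isChain_cons_cons] at hc
      obtain ⟨⟨n, hn⟩, hc⟩ := hc
      have e : σ (Tri.nxt x) = σ y := by
        rw [← hn, hrot, ← h1 (T.dbl.α x), Tri.rot, T.dbl.αα]
      rw [List.map_cons, List.prod_cons, mul_inv_rev, inv_inv, Equiv.Perm.mul_apply,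
        show W x (g, σ x) = _ from T.go_pos_ULift σ x g, e, ih y _ hc, mul_assoc]
      rfl
  cases w with
  | nil => rfl
  | cons x l =>
    have := key l x 1 (List.IsChain.left_of_append h)
    rw [hp, inv_one, one_mul] at this
    exact this.symm

end Surf

end Pool.Agent.MP_9a3194_co

end

section

open Finset

namespace Pool.Agent.MP_9a3194_co

namespace Tri

variable {F W : Type} [DecidableEq F] [DecidableEq W] (T : Tri F)

private def ex_TRank {A : Type} [DecidableEq A] (S : Finset A) (a : S → ℝ) (x : A) : ℝ :=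
  if h : x ∈ S then a ⟨x, h⟩ else 0

private theorem ex_add_TRank {A : Type} [DecidableEq A] (S : Finset A) (a b : S → ℝ) (x : A) :
    ex_TRank S (a + b) x = ex_TRank S a x + ex_TRank S b x := by
  unfold ex_TRank
  split_ifs <;> simp

private theorem ex_smul_TRank {A : Type} [DecidableEq A] (S : Finset A) (r : ℝ) (a : S → ℝ)
    (x : A) : ex_TRank S (r • a) x = r * ex_TRank S a x := by
  unfold ex_TRank
  split_ifs <;> simp

private theorem ex_mem_TRank {A : Type} [DecidableEq A] (S : Finset A) (a : S → ℝ) (x : S) :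
    ex_TRank S a x = a x := by
  unfold ex_TRank
  rw [dif_pos x.2]

private theorem ex_not_TRank {A : Type} [DecidableEq A] (S : Finset A) (a : S → ℝ) {x : A}
    (h : x ∉ S) : ex_TRank S a x = 0 := by
  unfold ex_TRank
  rw [dif_neg h]

private theorem ex_res_TRank {A : Type} [DecidableEq A] (S : Finset A) (a : A → ℝ)
    {x : A} (h : x ∈ S) : ex_TRank S (fun y : S => a y) x = a x := by
  unfold ex_TRank
  rw [dif_pos h]

omit [DecidableEq F] [DecidableEq W] in
private theorem lab_alpha_TRank (lab : F × ZMod 3 → W) (hl : ∀ d, lab (T.rot d) = lab d)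
    (d : F × ZMod 3) : lab (T.α d) = lab (nxt d) := by
  have := hl (T.α d)
  rw [rot, T.αα] at this
  exact this.symm

private theorem half_TRank (X : Finset F) : ∃ H : Finset (F × ZMod 3),
    2 * H.card + (T.out X).card = 3 * X.card ∧
      ∀ d, d.1 ∈ X → (T.α d).1 ∈ X → d ∉ H → T.α d ∈ H := by
  classical
  let r : F × ZMod 3 → F × ZMod 3 → Prop := WellOrderingRel
  have htri : ∀ a b, a ≠ b → ¬ r a b → r b a := fun a b hab h => by
    rcases trichotomous_of r a b with h' | h' | h'
    · exact absurd h' h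
    · exact absurd h' hab
    · exact h'
  have hasy : ∀ a b, r a b → ¬ r b a := fun a b h h' =>
    irrefl_of r a (trans_of r h h')
  set I : Finset (F × ZMod 3) := (X ×ˢ univ).filter fun d => ¬ (T.α d).1 ∉ X with hI
  have hmem : ∀ d, d ∈ I ↔ d.1 ∈ X ∧ (T.α d).1 ∈ X := fun d => by simp [hI]
  refine ⟨I.filter fun d => r d (T.α d), ?_, ?_⟩
  · have h1 : (T.out X).card + I.card = (X ×ˢ (univ : Finset (ZMod 3))).card :=
      card_filter_add_card_filter_not _
    have h2 : (I.filter fun d => r d (T.α d)).card + (I.filter fun d => ¬ r d (T.α d)).card =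
        I.card := card_filter_add_card_filter_not _
    have h3 : (I.filter fun d => r d (T.α d)).card = (I.filter fun d => ¬ r d (T.α d)).card := by
      refine card_nbij' T.α T.α ?_ ?_ (fun d _ => T.αα d) (fun d _ => T.αα d)
      · intro d hd
        simp only [coe_filter, Set.mem_ofPred_eq, hmem, T.αα] at hd ⊢
        exact ⟨⟨hd.1.2, hd.1.1⟩, hasy _ _ hd.2⟩
      · intro d hd
        simp only [coe_filter, Set.mem_ofPred_eq, hmem, T.αα] at hd ⊢
        exact ⟨⟨hd.1.2, hd.1.1⟩, htri _ _ (T.αne d).symm hd.2⟩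
    rw [card_product, card_univ, ZMod.card] at h1
    omega
  · intro d h1 h2 h3
    simp only [mem_filter, hmem, T.αα] at h3 ⊢
    exact ⟨⟨h2, h1⟩, htri _ _ (T.αne d).symm fun h => h3 ⟨⟨h1, h2⟩, h⟩⟩

/-- Euler inequality by counting dimensions -/
theorem rank_ineq (lab : F × ZMod 3 → W) (hl : ∀ d, lab (T.rot d) = lab d) (X Y : Finset F)
    (hX : X.Nonempty)
    (hY : ∀ z : F × ZMod 3 →₀ ℝ, (∀ d, d.1 ∉ X → z d = 0) → T.Balanced lab z →
      ∃ a : F → ℝ, (∀ f ∉ Y, a f = 0) ∧ ∀ d, d.1 ∈ X → z d - z (T.α d) = a d.1 - a (T.α d).1) :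
    3 * X.card + (T.out X).card + 2 ≤ 2 * ((X ×ˢ univ).image lab).card + 2 * Y.card := by
  obtain ⟨H, hH, hH'⟩ := T.half_TRank X
  set D : Finset (F × ZMod 3) := X ×ˢ univ with hD
  set L : Finset W := D.image lab with hL
  have hmD : ∀ d, d ∈ D ↔ d.1 ∈ X := fun d => by simp [hD]
  have hcD : D.card = 3 * X.card := by
    rw [hD, card_product, card_univ, ZMod.card, mul_comm]
  have hl1 : ∀ d ∈ D, lab d ∈ L := fun d hd => mem_image_of_mem _ hd
  have hl2 : ∀ d ∈ D, lab (T.α d) ∈ L := fun d hd => by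
    rw [T.lab_alpha_TRank lab hl]
    exact mem_image_of_mem _ ((hmD (nxt d)).2 ((hmD d).1 hd))
  let β : (D → ℝ) →ₗ[ℝ] (L → ℝ) :=
    { toFun := fun z x => (∑ d : D, if lab d = x then z d else 0) -
        ∑ d : D, if lab (T.α d) = x then z d else 0
      map_add' := fun z z' => by
        funext x
        simp only [Pi.add_apply, ite_add_zero, sum_add_distrib]
        ring
      map_smul' := fun r z => by
        funext x
        simp only [Pi.smul_apply, smul_eq_mul, RingHom.id_apply, mul_sub, mul_sum, mul_ite,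
          mul_zero] }
  let σ : (L → ℝ) →ₗ[ℝ] ℝ :=
    { toFun := fun y => ∑ x, y x
      map_add' := fun y y' => by simp [sum_add_distrib]
      map_smul' := fun r y => by simp [mul_sum] }
  have hone : ∀ (w : W) (t : ℝ), w ∈ L → (∑ x : L, if w = x then t else 0) = t := by
    intro w t hw
    rw [sum_eq_single (⟨w, hw⟩ : L)]
    · simp
    · intro b _ hb
      exact if_neg fun e => hb (Subtype.ext e.symm)
    · simp
  have hβσ : LinearMap.range β ≤ LinearMap.ker σ := by
    rintro _ ⟨z, rfl⟩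
    change (∑ x : L, ((∑ d : D, if lab d = x then z d else 0) -
        ∑ d : D, if lab (T.α d) = x then z d else 0)) = 0
    rw [sum_sub_distrib, sum_comm, sum_comm (f := fun (x : L) (d : D) =>
      if lab (T.α d) = x then z d else 0), sub_eq_zero]
    refine sum_congr rfl fun d _ => ?_
    rw [hone _ _ (hl1 d d.2), hone _ _ (hl2 d d.2)]
  have hσ : LinearMap.range σ = ⊤ := by
    obtain ⟨f, hf⟩ := hX
    have hw : lab (f, 0) ∈ L := hl1 _ ((hmD _).2 hf)
    rw [LinearMap.range_eq_top]
    intro t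
    exact ⟨fun x => if lab (f, 0) = x then t else 0, hone _ _ hw⟩
  have e1 := LinearMap.finrank_range_add_finrank_ker σ
  rw [hσ, finrank_top, Module.finrank_self, Module.finrank_fintype_fun_eq_card,
    Fintype.card_coe] at e1
  have e2 := LinearMap.finrank_range_add_finrank_ker β
  rw [Module.finrank_fintype_fun_eq_card, Fintype.card_coe] at e2
  have e3 := Submodule.finrank_mono hβσ
  let G : ((Y → ℝ) × (H → ℝ)) →ₗ[ℝ] (D → ℝ) :=
    { toFun := fun p d => if d.1 ∈ H then ex_TRank H p.2 d else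
        ex_TRank Y p.1 d.1.1 - ex_TRank Y p.1 (T.α d).1 +
          if (T.α d).1 ∈ X then ex_TRank H p.2 (T.α d) else 0
      map_add' := fun p p' => by
        funext d
        simp only [Prod.fst_add, Prod.snd_add, ex_add_TRank, Pi.add_apply]
        split_ifs <;> ring
      map_smul' := fun r p => by
        funext d
        simp only [Prod.smul_fst, Prod.smul_snd, ex_smul_TRank, Pi.smul_apply, smul_eq_mul,
          RingHom.id_apply]
        split_ifs <;> ring }
  have hK : LinearMap.ker β ≤ LinearMap.range G := by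
    intro z hz
    let zz : F × ZMod 3 →₀ ℝ := Finsupp.onFinset D (ex_TRank D z)
      fun d h => by_contra fun h' => h (ex_not_TRank D z h')
    have hzz : ∀ d, zz d = ex_TRank D z d := fun d => rfl
    have hsum : ∀ (g : F × ZMod 3 → W) (x : W), (zz.sum fun d t => if g d = x then t else 0) =
        ∑ d : D, if g d = x then z d else 0 := by
      intro g x
      rw [Finsupp.sum_of_support_subset _ (Finsupp.support_onFinset_subset) _ (by simp),
        ← sum_coe_sort]
      refine sum_congr rfl fun d _ => ?_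
      rw [hzz, ex_mem_TRank]
    have hbal : T.Balanced lab zz := by
      intro x
      rw [hsum lab x, hsum (fun d => lab (T.α d)) x]
      by_cases hx : x ∈ L
      · exact sub_eq_zero.1 (congrFun (LinearMap.mem_ker.1 hz) ⟨x, hx⟩)
      · rw [sum_eq_zero fun (d : D) _ => if_neg fun (e : lab d = x) => hx (e ▸ hl1 d d.2),
          sum_eq_zero fun (d : D) _ =>
            if_neg fun (e : lab (T.α d) = x) => hx (e ▸ hl2 d d.2)]
    have hz0 : ∀ d, d.1 ∉ X → zz d = 0 := fun d h =>
      ex_not_TRank D z fun h' => h ((hmD d).1 h')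
    obtain ⟨a, ha, ha'⟩ := hY zz hz0 hbal
    have hexa : ∀ f, ex_TRank Y (fun y : Y => a y) f = a f := fun f => by
      by_cases hf : f ∈ Y
      · exact ex_res_TRank Y a hf
      · rw [ex_not_TRank Y _ hf, ha f hf]
    refine ⟨(fun y => a y, fun e => zz e), ?_⟩
    funext d
    have hd : d.1.1 ∈ X := (hmD _).1 d.2
    have hzd : zz d = z d := by rw [hzz, ex_mem_TRank]
    change (if d.1 ∈ H then ex_TRank H (fun e : H => zz e) d else
        ex_TRank Y (fun y : Y => a y) d.1.1 - ex_TRank Y (fun y : Y => a y) (T.α d).1 +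
          if (T.α d).1 ∈ X then ex_TRank H (fun e : H => zz e) (T.α d) else 0) = z d
    have h1 := ha' d hd
    split_ifs with c1 c2
    · rw [ex_res_TRank H zz c1, hzd]
    · rw [hexa, hexa, ex_res_TRank H zz (hH' d hd c2 c1)]
      linarith
    · rw [hexa, hexa]
      have := hz0 _ c2
      linarith
  have e4 := Submodule.finrank_mono hK
  have e5 := LinearMap.finrank_range_le G
  rw [Module.finrank_prod, Module.finrank_fintype_fun_eq_card, Module.finrank_fintype_fun_eq_card,
    Fintype.card_coe, Fintype.card_coe] at e5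
  omega

omit [DecidableEq F] in
private theorem rot_inj_TRank : Function.Injective T.rot := by
  intro d e h
  have h1 : T.α d = T.α e := by
    simp only [rot, nxt, Prod.mk.injEq, add_left_inj] at h
    exact Prod.ext h.1 h.2
  rw [← T.αα d, h1, T.αα]

/-- a label is carried by an outgoing dart or by many darts -/
theorem card_lab {c : ℕ} (hd : T.MinDeg c) (lab : F × ZMod 3 → W)
    (hl : ∀ d, lab (T.rot d) = lab d) (X : Finset F) :
    c * ((X ×ˢ univ).image lab).card ≤ c * (T.out X).card + 3 * X.card ∧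
      (3 * X.card < c → ((X ×ˢ univ).image lab).card ≤ (T.out X).card) := by
  set D : Finset (F × ZMod 3) := X ×ˢ univ with hD
  have hmD : ∀ d, d ∈ D ↔ d.1 ∈ X := fun d => by simp [hD]
  have hcD : D.card = 3 * X.card := by
    rw [hD, card_product, card_univ, ZMod.card, mul_comm]
  set B : Finset W := D.image lab \ (T.out X).image lab with hB
  have h1 : (D.image lab).card ≤ (T.out X).card + B.card := by
    have : _ ≤ B.card := le_card_sdiff ((T.out X).image lab) (D.image lab)
    have h2 : ((T.out X).image lab).card ≤ (T.out X).card := card_image_le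
    omega
  have hfib : ∀ x ∈ B, c ≤ (D.filter fun d => lab d = x).card := by
    intro x hx
    obtain ⟨hx1, hx2⟩ := mem_sdiff.1 hx
    obtain ⟨d, hdD, rfl⟩ := mem_image.1 hx1
    have hit : ∀ n, T.rot^[n] d ∈ D ∧ lab (T.rot^[n] d) = lab d := by
      intro n
      induction n with
      | zero => exact ⟨hdD, rfl⟩
      | succ n ih =>
        rw [Function.iterate_succ_apply']
        refine ⟨(hmD _).2 ?_, (hl _).trans ih.2⟩
        by_contra hn
        exact hx2 (mem_image.2 ⟨_, mem_filter.2 ⟨ih.1, hn⟩, ih.2⟩)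
    have hlt : ∀ m n, m < n → n < c → T.rot^[m] d ≠ T.rot^[n] d := by
      intro m n hmn hn e
      obtain ⟨k, rfl⟩ := Nat.exists_eq_add_of_lt hmn
      rw [add_assoc, Function.iterate_add_apply] at e
      exact hd d (k + 1) (Nat.succ_pos _) (by omega)
        ((T.rot_inj_TRank.iterate m) e).symm
    rw [← card_range c]
    refine card_le_card_of_injOn (fun n => T.rot^[n] d) (fun n _ => ?_) ?_
    · exact mem_coe.2 (mem_filter.2 (hit n))
    · intro m hm n hn e
      rcases lt_trichotomy m n with h | h | h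
      · exact absurd e (hlt m n h (mem_range.1 hn))
      · exact h
      · exact absurd e.symm (hlt n m h (mem_range.1 hm))
  have h2 : c * B.card ≤ 3 * X.card := by
    calc c * B.card = ∑ _x ∈ B, c := by simp [mul_comm]
      _ ≤ ∑ x ∈ B, (D.filter fun d => lab d = x).card := sum_le_sum hfib
      _ ≤ ∑ x ∈ D.image lab, (D.filter fun d => lab d = x).card :=
          sum_le_sum_of_subset sdiff_subset
      _ = D.card := (card_eq_sum_card_image lab D).symm
      _ = _ := hcD
  refine ⟨?_, fun h => ?_⟩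
  · have := Nat.mul_le_mul_left c h1
    rw [mul_add] at this
    omega
  · have : B.card = 0 := by
      by_contra h0
      have := Nat.mul_le_mul_left c (Nat.one_le_iff_ne_zero.2 h0)
      omega
    omega

end Tri

end Pool.Agent.MP_9a3194_co

end

section

open Finset

namespace Pool.Agent.MP_9a3194_co

namespace Tri

variable {F W : Type} [DecidableEq F] [DecidableEq W] (T : Tri F)

private theorem mem_out_TIso (X : Finset F) (d : F × ZMod 3) :
    d ∈ T.out X ↔ d.1 ∈ X ∧ (T.α d).1 ∉ X := by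
  simp [Tri.out, mem_filter, mem_product]

theorem iso_lin {c : ℕ} (hc : 12 ≤ c) (hd : T.MinDeg c) (lab : F × ZMod 3 → W)
    (hl : ∀ d, lab (T.rot d) = lab d) (he : T.Exact lab) (X : Finset F) :
    X.card ≤ 6 * (T.out X).card := by
  rcases X.eq_empty_or_nonempty with rfl | hX
  · simp
  have h1 := T.rank_ineq lab hl X (X ∪ (T.out X).image fun d => (T.α d).1) hX (by
    intro z _ hz
    obtain ⟨a, ha⟩ := he z hz
    refine ⟨fun f => if f ∈ X ∪ (T.out X).image (fun d => (T.α d).1) then a f else 0, ?_, ?_⟩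
    · intro f hf
      exact if_neg hf
    · intro d hd1
      have e1 : d.1 ∈ X ∪ (T.out X).image (fun d => (T.α d).1) := mem_union_left _ hd1
      have e2 : (T.α d).1 ∈ X ∪ (T.out X).image (fun d => (T.α d).1) := by
        by_cases h : (T.α d).1 ∈ X
        · exact mem_union_left _ h
        · exact mem_union_right _ (mem_image.2 ⟨d, (T.mem_out_TIso X d).2 ⟨hd1, h⟩, rfl⟩)
      simp only [if_pos e1, if_pos e2]
      exact ha d)
  have h2 := (T.card_lab hd lab hl X).1
  have h3 : (X ∪ (T.out X).image fun d => (T.α d).1).card ≤ X.card + (T.out X).card :=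
    (card_union_le _ _).trans (Nat.add_le_add_left card_image_le _)
  generalize (X ∪ (T.out X).image fun d => (T.α d).1).card = y at h1 h3
  generalize ((X ×ˢ univ).image lab).card = L at h1 h2
  generalize (T.out X).card = o at h1 h2 h3 ⊢
  generalize X.card = f at h1 h2 h3 ⊢
  by_contra hcon
  have h4 : 6 * o + 1 ≤ f := by omega
  have h5 : f + 2 ≤ 2 * L + o := by omega
  have h6 : c * (f + 2) ≤ c * (2 * L + o) := Nat.mul_le_mul_left c h5
  have h7 : c * (6 * o + 1) ≤ c * f := Nat.mul_le_mul_left c h4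
  have h8 : 12 * f ≤ c * f := Nat.mul_le_mul_right f hc
  nlinarith

theorem iso_sharp {c : ℕ} (hc : 12 ≤ c) (hd : T.MinDeg c) (lab : F × ZMod 3 → W)
    (hl : ∀ d, lab (T.rot d) = lab d) (he : T.Exact lab) (X : Finset F) (hX : X.Nonempty)
    (ho : 18 * (T.out X).card < c) : X.card + 2 ≤ (T.out X).card := by
  classical
  have hex : ∃ n, ∃ X' : Finset F, X ⊆ X' ∧ T.out X' ⊆ T.out X ∧
      6 * (T.out X).card - X'.card = n := ⟨_, X, Subset.refl _, Subset.refl _, rfl⟩
  obtain ⟨X', hXX, hout, hn⟩ := Nat.find_spec hex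
  have hb : ∀ Z : Finset F, T.out Z ⊆ T.out X → Z.card ≤ 6 * (T.out X).card := fun Z hZ =>
    (T.iso_lin hc hd lab hl he Z).trans (Nat.mul_le_mul_left 6 (card_le_card hZ))
  have hmax : ∀ Z : Finset F, X ⊆ Z → T.out Z ⊆ T.out X → Z.card ≤ X'.card := by
    intro Z h1 h2
    have h3 := Nat.find_min' hex ⟨Z, h1, h2, rfl⟩
    have h4 := hb Z h2
    have h5 := hb X' hout
    omega
  have h1 := T.rank_ineq lab hl X' X' (hX.mono hXX) (by
    intro z hz0 hz
    obtain ⟨a, ha⟩ := he z hz
    refine ⟨a, ?_, fun d _ => ha d⟩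
    have key : ∀ s : ℝ, ∀ f ∉ X', ¬ 0 < s * a f := by
      intro s f hf hpos
      have hsub : T.out (X' ∪ a.support.filter fun g => g ∉ X' ∧ 0 < s * a g) ⊆ T.out X' := by
        intro d hdd
        rw [T.mem_out_TIso] at hdd ⊢
        obtain ⟨hd1, hd2⟩ := hdd
        have hd3 : (T.α d).1 ∉ X' := fun h => hd2 (mem_union_left _ h)
        refine ⟨?_, hd3⟩
        rcases mem_union.1 hd1 with h | h
        · exact h
        · exfalso
          obtain ⟨_, h4, h5⟩ := mem_filter.1 h
          have h6 := ha d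
          rw [hz0 d h4, hz0 _ hd3] at h6
          have h7 : a (T.α d).1 = a d.1 := by linarith
          apply hd2
          refine mem_union_right _ (mem_filter.2 ⟨?_, hd3, by rw [h7]; exact h5⟩)
          rw [Finsupp.mem_support_iff, h7]
          intro h0
          rw [h0, mul_zero] at h5
          exact lt_irrefl _ h5
      have hle := hmax _ (hXX.trans subset_union_left) (hsub.trans hout)
      have heq := eq_of_subset_of_card_le (subset_union_left (s₂ := a.support.filter
        fun g => g ∉ X' ∧ 0 < s * a g)) hle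
      apply hf
      rw [heq]
      refine mem_union_right _ (mem_filter.2 ⟨?_, hf, hpos⟩)
      rw [Finsupp.mem_support_iff]
      intro h0
      rw [h0, mul_zero] at hpos
      exact lt_irrefl _ hpos
    intro f hf
    have k1 := key 1 f hf
    have k2 := key (-1) f hf
    push Not at k1 k2
    linarith)
  have h5 := hb X' hout
  have h2 := (T.card_lab hd lab hl X').2 (by omega)
  have h3 := card_le_card hXX
  have h4 := card_le_card hout
  omega

end Tri

end Pool.Agent.MP_9a3194_co

end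

section

open Finset

namespace Pool.Agent.MP_9a3194_co

namespace Tri

variable {F : Type} (T : Tri F)

private theorem rel1_TCov (d : F × ZMod 3) : T.gen d * T.gen (T.α d) = 1 :=
  PresentedGroup.one_of_mem (rels := T.rels) (x := .of d * .of (T.α d)) ⟨d, Or.inl rfl⟩

private theorem rel2_TCov (d : F × ZMod 3) :
    T.gen d * T.gen (nxt d) * T.gen (nxt (nxt d)) = 1 :=
  PresentedGroup.one_of_mem (rels := T.rels) (x := .of d * .of (nxt d) * .of (nxt (nxt d)))
    ⟨d, Or.inr rfl⟩

/-- the path from corner `0` to the tail of the dart -/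
private def pre_TCov (d : F × ZMod 3) : T.Grp :=
  if d.2 = 0 then 1 else if d.2 = 1 then T.gen (d.1, 0) else T.gen (d.1, 0) * T.gen (d.1, 1)

private theorem pre_nxt_TCov (d : F × ZMod 3) :
    T.pre_TCov (nxt d) = T.pre_TCov d * T.gen d := by
  obtain ⟨f, i⟩ := d
  have h := T.rel2_TCov (f, 0)
  have e1 : (0 : ZMod 3) + 1 = 1 := by decide
  have e2 : (1 : ZMod 3) + 1 = 2 := by decide
  have e3 : (2 : ZMod 3) + 1 = 0 := by decide
  have n1 : ¬ (1 : ZMod 3) = 0 := by decide
  have n2 : ¬ (2 : ZMod 3) = 0 := by decide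
  have n3 : ¬ (2 : ZMod 3) = 1 := by decide
  simp only [nxt, e1, e2] at h
  rcases (by decide : ∀ i : ZMod 3, i = 0 ∨ i = 1 ∨ i = 2) i with rfl | rfl | rfl
  · simp only [pre_TCov, nxt, e1, n1, if_true, if_false, one_mul]
  · simp only [pre_TCov, nxt, e2, n1, n2, n3, if_true, if_false]
  · simp only [pre_TCov, nxt, e3, n2, n3, if_true, if_false, h]

/-- the label of a dart upstairs -/
private def lab_TCov (e : (F × T.Grp) × ZMod 3) : T.Grp := e.1.2 * T.pre_TCov (e.1.1, e.2)

/-- the dart over `d` with label `g` -/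
private def lift_TCov (d : F × ZMod 3) (g : T.Grp) : (F × T.Grp) × ZMod 3 :=
  ((d.1, g * (T.pre_TCov d)⁻¹), d.2)

private theorem lab_lift_TCov (d : F × ZMod 3) (g : T.Grp) :
    T.lab_TCov (T.lift_TCov d g) = g := by
  simp only [lab_TCov, lift_TCov, Prod.mk.eta, inv_mul_cancel_right]

private theorem lift_lab_TCov (e : (F × T.Grp) × ZMod 3) :
    T.lift_TCov (e.1.1, e.2) (T.lab_TCov e) = e := by
  simp only [lab_TCov, lift_TCov, Prod.mk.eta, mul_inv_cancel_right]

private theorem nxt_lift_TCov (d : F × ZMod 3) (g : T.Grp) :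
    nxt (T.lift_TCov d g) = T.lift_TCov (nxt d) (g * T.gen d) := by
  have h := T.pre_nxt_TCov d
  simp only [lift_TCov, h]
  simp only [nxt, mul_inv_rev, mul_assoc, mul_inv_cancel_left]

/-- the gluing upstairs -/
private def al_TCov (e : (F × T.Grp) × ZMod 3) : (F × T.Grp) × ZMod 3 :=
  T.lift_TCov (T.α (e.1.1, e.2)) (T.lab_TCov e * T.gen (e.1.1, e.2))

private theorem al_lift_TCov (d : F × ZMod 3) (g : T.Grp) :
    T.al_TCov (T.lift_TCov d g) = T.lift_TCov (T.α d) (g * T.gen d) := by
  rw [al_TCov, lab_lift_TCov]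
  rfl

/-- the cover -/
private def cov_TCov : Tri (F × T.Grp) where
  α := T.al_TCov
  αα e := by
    rw [← T.lift_lab_TCov e, al_lift_TCov, al_lift_TCov, T.αα, mul_assoc, rel1_TCov, mul_one]
  αne e h := T.αne (e.1.1, e.2) (congrArg (fun x : (F × T.Grp) × ZMod 3 => (x.1.1, x.2)) h)

/-- chains that are boundaries -/
private def bd_TCov (C : Tri F) : Submodule ℝ (F × ZMod 3 →₀ ℝ) where
  carrier := {z | ∃ a : F →₀ ℝ, ∀ d, z d - z (C.α d) = a d.1 - a (C.α d).1}
  add_mem' := by
    rintro z z' ⟨a, ha⟩ ⟨a', ha'⟩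
    refine ⟨a + a', fun d => ?_⟩
    simp only [Finsupp.add_apply]
    linear_combination ha d + ha' d
  zero_mem' := ⟨0, fun d => by simp⟩
  smul_mem' := by
    rintro t z ⟨a, ha⟩
    refine ⟨t • a, fun d => ?_⟩
    simp only [Finsupp.smul_apply, smul_eq_mul]
    linear_combination t * ha d

private theorem bd1_TCov (C : Tri F) (e : F × ZMod 3) :
    (bd_TCov C).mkQ (Finsupp.single e 1) + (bd_TCov C).mkQ (Finsupp.single (C.α e) 1) = 0 := by
  classical
  rw [← map_add, Submodule.mkQ_apply, Submodule.Quotient.mk_eq_zero]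
  refine ⟨0, fun d => ?_⟩
  have h1 : (e = C.α d) ↔ (C.α e = d) :=
    ⟨fun h => by rw [h, C.αα], fun h => by rw [← h, C.αα]⟩
  have h2 : (C.α e = C.α d) ↔ (e = d) :=
    ⟨fun h => by rw [← C.αα e, h, C.αα], fun h => by rw [h]⟩
  simp only [Finsupp.add_apply, Finsupp.single_apply, h1, h2, Finsupp.zero_apply]
  ring

private theorem bd2_TCov (C : Tri F) (e : F × ZMod 3) :
    (bd_TCov C).mkQ (Finsupp.single e 1) + (bd_TCov C).mkQ (Finsupp.single (nxt e) 1) +
      (bd_TCov C).mkQ (Finsupp.single (nxt (nxt e)) 1) = 0 := by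
  classical
  rw [← map_add, ← map_add, Submodule.mkQ_apply, Submodule.Quotient.mk_eq_zero]
  refine ⟨Finsupp.single e.1 1, fun d => ?_⟩
  have key : ∀ x : F × ZMod 3, (Finsupp.single e (1 : ℝ) + Finsupp.single (nxt e) 1 +
      Finsupp.single (nxt (nxt e)) 1 : F × ZMod 3 →₀ ℝ) x = Finsupp.single e.1 (1 : ℝ) x.1 := by
    obtain ⟨f, i⟩ := e
    rintro ⟨f', j⟩
    simp only [Finsupp.add_apply, Finsupp.single_apply, nxt, Prod.mk.injEq]
    by_cases h : f = f'
    · simp only [h, true_and, if_true]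
      rcases (by decide : ∀ i j : ZMod 3, (i = j ∧ ¬ i + 1 = j ∧ ¬ i + 1 + 1 = j) ∨
        (¬ i = j ∧ i + 1 = j ∧ ¬ i + 1 + 1 = j) ∨ (¬ i = j ∧ ¬ i + 1 = j ∧ i + 1 + 1 = j)) i j
        with ⟨h1, h2, h3⟩ | ⟨h1, h2, h3⟩ | ⟨h1, h2, h3⟩
      · rw [if_pos h1, if_neg h2, if_neg h3]; ring
      · rw [if_neg h1, if_pos h2, if_neg h3]; ring
      · rw [if_neg h1, if_neg h2, if_pos h3]; ring
    · simp [h]
  rw [key, key]

/-- the step along a dart -/
private def st_TCov {M : Type} [AddCommGroup M] (s : (F × T.Grp) × ZMod 3 → M)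
    (d : F × ZMod 3) : Equiv.Perm (T.Grp × M) where
  toFun p := (p.1 * T.gen d, p.2 + s (T.lift_TCov d p.1))
  invFun p := (p.1 * (T.gen d)⁻¹, p.2 - s (T.lift_TCov d (p.1 * (T.gen d)⁻¹)))
  left_inv p := by simp
  right_inv p := by simp

private theorem st_apply_TCov {M : Type} [AddCommGroup M] (s : (F × T.Grp) × ZMod 3 → M)
    (d : F × ZMod 3) (p : T.Grp × M) :
    T.st_TCov s d p = (p.1 * T.gen d, p.2 + s (T.lift_TCov d p.1)) := rfl

private theorem pot_TCov {M : Type} [AddCommGroup M] (s : (F × T.Grp) × ZMod 3 → M)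
    (h1 : ∀ e, s e + s (T.al_TCov e) = 0)
    (h2 : ∀ e, s e + s (nxt e) + s (nxt (nxt e)) = 0) :
    ∃ P : T.Grp → M, ∀ e, s e = P (T.lab_TCov (T.al_TCov e)) - P (T.lab_TCov e) := by
  have hr : ∀ r ∈ T.rels, FreeGroup.lift (fun d => (T.st_TCov s d)⁻¹) r = 1 := by
    rintro r ⟨d, rfl | rfl⟩
    · simp only [map_mul, FreeGroup.lift_apply_of]
      rw [← mul_inv_rev, inv_eq_one]
      ext1 p
      rw [Equiv.Perm.mul_apply, st_apply_TCov, st_apply_TCov, ← al_lift_TCov, mul_assoc,
        rel1_TCov, mul_one, add_assoc, h1, add_zero]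
      rfl
    · simp only [map_mul, FreeGroup.lift_apply_of]
      rw [← mul_inv_rev, ← mul_inv_rev, inv_eq_one]
      ext1 p
      rw [Equiv.Perm.mul_apply, Equiv.Perm.mul_apply, st_apply_TCov, st_apply_TCov,
        st_apply_TCov]
      dsimp only
      have h := h2 (T.lift_TCov d p.1)
      rw [nxt_lift_TCov, nxt_lift_TCov] at h
      rw [add_assoc, add_assoc, ← add_assoc (s _), h, add_zero, mul_assoc p.1, mul_assoc p.1,
        rel2_TCov, mul_one]
      rfl
  set ρ : T.Grp →* Equiv.Perm (T.Grp × M) := PresentedGroup.toGroup hr with hρ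
  have hgen : ∀ d, ρ (T.gen d) = (T.st_TCov s d)⁻¹ := fun d => PresentedGroup.toGroup.of hr
  let H : Subgroup T.Grp :=
    { carrier := {g | ∀ p : T.Grp × M, ((ρ g)⁻¹ p).1 = p.1 * g}
      mul_mem' := fun {a b} ha hb p => by
        rw [map_mul, mul_inv_rev, Equiv.Perm.mul_apply, hb, ha, mul_assoc]
      one_mem' := fun p => by simp
      inv_mem' := fun {a} ha p => by
        have h3 := ha (ρ a p)
        rw [← Equiv.Perm.mul_apply, inv_mul_cancel, Equiv.Perm.one_apply] at h3
        rw [map_inv, inv_inv, h3, mul_inv_cancel_right] }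
  have hH : ∀ g, g ∈ H := PresentedGroup.generated_by T.rels H fun d p => by
    change ((ρ (T.gen d))⁻¹ p).1 = p.1 * T.gen d
    rw [hgen, inv_inv, st_apply_TCov]
  refine ⟨fun g => ((ρ g)⁻¹ (1, 0)).2, fun e => ?_⟩
  have h4 := hH (T.lab_TCov e) (1, 0)
  rw [one_mul] at h4
  rw [al_TCov, lab_lift_TCov]
  beta_reduce
  rw [map_mul, mul_inv_rev, Equiv.Perm.mul_apply, hgen, inv_inv,
    st_apply_TCov, h4, lift_lab_TCov]
  simp

private theorem exact_TCov [DecidableEq T.Grp] : T.cov_TCov.Exact T.lab_TCov := by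
  intro z hz
  obtain ⟨P, hP⟩ := T.pot_TCov (fun e => (bd_TCov T.cov_TCov).mkQ (Finsupp.single e 1))
    (bd1_TCov T.cov_TCov) (bd2_TCov T.cov_TCov)
  have h1 : (bd_TCov T.cov_TCov).mkQ =
      Finsupp.linearCombination ℝ (P ∘ fun e => T.lab_TCov (T.al_TCov e)) -
        Finsupp.linearCombination ℝ (P ∘ T.lab_TCov) := by
    refine Finsupp.lhom_ext fun e t => ?_
    rw [LinearMap.sub_apply, Finsupp.linearCombination_single, Finsupp.linearCombination_single,
      ← smul_sub, Function.comp_apply, Function.comp_apply, ← hP, ← map_smul,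
      Finsupp.smul_single, smul_eq_mul, mul_one]
  have h2 : Finsupp.mapDomain (fun e => T.lab_TCov (T.al_TCov e)) z =
      Finsupp.mapDomain T.lab_TCov z := by
    ext x
    simp only [Finsupp.mapDomain, Finsupp.sum_apply, Finsupp.single_apply]
    exact (hz x).symm
  have h3 : (bd_TCov T.cov_TCov).mkQ z = 0 := by
    rw [h1, LinearMap.sub_apply, ← Finsupp.linearCombination_mapDomain,
      ← Finsupp.linearCombination_mapDomain, h2, sub_self]
  rwa [Submodule.mkQ_apply, Submodule.Quotient.mk_eq_zero] at h3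

open Classical in
/-- the universal cover -/
theorem exists_cover : ∃ (C : Tri (F × T.Grp)) (lab : (F × T.Grp) × ZMod 3 → T.Grp),
    (∀ e, ((C.α e).1.1, (C.α e).2) = T.α (e.1.1, e.2)) ∧
    (∀ e, lab (C.α e) = lab e * T.gen (e.1.1, e.2)) ∧
    (∀ e, lab (nxt e) = lab e * T.gen (e.1.1, e.2)) ∧
    (∀ e, lab (C.rot e) = lab e) ∧
    (∀ (d : F × ZMod 3) (γ : T.Grp), ∃ γ', lab ((d.1, γ'), d.2) = γ) ∧
    (∀ (f : F) (i : ZMod 3) (γ γ' : T.Grp), lab ((f, γ), i) = lab ((f, γ'), i) → γ = γ') ∧
    (∀ c, T.MinDeg c → C.MinDeg c) ∧ C.Exact lab := by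
  have hn : ∀ e, T.lab_TCov (nxt e) = T.lab_TCov e * T.gen (e.1.1, e.2) := fun e => by
    conv_lhs => rw [← T.lift_lab_TCov e, nxt_lift_TCov, lab_lift_TCov]
  have ha : ∀ e, T.lab_TCov (T.cov_TCov.α e) = T.lab_TCov e * T.gen (e.1.1, e.2) :=
    fun e => T.lab_lift_TCov _ _
  refine ⟨T.cov_TCov, T.lab_TCov, fun _ => rfl, ha, hn, fun e => ?_,
    fun d γ => ⟨_, T.lab_lift_TCov d γ⟩, fun f i γ γ' h => mul_right_cancel h,
    fun c hc e n h0 h1 h2 => ?_, T.exact_TCov⟩
  · rw [rot, hn, ha, mul_assoc]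
    exact mul_eq_left.mpr (T.rel1_TCov (e.1.1, e.2))
  · have hs : Function.Semiconj (fun x : (F × T.Grp) × ZMod 3 => (x.1.1, x.2))
        T.cov_TCov.rot T.rot := fun _ => rfl
    refine hc (e.1.1, e.2) n h0 h1 ?_
    rw [← hs.iterate_right n e, h2]

end Tri

end Pool.Agent.MP_9a3194_co

end

section

open Finset

namespace Pool.Agent.MP_9a3194_co

private theorem sym_TCyc {B : Type} [Finite B] {s : B → B} (hs : Function.Injective s) {a b : B}
    (h : ∃ n, s^[n] a = b) : ∃ n, s^[n] b = a := by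
  obtain ⟨n, rfl⟩ := h
  obtain ⟨p, hp, h1⟩ := hs.mem_periodicPts a
  refine ⟨p * n - n, ?_⟩
  rw [← Function.iterate_add_apply, Nat.sub_add_cancel (Nat.le_mul_of_pos_left n hp)]
  exact h1.mul_const n

private theorem app_TCyc {B A : Type} {s : B → B} {b : B} {p : ℕ} (hp : s^[p] b = b) (v : B → A)
    (n : ℕ) : (List.range (p + n)).map (fun i => v (s^[i] b)) =
      (List.range p).map (fun i => v (s^[i] b)) ++ (List.range n).map fun i => v (s^[i] b) := by
  rw [List.range_add, List.map_append, List.map_map]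
  congr 1
  refine List.map_congr_left fun i _ => ?_
  rw [Function.comp_apply, add_comm, Function.iterate_add_apply, hp]

private theorem pot_TCyc {B G : Type} [Finite B] [Group G] {s : B → B} (hs : Function.Injective s)
    (v : B → G)
    (h : ∀ b, ((List.range (Function.minimalPeriod s b)).map fun i => v (s^[i] b)).prod = 1) :
    ∃ g : B → G, ∀ b, g (s b) = g b * v b := by
  let P : B → ℕ → G := fun b n => ((List.range n).map fun i => v (s^[i] b)).prod
  have h1 : ∀ b k r, P b (Function.minimalPeriod s b * k + r) = P b r := by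
    intro b k r
    induction k with
    | zero => rw [mul_zero, zero_add]
    | succ k ih =>
      have e : Function.minimalPeriod s b * (k + 1) + r =
          Function.minimalPeriod s b + (Function.minimalPeriod s b * k + r) := by ring
      rw [e, ← ih]
      simp only [P]
      rw [app_TCyc (Function.isPeriodicPt_minimalPeriod s b) v, List.prod_append, h b, one_mul]
  have h2 : ∀ b n n', s^[n] b = s^[n'] b → P b n = P b n' := by
    intro b n n' e
    have hp := Function.minimalPeriod_pos_of_mem_periodicPts (hs.mem_periodicPts b)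
    rw [← Function.iterate_mod_minimalPeriod_eq (n := n),
      ← Function.iterate_mod_minimalPeriod_eq (n := n'),
      Function.iterate_eq_iterate_iff_of_lt_minimalPeriod (Nat.mod_lt _ hp)
        (Nat.mod_lt _ hp)] at e
    rw [← Nat.div_add_mod n (Function.minimalPeriod s b),
      ← Nat.div_add_mod n' (Function.minimalPeriod s b), h1, h1, e]
  let S : Setoid B := ⟨fun a b => ∃ n, s^[n] a = b, fun a => ⟨0, rfl⟩, sym_TCyc hs,
    fun ⟨n, h3⟩ ⟨m, h4⟩ => ⟨m + n, by rw [Function.iterate_add_apply, h3, h4]⟩⟩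
  obtain ⟨r, hr, hr'⟩ : ∃ r : B → B, (∀ b, ∃ n, s^[n] (r b) = b) ∧ ∀ b, r (s b) = r b :=
    ⟨fun b => (Quotient.mk S b).out, fun b => Quotient.mk_out (s := S) b, fun b =>
      congrArg Quotient.out (Quotient.sound (s := S) (a := b) (b := s b) ⟨1, rfl⟩).symm⟩
  choose n hn using hr
  refine ⟨fun b => P (r b) (n b), fun b => ?_⟩
  have e : s^[n (s b)] (r b) = s^[n b + 1] (r b) := by
    rw [Function.iterate_succ_apply', hn b, ← hr' b, hn]
  simp only [hr' b]
  rw [h2 _ _ _ e]
  simp only [P]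
  rw [List.range_succ, List.map_append, List.prod_append, List.map_singleton, List.prod_singleton,
    hn b]

namespace Tri

variable {F : Type} [Fintype F] [DecidableEq F] (T : Tri F)

omit [Fintype F] [DecidableEq F] in
private theorem nxt_inj_TCyc : Function.Injective (nxt : F × ZMod 3 → F × ZMod 3) := by
  intro d e h
  simp only [nxt, Prod.mk.injEq, add_left_inj] at h
  exact Prod.ext h.1 h.2

omit [Fintype F] [DecidableEq F] in
private theorem rot_inj_TCyc : Function.Injective T.rot := fun d e h => by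
  have h1 := congrArg T.α (nxt_inj_TCyc h)
  rwa [T.αα, T.αα] at h1

omit [Fintype F] [DecidableEq F] in
private theorem rot_α_TCyc (d : F × ZMod 3) : T.rot (T.α d) = nxt d := by
  rw [rot, T.αα]

omit [Fintype F] in
private theorem mem_TCyc (X : Finset F) (d : F × ZMod 3) :
    d ∈ T.out X ↔ d.1 ∈ X ∧ (T.α d).1 ∉ X := by
  simp [out]

private theorem first_TCyc (X : Finset F) (d : F × ZMod 3) (hd : d ∈ T.out X) :
    ∃ n, T.rot^[n] (nxt d) ∈ T.out X ∧ ∀ i ≤ n, (T.rot^[i] (nxt d)).1 ∈ X := by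
  classical
  rw [mem_TCyc] at hd
  have h : ∃ m, (T.rot^[m] (nxt d)).1 ∉ X := by
    obtain ⟨m, hm⟩ := sym_TCyc (rot_inj_TCyc T) (a := T.α d) (b := nxt d) ⟨1, rot_α_TCyc T d⟩
    exact ⟨m, hm.symm ▸ hd.2⟩
  have h1 := Nat.find_spec h
  have h2 : ∀ i < Nat.find h, (T.rot^[i] (nxt d)).1 ∈ X := fun i hi =>
    not_not.1 (Nat.find_min h hi)
  generalize Nat.find h = m at h1 h2
  cases m with
  | zero => exact absurd hd.1 h1
  | succ j =>
    refine ⟨j, (mem_TCyc T X _).2 ⟨h2 j (Nat.lt_succ_self j), ?_⟩,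
      fun i hi => h2 i (Nat.lt_succ_of_le hi)⟩
    rw [Function.iterate_succ_apply'] at h1
    exact h1

private theorem tau_TCyc (X : Finset F) : ∃ τ : F × ZMod 3 → F × ZMod 3,
    Function.Injective τ ∧ (∀ d ∈ T.out X, τ d ∈ T.out X ∧ ∃ n, T.rot^[n] (T.α d) = τ d) ∧
      ∀ d ∉ T.out X, τ d = d := by
  choose! n h1 h2 using first_TCyc T X
  have key : ∀ d ∈ T.out X, ∀ d' ∈ T.out X, T.rot^[n d] (nxt d) = T.rot^[n d'] (nxt d') →
      n d ≤ n d' → d = d' := by
    intro d hd d' hd' e hle
    obtain ⟨k, hk⟩ := Nat.exists_eq_add_of_le hle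
    rw [hk, Function.iterate_add_apply] at e
    have e1 := (rot_inj_TCyc T).iterate (n d) e
    cases k with
    | zero => exact nxt_inj_TCyc e1
    | succ k =>
      rw [Function.iterate_succ_apply', ← rot_α_TCyc T d] at e1
      have e2 := h2 d' hd' k (by omega)
      rw [← rot_inj_TCyc T e1] at e2
      exact absurd e2 ((mem_TCyc T X d).1 hd).2
  refine ⟨fun d => if d ∈ T.out X then T.rot^[n d] (nxt d) else d, fun d d' e => ?_,
    fun d hd => ?_, fun d hd => if_neg hd⟩
  · by_cases hd : d ∈ T.out X <;> by_cases hd' : d' ∈ T.out X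
    · simp only [if_pos hd, if_pos hd'] at e
      rcases le_total (n d) (n d') with h | h
      · exact key d hd d' hd' e h
      · exact (key d' hd' d hd e.symm h).symm
    · simp only [if_pos hd, if_neg hd'] at e
      exact absurd (e ▸ h1 d hd) hd'
    · simp only [if_neg hd, if_pos hd'] at e
      exact absurd (e ▸ h1 d' hd') hd
    · simpa only [if_neg hd, if_neg hd'] using e
  · simp only [if_pos hd]
    exact ⟨h1 d hd, n d + 1, by rw [Function.iterate_succ_apply, rot_α_TCyc]⟩

/-- the boundary of a set of triangles splits into short closed walks, which lift -/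
theorem exists_lift {c : ℕ} (hw : ∀ w, T.Closed w → w.length < c → T.Contr w) (X : Finset F)
    (hX : (T.out X).card < c) :
    ∃ (τ : F × ZMod 3 → F × ZMod 3) (g : F × ZMod 3 → T.Grp),
      Set.BijOn τ (T.out X) (T.out X) ∧ ∀ d ∈ T.out X, g (τ d) = g d * T.gen d := by
  obtain ⟨τ, h1, h2, h3⟩ := tau_TCyc T X
  have hm : Set.MapsTo τ (T.out X) (T.out X) := fun d hd => (h2 d hd).1
  have h4 : ∀ b ∈ T.out X, ∀ i, τ^[i] b ∈ T.out X := fun b hb i => hm.iterate i hb
  obtain ⟨g, hg⟩ := pot_TCyc h1 (fun d => if d ∈ T.out X then T.gen d else 1) fun b => by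
    by_cases hb : b ∈ T.out X
    · have hl : Function.minimalPeriod τ b ≤ (T.out X).card := by
        rw [← card_range (Function.minimalPeriod τ b)]
        refine card_le_card_of_injOn (fun i => τ^[i] b) (fun i _ => h4 b hb i) ?_
        rw [coe_range]
        exact Function.iterate_injOn_Iio_minimalPeriod
      have hc := hw ((List.range (Function.minimalPeriod τ b)).map fun i => τ^[i] b) (by
        have e := app_TCyc (Function.isPeriodicPt_minimalPeriod τ b) id
          (Function.minimalPeriod τ b)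
        simp only [id] at e
        rw [Closed, ← e, List.isChain_map, List.isChain_range]
        intro m _
        rw [Function.iterate_succ_apply']
        exact (h2 _ (h4 b hb m)).2) (by
        rw [List.length_map, List.length_range]
        exact hl.trans_lt hX)
      rw [Contr, List.map_map] at hc
      rw [← hc]
      congr 1
      exact List.map_congr_left fun i _ => if_pos (h4 b hb i)
    · refine List.prod_eq_one fun x hx => ?_
      obtain ⟨i, -, rfl⟩ := List.mem_map.1 hx
      rw [Function.iterate_fixed (h3 b hb), if_neg hb]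
  refine ⟨τ, g, ((T.out X).finite_toSet.injOn_iff_bijOn_of_mapsTo hm).1 h1.injOn, fun d hd => ?_⟩
  rw [hg d, if_pos hd]

end Tri

end Pool.Agent.MP_9a3194_co

end

section

open Finset

namespace Pool.Agent.MP_9a3194_co

namespace Tri

private theorem mem_out_TDown {F : Type} [DecidableEq F] (T : Tri F) (X : Finset F)
    (d : F × ZMod 3) : d ∈ T.out X ↔ d.1 ∈ X ∧ (T.α d).1 ∉ X := by
  simp [out]

private theorem core_TDown {F G : Type} [Fintype F] [DecidableEq F] {_ : DecidableEq G}
    (T : Tri F) (C : Tri (F × G)) (lab : (F × G) × ZMod 3 → G) {c : ℕ} (hc : 1 ≤ c)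
    (hn : T.Connected) (hα : ∀ e, ((C.α e).1.1, (C.α e).2) = T.α (e.1.1, e.2))
    (hl : ∀ e, lab (C.rot e) = lab e) (hd : C.MinDeg (18 * c)) (he : C.Exact lab)
    (X : Finset F) (hX : X.Nonempty) (hX' : Xᶜ.Nonempty) (hB : (T.out X).card < c)
    (s : F × ZMod 3 → G) (τ : F × ZMod 3 → F × ZMod 3)
    (hτ : Set.BijOn τ (T.out X) (T.out X))
    (hs : ∀ d ∈ T.out X, lab (((τ d).1, s (τ d)), (τ d).2) = lab (C.α ((d.1, s d), d.2))) :
    min X.card Xᶜ.card + 2 ≤ (T.out X).card := by
  set up : F × ZMod 3 → (F × G) × ZMod 3 := fun d => ((d.1, s d), d.2) with hup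
  have hinj : Function.Injective up := fun d d' h => by
    simp only [hup, Prod.mk.injEq] at h
    exact Prod.ext h.1.1 h.2
  set S : Finset ((F × G) × ZMod 3) := (T.out X).image up with hS
  have hSc : S.card ≤ (T.out X).card := card_image_le
  set z : (F × G) × ZMod 3 →₀ ℝ := Finsupp.onFinset S (fun e => if e ∈ S then 1 else 0)
    (fun e h => by by_contra h'; exact h (if_neg h')) with hz
  have hz' : ∀ e, z e = if e ∈ S then 1 else 0 := fun e => rfl
  have hbal : C.Balanced lab z := fun x => by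
    rw [hz, Finsupp.onFinset_sum _ (fun _ => by simp), Finsupp.onFinset_sum _ (fun _ => by simp)]
    have h1 : ∀ f : (F × G) × ZMod 3 → G,
        (∑ e ∈ S, if f e = x then (if e ∈ S then (1 : ℝ) else 0) else 0) =
          ∑ d ∈ T.out X, if f (up d) = x then (1 : ℝ) else 0 := fun f => by
      rw [← Finset.sum_image (s := T.out X) (g := up)
        (f := fun e => if f e = x then (1 : ℝ) else 0) hinj.injOn]
      exact Finset.sum_congr rfl fun e h => by rw [if_pos h]
    rw [h1 lab, h1 fun e => lab (C.α e)]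
    symm
    refine Finset.sum_nbij τ (fun d h => hτ.1 h) hτ.2.1 hτ.2.2 fun d h => ?_
    rw [← hs d h]
  obtain ⟨a, ha⟩ := he z hbal
  have hz0 : ∀ e, 0 ≤ z e := fun e => by
    rw [hz']
    split_ifs <;> norm_num
  have hz1 : ∀ e, 0 < z e → e ∈ S := fun e h => by
    by_contra h'
    rw [hz', if_neg h'] at h
    exact lt_irrefl _ h
  -- the two signed parts
  have hp : ∀ Y : Finset (F × G), Y.Nonempty → (C.out Y).card ≤ (T.out X).card →
      Y.card + 2 ≤ (T.out X).card := fun Y h1 h2 =>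
    (C.iso_sharp (c := 18 * c) (by omega) hd lab hl he Y h1 (by omega)).trans h2
  have hpos : (C.out (a.support.filter fun p => 0 < a p)).card ≤ (T.out X).card := by
    refine le_trans (card_le_card fun e h => ?_) hSc
    rw [mem_out_TDown, mem_filter, mem_filter, Finsupp.mem_support_iff,
      Finsupp.mem_support_iff] at h
    have h1 : a (C.α e).1 ≤ 0 := by
      by_contra h2
      rw [not_le] at h2
      exact h.2 ⟨h2.ne', h2⟩
    refine hz1 e ?_
    linarith [ha e, hz0 (C.α e), h.1.2]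
  have hneg : (C.out (a.support.filter fun p => a p < 0)).card ≤ (T.out X).card := by
    refine le_trans (card_le_card fun e h => ?_) ((card_image_le (s := S) (f := C.α)).trans hSc)
    rw [mem_out_TDown, mem_filter, mem_filter, Finsupp.mem_support_iff,
      Finsupp.mem_support_iff] at h
    have h1 : 0 ≤ a (C.α e).1 := by
      by_contra h2
      rw [not_le] at h2
      exact h.2 ⟨h2.ne, h2⟩
    refine mem_image.2 ⟨C.α e, hz1 _ ?_, C.αα e⟩
    linarith [ha e, hz0 e, h.1.2]
  -- push forward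
  set σ : F × ZMod 3 → G → G := fun d γ => (C.α ((d.1, γ), d.2)).1.2 with hσ
  have hσ1 : ∀ d γ, C.α ((d.1, γ), d.2) = (((T.α d).1, σ d γ), (T.α d).2) := fun d γ => by
    have h1 := congrArg Prod.fst (hα ((d.1, γ), d.2))
    have h2 := congrArg Prod.snd (hα ((d.1, γ), d.2))
    exact Prod.ext (Prod.ext h1 rfl) h2
  have hσ2 : ∀ d γ, σ (T.α d) (σ d γ) = γ := fun d γ => by
    have h1 := C.αα ((d.1, γ), d.2)
    rw [hσ1, hσ1] at h1
    exact congrArg (fun e => e.1.2) h1
  have hσ3 : ∀ d, Function.Bijective (σ d) := fun d => by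
    refine Function.bijective_iff_has_inverse.2 ⟨σ (T.α d), hσ2 d, fun γ => ?_⟩
    have := hσ2 (T.α d) γ
    rwa [T.αα] at this
  have hfa : ∀ f, (Function.support fun γ => a (f, γ)).Finite := fun f =>
    (a.support.image Prod.snd).finite_toSet.subset fun γ h =>
      mem_image.2 ⟨(f, γ), Finsupp.mem_support_iff.2 h, rfl⟩
  have hfz : ∀ d : F × ZMod 3, (Function.support fun γ => z ((d.1, γ), d.2)).Finite := fun d =>
    (z.support.image fun e => e.1.2).finite_toSet.subset fun γ h =>
      mem_image.2 ⟨((d.1, γ), d.2), Finsupp.mem_support_iff.2 h, rfl⟩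
  have hZ : ∀ d : F × ZMod 3, ∑ᶠ γ, z ((d.1, γ), d.2) = if d ∈ T.out X then 1 else 0 := fun d => by
    have h1 : ∀ γ, ((d.1, γ), d.2) ∈ S ↔ d ∈ T.out X ∧ γ = s d := fun γ => by
      rw [hS, mem_image]
      constructor
      · rintro ⟨d', h2, h3⟩
        simp only [hup, Prod.mk.injEq] at h3
        have h4 : d' = d := Prod.ext h3.1.1 h3.2
        rw [h4] at h2 h3
        exact ⟨h2, h3.1.2.symm⟩
      · rintro ⟨h2, rfl⟩
        exact ⟨d, h2, rfl⟩
    rw [finsum_eq_single _ (s d) fun γ h => by rw [hz', if_neg fun h' => h ((h1 γ).1 h').2], hz']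
    simp only [h1, and_true]
  have hb : ∀ d : F × ZMod 3, (if d.1 ∈ X then (1 : ℝ) else 0) - ∑ᶠ γ, a (d.1, γ) =
      (if (T.α d).1 ∈ X then (1 : ℝ) else 0) - ∑ᶠ γ, a ((T.α d).1, γ) := fun d => by
    have h1 : ∑ᶠ γ, a ((T.α d).1, σ d γ) = ∑ᶠ γ, a ((T.α d).1, γ) :=
      finsum_eq_of_bijective (σ d) (hσ3 d) fun _ => rfl
    have h2 : ∑ᶠ γ, z (((T.α d).1, σ d γ), (T.α d).2) = ∑ᶠ γ, z (((T.α d).1, γ), (T.α d).2) :=
      finsum_eq_of_bijective (σ d) (hσ3 d) fun _ => rfl
    have h3 : (Function.support fun γ => a ((T.α d).1, σ d γ)).Finite :=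
      (hfa (T.α d).1).preimage (hσ3 d).1.injOn
    have h4 : (Function.support fun γ => z (((T.α d).1, σ d γ), (T.α d).2)).Finite :=
      (hfz (T.α d)).preimage (hσ3 d).1.injOn
    have h5 : ∑ᶠ γ, z ((d.1, γ), d.2) - ∑ᶠ γ, z (((T.α d).1, σ d γ), (T.α d).2) =
        ∑ᶠ γ, a (d.1, γ) - ∑ᶠ γ, a ((T.α d).1, σ d γ) := by
      rw [← finsum_sub_distrib (hfz d) h4, ← finsum_sub_distrib (hfa d.1) h3]
      refine finsum_congr fun γ => ?_
      have := ha ((d.1, γ), d.2)
      rwa [hσ1] at this
    rw [h1, h2, hZ, hZ] at h5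
    simp only [mem_out_TDown, T.αα] at h5
    by_cases p : d.1 ∈ X <;> by_cases q : (T.α d).1 ∈ X <;> simp [p, q] at h5 ⊢ <;> linarith
  obtain ⟨f0, hf0⟩ := hX
  obtain ⟨κ, hκ⟩ : ∃ κ : ℝ, ∀ f, (if f ∈ X then (1 : ℝ) else 0) - ∑ᶠ γ, a (f, γ) = κ := by
    refine ⟨(if f0 ∈ X then (1 : ℝ) else 0) - ∑ᶠ γ, a (f0, γ), fun f => ?_⟩
    by_contra h
    obtain ⟨d, h1, h2⟩ := hn {f | (if f ∈ X then (1 : ℝ) else 0) - ∑ᶠ γ, a (f, γ) =
      (if f0 ∈ X then (1 : ℝ) else 0) - ∑ᶠ γ, a (f0, γ)} ⟨f0, rfl⟩ ⟨f, h⟩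
    exact h2 ((hb d).symm.trans h1)
  rcases le_or_gt κ 0 with h | h
  · have h1 : ∀ f ∈ X, ∃ γ, (f, γ) ∈ a.support.filter fun p => 0 < a p := fun f hf => by
      by_contra h2
      have h3 : 0 ≤ ∑ᶠ γ, -a (f, γ) := finsum_nonneg fun γ => by
        by_contra h4
        rw [neg_nonneg, not_le] at h4
        exact h2 ⟨γ, mem_filter.2 ⟨Finsupp.mem_support_iff.2 h4.ne', h4⟩⟩
      rw [finsum_neg_distrib] at h3
      have h5 := hκ f
      rw [if_pos hf] at h5
      linarith
    have h2 : X.card ≤ (a.support.filter fun p => 0 < a p).card := by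
      refine le_trans (card_le_card fun f hf => ?_) (card_image_le (f := Prod.fst))
      obtain ⟨γ, hγ⟩ := h1 f hf
      exact mem_image.2 ⟨_, hγ, rfl⟩
    obtain ⟨γ, hγ⟩ := h1 f0 hf0
    have := hp _ ⟨_, hγ⟩ hpos
    omega
  · have h1 : ∀ f ∈ Xᶜ, ∃ γ, (f, γ) ∈ a.support.filter fun p => a p < 0 := fun f hf => by
      by_contra h2
      have h3 : 0 ≤ ∑ᶠ γ, a (f, γ) := finsum_nonneg fun γ => by
        by_contra h4
        rw [not_le] at h4
        exact h2 ⟨γ, mem_filter.2 ⟨Finsupp.mem_support_iff.2 h4.ne, h4⟩⟩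
      have h5 := hκ f
      rw [if_neg (mem_compl.1 hf)] at h5
      linarith
    have h2 : Xᶜ.card ≤ (a.support.filter fun p => a p < 0).card := by
      refine le_trans (card_le_card fun f hf => ?_) (card_image_le (f := Prod.fst))
      obtain ⟨γ, hγ⟩ := h1 f hf
      exact mem_image.2 ⟨_, hγ, rfl⟩
    obtain ⟨f1, hf1⟩ := hX'
    obtain ⟨γ, hγ⟩ := h1 f1 hf1
    have := hp _ ⟨_, hγ⟩ hneg
    omega

variable {F : Type} [Fintype F] [DecidableEq F] (T : Tri F)

/-- tree-like isoperimetric inequality for the dual graph -/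
theorem iso_down {c : ℕ} (hc : 1 ≤ c) (hn : T.Connected) (hd : T.MinDeg (18 * c))
    (hw : ∀ w, T.Closed w → w.length < c → T.Contr w) (X : Finset F) (hX : X.Nonempty)
    (hX' : Xᶜ.Nonempty) : min c (min X.card Xᶜ.card + 2) ≤ (T.out X).card := by
  rcases le_or_gt c (T.out X).card with h | h
  · exact (min_le_left _ _).trans h
  obtain ⟨τ, g, hτ, hg⟩ := T.exists_lift hw X h
  obtain ⟨C, lab, h1, h2, -, h4, h5, -, h7, h8⟩ := T.exists_cover
  choose s hs using h5
  refine (min_le_right _ _).trans (core_TDown T C lab hc hn h1 h4 (h7 _ hd) h8 X hX hX' h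
    (fun d => s d (g d)) τ hτ fun d hd => ?_)
  rw [h2, hs, hs, hg d hd]

end Tri

end Pool.Agent.MP_9a3194_co

end

section

open Finset
open scoped symmDiff

namespace Pool.Agent.MP_9a3194_co

variable {T E : Type} [Fintype T] [DecidableEq T] [Fintype E] [DecidableEq E]

omit [DecidableEq E] in
private theorem basis_ULatA (b : E → T → ℤ) (h : ann b univ = ⊥) :
    ∃ B : T → E, (Matrix.of fun s t => (b (B s) t : ℝ)).det ≠ 0 := by
  have h1 : Submodule.span ℝ (Set.range fun e t => (b e t : ℝ)) = ⊤ := by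
    by_contra h2
    obtain ⟨f, f0, hf⟩ := Submodule.exists_dual_map_eq_bot_of_lt_top (Ne.lt_top h2) inferInstance
    have h3 : (fun t => f fun j => if t = j then 1 else 0) ∈ ann b univ := fun e _ => by
      have : f (fun t => (b e t : ℝ)) = 0 := by
        rw [← Submodule.mem_bot ℝ, ← hf]
        exact Submodule.mem_map_of_mem (Submodule.subset_span ⟨e, rfl⟩)
      rwa [LinearMap.pi_apply_eq_sum_univ] at this
    rw [h, Submodule.mem_bot] at h3
    refine f0 (LinearMap.ext fun x => ?_)
    rw [LinearMap.pi_apply_eq_sum_univ]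
    exact Finset.sum_eq_zero fun t _ => by rw [congrFun h3 t, Pi.zero_apply, smul_zero]
  obtain ⟨κ, c, -, h2, h3⟩ := exists_linearIndependent' ℝ fun e t => (b e t : ℝ)
  rw [h1] at h2
  let e := (Pi.basisFun ℝ T).indexEquiv (Module.Basis.mk h3 h2.ge)
  refine ⟨fun t => c (e t), ?_⟩
  have h4 := h3.comp e e.injective
  exact ((Matrix.isUnit_iff_isUnit_det _).1
    (Matrix.linearIndependent_rows_iff_isUnit.1 h4)).ne_zero

/-- a cheap basis -/
theorem prim2 (b : E → T → ℤ) (a : E → ℝ) (ha : ∀ e, 0 ≤ a e)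
    (hr : ∀ F : Finset E, (Module.finrank ℝ (ann b F) : ℝ) ≤ ∑ e ∈ Fᶜ, a e) (k : E → ℕ) :
    ∃ B : T → E, (Matrix.of fun s t => b (B s) t).det ≠ 0 ∧
      ∑ t, (k (B t) : ℝ) ≤ ∑ e, a e * k e := by
  classical
  have h0 : ann b univ = ⊥ := by
    have := hr univ
    rw [compl_univ, sum_empty] at this
    exact Submodule.finrank_eq_zero.1 (by exact_mod_cast le_antisymm this (Nat.cast_nonneg _))
  obtain ⟨B₀, hB₀⟩ := basis_ULatA b h0
  obtain ⟨B, hB, hmin⟩ := Finset.exists_min_image
    (univ.filter fun B : T → E => (Matrix.of fun s t => (b (B s) t : ℝ)).det ≠ 0)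
    (fun B => ∑ t, k (B t)) ⟨B₀, by simpa using hB₀⟩
  obtain ⟨M, hM⟩ : ∃ M : Matrix T T ℝ, M = Matrix.of fun s t => (b (B s) t : ℝ) := ⟨_, rfl⟩
  have hd : M.det ≠ 0 := hM ▸ (mem_filter.1 hB).2
  refine ⟨B, fun h => hd ?_, ?_⟩
  · have := Int.cast_det (R := ℝ) (Matrix.of fun s t => b (B s) t)
    rw [h, Int.cast_zero] at this
    rw [hM]
    exact this.symm
  have ex : ∀ e t, ∑ s, (b e s : ℝ) * M⁻¹ s t ≠ 0 → k (B t) ≤ k e := fun e t h => by
    have h1 : (fun s => (b e s : ℝ)) = ∑ u, (∑ s, (b e s : ℝ) * M⁻¹ s u) • M u := by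
      have := Matrix.vecMul_vecMul (fun s => (b e s : ℝ)) M⁻¹ M
      rw [Matrix.nonsing_inv_mul _ hd.isUnit, Matrix.vecMul_one, Matrix.vecMul_eq_sum] at this
      exact this.symm
    have h2 : (Matrix.of fun s u => (b (Function.update B t e s) u : ℝ)) =
        M.updateRow t fun s => (b e s : ℝ) := by
      ext s u
      by_cases hs : s = t
      · simp [hs]
      · simp [hs, hM]
    have h3 := hmin (Function.update B t e) (by
      rw [mem_filter, h2, h1, Matrix.det_updateRow_sum]
      exact ⟨mem_univ _, smul_ne_zero h hd⟩)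
    have h4 : ∑ s, k (Function.update B t e s) =
        ∑ s, Function.update (fun s => k (B s)) t (k e) s :=
      Finset.sum_congr rfl fun s _ => by by_cases hs : s = t <;> simp [hs]
    rw [h4, Finset.sum_update_of_mem (mem_univ t), ← Finset.add_sum_erase _ _ (mem_univ t),
      sdiff_singleton_eq_erase] at h3
    omega
  have key : ∀ j : ℕ, ∑ t, (if j < k (B t) then (1 : ℝ) else 0) ≤
      ∑ e, a e * (if j < k e then 1 else 0) := fun j => by
    have h1 : ∀ t : {t // j < k (B t)}, M⁻¹.col t.1 ∈ ann b (univ.filter fun e => j < k e)ᶜ :=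
      fun t e he => by
        by_contra h
        have h2 := ex e t.1 h
        have h3 := t.2
        simp only [mem_compl, mem_filter, mem_univ, true_and] at he
        omega
    have h2 : LinearIndependent ℝ fun t : {t // j < k (B t)} =>
        (⟨_, h1 t⟩ : ann b (univ.filter fun e => j < k e)ᶜ) :=
      LinearIndependent.of_comp (Submodule.subtype _)
        ((Matrix.linearIndependent_cols_iff_isUnit.2 (Matrix.isUnit_nonsing_inv_iff.2
          ((Matrix.isUnit_iff_isUnit_det _).2 hd.isUnit))).comp _ Subtype.val_injective)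
    have h3 := h2.fintype_card_le_finrank
    have h4 := hr (univ.filter fun e => j < k e)ᶜ
    rw [Fintype.card_subtype] at h3
    rw [compl_compl, sum_filter] at h4
    rw [Finset.sum_boole]
    refine ((Nat.cast_le.2 h3).trans h4).trans (le_of_eq ?_)
    simp
  obtain ⟨K, hK⟩ : ∃ K, ∀ e, k e ≤ K := ⟨univ.sup k, fun e => Finset.le_sup (f := k) (mem_univ e)⟩
  have hk : ∀ e, (k e : ℝ) = ∑ j ∈ range K, if j < k e then (1 : ℝ) else 0 := fun e => by
    rw [Finset.sum_boole]
    have : ((range K).filter fun j => j < k e) = range (k e) := by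
      ext j
      have := hK e
      simp only [mem_filter, mem_range]
      omega
    rw [this, card_range]
  simp only [hk, Finset.mul_sum]
  rw [Finset.sum_comm, Finset.sum_comm (s := (univ : Finset E))]
  exact Finset.sum_le_sum fun j _ => key j

end Pool.Agent.MP_9a3194_co

end
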