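import Pool.Agent.Mg.F9a3194.G6e6e19
import Pool.Agent.Mg.F9a3194.G505f3a
import Pool.Agent.Mg.F9a3194.G92728e

section

open Finset
open scoped symmDiff

namespace Pool.Agent.MP_9a3194_co

open Matrix

variable {T E : Type} [Fintype T] [DecidableEq T] [Fintype E] [DecidableEq E]

private theorem det_rank_one_ULatB {A : Matrix T T ℝ} (hA : IsUnit A.det) (c : ℝ) (b : T → ℝ) :
    (A + c • vecMulVec b b).det = A.det * (1 + c * (b ⬝ᵥ A⁻¹ *ᵥ b)) := by
  have h1 : c • vecMulVec b b = replicateCol Unit (c • b) * replicateRow Unit b := by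
    rw [← vecMulVec_eq]
    ext i j
    simp [vecMulVec_apply, mul_assoc]
  rw [h1, det_add_replicateCol_mul_replicateRow hA, det_unique (n := Unit), Matrix.add_apply,
    Matrix.one_apply_eq, Matrix.mul_assoc, ← replicateCol_mulVec,
    replicateRow_mul_replicateCol_apply, mulVec_smul, dotProduct_smul, smul_eq_mul]

omit [DecidableEq T] in
private theorem psd_ULatB {c : ℝ} (hc : 0 ≤ c) (b : T → ℝ) : (c • vecMulVec b b).PosSemidef := by
  have h := posSemidef_vecMulVec_self_star b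
  rw [star_trivial] at h
  exact h.smul hc

omit [Fintype E] in
private theorem add_edges_ULatB {A : Matrix T T ℝ} (hA : A.PosDef) (c : E → ℝ)
    (hc : ∀ e, 0 < c e) (b : E → T → ℝ) (s : Finset E) :
    (A + ∑ e ∈ s, c e • vecMulVec (b e) (b e)).PosDef ∧
      A.det ≤ (A + ∑ e ∈ s, c e • vecMulVec (b e) (b e)).det := by
  induction s using Finset.induction_on with
  | empty => simpa using hA
  | insert e s he ih =>
    rw [Finset.sum_insert he, add_comm (c e • _), ← add_assoc]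
    refine ⟨ih.1.add_posSemidef (psd_ULatB (hc e).le _), ih.2.trans ?_⟩
    rw [det_rank_one_ULatB (isUnit_iff_ne_zero.2 ih.1.det_pos.ne')]
    have h1 := ih.1.inv.posSemidef.dotProduct_mulVec_nonneg (b e)
    rw [star_trivial] at h1
    have h2 := mul_nonneg (hc e).le h1
    exact le_mul_of_one_le_right ih.1.det_pos.le (by linarith)

theorem gram_basis (b : E → T → ℤ) (c : E → ℝ) (hc : ∀ e, 0 < c e) (B : T → E)
    (hB : (Matrix.of fun s t => b (B s) t).det ≠ 0) :
    (gram b c).PosDef ∧ ∏ t, c (B t) ≤ (gram b c).det := by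
  have hinj : Function.Injective B := fun s t e => by
    by_contra hne
    exact hB (det_zero_of_row_eq hne (funext fun x => by simp [e]))
  let M : Matrix T T ℝ := Matrix.of fun s t => (b (B s) t : ℝ)
  have hM : M.det = ((Matrix.of fun s t => b (B s) t).det : ℤ) := by
    rw [Int.cast_det]
    rfl
  have h1 : 1 ≤ M.det * M.det := by
    rw [hM, ← Int.cast_mul]
    exact_mod_cast Int.add_one_le_of_lt (mul_self_pos.2 hB)
  have hBu : IsUnit M := (isUnit_iff_isUnit_det M).2 (isUnit_iff_ne_zero.2 fun h => by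
    rw [h] at h1
    norm_num at h1)
  have hP : (Mᴴ * diagonal (fun t => c (B t)) * M).PosDef :=
    (PosDef.diagonal fun t => hc (B t)).conjTranspose_mul_mul_same
      (mulVec_injective_iff_isUnit.2 hBu)
  have hD : ∏ t, c (B t) ≤ (Mᴴ * diagonal (fun t => c (B t)) * M).det := by
    rw [det_mul, det_mul, det_conjTranspose, star_trivial, det_diagonal, mul_right_comm]
    exact le_mul_of_one_le_left (Finset.prod_nonneg fun t _ => (hc _).le) h1
  have hS : Mᴴ * diagonal (fun t => c (B t)) * M =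
      ∑ s, c (B s) • vecMulVec (fun t => (b (B s) t : ℝ)) fun t => (b (B s) t : ℝ) := by
    ext i j
    rw [Matrix.mul_apply, Matrix.sum_apply]
    refine Finset.sum_congr rfl fun t _ => ?_
    rw [mul_diagonal, conjTranspose_apply, star_trivial, Matrix.smul_apply, vecMulVec_apply,
      smul_eq_mul]
    simp only [M, of_apply]
    ring
  have hL : gram b c = Mᴴ * diagonal (fun t => c (B t)) * M + ∑ e ∈ (univ.image B)ᶜ,
      c e • vecMulVec (fun t => (b e t : ℝ)) fun t => (b e t : ℝ) := by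
    rw [hS, gram, ← Finset.sum_add_sum_compl (univ.image B), Finset.sum_image hinj.injOn]
  have := add_edges_ULatB hP c hc (fun e t => (b e t : ℝ)) (univ.image B)ᶜ
  rw [hL]
  exact ⟨this.1, hD.trans this.2⟩

theorem gram_half (b : E → T → ℤ) (c : E → ℝ) (h : (gram b c).PosDef) (e : E) :
    (gram b (Function.update c e (c e / 2))).det = (gram b c).det *
      (1 - c e / 2 * ((fun t => (b e t : ℝ)) ⬝ᵥ (gram b c)⁻¹ *ᵥ fun t => (b e t : ℝ))) := by
  have h1 : gram b (Function.update c e (c e / 2)) = gram b c +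
      (-(c e / 2)) • vecMulVec (fun t => (b e t : ℝ)) fun t => (b e t : ℝ) := by
    rw [gram, gram, ← Finset.add_sum_erase _ _ (Finset.mem_univ e),
      ← Finset.add_sum_erase _ _ (Finset.mem_univ e), Function.update_self, add_right_comm,
      ← add_smul, show c e + -(c e / 2) = c e / 2 by ring]
    congr 1
    exact Finset.sum_congr rfl fun x hx => by rw [Function.update_of_ne (Finset.ne_of_mem_erase hx)]
  rw [h1, det_rank_one_ULatB (isUnit_iff_ne_zero.2 h.det_pos.ne'), neg_mul, ← sub_eq_add_neg]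

omit [DecidableEq T] [DecidableEq E] in
theorem gram_mulVec (b : E → T → ℤ) (c : E → ℝ) (φ : T → ℝ) (t : T) :
    (gram b c *ᵥ φ) t = ∑ e, c e * (∑ s, (b e s : ℝ) * φ s) * b e t := by
  have h0 : ∀ (a : T → ℝ) (s : T), (vecMulVec a a *ᵥ φ) s = (a ⬝ᵥ φ) * a s := by
    intro a s
    rw [vecMulVec_mulVec]
    simp [mul_comm]
  simp only [gram, sum_mulVec, smul_mulVec, Finset.sum_apply, Pi.smul_apply, h0, smul_eq_mul,
    mul_assoc, dotProduct]

end Pool.Agent.MP_9a3194_co

end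

section

open Finset
open scoped symmDiff

namespace Pool.Agent.MP_9a3194_co

open Matrix

variable {T E : Type} [Fintype T] [DecidableEq T] [Fintype E] [DecidableEq E]

omit [Fintype E] [DecidableEq E] [DecidableEq T] in
private lemma symm_ULatC (M : Matrix T T ℝ) (hM : M.IsHermitian) (x y : T → ℝ) :
    x ⬝ᵥ M *ᵥ y = y ⬝ᵥ M *ᵥ x := by
  have h : Mᵀ = M := by
    have := hM.eq
    rwa [conjTranspose_eq_transpose_of_trivial] at this
  rw [dotProduct_mulVec, ← mulVec_transpose, h, dotProduct_comm]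

omit [Fintype T] [DecidableEq T] [DecidableEq E] in
private lemma delta_ULatC (a : E → ℝ) (ha : ∀ e, 0 < a e) :
    ∃ δ : ℝ, 0 < δ ∧ ∀ e, δ ≤ 0.2 * a e := by
  rcases isEmpty_or_nonempty E with h | h
  · exact ⟨1, one_pos, fun e => (h.false e).elim⟩
  · obtain ⟨e₀, he₀⟩ := Finite.exists_min a
    refine ⟨0.2 * a e₀, by have := ha e₀; positivity, fun e => ?_⟩
    have := he₀ e
    linarith

omit [Fintype E] [DecidableEq E] [DecidableEq T] in
private lemma expand_ULatC (M : Matrix T T ℝ) (hM : M.IsHermitian) (y b : T → ℝ) (s : ℝ) :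
    (y + s • b) ⬝ᵥ M *ᵥ (y + s • b) =
      y ⬝ᵥ M *ᵥ y + 2 * s * (b ⬝ᵥ M *ᵥ y) + s ^ 2 * (b ⬝ᵥ M *ᵥ b) := by
  rw [mulVec_add, mulVec_smul, add_dotProduct, dotProduct_add, dotProduct_add, smul_dotProduct,
    smul_dotProduct, dotProduct_smul, dotProduct_smul, symm_ULatC M hM y b]
  simp only [smul_eq_mul]
  ring

theorem weights2 (b : E → T → ℤ) (a : E → ℝ) (ha : ∀ e, 0 < a e)
    (hr : ∀ F : Finset E, (Module.finrank ℝ (ann b F) : ℝ) ≤ ∑ e ∈ Fᶜ, a e) :
    ∃ c : E → ℝ, (∀ e, 0 < c e ∧ c e ≤ 1) ∧ (gram b c).PosDef ∧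
      ∀ e, c e * ((fun t => (b e t : ℝ)) ⬝ᵥ (gram b c)⁻¹ *ᵥ fun t => (b e t : ℝ)) ≤
        1.45 * a e := by
  let c : (E → ℕ) → E → ℝ := fun k e => (1 / 2) ^ k e
  have hc0 : ∀ k e, 0 < c k e := fun k e => by positivity
  let Φ : (E → ℕ) → ℝ := fun k => Real.log (gram b (c k)).det + Real.log 2 * ∑ e, a e * k e
  have h2 : 0 < Real.log 2 := Real.log_pos one_lt_two
  have key : ∀ k, (gram b (c k)).PosDef ∧ 0 ≤ Φ k := fun k => by
    obtain ⟨par, hp, hs⟩ := prim2 b a (fun e => (ha e).le) hr k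
    obtain ⟨h1, h3⟩ := gram_basis b (c k) (hc0 k) par hp
    refine ⟨h1, ?_⟩
    have h4 := Real.log_le_log (Finset.prod_pos fun t _ => hc0 k (par t)) h3
    rw [Real.log_prod fun t _ => (hc0 k (par t)).ne'] at h4
    have h5 : ∑ t, Real.log (c k (par t)) = -(Real.log 2 * ∑ t, (k (par t) : ℝ)) := by
      rw [Finset.mul_sum, ← Finset.sum_neg_distrib]
      refine Finset.sum_congr rfl fun t _ => ?_
      simp only [c]
      rw [Real.log_pow, one_div, Real.log_inv]
      ring
    have h6 := mul_le_mul_of_nonneg_left hs h2.le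
    simp only [Φ]
    linarith
  obtain ⟨ε, hε, hεa⟩ : ∃ ε : ℝ, 0 < ε ∧ ∀ e, ε ≤ 0.03 * a e := by
    rcases isEmpty_or_nonempty E with h | h
    · exact ⟨1, one_pos, fun e => (h.false e).elim⟩
    · obtain ⟨e₀, he₀⟩ := Finite.exists_min a
      exact ⟨0.03 * a e₀, by have := ha e₀; positivity, fun e => by have := he₀ e; linarith⟩
  have hb : BddBelow (Set.range Φ) := ⟨0, by rintro _ ⟨k, rfl⟩; exact (key k).2⟩
  obtain ⟨k, hk⟩ := exists_lt_of_ciInf_lt (show iInf Φ < iInf Φ + ε by linarith)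
  refine ⟨c k, fun e => ⟨hc0 k e, pow_le_one₀ (by norm_num) (by norm_num)⟩, (key k).1,
    fun e => ?_⟩
  have h3 := ciInf_le hb (Function.update k e (k e + 1))
  have h4 : c (Function.update k e (k e + 1)) = Function.update (c k) e (c k e / 2) := by
    funext e'
    by_cases h : e' = e
    · subst h
      simp only [c, Function.update_self, pow_succ]
      ring
    · simp only [c, Function.update_of_ne h]
  have h5 := gram_half b (c k) (key k).1 e
  have h6 := (key (Function.update k e (k e + 1))).1.det_pos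
  have h7 := (key k).1.det_pos
  have h8 : ∑ e', a e' * ((Function.update k e (k e + 1) e' : ℕ) : ℝ) =
      ∑ e', a e' * k e' + a e := by
    have : ∀ e', a e' * ((Function.update k e (k e + 1) e' : ℕ) : ℝ) =
        a e' * k e' + if e' = e then a e else 0 := fun e' => by
      by_cases h : e' = e
      · subst h
        simp [mul_add]
      · simp [h]
    simp only [this, Finset.sum_add_distrib, Finset.sum_ite_eq', Finset.mem_univ, if_true]
  simp only [Φ] at h3 hk
  rw [h4] at h6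
  rw [h4, h8, h5] at h3
  rw [h5] at h6
  set x := (fun t => (b e t : ℝ)) ⬝ᵥ (gram b (c k))⁻¹ *ᵥ fun t => (b e t : ℝ)
  have h9 : 0 < 1 - c k e / 2 * x := (pos_iff_pos_of_mul_pos h6).1 h7
  rw [Real.log_mul h7.ne' h9.ne'] at h3
  have h10 := Real.log_le_sub_one_of_pos h9
  have h11 := mul_le_mul_of_nonneg_right Real.log_two_lt_d9.le (ha e).le
  have h12 := hεa e
  have h13 := ha e
  nlinarith

/-- every coset of twice the lattice has a point with small coefficients -/
theorem lattice2 (b : E → T → ℤ) (a : E → ℝ) (ha : ∀ e, 0 < a e)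
    (hr : ∀ F : Finset E, (Module.finrank ℝ (ann b F) : ℝ) ≤ ∑ e ∈ Fᶜ, a e) (y : T → ℝ) :
    ∃ (m : E → ℤ) (cur : E → ℝ), (∀ e, |cur e| ≤ 3 / 2 * a e) ∧
      ∀ t, y t + 2 * ∑ e, (m e : ℝ) * b e t = ∑ e, cur e * b e t := by
  obtain ⟨c, hc1, hL, hlev⟩ := weights2 b a ha hr
  obtain ⟨δ, hδ, hδa⟩ := delta_ULatC a ha
  set L := gram b c with hLdef
  have hI : (L⁻¹).PosDef := hL.inv
  have hH : (L⁻¹).IsHermitian := hI.isHermitian
  let Y : (E → ℤ) → T → ℝ := fun m t => y t + 2 * ∑ e, (m e : ℝ) * b e t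
  let En : (E → ℤ) → ℝ := fun m => Y m ⬝ᵥ L⁻¹ *ᵥ Y m
  have hEn : ∀ z, 0 ≤ En z := fun z => by
    have := hI.posSemidef.dotProduct_mulVec_nonneg (Y z)
    simpa using this
  have hb : BddBelow (Set.range En) := ⟨0, by rintro _ ⟨k, rfl⟩; exact hEn k⟩
  obtain ⟨z, hz⟩ := exists_lt_of_ciInf_lt (show iInf En < iInf En + δ by linarith)
  have hmin : ∀ z' : E → ℤ, En z ≤ En z' + δ := fun z' => by
    have := ciInf_le hb z'
    linarith
  set φ : T → ℝ := L⁻¹ *ᵥ Y z with hφ
  have hLφ : L *ᵥ φ = Y z := by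
    rw [hφ, mulVec_mulVec, mul_nonsing_inv _ (isUnit_iff_ne_zero.mpr hL.det_pos.ne'), one_mulVec]
  refine ⟨z, fun e => c e * ∑ s, (b e s : ℝ) * φ s, fun e => ?_, fun t => ?_⟩
  · set β : T → ℝ := fun t => (b e t : ℝ) with hβ
    have key : ∀ s : ℤ, En z ≤ En z + 2 * (2 * s) * (β ⬝ᵥ φ) +
        (2 * s) ^ 2 * (β ⬝ᵥ L⁻¹ *ᵥ β) + δ := by
      intro s
      have hy : Y (z + Pi.single e s) = Y z + (2 * s : ℝ) • β := by
        funext t
        have h0 : ∑ e', (((Pi.single e s : E → ℤ) e' : ℤ) : ℝ) * b e' t = s * b e t := by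
          rw [Finset.sum_eq_single e] <;> simp +contextual
        simp only [Y, hβ, Pi.add_apply, Pi.smul_apply, smul_eq_mul, Int.cast_add, add_mul,
          Finset.sum_add_distrib, h0]
        ring
      have h1 := hmin (z + Pi.single e s)
      have h2 : En (z + Pi.single e s) =
          En z + 2 * (2 * s) * (β ⬝ᵥ φ) + (2 * s) ^ 2 * (β ⬝ᵥ L⁻¹ *ᵥ β) := by
        simp only [En]
        rw [hy, expand_ULatC _ hH]
      linarith
    have k1 := key 1
    have k2 := key (-1)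
    push_cast at k1 k2
    have habs : |β ⬝ᵥ φ| ≤ β ⬝ᵥ L⁻¹ *ᵥ β + δ / 4 := by
      rw [abs_le]
      constructor <;> linarith
    have h3 := hlev e
    have h4 := hδa e
    obtain ⟨h5, h6⟩ := hc1 e
    have h7 := mul_le_mul_of_nonneg_left habs h5.le
    have h8 : c e * (δ / 4) ≤ δ / 4 := by nlinarith
    rw [mul_add] at h7
    have h9 : |c e * ∑ s, (b e s : ℝ) * φ s| = c e * |β ⬝ᵥ φ| := by
      rw [abs_mul, abs_of_pos h5]
      rfl
    rw [h9]
    linarith
  · have h := gram_mulVec b c φ t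
    rw [← hLdef, hLφ] at h
    exact h

end Pool.Agent.MP_9a3194_co

end

section

open Finset
open scoped symmDiff

namespace Pool.Agent.MP_9a3194_co

private lemma half_ULatD {X : Type} (σ : X → X) (hσ : ∀ x, σ (σ x) = x) :
    ∃ P : X → Prop, ∀ x, σ x ≠ x → (P x ↔ ¬ P (σ x)) := by
  obtain ⟨_, -⟩ := exists_wellFoundedLT X
  refine ⟨fun x => x < σ x, fun x hx => ?_⟩
  simp only [hσ]
  exact ⟨fun h => not_lt.2 h.le, fun h => lt_of_le_of_ne (not_lt.1 h) hx.symm⟩

section

variable {T : Type} [Fintype T] [DecidableEq T]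

private lemma cls_ULatD {X : Type} [DecidableEq X] (w : T → T → ℕ) (ev : T → X) (D : Finset X) :
    ∑ f ∈ D, cutw w (univ.filter fun s => ev s = f) ≤
      ∑ p : T × T, if ev p.1 = ev p.2 then 0 else w p.1 p.2 := by
  have h1 : ∀ f ∈ D, cutw w (univ.filter fun s => ev s = f) =
      ∑ s ∈ univ.filter fun s => ev s = f, ∑ t, if ev s = ev t then 0 else w s t := by
    intro f _
    refine sum_congr rfl fun s hs => ?_
    rw [compl_filter, sum_filter]
    refine sum_congr rfl fun t _ => ?_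
    rw [(mem_filter.1 hs).2, ite_not]
    simp only [eq_comm]
  rw [sum_congr rfl h1, sum_fiberwise_eq_sum_filter, Fintype.sum_prod_type]
  exact sum_le_sum_of_subset (filter_subset _ _)

private lemma cross_ULatD (w : T → T → ℕ) (hs : ∀ s t, w s t = w t s) (A : Finset T) :
    ∑ p : T × T, (w p.1 p.2 : ℝ) * |(if p.1 ∈ A then 1 else 0) - (if p.2 ∈ A then 1 else 0)| =
      2 * cutw w A := by
  have h1 : (cutw w A : ℝ) = ∑ s, ∑ t, if s ∈ A ∧ t ∉ A then (w s t : ℝ) else 0 := by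
    rw [cutw]
    push_cast
    rw [← sum_ite_mem_eq A]
    refine sum_congr rfl fun s _ => ?_
    rw [← sum_ite_mem_eq Aᶜ]
    by_cases h : s ∈ A <;> simp [h]
  have h2 : (cutw w A : ℝ) = ∑ s, ∑ t, if t ∈ A ∧ s ∉ A then (w s t : ℝ) else 0 := by
    rw [h1, sum_comm]
    simp only [hs]
  rw [two_mul, Fintype.sum_prod_type]
  nth_rewrite 1 [h1]
  rw [h2, ← sum_add_distrib]
  refine sum_congr rfl fun s _ => ?_
  rw [← sum_add_distrib]
  refine sum_congr rfl fun t _ => ?_
  by_cases h : s ∈ A <;> by_cases h' : t ∈ A <;> simp [h, h']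

private lemma rank_ULatD {W : Type} [AddCommGroup W] [Module ℝ W] (ι : T → T) (w : T → T → ℕ)
    (lam : ℕ) (hc : ∀ A : Finset T, A.Nonempty → Aᶜ.Nonempty → lam ≤ cutw w A)
    (ev : T → Module.Dual ℝ W) (h1 : ∀ s, ev (ι s) = -ev s)
    (h2 : ∀ φ, (∀ s, ev s φ = 0) → φ = 0) (F : Finset (T × T))
    (hF : ∀ p ∈ F, w p.1 p.2 ≠ 0 → ev p.1 = ev p.2) :
    2 * Module.finrank ℝ W * lam ≤ ∑ p ∈ Fᶜ, w p.1 p.2 := by
  classical
  obtain ⟨P, hP⟩ := half_ULatD (fun f : Module.Dual ℝ W => -f) neg_neg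
  have hn : ∀ f : Module.Dual ℝ W, f ≠ 0 → -f ≠ f := fun f hf h => hf (by
    have : (2 : ℝ) • f = 0 := by rw [two_smul]; nth_rewrite 1 [← h]; exact neg_add_cancel f
    exact (smul_eq_zero.1 this).resolve_left two_ne_zero)
  set D := (univ.image ev).erase 0 with hD
  have hDn : ∀ f ∈ D, -f ∈ D := fun f hf => by
    obtain ⟨h3, h4⟩ := mem_erase.1 hf
    obtain ⟨s, -, rfl⟩ := mem_image.1 h4
    exact mem_erase.2 ⟨neg_ne_zero.2 h3, mem_image.2 ⟨ι s, mem_univ _, h1 s⟩⟩
  have c1 : (D.filter P).card ≤ (D.filter fun f => ¬ P f).card := by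
    refine card_le_card_of_injOn (fun f => -f) (fun f hf => ?_) neg_injective.injOn
    obtain ⟨h3, h4⟩ := mem_filter.1 hf
    exact mem_filter.2 ⟨hDn f h3, (hP f (hn f (mem_erase.1 h3).1)).1 h4⟩
  have c2 := card_filter_add_card_filter_not (s := D) P
  have c3 : Module.finrank ℝ W ≤ (D.filter P).card := by
    have := LinearMap.finrank_le_finrank_of_injective
      (f := LinearMap.pi fun f : D.filter P => f.1) ((injective_iff_map_eq_zero _).2 fun φ h => by
        refine h2 φ fun s => ?_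
        by_cases h0 : ev s = 0
        · rw [h0, LinearMap.zero_apply]
        have h3 : ev s ∈ D := mem_erase.2 ⟨h0, mem_image_of_mem _ (mem_univ _)⟩
        by_cases h4 : P (ev s)
        · exact congrFun h ⟨_, mem_filter.2 ⟨h3, h4⟩⟩
        · have h5 : (-ev s) φ = 0 := congrFun h ⟨_, mem_filter.2 ⟨hDn _ h3,
            not_not.1 fun h5 => h4 ((hP _ (hn _ h0)).2 h5)⟩⟩
          simpa using h5)
    rwa [Module.finrank_fintype_fun_eq_card, Fintype.card_coe] at this
  have c4 : D.card * lam ≤ ∑ f ∈ D, cutw w (univ.filter fun s => ev s = f) := by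
    refine card_nsmul_le_sum D _ lam fun f hf => ?_
    obtain ⟨h3, h4⟩ := mem_erase.1 hf
    obtain ⟨s, -, rfl⟩ := mem_image.1 h4
    exact hc _ ⟨s, by simp⟩ ⟨ι s, by simpa [h1] using hn _ h3⟩
  refine (Nat.mul_le_mul_right lam (by omega)).trans (c4.trans ((cls_ULatD w ev D).trans ?_))
  rw [← sum_ite_mem_eq Fᶜ]
  refine sum_le_sum fun p _ => ?_
  by_cases h3 : ev p.1 = ev p.2
  · simp [h3]
  by_cases h4 : w p.1 p.2 = 0
  · simp [h4]
  · rw [if_neg h3, if_pos (mem_compl.2 fun h => h3 (hF p h h4))]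

private lemma main_ULatD {U : Type} [Fintype U] [DecidableEq U] (ι : T → T)
    (hι : ∀ t, ι (ι t) = t) (hne : ∀ t, ι t ≠ t) (inc : U → T) (rep : T → U) (sg : T → ℤ)
    (r1 : ∀ t, rep (ι t) = rep t) (r2 : ∀ t, sg (ι t) = -sg t) (r3 : ∀ u, rep (inc u) = u)
    (r4 : ∀ u, sg (inc u) = 1) (r5 : ∀ t, t = inc (rep t) ∨ t = ι (inc (rep t)))
    (w : T → T → ℕ) (hs : ∀ s t, w s t = w t s)
    (hw : ∀ s t, w (ι s) (ι t) = w s t) (lam : ℕ) (h0 : 0 < lam)
    (hc : ∀ A : Finset T, A.Nonempty → Aᶜ.Nonempty → lam ≤ cutw w A) (t₀ : T) (q : T → ℝ)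
    (hq : ∀ t, q (ι t) = -q t) (par : ℤ) :
    ∃ z : T → ℤ, (∀ t, z (ι t) = -z t) ∧ (4 : ℤ) ∣ ∑ t, |z t| - 2 * par ∧
      ∀ A : Finset T, ∑ t ∈ A, (q t + 2 * z t) ≤ 3 / lam * cutw w A := by
  have hl : (0 : ℝ) < lam := by exact_mod_cast h0
  have s1 : ∀ t, sg t = 1 ∨ sg t = -1 := fun t => by
    rcases r5 t with h | h
    · left; rw [h, r4]
    · right; rw [h, r2, r4]
  have s2 : ∀ s t, rep s = rep t → t = s ∨ t = ι s := fun s t h => by
    rcases r5 s with h1 | h1 <;> rcases r5 t with h2 | h2 <;> rw [← h] at h2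
    · exact Or.inl (h2.trans h1.symm)
    · exact Or.inr (h2.trans (congrArg ι h1.symm))
    · exact Or.inr (by rw [h2]; nth_rewrite 2 [h1]; rw [hι])
    · exact Or.inl (h2.trans h1.symm)
  have s3 : ∀ s t, sg t * (if rep s = rep t then sg s else 0) =
      (if t = s then 1 else 0) - (if t = ι s then 1 else 0) := fun s t => by
    by_cases h1 : t = s
    · subst h1
      rcases s1 t with h | h <;> simp [h, (hne t).symm]
    by_cases h2 : t = ι s
    · subst h2
      rcases s1 s with h | h <;> simp [h, r1, r2, hne s]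
    · rw [if_neg fun h => (s2 s t h).elim h1 h2, if_neg h1, if_neg h2]
      simp
  have s4 : ∀ t, q t = sg t * q (inc (rep t)) := fun t => by
    rcases r5 t with h | h
    · rw [← h]; nth_rewrite 2 [h]; simp [r4]
    · nth_rewrite 1 [h]; nth_rewrite 2 [h]; simp [r2, r4, hq]
  let b : T × T → U → ℤ := fun p u => if w p.1 p.2 = 0 then 0 else
    (if rep p.1 = u then sg p.1 else 0) - (if rep p.2 = u then sg p.2 else 0)
  let a : T × T → ℝ := fun p => if w p.1 p.2 = 0 then 1 else w p.1 p.2 / (2 * lam)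
  have ha : ∀ p, 0 < a p := fun p => by
    simp only [a]
    split_ifs with h
    · exact one_pos
    · have : (0 : ℝ) < w p.1 p.2 := by exact_mod_cast Nat.pos_of_ne_zero h
      positivity
  obtain ⟨m, cur, hcur, hm⟩ := lattice2 b a ha (fun F => by
    have h1 := rank_ULatD ι w lam hc
      (fun s => (sg s : ℝ) • (LinearMap.proj (rep s) ∘ₗ (ann b F).subtype))
      (fun s => by ext φ; simp [r1, r2]) (fun φ h => by
        ext u
        simpa [r3, r4] using h (inc u)) F (fun p hp h => by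
        ext φ
        have h2 := φ.2 p hp
        simp only [b, if_neg h, Int.cast_sub, Int.cast_ite, Int.cast_zero, sub_mul, ite_mul,
          zero_mul, sum_sub_distrib, sum_ite_eq, mem_univ, if_true] at h2
        simpa using sub_eq_zero.1 h2)
    have h2 : (2 * Module.finrank ℝ (ann b F) * lam : ℝ) ≤ ∑ p ∈ Fᶜ, (w p.1 p.2 : ℝ) := by
      exact_mod_cast h1
    calc (Module.finrank ℝ (ann b F) : ℝ) ≤ (∑ p ∈ Fᶜ, (w p.1 p.2 : ℝ)) / (2 * lam) := by
          rw [le_div_iff₀ (by positivity)]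
          linarith
      _ ≤ _ := by
          rw [sum_div]
          refine sum_le_sum fun p _ => ?_
          simp only [a]
          split_ifs with h
          · simp [h]
          · exact le_rfl) (fun u => q (inc u) + 2 * (if rep t₀ = u then par else 0 : ℤ))
  let z : U → ℤ := fun u => (if rep t₀ = u then par else 0) + ∑ p, m p * b p u
  refine ⟨fun t => sg t * z (rep t), fun t => by simp [r1, r2], ?_, fun A => ?_⟩
  · have h1 : ∀ t, |sg t * z (rep t)| =
        ∑ u, ((if t = inc u then |z u| else 0) + if t = ι (inc u) then |z u| else 0) := fun t => by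
      rw [sum_eq_single (rep t) (fun u _ hu => by
        rw [if_neg fun h => hu (by rw [h, r3]), if_neg fun h => hu (by rw [h, r1, r3]), add_zero])
        (by simp), abs_mul]
      have h2 : |sg t| = 1 := by rcases s1 t with h | h <;> simp [h]
      rw [h2, one_mul]
      rcases r5 t with h | h
      · rw [if_pos h, if_neg fun h' => hne _ (h'.symm.trans h), add_zero]
      · rw [if_pos h, if_neg fun h' => hne _ (h.symm.trans h'), zero_add]
    have h2 : ∑ t, |sg t * z (rep t)| = 2 * ∑ u, |z u| := by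
      simp only [h1]
      rw [sum_comm]
      simp [sum_add_distrib, two_mul]
    have h3 : (2 : ℤ) ∣ ∑ u, (|z u| - z u) := dvd_sum fun u _ => by
      rcases abs_choice (z u) with h | h <;> rw [h] <;> omega
    have h4 : (2 : ℤ) ∣ ∑ p, m p * ∑ u, b p u := dvd_sum fun p _ => Dvd.dvd.mul_left (by
      simp only [b]
      split_ifs
      · simp
      · simp only [sum_sub_distrib, sum_ite_eq, mem_univ, if_true]
        rcases s1 p.1 with h | h <;> rcases s1 p.2 with h' | h' <;> simp [h, h']) _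
    have h5 : ∑ u, z u = par + ∑ p, m p * ∑ u, b p u := by
      simp only [z, sum_add_distrib, sum_ite_eq, mem_univ, if_true, mul_sum]
      rw [sum_comm]
    rw [sum_sub_distrib, h5] at h3
    rw [h2]
    omega
  · have h1 : ∀ t, q t + 2 * ((sg t * z (rep t) : ℤ) : ℝ) =
        ∑ p, cur p * ((sg t * b p (rep t) : ℤ) : ℝ) := fun t => by
      have h2 := hm (rep t)
      have h3 : ∑ p, cur p * ((sg t * b p (rep t) : ℤ) : ℝ) =
          sg t * ∑ p, cur p * (b p (rep t) : ℝ) := by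
        rw [mul_sum]
        refine sum_congr rfl fun p _ => ?_
        push_cast
        ring
      rw [h3, ← h2, s4 t]
      simp only [z]
      push_cast
      ring
    simp only [h1]
    rw [sum_comm]
    have h2 := cross_ULatD w hs A
    have h3 : ∑ p : T × T, (w p.1 p.2 : ℝ) *
        |(if ι p.1 ∈ A then 1 else 0) - (if ι p.2 ∈ A then 1 else 0)| = 2 * cutw w A := by
      rw [← h2]
      exact Fintype.sum_bijective (Prod.map ι ι) ((Function.Involutive.bijective hι).prodMap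
        (Function.Involutive.bijective hι)) _ _ fun p => by simp [hw]
    have h4 : (3 / lam * cutw w A : ℝ) = 3 / (4 * lam) * (2 * cutw w A + 2 * cutw w A) := by
      field_simp
      ring
    rw [h4]
    nth_rewrite 1 [← h2]
    rw [← h3, ← sum_add_distrib, mul_sum]
    refine sum_le_sum fun p _ => ?_
    have h5 := hcur p
    rw [← mul_sum]
    simp only [a, b] at h5 ⊢
    by_cases h : w p.1 p.2 = 0
    · simp [h]
    simp only [if_neg h, mul_sub, s3] at h5 ⊢
    push_cast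
    simp only [sum_sub_distrib, sum_ite_eq']
    generalize (if p.1 ∈ A then (1 : ℝ) else 0) = x1
    generalize (if p.2 ∈ A then (1 : ℝ) else 0) = x2
    generalize (if ι p.1 ∈ A then (1 : ℝ) else 0) = x3
    generalize (if ι p.2 ∈ A then (1 : ℝ) else 0) = x4
    have h6 : |x1 - x3 - (x2 - x4)| ≤ |x1 - x2| + |x3 - x4| :=
      le_trans (le_of_eq (by congr 1; ring)) (abs_sub _ _)
    calc _ ≤ |cur p| * |x1 - x3 - (x2 - x4)| := by rw [← abs_mul]; exact le_abs_self _
      _ ≤ 3 / 2 * (w p.1 p.2 / (2 * lam)) * (|x1 - x2| + |x3 - x4|) := by gcongr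
      _ = _ := by field_simp; ring

end

/-- the lattice lemma on a graph with a free involution -/
theorem symlat {T : Type} [Fintype T] [DecidableEq T] (ι : T → T) (hι : ∀ t, ι (ι t) = t)
    (hne : ∀ t, ι t ≠ t) (w : T → T → ℕ) (hs : ∀ s t, w s t = w t s)
    (hw : ∀ s t, w (ι s) (ι t) = w s t) (lam : ℕ) (h0 : 0 < lam)
    (hc : ∀ A : Finset T, A.Nonempty → Aᶜ.Nonempty → lam ≤ cutw w A) (t₀ : T) (q : T → ℝ)
    (hq : ∀ t, q (ι t) = -q t) (par : ℤ) :
    ∃ z : T → ℤ, (∀ t, z (ι t) = -z t) ∧ (4 : ℤ) ∣ ∑ t, |z t| - 2 * par ∧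
      ∀ A : Finset T, ∑ t ∈ A, (q t + 2 * z t) ≤ 3 / lam * cutw w A := by
  classical
  obtain ⟨P, hP⟩ := half_ULatD ι hι
  have h1 : ∀ t, ¬ P t → P (ι t) := fun t h => not_not.1 fun h' => h ((hP t (hne t)).2 h')
  have h2 : ∀ t, P t → ¬ P (ι t) := fun t => (hP t (hne t)).1
  refine main_ULatD (U := {t // P t}) ι hι hne Subtype.val
    (fun t => if h : P t then ⟨t, h⟩ else ⟨ι t, h1 t h⟩) (fun t => if P t then 1 else -1)
    (fun t => ?_) (fun t => ?_) (fun u => ?_) (fun u => ?_) (fun t => ?_) w hs hw lam h0 hc t₀ q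
    hq par
  · by_cases h : P t
    · simp [h, h2 t h, hι]
    · simp [h, h1 t h]
  · by_cases h : P t
    · simp [h, h2 t h]
    · simp [h, h1 t h]
  · simp [u.2]
  · simp [u.2]
  · by_cases h : P t <;> simp [h, hι]

end Pool.Agent.MP_9a3194_co

end

section

open Finset
open scoped symmDiff

namespace Pool.Agent.MP_9a3194_co

private theorem cut_ULatE {T : Type} [Fintype T] [DecidableEq T] (w : T → T → ℕ) (A : Finset T) :
    cutw w A = ∑ s, ∑ t, if s ∈ A ∧ t ∉ A then w s t else 0 := by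
  simp only [cutw, ite_and, sum_ite_irrel, sum_const_zero, sum_ite_mem, univ_inter, ← mem_compl]

private theorem sub_ULatE {T : Type} [Fintype T] [DecidableEq T] (w : T → T → ℕ)
    (hs : ∀ s t, w s t = w t s) (Tm : Finset T) (hz : ∀ s t, s ∉ Tm → s ≠ t → w s t = 0)
    (A : Finset T) (B : Finset {t // t ∈ Tm}) (hB : ∀ t, t ∈ B ↔ t.1 ∈ A) :
    cutw (fun s t : {t // t ∈ Tm} => w s t) B = cutw w A := by
  have hF : ∀ s t, s ∉ Tm ∨ t ∉ Tm → (if s ∈ A ∧ t ∉ A then w s t else 0) = 0 := by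
    intro s t h
    split_ifs with h1
    · have hst : s ≠ t := fun e => h1.2 (e ▸ h1.1)
      exact h.elim (fun h => hz s t h hst) fun h => (hs s t).trans (hz t s h hst.symm)
    · rfl
  rw [cut_ULatE, cut_ULatE, ← sum_subset (subset_univ Tm)
    (fun s _ hsT => sum_eq_zero fun t _ => hF s t (Or.inl hsT)), ← sum_coe_sort Tm]
  refine sum_congr rfl fun s _ => ?_
  rw [← sum_subset (subset_univ Tm) fun t _ ht => hF s t (Or.inr ht), ← sum_coe_sort Tm]
  simp only [hB]

private theorem inv_ULatE {T : Type} [Fintype T] [DecidableEq T] {ι : T → T}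
    (hι : ∀ t, ι (ι t) = t) (w : T → T → ℕ) (A : Finset T) :
    cutw (fun s t => w (ι s) (ι t)) A = cutw w (univ.filter fun t => ι t ∈ A) := by
  have h : Function.Bijective ι := Function.Involutive.bijective hι
  rw [cut_ULatE, cut_ULatE]
  refine Fintype.sum_bijective ι h _ _ fun s => Fintype.sum_bijective ι h _ _ fun t => ?_
  simp [hι]

/-- the symmetric lattice lemma with Steiner vertices -/
theorem steiner2 {T : Type} [Fintype T] [DecidableEq T] (ι : T → T) (hι : ∀ t, ι (ι t) = t)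
    (hne : ∀ t, ι t ≠ t) (w : T → T → ℕ) (hs : ∀ s t, w s t = w t s)
    (hw : ∀ s t, w (ι s) (ι t) = w s t) (Tm : Finset T) (hT : Tm.Nonempty)
    (hTι : ∀ t, ι t ∈ Tm ↔ t ∈ Tm) (lam : ℕ) (h0 : 0 < lam)
    (hl : Even lam) (hev : ∀ A, Even (cutw w A))
    (hc : ∀ A : Finset T, (∃ s ∈ Tm, s ∈ A) → (∃ t ∈ Tm, t ∉ A) → lam ≤ cutw w A)
    (q : T → ℝ) (hq : ∀ t ∈ Tm, q (ι t) = -q t) (par : ℤ) :
    ∃ z : T → ℤ, (∀ t ∉ Tm, z t = 0) ∧ (∀ t, z (ι t) = -z t) ∧
      (4 : ℤ) ∣ ∑ t ∈ Tm, |z t| - 2 * par ∧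
      ∀ A : Finset T, ∑ t ∈ Tm ∩ A, (q t + 2 * z t) ≤ 3 / lam * cutw w A := by
  obtain ⟨w', hs', hle, hc', hz⟩ := split w hs Tm lam hl hev hc
  obtain ⟨o, ho⟩ := hT
  have hlam : (0 : ℝ) < lam := by exact_mod_cast h0
  have key : ∀ (A : Finset T) (B : Finset {t // t ∈ Tm}), (∀ t, t ∈ B ↔ t.1 ∈ A) →
      cutw (fun s t : {t // t ∈ Tm} => w' s t + w' (ι s) (ι t)) B =
        cutw w' A + cutw w' (univ.filter fun t => ι t ∈ A) := fun A B hB => by
    rw [← sub_ULatE w' hs' Tm hz A B hB, ← inv_ULatE hι,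
      ← sub_ULatE (fun s t => w' (ι s) (ι t)) (fun s t => hs' _ _) Tm (fun s t h1 h2 =>
        hz _ _ (fun h => h1 ((hTι s).1 h)) fun e => h2 (by rw [← hι s, e, hι])) A B hB]
    simp only [cutw, sum_add_distrib]
  obtain ⟨z, z1, z2, z3⟩ := symlat (T := {t // t ∈ Tm}) (fun t => ⟨ι t, (hTι t).2 t.2⟩)
    (fun t => Subtype.ext (hι t)) (fun t e => hne t (congrArg Subtype.val e))
    (fun s t => w' s t + w' (ι s) (ι t)) (fun s t => by rw [hs' s, hs' (ι s)])
    (fun s t => by simp only [hι, add_comm]) (2 * lam) (by omega)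
    (by
      rintro B ⟨s, hsB⟩ ⟨t, htB⟩
      have hB : ∀ t, t ∈ B ↔ t.1 ∈ B.map (Function.Embedding.subtype _) := fun t =>
        (mem_map' (Function.Embedding.subtype _)).symm
      have h1 := (hB s).1 hsB
      have h2 := fun h => mem_compl.1 htB ((hB t).2 h)
      rw [key _ B hB, two_mul]
      exact add_le_add (hc' _ ⟨s.1, s.2, h1⟩ ⟨t.1, t.2, h2⟩) (hc' _
        ⟨ι s, (hTι _).2 s.2, mem_filter.2 ⟨mem_univ _, by rwa [hι]⟩⟩
        ⟨ι t, (hTι _).2 t.2, fun h => h2 (by simpa only [hι] using (mem_filter.1 h).2)⟩))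
    ⟨o, ho⟩ (fun t => q t) (fun t => hq t t.2) par
  refine ⟨fun t => if h : t ∈ Tm then z ⟨t, h⟩ else 0, fun t ht => by simp [ht], fun t => ?_, ?_,
    fun A => ?_⟩
  · by_cases h : t ∈ Tm
    · simp only [dif_pos h, dif_pos ((hTι t).2 h)]
      exact z1 ⟨t, h⟩
    · simp [h, hTι]
  · rw [← sum_coe_sort Tm]
    simpa using z2
  · have h := z3 (univ.filter fun t => t.1 ∈ A)
    rw [key A _ (by simp)] at h
    have h1 : (cutw w' A : ℝ) ≤ cutw w A := by exact_mod_cast hle A
    have h2 := hle (univ.filter fun t => ι t ∈ A)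
    rw [← inv_ULatE hι w] at h2
    simp only [hw] at h2
    have h3 : (cutw w' (univ.filter fun t => ι t ∈ A) : ℝ) ≤ cutw w A := by exact_mod_cast h2
    have e : ∑ t ∈ Tm ∩ A, (q t + 2 * ((if h : t ∈ Tm then z ⟨t, h⟩ else 0 : ℤ) : ℝ)) =
        ∑ t ∈ univ.filter (fun t : {t // t ∈ Tm} => t.1 ∈ A), (q t.1 + 2 * (z t : ℝ)) := by
      rw [← filter_mem_eq_inter, sum_filter, sum_filter, ← sum_coe_sort Tm]
      exact sum_congr rfl fun t _ => by simp
    rw [e]
    refine h.trans (le_of_le_of_eq (b := (3 / (2 * lam) * (cutw w A + cutw w A) : ℝ)) ?_ ?_)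
    · push_cast
      gcongr
    · field_simp
      ring

end Pool.Agent.MP_9a3194_co

end
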