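import Pool.Agent.Mg.F9a3194.G505f3a
import Pool.Agent.Mg.F9a3194.G33e6ee
import Pool.Agent.Mg.F9a3194.G885162

section

open Finset
open scoped symmDiff

namespace Pool.Agent.MP_9a3194_co

theorem deep_Push {k : ℕ} (x : Bool) {w : List Bool} (hw : 2 * k < w.length) :
    |sgn x / 2 * amt k w| ≤ 1 / 2 ^ (k + 2) := by
  rw [abs_mul, abs_div, abs_sgn, abs_of_nonneg (amt_nonneg k w), abs_two]
  have h1 : (2 : ℝ) ^ k / 2 ^ w.length ≤ 2 ^ k / 2 ^ (2 * k + 1) := by
    gcongr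
    · exact one_le_two
    · exact hw
  have h2 : (1 : ℝ) / 2 * (2 ^ k / 2 ^ (2 * k + 1)) = 1 / 2 ^ (k + 2) := by
    field_simp
    ring
  linarith [amt_le k w]

namespace Str

variable {V : Type} [DecidableEq V] {S : Str V}

theorem fib_Push (e : Dt V) (v : V) (c : ℝ) :
    ∑ i : Fin 3, (if e = (v, i) then c else 0) = if e.1 = v then c else 0 := by
  obtain ⟨u, j⟩ := e
  by_cases h : u = v
  · simp [h]
  · simp [h]

theorem tele_Push (k : ℕ) (a v : V) (c : ℝ) (ρ : ℕ) :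
    ∑ j ∈ range (ρ + 1), ∑ w ∈ Wd j, (if (S.dart a w).1 = v then c * amt k w else 0) -
      ∑ j ∈ range (ρ + 1), ∑ w ∈ Wd j, (if S.tip a w = v then c * amt k w else 0) =
      (if a = v then c else 0) - ∑ w ∈ Wd ρ, if S.tip a w = v then c * amt k w else 0 := by
  induction ρ with
  | zero => simp [Wd, dart, amt]
  | succ ρ ih =>
    have h : ∑ w ∈ Wd (ρ + 1), (if (S.dart a w).1 = v then c * amt k w else 0) =
        ∑ w ∈ Wd ρ, if S.tip a w = v then c * amt k w else 0 := by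
      rw [sum_Wd_succ]
      refine sum_congr rfl fun w _ => ?_
      rw [dart_cons_fst, dart_cons_fst, ← amt_split k w]
      split_ifs
      · ring
      · ring
    rw [sum_range_succ _ (ρ + 1), sum_range_succ _ (ρ + 1), h]
    linarith

omit [DecidableEq V] in
theorem norev_Push {ρ : ℕ} {F : Finset V} (hF : S.HInj F ρ) {a a' : V} (ha : a ∈ F)
    (ha' : a' ∈ F) {w w' : List Bool} (hw : w.length ≤ ρ) (hw' : w'.length ≤ ρ) :
    S.dart a w ≠ S.rv (S.dart a' w') := by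
  intro h
  have h1 : (S.dart a w).1 = S.tip a' w' := by rw [h]; rfl
  have h2 : S.tip a w = (S.dart a' w').1 := by rw [tip, h, hd_rv]
  cases w' with
  | nil => exact hF.2 a ha w hw (h2 ▸ ha')
  | cons β' u' =>
    cases w with
    | nil => exact hF.2 a' ha' _ hw' (h1 ▸ ha)
    | cons β u =>
      simp only [List.length_cons] at hw hw'
      have h3 := (hF.1 a ha a' ha' _ u' (by simpa using hw) (by omega) h2).2
      have h4 := (hF.1 a ha a' ha' u _ (by omega) (by simpa using hw') h1).2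
      have h5 := congrArg List.length h3
      have h6 := congrArg List.length h4
      simp only [List.length_cons] at h5 h6
      omega

/-- the charge carried by a dart in the forward direction -/
noncomputable def fwd_Push (S : Str V) (k ρ : ℕ) (F : Finset V) (s : V → ℝ) (d : Dt V) : ℝ :=
  ∑ a ∈ F, ∑ j ∈ range (ρ + 1), ∑ w ∈ Wd j, if S.dart a w = d then s a * amt k w else 0

theorem fwd_zero_Push (k : ℕ) {ρ : ℕ} {F : Finset V} (s : V → ℝ) {d : Dt V}
    (h : ¬ ∃ a ∈ F, ∃ w : List Bool, w.length ≤ ρ ∧ S.dart a w = d) :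
    fwd_Push S k ρ F s d = 0 := by
  refine sum_eq_zero fun a ha => sum_eq_zero fun j hj => sum_eq_zero fun w hw => if_neg fun e => ?_
  rw [mem_range] at hj
  exact h ⟨a, ha, w, by rw [mem_Wd.1 hw]; omega, e⟩

theorem fwd_val_Push (k : ℕ) {ρ : ℕ} {F : Finset V} (hF : S.HInj F ρ) (s : V → ℝ) {a : V}
    (ha : a ∈ F) {w : List Bool} (hw : w.length ≤ ρ) :
    fwd_Push S k ρ F s (S.dart a w) = s a * amt k w := by
  have key : ∀ a' ∈ F, ∀ j ∈ range (ρ + 1), ∀ w' ∈ Wd j, S.dart a' w' = S.dart a w →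
      a' = a ∧ w' = w := fun a' ha' j hj w' hw' e => by
    rw [mem_range] at hj
    exact hF.1 a' ha' a ha w' w (by rw [mem_Wd.1 hw']; omega) hw (congrArg S.hd e)
  rw [fwd_Push, sum_eq_single_of_mem a ha, sum_eq_single_of_mem w.length
    (mem_range.2 (by omega)), sum_eq_single_of_mem w (mem_Wd.2 rfl), if_pos rfl]
  · exact fun w' hw' hne => if_neg fun e => hne (key a ha _ (mem_range.2 (by omega)) w' hw' e).2
  · refine fun j hj hne => sum_eq_zero fun w' hw' => if_neg fun e => hne ?_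
    rw [← (key a ha j hj w' hw' e).2, mem_Wd.1 hw']
  · exact fun a' ha' hne => sum_eq_zero fun j hj => sum_eq_zero fun w' hw' =>
      if_neg fun e => hne (key a' ha' j hj w' hw' e).1

theorem fwd_out_Push (k ρ : ℕ) (F : Finset V) (s : V → ℝ) (v : V) :
    ∑ i, fwd_Push S k ρ F s (v, i) = ∑ a ∈ F, ∑ j ∈ range (ρ + 1), ∑ w ∈ Wd j,
      if (S.dart a w).1 = v then s a * amt k w else 0 := by
  unfold fwd_Push
  rw [sum_comm]
  refine sum_congr rfl fun a _ => ?_
  rw [sum_comm]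
  refine sum_congr rfl fun j _ => ?_
  rw [sum_comm]
  exact sum_congr rfl fun w _ => fib_Push _ _ _

theorem fwd_in_Push (k ρ : ℕ) (F : Finset V) (s : V → ℝ) (v : V) :
    ∑ i, fwd_Push S k ρ F s (S.rv (v, i)) = ∑ a ∈ F, ∑ j ∈ range (ρ + 1), ∑ w ∈ Wd j,
      if S.tip a w = v then s a * amt k w else 0 := by
  unfold fwd_Push
  rw [sum_comm]
  refine sum_congr rfl fun a _ => ?_
  rw [sum_comm]
  refine sum_congr rfl fun j _ => ?_
  rw [sum_comm]
  refine sum_congr rfl fun w _ => ?_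
  refine Eq.trans (sum_congr rfl fun i _ => if_congr ?_ rfl rfl)
    (fib_Push (S.rv (S.dart a w)) v _)
  exact ⟨fun e => by rw [e, rv_rv], fun e => by rw [← e, rv_rv]⟩

/-- pushing charges along the hanging trees -/
theorem push (k : ℕ) {ρ : ℕ} {F : Finset V} (hF : S.HInj F ρ) (s : V → ℝ) :
    ∃ f : Dt V → ℝ, S.Anti f ∧
      (∀ v, dv f v = (if v ∈ F then s v else 0) -
        ∑ a ∈ F, ∑ w ∈ Wd ρ, if S.tip a w = v then s a * amt k w else 0) ∧
      ∀ d, f d = 0 ∨ ∃ a ∈ F, ∃ w : List Bool, w.length ≤ ρ ∧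
        (d = S.dart a w ∧ f d = s a * amt k w ∨
          d = S.rv (S.dart a w) ∧ f d = -(s a * amt k w)) := by
  refine ⟨fun d => fwd_Push S k ρ F s d - fwd_Push S k ρ F s (S.rv d), fun d => ?_,
    fun v => ?_, fun d => ?_⟩
  · simp only [rv_rv]
    ring
  · rw [dv, sum_sub_distrib, fwd_out_Push, fwd_in_Push, ← sum_sub_distrib,
      sum_congr rfl fun a _ => tele_Push k a v (s a) ρ, sum_sub_distrib, sum_ite_eq']
  · by_cases h1 : ∃ a ∈ F, ∃ w : List Bool, w.length ≤ ρ ∧ S.dart a w = d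
    · obtain ⟨a, ha, w, hw, rfl⟩ := h1
      refine Or.inr ⟨a, ha, w, hw, Or.inl ⟨rfl, ?_⟩⟩
      have h2 : fwd_Push S k ρ F s (S.rv (S.dart a w)) = 0 :=
        fwd_zero_Push k s fun ⟨a', ha', w', hw', e⟩ => norev_Push hF ha' ha hw' hw e
      simp only [h2, fwd_val_Push k hF s ha hw, sub_zero]
    · by_cases h2 : ∃ a ∈ F, ∃ w : List Bool, w.length ≤ ρ ∧ S.dart a w = S.rv d
      · obtain ⟨a, ha, w, hw, e⟩ := h2
        refine Or.inr ⟨a, ha, w, hw, Or.inr ⟨by rw [e, rv_rv], ?_⟩⟩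
        simp only [fwd_zero_Push k s h1, ← e, fwd_val_Push k hF s ha hw, zero_sub]
      · left
        simp only [fwd_zero_Push k s h1, fwd_zero_Push k s h2, sub_zero]

omit [DecidableEq V] in
theorem edge_good {k : ℕ} {y : V → Bool} {a : V} {x : Bool} (h : S.Good k y a x) (w : List Bool) :
    |S.base y (S.dart a w) + sgn x / 2 * amt k w| ≤ 1 / 2 + 1 / 2 ^ (k + 2) := by
  have hp : (0 : ℝ) ≤ 1 / 2 ^ (k + 2) := by positivity
  have h1 := amt_le_one k w
  have h2 := amt_nonneg k w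
  by_cases h0 : dir w = 0
  · rw [base, if_pos ((S.dart_snd a w).trans h0), zero_add, abs_mul, abs_div, abs_sgn,
      abs_of_nonneg h2, abs_two]
    linarith
  by_cases ha : amt k w = 0
  · rw [ha, mul_zero, add_zero]
    linarith [S.abs_base_le y (S.dart a w)]
  by_cases hl : 2 * k < w.length
  · exact (abs_add_le _ _).trans (add_le_add (S.abs_base_le _ _) (deep_Push x hl))
  have ho : ¬ Even w.length := fun he => h0 (dir_eq_zero he (not_lt.1 hl) ha)
  cases w with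
  | nil => exact absurd rfl h0
  | cons β u =>
    rw [List.length_cons] at hl
    rw [List.length_cons, Nat.even_add_one, not_not] at ho
    have hu : amt k u ≠ 0 := fun e => by
      have h3 := amt_split k u
      have h4 := amt_nonneg k (true :: u)
      have h5 := amt_nonneg k (false :: u)
      apply ha
      cases β <;> linarith
    have h3 := sgn_of_ne (h u ho (by omega) hu)
    rw [base, if_neg (by rwa [dart_snd]), dart_cons_fst, h3]
    generalize y (S.hd (S.dart a (β :: u))) = z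
    rw [abs_le]
    cases x <;> cases z <;> simp only [sgn, if_true, Bool.false_eq_true, if_false] <;>
      constructor <;> linarith

theorem edge_deep {k : ℕ} (x : Bool) {w : List Bool} (hw : 2 * k < w.length) :
    |sgn x / 2 * amt k w| ≤ 1 / 2 ^ (k + 2) := deep_Push x hw

/-- the leaf charges are small -/
theorem leaf_le (k : ℕ) {ρ : ℕ} {F : Finset V} (hF : S.HInj F ρ) (s : V → ℝ)
    (hs : ∀ a, |s a| ≤ 1) (v : V) :
    |∑ a ∈ F, ∑ w ∈ Wd ρ, if S.tip a w = v then s a * amt k w else 0| ≤ 2 ^ k / 2 ^ ρ := by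
  by_cases h : ∃ a ∈ F, ∃ w ∈ Wd ρ, S.tip a w = v
  · obtain ⟨a, ha, w, hw, rfl⟩ := h
    have key : ∀ a' ∈ F, ∀ w' ∈ Wd ρ, S.tip a' w' = S.tip a w → a' = a ∧ w' = w :=
      fun a' ha' w' hw' e => hF.1 a' ha' a ha w' w (mem_Wd.1 hw').le (mem_Wd.1 hw).le e
    rw [sum_eq_single_of_mem a ha, sum_eq_single_of_mem w hw, if_pos rfl, abs_mul,
      abs_of_nonneg (amt_nonneg k w), ← mem_Wd.1 hw]
    · exact (mul_le_of_le_one_left (amt_nonneg k w) (hs a)).trans (amt_le k w)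
    · exact fun w' hw' hne => if_neg fun e => hne (key a ha w' hw' e).2
    · exact fun a' ha' hne => sum_eq_zero fun w' hw' => if_neg fun e => hne (key a' ha' w' hw' e).1
  · rw [sum_eq_zero fun a ha => sum_eq_zero fun w hw => if_neg fun e => h ⟨a, ha, w, hw, e⟩,
      abs_zero]
    positivity

theorem leaf_sum (k ρ : ℕ) (F : Finset V) (s : V → ℝ) (X : Finset V) :
    ∑ v ∈ X, ∑ a ∈ F, ∑ w ∈ Wd ρ, (if S.tip a w = v then s a * amt k w else 0) =
      ∑ a ∈ F, s a * S.nu k ρ a X := by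
  rw [sum_comm]
  refine sum_congr rfl fun a _ => ?_
  rw [sum_comm, nu, mul_sum]
  refine sum_congr rfl fun w _ => ?_
  rw [sum_ite_eq, mul_ite, mul_zero]

theorem nu_univ [Fintype V] (k ρ : ℕ) (a : V) : S.nu k ρ a univ = 1 := by
  simp only [nu, mem_univ, if_true, sum_amt]

end Str

end Pool.Agent.MP_9a3194_co

end

section

open Finset
open scoped symmDiff

namespace Pool.Agent.MP_9a3194_co

theorem card_words_Om (r : ℕ) : ((range (r + 1)).biUnion Wd).card + 1 = 2 * 2 ^ r := by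
  rw [card_biUnion]
  · simp only [card_Wd]
    induction r with
    | zero => simp
    | succ r ih => rw [sum_range_succ, pow_succ]; omega
  · intro i _ j _ hij
    rw [Function.onFun, disjoint_left]
    intro w h1 h2
    exact hij ((mem_Wd.1 h1).symm.trans (mem_Wd.1 h2))

theorem dir_cases_Om (d e : Fin 3) : e = rd d ∨ e = kid d true ∨ e = kid d false := by
  revert d e
  decide

namespace Str

variable {V : Type} [Fintype V] [DecidableEq V] {S : Str V} {G : Finset V} {r : ℕ}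

omit [Fintype V] in
theorem dart_mem_Om {g a : V} (ha : a ∈ S.tube {g} 10) {w : List Bool} (hw : w.length ≤ r) :
    (S.dart a w).1 ∈ S.Om r g ∧ S.tip a w ∈ S.Om r g := by
  obtain ⟨x, hx, i, hi, rfl⟩ := S.mem_tube.1 ha
  rw [mem_singleton.1 hx]
  refine ⟨?_, S.mem_Om.2 ⟨i, hi, Or.inr ⟨w, hw, rfl⟩⟩⟩
  cases w with
  | nil => exact S.mem_Om.2 ⟨i, hi, Or.inl rfl⟩
  | cons β w =>
    exact S.mem_Om.2 ⟨i, hi, Or.inr ⟨w, by simp only [List.length_cons] at hw; omega, rfl⟩⟩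

omit [Fintype V] in
theorem pow_mem_tube_Om {J : Finset V} {g : V} (hg : g ∈ J) {i : ℕ} (hi : i < 10) :
    (S.π ^ i) g ∈ S.tube J 10 := S.mem_tube.2 ⟨g, hg, i, hi, rfl⟩

omit [Fintype V] in
theorem card_Om (hK : S.HInj (S.tube G 10) r)
    (hP : ∀ g ∈ G, ∀ g' ∈ G, ∀ i < 10, ∀ j < 10, (S.π ^ i) g = (S.π ^ j) g' → g = g' ∧ i = j)
    {g : V} (hg : g ∈ G) : (S.Om r g).card = 20 * 2 ^ r := by
  have h1 : (S.tube {g} 10).card = 10 := by
    rw [tube, card_image_of_injOn, card_product, card_singleton, card_range]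
    rintro ⟨x, i⟩ hx ⟨x', j⟩ hx' h
    simp only [coe_product, coe_singleton, coe_range, Set.mem_prod, Set.mem_singleton_iff,
      Set.mem_Iio] at hx hx'
    obtain ⟨rfl, hi⟩ := hx
    obtain ⟨h2, hj⟩ := hx'
    subst h2
    exact Prod.ext rfl (hP _ hg _ hg i hi j hj h).2
  have hw : ∀ w ∈ (range (r + 1)).biUnion Wd, w.length ≤ r := fun w hw => by
    obtain ⟨j, hj, h⟩ := mem_biUnion.1 hw
    rw [mem_Wd.1 h]
    exact Nat.lt_succ_iff.1 (mem_range.1 hj)
  rw [Om, card_union_of_disjoint, h1, card_image_of_injOn, card_product, card_range]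
  · have := card_words_Om r
    omega
  · rintro ⟨i, w⟩ hx ⟨j, w'⟩ hx' h
    obtain ⟨hi, h2⟩ := mem_product.1 (mem_coe.1 hx)
    obtain ⟨hj, h3⟩ := mem_product.1 (mem_coe.1 hx')
    have hi' := mem_range.1 hi
    have hj' := mem_range.1 hj
    obtain ⟨h4, h5⟩ := hK.1 _ (pow_mem_tube_Om hg hi') _ (pow_mem_tube_Om hg hj') w w'
      (hw w h2) (hw w' h3) h
    exact Prod.ext (hP _ hg _ hg i hi' j hj' h4).2 h5
  · rw [disjoint_left]
    intro v hv hv'
    obtain ⟨⟨i, w⟩, hx, rfl⟩ := mem_image.1 hv'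
    obtain ⟨hi, h2⟩ := mem_product.1 hx
    obtain ⟨x, hx', j, hj, h3⟩ := S.mem_tube.1 hv
    refine hK.2 _ (pow_mem_tube_Om hg (mem_range.1 hi)) w (hw w h2) ?_
    rw [← h3, mem_singleton.1 hx']
    exact pow_mem_tube_Om hg hj

theorem conn_Om (g : V) : S.Conn (S.Om r g) := by
  intro X hu hv
  by_contra hn
  have h0 : ∀ d : Dt V, d.1 ∈ S.Om r g → S.hd d ∈ S.Om r g → (d.1 ∈ X ↔ S.hd d ∈ X) :=
    fun d h1 h2 => by
      by_contra h3
      exact hn ⟨d, S.mem_bd.2 h3, h1, h2⟩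
  have h1 : ∀ i < 10, ((S.π ^ i) g ∈ X ↔ g ∈ X) := fun i hi => by
    induction i with
    | zero => rfl
    | succ i ih =>
      have h2 : S.hd ((S.π ^ i) g, 1) = (S.π ^ (i + 1)) g := by
        rw [pow_succ']
        rfl
      rw [← ih (by omega), ← h2]
      refine (h0 ((S.π ^ i) g, 1) (S.mem_Om.2 ⟨i, by omega, Or.inl rfl⟩) ?_).symm
      rw [h2]
      exact S.mem_Om.2 ⟨i + 1, hi, Or.inl rfl⟩
  have h2 : ∀ a ∈ S.tube {g} 10, ∀ w : List Bool, w.length ≤ r → (S.tip a w ∈ X ↔ a ∈ X) :=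
    fun a ha w hw => by
      induction w with
      | nil => exact (h0 _ (dart_mem_Om ha hw).1 (dart_mem_Om ha hw).2).symm
      | cons β w ih =>
        rw [← ih (by simp only [List.length_cons] at hw; omega)]
        exact (h0 _ (dart_mem_Om ha hw).1 (dart_mem_Om ha hw).2).symm
  have h3 : ∀ v ∈ S.Om r g, (v ∈ X ↔ g ∈ X) := fun v hv => by
    obtain ⟨i, hi, rfl | ⟨w, hw, rfl⟩⟩ := S.mem_Om.1 hv
    · exact h1 i hi
    · exact (h2 _ (pow_mem_tube_Om (mem_singleton_self g) hi) w hw).trans (h1 i hi)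
  obtain ⟨u, hu, hu'⟩ := hu
  obtain ⟨v, hv, hv'⟩ := hv
  exact hv' ((h3 v hv).2 ((h3 u hu).1 hu'))

theorem out_Om (g : V) : S.out (S.Om r g) ⊆ {(g, 2), ((S.π ^ 9) g, 1)} ∪
    (range 10 ×ˢ Wd (r + 1)).image fun p => S.dart ((S.π ^ p.1) g) p.2 := by
  rintro ⟨v, e⟩ hd
  obtain ⟨h1, h2⟩ := S.mem_out.1 hd
  obtain ⟨i, hi, h3 | ⟨w, hw, h3⟩⟩ := S.mem_Om.1 h1
  · change _ = v at h3
    subst h3
    have ha := pow_mem_tube_Om (S := S) (mem_singleton_self g) hi
    refine mem_union_left _ ?_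
    rw [mem_insert, mem_singleton]
    fin_cases e
    · exact absurd (dart_mem_Om (w := []) ha (Nat.zero_le r)).2 h2
    · by_cases h4 : i = 9
      · subst h4
        exact Or.inr rfl
      · refine absurd (S.mem_Om.2 ⟨i + 1, by omega, Or.inl ?_⟩) h2
        rw [pow_succ']
        rfl
    · cases i with
      | zero => exact Or.inl rfl
      | succ i =>
        refine absurd (S.mem_Om.2 ⟨i, by omega, Or.inl ?_⟩) h2
        rw [pow_succ']
        exact (S.π.symm_apply_apply _).symm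
  · change _ = v at h3
    subst h3
    have ha := pow_mem_tube_Om (S := S) (mem_singleton_self g) hi
    have h4 : ∀ β, e = kid (dir w) β → (S.tip ((S.π ^ i) g) w, e) ∈
        (range 10 ×ˢ Wd (r + 1)).image fun p => S.dart ((S.π ^ p.1) g) p.2 := fun β he => by
      have h5 : (S.tip ((S.π ^ i) g) w, e) = S.dart ((S.π ^ i) g) (β :: w) := by
        rw [he, dart, dart_snd]
        rfl
      rw [h5] at h2 ⊢
      refine mem_image.2 ⟨(i, β :: w), mem_product.2 ⟨mem_range.2 hi, mem_Wd.2 ?_⟩, rfl⟩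
      by_contra h6
      simp only [List.length_cons] at h6
      exact h2 (dart_mem_Om ha (w := β :: w) (by simp only [List.length_cons]; omega)).2
    refine mem_union_right _ ?_
    rcases dir_cases_Om (dir w) e with he | he | he
    · refine absurd ?_ h2
      have h5 : S.hd (S.tip ((S.π ^ i) g) w, e) = (S.dart ((S.π ^ i) g) w).1 := by
        rw [he, ← S.dart_snd ((S.π ^ i) g) w]
        exact S.hd_rv _
      rw [h5]
      exact (dart_mem_Om ha hw).1
    · exact h4 _ he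
    · exact h4 _ he

theorem om_trees (hK : S.HInj (S.tube G 10) r)
    (hP : ∀ g ∈ G, ∀ g' ∈ G, ∀ i < 10, ∀ j < 10, (S.π ^ i) g = (S.π ^ j) g' → g = g' ∧ i = j) :
    S.Trees G (S.Om r) (20 * 2 ^ r) where
  mem g _ := S.mem_Om.2 ⟨0, by omega, Or.inl rfl⟩
  conn g _ := conn_Om g
  card g hg := card_Om hK hP hg
  disj g hg g' hg' hne := by
    rw [disjoint_left]
    intro v hv hv'
    obtain ⟨i, hi, h1 | ⟨w, hw, h1⟩⟩ := S.mem_Om.1 hv <;>
      obtain ⟨j, hj, h2 | ⟨w', hw', h2⟩⟩ := S.mem_Om.1 hv'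
    · exact hne (hP g hg g' hg' i hi j hj (h1.trans h2.symm)).1
    · exact hK.2 _ (pow_mem_tube_Om hg' hj) w' hw' (h2 ▸ h1 ▸ pow_mem_tube_Om hg hi)
    · exact hK.2 _ (pow_mem_tube_Om hg hi) w hw (h1 ▸ h2 ▸ pow_mem_tube_Om hg' hj)
    · exact hne (hP g hg g' hg' i hi j hj (hK.1 _ (pow_mem_tube_Om hg hi) _
        (pow_mem_tube_Om hg' hj) w w' hw hw' (h1.trans h2.symm)).1).1
  bdy g _ := by
    have h1 := (card_le_card (out_Om (S := S) (r := r) g)).trans (card_union_le _ _)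
    have h2 := card_image_le (s := range 10 ×ˢ Wd (r + 1))
      (f := fun p => S.dart ((S.π ^ p.1) g) p.2)
    have h3 : ({(g, 2), ((S.π ^ 9) g, 1)} : Finset (Dt V)).card ≤ 2 := card_le_two
    rw [card_product, card_range, card_Wd, pow_succ] at h2
    rw [b_eq]
    omega

omit [Fintype V] in
theorem sum_le_Om (hK : S.HInj (S.tube G 10) r) (k : ℕ) {a : V} (ha : a ∈ S.tube G 10)
    (p : List Bool → Prop) [DecidablePred p] (Y : Finset V)
    (hY : ∀ w : List Bool, w.length = r → p w → S.tip a w ∈ Y) :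
    ∑ w ∈ Wd r, (if p w then amt k w else 0) ≤
      (20 * 2 ^ k : ℝ) * Y.card / (20 * 2 ^ r : ℕ) := by
  have h1 : ((Wd r).filter p).card ≤ Y.card := by
    refine card_le_card_of_injOn (S.tip a) (fun w hw => ?_) fun w hw w' hw' h => ?_
    · obtain ⟨h2, h3⟩ := mem_filter.1 (mem_coe.1 hw)
      exact hY w (mem_Wd.1 h2) h3
    · exact (hK.1 a ha a ha w w' (mem_Wd.1 (mem_filter.1 (mem_coe.1 hw)).1).le
        (mem_Wd.1 (mem_filter.1 (mem_coe.1 hw')).1).le h).2
  rw [← sum_filter]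
  refine (sum_le_card_nsmul _ _ ((2 : ℝ) ^ k / 2 ^ r) fun w hw => ?_).trans ?_
  · have := amt_le k w
    rwa [mem_Wd.1 (mem_filter.1 hw).1] at this
  · rw [nsmul_eq_mul]
    have h2 : (((Wd r).filter p).card : ℝ) ≤ Y.card := by exact_mod_cast h1
    calc (((Wd r).filter p).card : ℝ) * (2 ^ k / 2 ^ r) ≤ Y.card * (2 ^ k / 2 ^ r) := by gcongr
      _ = _ := by
        push_cast
        field_simp

omit [Fintype V] in
theorem nu_bounds (hK : S.HInj (S.tube G 10) r) (k : ℕ) {g : V} (hg : g ∈ G) {a : V}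
    (ha : a ∈ S.tube {g} 10) (X : Finset V) :
    0 ≤ S.nu k r a X ∧ S.nu k r a X ≤ 1 ∧
      S.nu k r a X ≤ (20 * 2 ^ k : ℝ) * (S.Om r g ∩ X).card / (20 * 2 ^ r : ℕ) ∧
      1 - S.nu k r a X ≤ (20 * 2 ^ k : ℝ) * (S.Om r g \ X).card / (20 * 2 ^ r : ℕ) := by
  have ha' : a ∈ S.tube G 10 := by
    obtain ⟨x, hx, i, hi, rfl⟩ := S.mem_tube.1 ha
    rw [mem_singleton.1 hx]
    exact pow_mem_tube_Om hg hi
  have h1 : 1 - S.nu k r a X = ∑ w ∈ Wd r, if S.tip a w ∉ X then amt k w else 0 := by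
    rw [← sum_amt k r, nu, ← sum_sub_distrib]
    refine sum_congr rfl fun w _ => ?_
    by_cases h : S.tip a w ∈ X <;> simp [h]
  refine ⟨sum_nonneg fun w _ => ?_, ?_, ?_, ?_⟩
  · split_ifs
    · exact amt_nonneg k w
    · exact le_rfl
  · rw [← sub_nonneg, h1]
    refine sum_nonneg fun w _ => ?_
    split_ifs
    · exact le_rfl
    · exact amt_nonneg k w
  · exact sum_le_Om hK k ha' _ _ fun w hw h => mem_inter.2 ⟨(dart_mem_Om ha hw.le).2, h⟩
  · rw [h1]
    exact sum_le_Om hK k ha' _ _ fun w hw h => mem_sdiff.2 ⟨(dart_mem_Om ha hw.le).2, h⟩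

end Str

end Pool.Agent.MP_9a3194_co

end

section

open Finset
open scoped symmDiff

namespace Pool.Agent.MP_9a3194_co

namespace Str

variable {V : Type} [Fintype V] [DecidableEq V] {S : Str V}

/-- the offset of the switched window -/
def off_Flip (y : V → Bool) (z : V → ℤ) (g : V) : ℕ := if (z g = 1 ↔ y g = true) then 0 else 5

/-- the points of a window of length three, shifted by `s` -/
def Q_Flip (S : Str V) (G : Finset V) (y : V → Bool) (z : V → ℤ) (s : ℕ) (v : V) : Prop :=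
  ∃ g ∈ G, z g ≠ 0 ∧ ∃ n, off_Flip y z g + s ≤ n ∧ n ≤ off_Flip y z g + s + 2 ∧ (S.π ^ n) g = v

omit [Fintype V] [DecidableEq V] in
theorem off_le_Flip (y : V → Bool) (z : V → ℤ) (g : V) : off_Flip y z g ≤ 5 := by
  unfold off_Flip
  split_ifs <;> omega

omit [Fintype V] [DecidableEq V] in
theorem pow_succ_Flip (n : ℕ) (g : V) : (S.π ^ (n + 1)) g = S.π ((S.π ^ n) g) := by
  rw [pow_succ', Equiv.Perm.mul_apply]

omit [Fintype V] [DecidableEq V] in
theorem Q_succ_Flip {G : Finset V} {y : V → Bool} {z : V → ℤ} (s : ℕ) (v : V) :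
    Q_Flip S G y z (s + 1) (S.π v) ↔ Q_Flip S G y z s v := by
  constructor
  · rintro ⟨g, hg, hz, n, h1, h2, h3⟩
    obtain ⟨m, rfl⟩ : ∃ m, n = m + 1 := ⟨n - 1, by omega⟩
    rw [pow_succ_Flip] at h3
    exact ⟨g, hg, hz, m, by omega, by omega, S.π.injective h3⟩
  · rintro ⟨g, hg, hz, n, h1, h2, h3⟩
    exact ⟨g, hg, hz, n + 1, by omega, by omega, by rw [pow_succ_Flip, h3]⟩

omit [Fintype V] [DecidableEq V] in
theorem Q_pred_Flip {G : Finset V} {y : V → Bool} {z : V → ℤ} (s : ℕ) (v : V) :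
    Q_Flip S G y z s (S.π⁻¹ v) ↔ Q_Flip S G y z (s + 1) v := by
  rw [← Q_succ_Flip]
  simp

theorem Q_iff_Flip {k R r l : ℕ} {y : V → Bool} {F G : Finset V} {cell : V → V}
    (h : S.Cfg k R r l y F G cell) {z : V → ℤ} {s : ℕ} (hs : s ≤ 2) {g : V} (hg : g ∈ G)
    (hz : z g ≠ 0) {n : ℕ} (hn : n < 10) :
    Q_Flip S G y z s ((S.π ^ n) g) ↔ off_Flip y z g + s ≤ n ∧ n ≤ off_Flip y z g + s + 2 := by
  constructor
  · rintro ⟨g', hg', -, m, h1, h2, h3⟩
    have := off_le_Flip y z g'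
    obtain ⟨rfl, rfl⟩ := h.injP g' hg' g hg m (by omega) n hn h3
    exact ⟨h1, h2⟩
  · rintro ⟨h1, h2⟩
    exact ⟨g, hg, hz, n, h1, h2, rfl⟩

omit [Fintype V] [DecidableEq V] in
theorem Q_pos_Flip {G : Finset V} {y : V → Bool} {z : V → ℤ} {s : ℕ} (hs : s ≤ 2) {v : V}
    (h : Q_Flip S G y z s v) :
    ∃ g ∈ G, z g ≠ 0 ∧ ∃ i ≤ 4, (S.π ^ (off_Flip y z g + i)) g = v := by
  obtain ⟨g, hg, hz, n, h1, h2, h3⟩ := h
  exact ⟨g, hg, hz, n - off_Flip y z g, by omega, by rwa [Nat.add_sub_cancel' (by omega)]⟩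

theorem notF_Flip {k R r l : ℕ} {y : V → Bool} {F G : Finset V} {cell : V → V}
    (h : S.Cfg k R r l y F G cell) {g : V} (hg : g ∈ G) {n : ℕ} (hn : n < 10) :
    (S.π ^ n) g ∉ F := fun hF => (h.far _ hF g hg).1 (S.mem_Om.2 ⟨n, hn, Or.inl rfl⟩)

theorem y_succ_Flip {k R r l : ℕ} {y : V → Bool} {F G : Finset V} {cell : V → V}
    (h : S.Cfg k R r l y F G cell) {g : V} (hg : g ∈ G) {n : ℕ} (hn : n < 10) :
    y ((S.π ^ (n + 1)) g) = !y ((S.π ^ n) g) := by
  rw [pow_succ_Flip]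
  exact Bool.eq_not.2 (h.col.alt _ (notF_Flip h hg hn)).1

/-- switching the controllers -/
theorem flip {k R r l : ℕ} {y : V → Bool} {F G : Finset V} {cell : V → V}
    (h : S.Cfg k R r l y F G cell) (hr : 2 * k ≤ r) (z : V → ℤ)
    (hz : ∀ g, z g = 0 ∨ g ∈ G ∧ (z g = 1 ∨ z g = -1)) :
    ∃ (y' : V → Bool) (Fc : Finset V) (src : V → Finset V), S.Col k y' (F ∪ Fc) ∧ Disjoint F Fc ∧
      Fc ⊆ S.tube G 10 ∧ (∀ a ∈ F, y' a = y a) ∧
      (∀ g ∈ G, (src g).card = 4 ∧ src g ⊆ S.tube {g} 10) ∧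
      ∀ φ : V → ℝ, ∑ a ∈ Fc, sgn (y' a) / 2 * φ a =
        2 * ∑ g, (z g : ℝ) * ((∑ a ∈ src g, φ a) / 4) := by
  classical
  have ho := off_le_Flip y z
  obtain ⟨y', hy1, hy0⟩ : ∃ y' : V → Bool, (∀ v, Q_Flip S G y z 1 v → y' v = !y v) ∧
      ∀ v, ¬ Q_Flip S G y z 1 v → y' v = y v :=
    ⟨fun v => if Q_Flip S G y z 1 v then !y v else y v, fun v hv => if_pos hv,
      fun v hv => if_neg hv⟩
  obtain ⟨src, hsrc⟩ : ∃ src : V → Finset V, ∀ g, src g =
      ({0, 1, 3, 4} : Finset ℕ).image fun i => (S.π ^ (off_Flip y z g + i)) g := ⟨_, fun _ => rfl⟩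
  have msrc : ∀ g v, v ∈ src g ↔ ∃ i, (i = 0 ∨ i = 1 ∨ i = 3 ∨ i = 4) ∧
      (S.π ^ (off_Flip y z g + i)) g = v := by
    intro g v
    simp only [hsrc, mem_image, mem_insert, mem_singleton]
  obtain ⟨Fc, hFc⟩ : ∃ Fc : Finset V, Fc = (G.filter fun g => z g ≠ 0).biUnion src := ⟨_, rfl⟩
  have mFc : ∀ v, v ∈ Fc ↔ ∃ g ∈ G, z g ≠ 0 ∧ ∃ i, (i = 0 ∨ i = 1 ∨ i = 3 ∨ i = 4) ∧
      (S.π ^ (off_Flip y z g + i)) g = v := by
    intro v
    simp only [hFc, mem_biUnion, mem_filter, msrc, and_assoc]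
  have hQt : ∀ s ≤ 2, ∀ v, Q_Flip S G y z s v → ∃ g ∈ G, ∃ n < 10, (S.π ^ n) g = v := by
    intro s hs v hv
    obtain ⟨g, hg, -, i, hi, hv⟩ := Q_pos_Flip hs hv
    exact ⟨g, hg, _, by have := ho g; omega, hv⟩
  have hQF : ∀ s ≤ 2, ∀ a ∈ F, ¬ Q_Flip S G y z s a := by
    intro s hs a ha hq
    obtain ⟨g, hg, n, hn, rfl⟩ := hQt s hs a hq
    exact notF_Flip h hg hn ha
  have hcol : ∀ g ∈ G, z g ≠ 0 → ∀ i, (i = 0 ∨ i = 1 ∨ i = 3 ∨ i = 4) →
      y' ((S.π ^ (off_Flip y z g + i)) g) = y ((S.π ^ off_Flip y z g) g) := by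
    intro g hg hzg i hi
    have := ho g
    have hq := fun n hn => Q_iff_Flip h (z := z) (s := 1) (by omega) hg hzg (n := n) hn
    have e1 := y_succ_Flip h hg (n := off_Flip y z g) (by omega)
    have e2 := y_succ_Flip h hg (n := off_Flip y z g + 1) (by omega)
    have e3 := y_succ_Flip h hg (n := off_Flip y z g + 2) (by omega)
    have e4 := y_succ_Flip h hg (n := off_Flip y z g + 3) (by omega)
    rcases hi with rfl | rfl | rfl | rfl
    · rw [hy0 _ fun hh => by have := (hq _ (by omega)).1 hh; omega]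
      rfl
    · rw [hy1 _ ((hq _ (by omega)).2 (by omega)), e1, Bool.not_not]
    · rw [hy1 _ ((hq _ (by omega)).2 (by omega)), e3, e2, e1]
      simp only [Bool.not_not]
    · rw [hy0 _ fun hh => by have := (hq _ (by omega)).1 hh; omega, e4, e3, e2, e1]
      simp only [Bool.not_not]
  have h5 : ∀ g ∈ G, y ((S.π ^ 5) g) = !y g := by
    intro g hg
    have e0 := y_succ_Flip h hg (n := 0) (by omega)
    have e1 := y_succ_Flip h hg (n := 1) (by omega)
    have e2 := y_succ_Flip h hg (n := 2) (by omega)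
    have e3 := y_succ_Flip h hg (n := 3) (by omega)
    have e4 := y_succ_Flip h hg (n := 4) (by omega)
    rw [e4, e3, e2, e1, e0]
    simp
  have hFt : Fc ⊆ S.tube G 10 := by
    intro v hv
    obtain ⟨g, hg, -, i, hi, hv⟩ := (mFc v).1 hv
    exact S.mem_tube.2 ⟨g, hg, _, by have := ho g; omega, hv⟩
  refine ⟨y', Fc, src, ⟨?_, ?_, ?_⟩, ?_, hFt, fun a ha => hy0 a (hQF 1 (by omega) a ha), ?_, ?_⟩
  · intro v hv
    rw [mem_union, not_or] at hv
    have ha := h.col.alt v hv.1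
    by_cases hq : Q_Flip S G y z 0 v ∨ Q_Flip S G y z 1 v ∨ Q_Flip S G y z 2 v
    · have h1 : ∃ g ∈ G, z g ≠ 0 ∧ ∃ i ≤ 4, (S.π ^ (off_Flip y z g + i)) g = v := by
        rcases hq with hq | hq | hq <;> exact Q_pos_Flip (by omega) hq
      obtain ⟨g, hg, hzg, i, hi, rfl⟩ := h1
      have h2 : i = 2 := by
        by_contra h2
        exact hv.2 ((mFc _).2 ⟨g, hg, hzg, i, by omega, rfl⟩)
      subst h2
      have := ho g
      rw [hy1 _ ((Q_succ_Flip 0 _).2 ((Q_iff_Flip h (by omega) hg hzg (by omega)).2 (by omega))),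
        hy1 _ ((Q_pred_Flip 1 _).2 ((Q_iff_Flip h (by omega) hg hzg (by omega)).2 (by omega))),
        hy1 _ ((Q_iff_Flip h (by omega) hg hzg (by omega)).2 (by omega))]
      exact ⟨fun e => ha.1 (Bool.not_inj e), fun e => ha.2 (Bool.not_inj e)⟩
    · rw [not_or, not_or] at hq
      rw [hy0 _ fun hh => hq.1 ((Q_succ_Flip 0 _).1 hh),
        hy0 _ fun hh => hq.2.2 ((Q_pred_Flip 1 _).1 hh), hy0 _ hq.2.1]
      exact ha
  · intro a ha
    rcases mem_union.1 ha with ha | ha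
    · rw [hy0 _ fun hh => hQF 0 (by omega) a ha ((Q_succ_Flip 0 _).1 hh),
        hy0 _ fun hh => hQF 2 (by omega) a ha ((Q_pred_Flip 1 _).1 hh)]
      exact h.col.src a ha
    · obtain ⟨g, hg, hzg, i, hi, rfl⟩ := (mFc a).1 ha
      have := ho g
      have hn : off_Flip y z g + i < 10 := by omega
      have ha := h.col.alt _ (notF_Flip h hg hn)
      have e : y (S.π ((S.π ^ (off_Flip y z g + i)) g)) =
          y (S.π⁻¹ ((S.π ^ (off_Flip y z g + i)) g)) := by
        rw [Bool.eq_not.2 ha.1, Bool.eq_not.2 ha.2]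
      have q0 := (Q_succ_Flip 0 _).trans (Q_iff_Flip h (z := z) (s := 0) (by omega) hg hzg hn)
      have q2 := (Q_pred_Flip 1 _).trans (Q_iff_Flip h (z := z) (s := 2) (by omega) hg hzg hn)
      by_cases hi1 : i ≤ 1
      · rw [hy1 _ (q0.2 (by omega)), hy0 _ fun hh => by have := q2.1 hh; omega, e]
        exact Bool.not_ne_self _
      · rw [hy0 _ fun hh => by have := q0.1 hh; omega, hy1 _ (q2.2 (by omega)), e]
        exact (Bool.not_ne_self _).symm
  · intro a ha w hw1 hw2 hw3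
    rcases mem_union.1 ha with ha | ha
    · rw [hy0 a (hQF 1 (by omega) a ha), hy0]
      · exact h.col.good a ha w hw1 hw2 hw3
      · intro hq
        obtain ⟨g, hg, n, hn, e⟩ := hQt 1 (by omega) _ hq
        exact (h.far a ha g hg).2 w hw2.le (S.mem_Om.2 ⟨n, hn, Or.inl e⟩)
    · have ht := h.injK.2 a (hFt ha) w (by omega)
      obtain ⟨g, hg, hzg, i, hi, rfl⟩ := (mFc a).1 ha
      rw [hcol g hg hzg i hi, hy0 _ fun hq => ht (S.mem_tube.2 (hQt 1 (by omega) _ hq))]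
      by_cases hc : z g = 1 ↔ y g = true
      · have e : off_Flip y z g = 0 := if_pos hc
        rw [e, pow_zero, Equiv.Perm.one_apply, zero_add]
        exact (h.pat g hg).1 i (by simp only [mem_insert, mem_singleton]; omega) w hw1 hw2 hw3
      · have e : off_Flip y z g = 5 := if_neg hc
        rw [e, h5 g hg]
        exact (h.pat g hg).2 (5 + i) (by simp only [mem_insert, mem_singleton]; omega)
          w hw1 hw2 hw3
  · rw [disjoint_left]
    intro a ha hc
    obtain ⟨g, hg, n, hn, rfl⟩ := S.mem_tube.1 (hFt hc)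
    exact notF_Flip h hg hn ha
  · intro g hg
    have := ho g
    refine ⟨?_, fun v hv => ?_⟩
    · rw [hsrc, card_image_of_injOn]
      · rfl
      · intro i hi j hj e
        simp only [coe_insert, coe_singleton, Set.mem_insert_iff, Set.mem_singleton_iff] at hi hj
        have := (h.injP g hg g hg _ (by omega) _ (by omega) e).2
        omega
    · obtain ⟨i, hi, hv⟩ := (msrc g v).1 hv
      exact S.mem_tube.2 ⟨g, mem_singleton_self g, _, by omega, hv⟩
  · intro φ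
    rw [hFc, sum_biUnion, mul_sum]
    · refine sum_subset_zero_on_sdiff (subset_univ _) ?_ ?_
      · intro g hg
        have h0 : z g = 0 := by
          by_contra h0
          rcases hz g with h1 | h1
          · exact h0 h1
          · exact (mem_sdiff.1 hg).2 (mem_filter.2 ⟨h1.1, h0⟩)
        simp [h0]
      · intro g hg
        obtain ⟨hg, hzg⟩ := mem_filter.1 hg
        have e : ∀ a ∈ src g, sgn (y' a) / 2 * φ a = (z g : ℝ) / 2 * φ a := by
          intro a ha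
          obtain ⟨i, hi, rfl⟩ := (msrc g a).1 ha
          rw [hcol g hg hzg i hi]
          congr 2
          have h1 : z g = 1 ∨ z g = -1 := ((hz g).resolve_left hzg).2
          by_cases hc : z g = 1 ↔ y g = true
          · have e : off_Flip y z g = 0 := if_pos hc
            rw [e, pow_zero, Equiv.Perm.one_apply]
            rcases h1 with h1 | h1 <;> cases hy : y g <;> simp_all [sgn]
          · have e : off_Flip y z g = 5 := if_neg hc
            rw [e, h5 g hg]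
            rcases h1 with h1 | h1 <;> cases hy : y g <;> simp_all [sgn]
        rw [sum_congr rfl e, ← mul_sum]
        ring
    · intro g hg g' hg' hne
      obtain ⟨hg, -⟩ := mem_filter.1 (mem_coe.1 hg)
      obtain ⟨hg', -⟩ := mem_filter.1 (mem_coe.1 hg')
      rw [Function.onFun, disjoint_left]
      intro v hv hv'
      obtain ⟨i, hi, e⟩ := (msrc g v).1 hv
      obtain ⟨j, hj, e'⟩ := (msrc g' v).1 hv'
      have := ho g
      have := ho g'
      exact hne (h.injP g hg g' hg' _ (by omega) _ (by omega) (e.trans e'.symm)).1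

end Str

end Pool.Agent.MP_9a3194_co

end

section

open Finset
open scoped symmDiff

namespace Pool.Agent.MP_9a3194_co

theorem even_Bal {V : Type} [Fintype V] (S : Str V) (hμ : ∀ v, S.μ v ≠ v) (y : V → Bool) :
    ∃ m : ℤ, ∑ v, sgn (y v) = 2 * m := by
  classical
  have h0 : ∑ _v : V, (1 : ZMod 2) = 0 :=
    Finset.sum_involution (fun v _ => S.μ v) (fun _ _ => by decide) (fun v _ _ => hμ v)
      (fun _ _ => mem_univ _) (fun v _ => S.μμ v)
  rw [sum_const, card_univ, nsmul_eq_mul, mul_one, ZMod.natCast_eq_zero_iff_even] at h0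
  obtain ⟨n, hn⟩ := h0
  refine ⟨(n : ℤ) - ((univ.filter fun v => y v = false).card : ℤ), ?_⟩
  have e : ∀ v, sgn (y v) = 1 - 2 * (if y v = false then (1 : ℝ) else 0) := fun v => by
    cases y v <;> simp [sgn]
    norm_num
  simp only [e]
  rw [sum_sub_distrib, ← mul_sum, sum_boole, sum_const, card_univ, hn]
  push_cast
  simp only [nsmul_eq_mul]
  push_cast
  ring

theorem edge_Bal {V : Type} {S : Str V} {k : ℕ} {y : V → Bool} {a : V} (h : S.Good k y a (y a))
    {w : List Bool} {d : Dt V} {x : ℝ}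
    (hd : d = S.dart a w ∧ x = sgn (y a) / 2 * amt k w ∨
      d = S.rv (S.dart a w) ∧ x = -(sgn (y a) / 2 * amt k w)) :
    |S.base y d + x| ≤ 1 / 2 + 1 / 2 ^ (k + 2) := by
  rcases hd with ⟨rfl, rfl⟩ | ⟨rfl, rfl⟩
  · exact Str.edge_good h w
  · rw [S.base_anti y, ← neg_add, abs_neg]
    exact Str.edge_good h w

theorem bound_Bal {V : Type} [Fintype V] [DecidableEq V] {S : Str V} {k R r l : ℕ}
    {y y' : V → Bool} {F G Fc : Finset V} {cell : V → V} (h : S.Cfg k R r l y F G cell)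
    (hc : S.Col k y' (F ∪ Fc)) (hFc : Fc ⊆ S.tube G 10) (hy : ∀ a ∈ F, y' a = y a)
    {d : Dt V} {x₁ x₂ : ℝ}
    (h1 : x₁ = 0 ∨ ∃ a ∈ F, ∃ w : List Bool, w.length ≤ R ∧
      (d = S.dart a w ∧ x₁ = sgn (y a) / 2 * amt k w ∨
        d = S.rv (S.dart a w) ∧ x₁ = -(sgn (y a) / 2 * amt k w)))
    (h2 : x₂ = 0 ∨ ∃ a ∈ Fc, ∃ w : List Bool, w.length ≤ r ∧
      (d = S.dart a w ∧ x₂ = sgn (y' a) / 2 * amt k w ∨
        d = S.rv (S.dart a w) ∧ x₂ = -(sgn (y' a) / 2 * amt k w))) :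
    |S.base y' d + x₁ + x₂| ≤ 1 / 2 + 2 / 2 ^ (k + 2) := by
  have hp : (0 : ℝ) < 1 / 2 ^ (k + 2) := by positivity
  have e2 : (2 : ℝ) / 2 ^ (k + 2) = 1 / 2 ^ (k + 2) + 1 / 2 ^ (k + 2) := by ring
  have hb2 : |S.base y' d + x₂| ≤ 1 / 2 + 1 / 2 ^ (k + 2) := by
    rcases h2 with rfl | ⟨a, ha, w, -, hd⟩
    · rw [add_zero]
      linarith [S.abs_base_le y' d]
    · exact edge_Bal (hc.good a (mem_union_right _ ha)) hd
  have hsm : |x₁| ≤ 1 / 2 ^ (k + 2) → |S.base y' d + x₁ + x₂| ≤ 1 / 2 + 2 / 2 ^ (k + 2) := by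
    intro hx
    have e : S.base y' d + x₁ + x₂ = (S.base y' d + x₂) + x₁ := by ring
    rw [e, e2]
    linarith [abs_add_le (S.base y' d + x₂) x₁]
  rcases h1 with rfl | ⟨a, ha, w, -, hd⟩
  · exact hsm (by rw [abs_zero]; exact hp.le)
  · by_cases hw : w.length ≤ 2 * k
    · have hx2 : x₂ = 0 := by
        rcases h2 with h2 | ⟨a', ha', w', hw', hd'⟩
        · exact h2
        · exfalso
          obtain ⟨g, hg, i, hi, hgi⟩ := S.mem_tube.1 (hFc ha')
          have ha'' : a' ∈ S.tube {g} 10 := S.mem_tube.2 ⟨g, mem_singleton_self g, i, hi, hgi⟩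
          obtain ⟨k1, k2⟩ := Str.dart_mem_Om (r := r) ha'' hw'
          have k3 : d.1 ∈ S.Om r g ∧ S.hd d ∈ S.Om r g := by
            rcases hd' with ⟨hd', -⟩ | ⟨hd', -⟩
            · rw [hd']
              exact ⟨k1, k2⟩
            · rw [hd', S.hd_rv, S.rv_fst]
              exact ⟨k2, k1⟩
          refine (h.far a ha g hg).2 w hw ?_
          rcases hd with ⟨hd, -⟩ | ⟨hd, -⟩
          · rw [hd] at k3
            exact k3.2
          · rw [hd, S.rv_fst] at k3
            exact k3.1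
      rw [← hy a ha] at hd
      have := edge_Bal (hc.good a (mem_union_left _ ha)) hd
      rw [hx2, add_zero, e2]
      linarith
    · refine hsm ?_
      have := Str.edge_deep (k := k) (y a) (not_le.1 hw)
      rcases hd with ⟨-, hd⟩ | ⟨-, hd⟩
      · rw [hd]
        exact this
      · rw [hd, abs_neg]
        exact this

theorem avg_Bal {V : Type} {s : Finset V} (hs : s.card = 4) {φ : V → ℝ} {P Q : ℝ}
    (h : ∀ a ∈ s, 0 ≤ φ a ∧ φ a ≤ 1 ∧ φ a ≤ P ∧ 1 - φ a ≤ Q) :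
    0 ≤ (∑ a ∈ s, φ a) / 4 ∧ (∑ a ∈ s, φ a) / 4 ≤ 1 ∧ (∑ a ∈ s, φ a) / 4 ≤ P ∧
      1 - (∑ a ∈ s, φ a) / 4 ≤ Q := by
  have e1 := sum_nonneg fun a ha => (h a ha).1
  have e2 := sum_le_card_nsmul s φ 1 fun a ha => (h a ha).2.1
  have e3 := sum_le_card_nsmul s φ P fun a ha => (h a ha).2.2.1
  have e4 := card_nsmul_le_sum s φ (1 - Q) fun a ha => by linarith [(h a ha).2.2.2]
  rw [hs, nsmul_eq_mul] at e2 e3 e4
  push_cast at e2 e3 e4
  refine ⟨by linarith, by linarith, by linarith, by linarith⟩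

/-- almost half balanced colourings -/
theorem bal {δ : ℝ} (hδ : 0 < δ) : ∃ c : ℕ, ∀ {V : Type} [Fintype V] [DecidableEq V] (S : Str V),
    c ≤ Fintype.card V → S.Iso c → (∀ v, S.μ v ≠ v) ∧ ∃ y : V → Bool, ∑ v, sgn (y v) = 0 ∧
      ∀ X : Finset V, ∑ v ∈ X, sgn (y v) ≤ (1 / 4 + δ) * S.b X := by
  obtain ⟨k, hk⟩ : ∃ k : ℕ, (1 : ℝ) / 2 ^ (k + 2) ≤ δ / 2 := by
    obtain ⟨n, hn⟩ := exists_pow_lt_of_lt_one hδ (by norm_num : (1 / 2 : ℝ) < 1)
    refine ⟨n, ?_⟩
    rw [one_div_pow] at hn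
    have e : (1 : ℝ) / 2 ^ (n + 2) = 1 / 2 ^ n / 4 := by
      rw [pow_add]
      field_simp
      norm_num
    rw [e]
    linarith
  have hK : (1 : ℝ) ≤ 20 * 2 ^ k := by
    have : (1 : ℝ) ≤ 2 ^ k := one_le_pow₀ (by norm_num)
    linarith
  obtain ⟨ω₀, l₀, A, hA, hsign⟩ := sign (half_pos hδ) hK
  obtain ⟨r, hr, hrω⟩ : ∃ r : ℕ, 2 * k ≤ r ∧ ω₀ ≤ 20 * 2 ^ r := by
    refine ⟨2 * k + ω₀, by omega, ?_⟩
    have := Nat.lt_two_pow_self (n := 2 * k + ω₀)
    omega
  obtain ⟨R, l, c₀, -, hl, hAl, hcfg⟩ := cfg k r l₀ (2 ^ k * A)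
  refine ⟨2 * (c₀ + 2) + 1 + 20 * 2 ^ r + 2 + ⌈A * (l : ℝ) ^ 2⌉₊ + 1, ?_⟩
  intro V _ _ S hV hI
  have hG : S.Gir (c₀ + 2) := (hI.mono (by omega)).gir (by omega)
  have hμ : ∀ v, S.μ v ≠ v := hG.mu_ne (by omega)
  refine ⟨hμ, ?_⟩
  obtain ⟨y, F, G, cell, h⟩ := hcfg S (hG.mono (by omega))
  have hs : ∀ (y : V → Bool) (a : V), |sgn (y a) / 2| ≤ 1 := fun y a => by
    rw [abs_div, abs_sgn]
    norm_num
  obtain ⟨f₁, hf₁, hd₁, he₁⟩ := Str.push k h.injF fun a => sgn (y a) / 2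
  obtain ⟨q, hq⟩ : ∃ q : V → ℝ, q = fun v => ∑ a ∈ F, ∑ w ∈ Wd R,
    if S.tip a w = v then sgn (y a) / 2 * amt k w else 0 := ⟨_, rfl⟩
  obtain ⟨m, hm⟩ := even_Bal S hμ y
  have hqm : ∑ v, q v = 2 * m := by
    rw [← hm, hq, Str.leaf_sum k R F (fun a => sgn (y a) / 2) univ,
      sum_congr rfl fun v _ => h.col.dv_base v, sum_add_distrib,
      S.sum_dv_univ (S.base_anti y), zero_add, sum_ite_mem, univ_inter]
    exact sum_congr rfl fun a _ => by rw [Str.nu_univ, mul_one]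
  have hqp : ∀ v, |q v| ≤ 2 ^ k / 2 ^ R := fun v => by
    rw [hq]
    exact Str.leaf_le k h.injF _ (hs y) v
  obtain ⟨z, hz, hz0, hzX⟩ := hsign S _ (20 * 2 ^ r) l G (S.Om r) cell q (2 ^ k / 2 ^ R) m hrω hl
    (by omega) (by
      have := Nat.le_ceil (A * (l : ℝ) ^ 2)
      have h2 : (0 : ℝ) ≤ ((2 * (c₀ + 2) + 1 + 20 * 2 ^ r + 2 : ℕ) : ℝ) := Nat.cast_nonneg _
      rw [Nat.cast_add, Nat.cast_add _ ⌈A * (l : ℝ) ^ 2⌉₊, Nat.cast_one]
      linarith) hV hI h.part (Str.om_trees h.injK h.injP) hqp (by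
      rw [div_mul_eq_mul_div, div_mul_eq_mul_div, div_le_one (by positivity)]
      exact hAl) hqm
  obtain ⟨y', Fc, src, hc, hdj, hFc, hy, hsrc, hφ⟩ := Str.flip h hr z hz
  obtain ⟨f₂, hf₂, hd₂, he₂⟩ := Str.push k (h.injK.mono hFc le_rfl) fun a => sgn (y' a) / 2
  obtain ⟨f, hf⟩ : ∃ f : Dt V → ℝ, f = fun d => S.base y' d + f₁ d + f₂ d := ⟨_, rfl⟩
  have hfa : S.Anti f := fun d => by
    simp only [hf]
    rw [S.base_anti y' d, hf₁ d, hf₂ d]
    ring
  have hfb : ∀ d, |f d| ≤ 1 / 2 + 2 / 2 ^ (k + 2) := fun d => by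
    simp only [hf]
    exact bound_Bal h hc hFc hy (he₁ d) (he₂ d)
  have hpt : ∀ v, sgn (y' v) = dv f v + q v + ∑ a ∈ Fc, ∑ w ∈ Wd r,
      if S.tip a w = v then sgn (y' a) / 2 * amt k w else 0 := fun v => by
    have e : dv f v = dv (S.base y') v + dv f₁ v + dv f₂ v := by
      simp only [hf, dv, sum_add_distrib]
    have e1 := hc.dv_base v
    have e2 : (if v ∈ F ∪ Fc then sgn (y' v) / 2 else 0) =
        (if v ∈ F then sgn (y v) / 2 else 0) + if v ∈ Fc then sgn (y' v) / 2 else 0 := by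
      by_cases h1 : v ∈ F
      · rw [if_pos (mem_union_left _ h1), if_pos h1, if_neg (disjoint_left.1 hdj h1), hy v h1,
          add_zero]
      · by_cases h2 : v ∈ Fc
        · rw [if_pos (mem_union_right _ h2), if_neg h1, if_pos h2, zero_add]
        · rw [if_neg (fun h3 => (mem_union.1 h3).elim h1 h2), if_neg h1, if_neg h2, add_zero]
    rw [e, hd₁ v, hd₂ v]
    simp only [hq]
    linarith
  have hX : ∀ X : Finset V, ∑ v ∈ X, sgn (y' v) = ∑ v ∈ X, dv f v +
      (∑ v ∈ X, q v + 2 * ∑ g, (z g : ℝ) * ((∑ a ∈ src g, S.nu k r a X) / 4)) := fun X => by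
    rw [sum_congr rfl fun v _ => hpt v, sum_add_distrib, sum_add_distrib,
      Str.leaf_sum k r Fc (fun a => sgn (y' a) / 2) X, hφ fun a => S.nu k r a X, add_assoc]
  refine ⟨y', ?_, fun X => ?_⟩
  · rw [hX univ, S.sum_dv_univ hfa, zero_add, ← hz0]
    congr 2
    refine sum_congr rfl fun g _ => ?_
    rcases hz g with h0 | ⟨hg, -⟩
    · rw [h0]
      simp
    · simp only [Str.nu_univ]
      rw [sum_const, (hsrc g hg).1]
      norm_num
  · have e1 := (le_abs_self _).trans (S.abs_sum_dv_le hfa hfb X)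
    have e2 := hzX X (fun g => (∑ a ∈ src g, S.nu k r a X) / 4) fun g hg =>
      avg_Bal (hsrc g hg).1 fun a ha => Str.nu_bounds h.injK k hg ((hsrc g hg).2 ha) X
    have hb : (0 : ℝ) ≤ S.b X := Nat.cast_nonneg _
    have e3 := mul_le_mul_of_nonneg_right hk hb
    have e4 : (1 / 2 + 2 / 2 ^ (k + 2) : ℝ) / 2 * S.b X =
        1 / 4 * S.b X + 1 / 2 ^ (k + 2) * S.b X := by ring
    rw [hX X]
    linarith

end Pool.Agent.MP_9a3194_co

end

section

open Finset
open scoped symmDiff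

namespace Pool.Agent.MP_9a3194_co

variable {V : Type} [Fintype V] [DecidableEq V] (S : Str V)

omit [Fintype V] [DecidableEq V] in
private theorem rv_ne_Hof (hμ : ∀ v, S.μ v ≠ v) (d : Dt V) : S.rv d ≠ d := by
  obtain ⟨v, i⟩ := d
  intro h
  have h1 : S.step v i = v := congrArg Prod.fst h
  have h2 : rd i = i := congrArg Prod.snd h
  fin_cases i
  · exact hμ v h1
  · exact absurd h2 (by decide)
  · exact absurd h2 (by decide)

private theorem sum_id_Hof (c : ℤ) (φ : Dt V → ℤ) (hφ : ∀ d, φ (S.rv d) = c - φ d)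
    (X : Finset V) :
    2 * ∑ v ∈ X, ∑ i, φ (v, i) = 3 * c * X.card + ∑ d ∈ S.out X, (2 * φ d - c) := by
  have hA : S.Anti (fun d => 2 * (φ d : ℝ) - c) := by
    intro d
    simp only [hφ d]
    push_cast
    ring
  have h1 := S.sum_dv hA X
  have h2 : ∀ v, dv (fun d => 2 * (φ d : ℝ) - c) v = 2 * ∑ i, (φ (v, i) : ℝ) - 3 * c := by
    intro v
    simp only [dv, Fin.sum_univ_three]
    ring
  simp only [h2, Finset.sum_sub_distrib, Finset.sum_const, nsmul_eq_mul, ← Finset.mul_sum] at h1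
  have h3 : ((2 * ∑ v ∈ X, ∑ i, φ (v, i) : ℤ) : ℝ) =
      ((3 * c * X.card + ∑ d ∈ S.out X, (2 * φ d - c) : ℤ) : ℝ) := by
    push_cast
    simp only [Finset.sum_sub_distrib, Finset.sum_const, nsmul_eq_mul, ← Finset.mul_sum]
    linarith
  exact_mod_cast h3

private theorem grow_Hof (lo hi : ℤ) (φ : Dt V → ℤ) (hφ : ∀ d, φ (S.rv d) = lo + hi - φ d)
    (hb : ∀ d, lo ≤ φ d ∧ φ d ≤ hi) (v0 : V) :
    ∃ X : Finset V, v0 ∈ X ∧ (∀ d ∈ S.out X, φ d = hi) ∧ ∀ w ∈ X, ∃ ψ : Dt V → ℤ,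
      (∀ d, ψ (S.rv d) = lo + hi - ψ d) ∧ (∀ d, lo ≤ ψ d ∧ ψ d ≤ hi) ∧
      ∀ v, ∑ i, ψ (v, i) =
        ∑ i, φ (v, i) + (if v = v0 then 1 else 0) - (if v = w then 1 else 0) := by
  classical
  let P : Finset V → Prop := fun X => v0 ∈ X ∧ ∀ w ∈ X, ∃ ψ : Dt V → ℤ,
      (∀ d, ψ (S.rv d) = lo + hi - ψ d) ∧ (∀ d, lo ≤ ψ d ∧ ψ d ≤ hi) ∧
      (∀ d : Dt V, ¬ (d.1 ∈ X ∧ S.hd d ∈ X) → ψ d = φ d) ∧
      ∀ v, ∑ i, ψ (v, i) =
        ∑ i, φ (v, i) + (if v = v0 then 1 else 0) - (if v = w then 1 else 0)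
  have hP0 : P {v0} := by
    refine ⟨Finset.mem_singleton_self _, fun w hw => ⟨φ, hφ, hb, fun _ _ => rfl, fun v => ?_⟩⟩
    rw [Finset.mem_singleton.1 hw]
    ring
  obtain ⟨X, hX, hmax⟩ := Finset.exists_max_image (univ.filter P) Finset.card
    ⟨{v0}, Finset.mem_filter.2 ⟨Finset.mem_univ _, hP0⟩⟩
  obtain ⟨hv0, hX⟩ := (Finset.mem_filter.1 hX).2
  refine ⟨X, hv0, ?_, fun w hw => ?_⟩
  swap
  · obtain ⟨ψ, h1, h2, -, h4⟩ := hX w hw
    exact ⟨ψ, h1, h2, h4⟩
  intro e he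
  by_contra hne
  have hlt : φ e < hi := lt_of_le_of_ne (hb e).2 hne
  obtain ⟨he1, he2⟩ := S.mem_out.1 he
  have hre : S.rv e ≠ e := by
    intro h
    apply he2
    rw [← S.rv_fst, h]
    exact he1
  have hP1 : P (insert (S.hd e) X) := by
    refine ⟨Finset.mem_insert_of_mem hv0, fun w hw => ?_⟩
    rcases Finset.mem_insert.1 hw with rfl | hw
    · obtain ⟨ψ, h1, h2, h3, h4⟩ := hX e.1 he1
      have hψe : ψ e = φ e := h3 e (fun h => he2 h.2)
      refine ⟨fun d => ψ d + (if d = e then 1 else 0) - (if d = S.rv e then 1 else 0),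
        fun d => ?_, fun d => ?_, fun d hd => ?_, fun v => ?_⟩
      · have a1 : (S.rv d = e) ↔ d = S.rv e :=
          ⟨fun h => by rw [← h, S.rv_rv], fun h => by rw [h, S.rv_rv]⟩
        have a2 : (S.rv d = S.rv e) ↔ d = e :=
          ⟨fun h => by rw [← S.rv_rv d, h, S.rv_rv], fun h => by rw [h]⟩
        simp only [a1, a2, h1 d]
        ring
      · by_cases a1 : d = e
        · subst a1
          simp only [if_true, if_neg hre.symm]
          have := h2 d
          omega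
        · by_cases a2 : d = S.rv e
          · subst a2
            simp only [if_true, if_neg a1, h1 e]
            have := h2 e
            omega
          · simp only [if_neg a1, if_neg a2]
            have := h2 d
            omega
      · have a1 : d ≠ e := by
          rintro rfl
          exact hd ⟨Finset.mem_insert_of_mem he1, Finset.mem_insert_self _ _⟩
        have a2 : d ≠ S.rv e := by
          rintro rfl
          refine hd ⟨Finset.mem_insert_self _ _, ?_⟩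
          rw [S.hd_rv]
          exact Finset.mem_insert_of_mem he1
        simp only [if_neg a1, if_neg a2]
        rw [h3 d (fun h => hd ⟨Finset.mem_insert_of_mem h.1, Finset.mem_insert_of_mem h.2⟩)]
        ring
      · have key : ∀ e' : Dt V, ∑ i : Fin 3, (if (v, i) = e' then (1 : ℤ) else 0) =
            if v = e'.1 then 1 else 0 := by
          rintro ⟨u, j⟩
          by_cases hu : v = u
          · subst hu
            simp
          · simp [hu]
        have k2 : ∑ i : Fin 3, (if (v, i) = S.rv e then (1 : ℤ) else 0) =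
            if v = S.hd e then 1 else 0 := key (S.rv e)
        simp only [Finset.sum_sub_distrib, Finset.sum_add_distrib, key e, k2, h4 v]
        ring
    · obtain ⟨ψ, h1, h2, h3, h4⟩ := hX w hw
      exact ⟨ψ, h1, h2, fun d hd => h3 d
        (fun h => hd ⟨Finset.mem_insert_of_mem h.1, Finset.mem_insert_of_mem h.2⟩), h4⟩
  have := hmax _ (Finset.mem_filter.2 ⟨Finset.mem_univ _, hP1⟩)
  rw [Finset.card_insert_of_notMem he2] at this
  omega

omit [Fintype V] [DecidableEq V] in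
private theorem sum_sgn_Hof (y : V → Bool) (a : ℤ) (X : Finset V) :
    ((2 * ∑ v ∈ X, (if y v then 2 * a else a) : ℤ) : ℝ) =
      3 * a * X.card + a * ∑ v ∈ X, sgn (y v) := by
  have h1 : ∀ v, 2 * (((if y v then 2 * a else a : ℤ)) : ℝ) = 3 * a + a * sgn (y v) := by
    intro v
    cases y v
    · simp [sgn]
      ring
    · simp [sgn]
      ring
  rw [Int.cast_mul, Int.cast_sum, Int.cast_ofNat, Finset.mul_sum, Finset.mul_sum]
  simp only [h1, Finset.sum_add_distrib, Finset.sum_const, nsmul_eq_mul]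
  ring

/-- integral Hoffman theorem on darts -/
theorem hof (hμ : ∀ v, S.μ v ≠ v) (lo hi : ℤ) (h : lo ≤ hi) (β : V → ℤ)
    (htot : 2 * ∑ v, β v = 3 * (lo + hi) * Fintype.card V)
    (hcut : ∀ X : Finset V,
      2 * ∑ v ∈ X, β v ≤ 3 * (lo + hi) * X.card + (hi - lo) * (S.out X).card) :
    ∃ φ : Dt V → ℤ, (∀ d, φ (S.rv d) = lo + hi - φ d) ∧ (∀ d, lo ≤ φ d ∧ φ d ≤ hi) ∧
      ∀ v, ∑ i, φ (v, i) = β v := by
  classical
  have step : ∀ n : ℕ, ∀ φ : Dt V → ℤ, (∀ d, φ (S.rv d) = lo + hi - φ d) →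
      (∀ d, lo ≤ φ d ∧ φ d ≤ hi) → ∑ v, (∑ i, φ (v, i) - β v).natAbs = n →
      ∃ φ : Dt V → ℤ, (∀ d, φ (S.rv d) = lo + hi - φ d) ∧ (∀ d, lo ≤ φ d ∧ φ d ≤ hi) ∧
        ∀ v, ∑ i, φ (v, i) = β v := by
    intro n
    induction n using Nat.strong_induction_on with
    | _ n ih =>
      intro φ hφ hb hn
      by_cases hex : ∃ v0, ∑ i, φ (v0, i) < β v0
      · obtain ⟨v0, hv0⟩ := hex
        obtain ⟨X, hX0, hout, hX⟩ := grow_Hof S lo hi φ hφ hb v0
        by_cases hw : ∃ w ∈ X, β w < ∑ i, φ (w, i)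
        · obtain ⟨w, hwX, hw⟩ := hw
          obtain ⟨ψ, h1, h2, h4⟩ := hX w hwX
          have hne : v0 ≠ w := by
            rintro rfl
            omega
          refine ih _ ?_ ψ h1 h2 rfl
          rw [← hn]
          refine Finset.sum_lt_sum (fun v _ => ?_) ⟨v0, Finset.mem_univ _, ?_⟩
          · rw [h4 v]
            by_cases a1 : v = v0
            · subst a1
              simp only [if_true, if_neg hne]
              omega
            · by_cases a2 : v = w
              · subst a2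
                simp only [if_true, if_neg a1]
                omega
              · simp only [if_neg a1, if_neg a2]
                omega
          · rw [h4 v0]
            simp only [if_true, if_neg hne]
            omega
        · exfalso
          push Not at hw
          have h1 : ∑ v ∈ X, ∑ i, φ (v, i) < ∑ v ∈ X, β v :=
            Finset.sum_lt_sum hw ⟨v0, hX0, hv0⟩
          have h2 := sum_id_Hof S (lo + hi) φ hφ X
          have h3 : ∑ d ∈ S.out X, (2 * φ d - (lo + hi)) = (hi - lo) * (S.out X).card := by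
            rw [Finset.sum_congr rfl (g := fun _ => hi - lo) (fun d hd => by rw [hout d hd]; ring)]
            simp only [Finset.sum_const, nsmul_eq_mul]
            ring
          have h4 := hcut X
          rw [h3] at h2
          linarith
      · push Not at hex
        refine ⟨φ, hφ, hb, ?_⟩
        have h2 := sum_id_Hof S (lo + hi) φ hφ univ
        have h3 : S.out univ = ∅ := by
          ext d
          simp [S.mem_out]
        rw [h3, Finset.sum_empty, Finset.card_univ] at h2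
        have h4 : ∑ v, β v = ∑ v, ∑ i, φ (v, i) := by linarith
        intro v
        exact ((Finset.sum_eq_sum_iff_of_le (fun v _ => hex v)).1 h4 v (Finset.mem_univ _)).symm
  let e := Fintype.equivFin (Dt V)
  refine step _ (fun d => if e d < e (S.rv d) then lo else hi) (fun d => ?_) (fun d => ?_) rfl
  · have hne : e (S.rv d) ≠ e d := fun hh => rv_ne_Hof S hμ d (e.injective hh)
    simp only [S.rv_rv]
    rcases lt_or_gt_of_ne hne with h1 | h1
    · rw [if_pos h1, if_neg (not_lt.2 h1.le)]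
      ring
    · rw [if_neg (not_lt.2 h1.le), if_pos h1]
      ring
  · split_ifs
    · exact ⟨le_rfl, h⟩
    · exact ⟨h, le_rfl⟩

/-- a balanced colouring gives a `(p, q)`-flow -/
theorem flow_of_bal (hμ : ∀ v, S.μ v ≠ v) (p q : ℕ) (hp : 0 < p) (hq : 2 * q ≤ p) (y : V → Bool)
    (h0 : ∑ v, sgn (y v) = 0)
    (hc : ∀ X : Finset V, (p : ℝ) * ∑ v ∈ X, sgn (y v) ≤ ((p : ℝ) - 2 * q) / 2 * S.b X) :
    ∃ f : Dt V → ℤ, (∀ d, f (S.rv d) = -f d) ∧ (∀ d, (q : ℤ) ≤ |f d| ∧ |f d| ≤ p - q) ∧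
      ∀ v, ∑ i, f (v, i) = 0 := by
  have hpq : (2 * q : ℤ) ≤ p := by exact_mod_cast hq
  have hpR : (0 : ℝ) < p := by exact_mod_cast hp
  have hc' : ∀ X : Finset V,
      (p : ℝ) * ∑ v ∈ X, sgn (y v) ≤ ((p : ℝ) - 2 * q) * (S.out X).card := by
    intro X
    have := hc X
    rw [S.b_eq] at this
    push_cast at this
    linarith
  obtain ⟨φ, a1, a2, a3⟩ := hof S hμ q (p - q) (by omega) (fun v => if y v then 2 * p else p)
    (by
      have := sum_sgn_Hof y (p : ℤ) univ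
      rw [h0, Finset.card_univ] at this
      have h2 : ((2 * ∑ v, (if y v then 2 * (p : ℤ) else p) : ℤ) : ℝ) =
          ((3 * ((q : ℤ) + (p - q)) * Fintype.card V : ℤ) : ℝ) := by
        rw [this]
        push_cast
        ring
      exact_mod_cast h2)
    (fun X => by
      have := sum_sgn_Hof y (p : ℤ) X
      have h1 := hc' X
      have h2 : ((2 * ∑ v ∈ X, (if y v then 2 * (p : ℤ) else p) : ℤ) : ℝ) ≤
          ((3 * ((q : ℤ) + (p - q)) * X.card + (p - q - q) * (S.out X).card : ℤ) : ℝ) := by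
        rw [this]
        push_cast
        linarith
      exact_mod_cast h2)
  obtain ⟨z, b1, b2, b3⟩ := hof S hμ 0 1 (by omega) (fun v => if y v then 2 * 1 else 1)
    (by
      have := sum_sgn_Hof y (1 : ℤ) univ
      rw [h0, Finset.card_univ] at this
      have h2 : ((2 * ∑ v, (if y v then 2 * (1 : ℤ) else 1) : ℤ) : ℝ) =
          ((3 * ((0 : ℤ) + 1) * Fintype.card V : ℤ) : ℝ) := by
        rw [this]
        push_cast
        ring
      exact_mod_cast h2)
    (fun X => by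
      have := sum_sgn_Hof y (1 : ℤ) X
      have h1 := hc' X
      have h3 : ∑ v ∈ X, sgn (y v) ≤ (S.out X).card := by
        refine le_of_mul_le_mul_left ?_ hpR
        have : (0 : ℝ) ≤ (q : ℝ) * (S.out X).card := by positivity
        linarith
      have h2 : ((2 * ∑ v ∈ X, (if y v then 2 * (1 : ℤ) else 1) : ℤ) : ℝ) ≤
          ((3 * ((0 : ℤ) + 1) * X.card + (1 - 0) * (S.out X).card : ℤ) : ℝ) := by
        rw [this]
        push_cast
        linarith
      exact_mod_cast h2)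
  refine ⟨fun d => φ d - p * z d, fun d => ?_, fun d => ?_, fun v => ?_⟩
  · simp only [a1 d, b1 d]
    ring
  · have h1 := a2 d
    have h2 := b2 d
    have h3 : z d = 0 ∨ z d = 1 := by omega
    rcases h3 with h3 | h3
    · simp only [h3, mul_zero, sub_zero]
      rw [abs_of_nonneg (by omega)]
      exact h1
    · simp only [h3, mul_one]
      rw [abs_of_nonpos (by omega)]
      omega
  · simp only [Finset.sum_sub_distrib, ← Finset.mul_sum, a3 v, b3 v]
    split_ifs <;> ring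

end Pool.Agent.MP_9a3194_co

end

section

open Finset
open scoped symmDiff

namespace Pool.Agent.MP_9a3194_co

/-- cubic graphs with the tree-like isoperimetric inequality have circular flows -/
theorem core (p q : ℕ) (hq : 0 < q) (hp : 4 * q < p) : ∃ c : ℕ, ∀ (V : Type) [Fintype V]
    [DecidableEq V] (G : SimpleGraph V) [DecidableRel G.Adj], G.IsRegularOfDegree 3 →
    c ≤ Fintype.card V →
    (∀ X : Finset V, X.Nonempty → Xᶜ.Nonempty →
      min c (min X.card Xᶜ.card + 2) ≤ (G.interedges X Xᶜ).card) →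
    ∃ f : V → V → ℤ, (∀ u v, f v u = -f u v) ∧
      (∀ u v, G.Adj u v → (q : ℤ) ≤ |f u v| ∧ |f u v| ≤ p - q) ∧
      ∀ u, ∑ v ∈ G.neighborFinset u, f u v = 0 := by
  have hp0 : 0 < p := by omega
  have hpR : (0 : ℝ) < p := by exact_mod_cast hp0
  have hpq : (4 * q : ℝ) < p := by exact_mod_cast hp
  have hδ : (0 : ℝ) < 1 / 4 - q / p := by
    rw [sub_pos, div_lt_iff₀ hpR]
    linarith
  obtain ⟨c₀, hc₀⟩ := bal hδ
  refine ⟨max c₀ 3, fun V _ _ G _ hG hV hI => ?_⟩
  obtain ⟨μ, hμ, ha⟩ := petersen G hG fun X h1 h2 => by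
    have h3 := hI X h1 h2
    have h4 := h1.card_pos
    have h5 := h2.card_pos
    omega
  obtain ⟨S, hi, hs⟩ := exists_str G hG μ hμ ha
  have hS : S.Iso (max c₀ 3) := fun X h1 h2 => by
    rw [b_eq_inter G S hi hs]
    exact Nat.mul_le_mul_left 2 (hI X h1 h2)
  obtain ⟨h1, y, h2, h3⟩ := hc₀ S ((le_max_left _ _).trans hV) (hS.mono (le_max_left _ _))
  obtain ⟨f, f1, f2, f3⟩ := flow_of_bal S h1 p q hp0 (by omega) y h2 fun X => by
    have h4 : (p : ℝ) * ((1 / 4 + (1 / 4 - q / p)) * S.b X) = ((p : ℝ) - 2 * q) / 2 * S.b X := by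
      field_simp
      ring
    rw [← h4]
    exact mul_le_mul_of_nonneg_left (h3 X) hpR.le
  exact flow_transfer G S hi hs (fun n => (q : ℤ) ≤ |n| ∧ |n| ≤ p - q) f f1 f2 f3

end Pool.Agent.MP_9a3194_co

end
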