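import Pool.Agent.Mg.F9a3194.G6e6e19
import Pool.Agent.Mg.F9a3194.Ge9241e
import Pool.Agent.Mg.F9a3194.G3290d3
import Pool.Agent.Mg.F9a3194.Gadae9c
import Pool.Agent.Mg.F9a3194.G33e6ee
import Pool.Agent.Mg.F9a3194.G505f3a

section

open Finset

namespace Pool.Agent.MP_9a3194_co

namespace Tri

private lemma rot_inj_TFin {F : Type} (T : Tri F) : Function.Injective T.rot := by
  intro d e h
  have h1 : T.α d = T.α e := by
    have h2 := congrArg Prod.fst h
    have h3 := congrArg Prod.snd h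
    exact Prod.ext h2 (add_right_cancel h3)
  rw [← T.αα d, h1, T.αα]

private lemma card_TFin {F : Type} [Fintype F] (T : Tri F) {c : ℕ} (hd : T.MinDeg c)
    (d : F × ZMod 3) : c ≤ Fintype.card F * 3 := by
  have key : ∀ m n : ℕ, m < n → n < c → T.rot^[m] d ≠ T.rot^[n] d := fun m n h1 h2 h => by
    obtain ⟨k, rfl⟩ := Nat.exists_eq_add_of_le h1.le
    rw [Function.iterate_add_apply] at h
    exact hd d k (by omega) (by omega) ((rot_inj_TFin T).iterate m h).symm
  have h := Fintype.card_le_of_injective (fun n : Fin c => T.rot^[n] d) fun m n h => by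
    rcases lt_trichotomy (m : ℕ) n with h1 | h1 | h1
    · exact absurd h (key _ _ h1 n.2)
    · exact Fin.ext h1
    · exact absurd h.symm (key _ _ h1 m.2)
  simpa using h

private lemma out_add_TFin {F : Type} [DecidableEq F] (T : Tri F) (X : Finset F)
    (S : Finset (F × ZMod 3)) (hS : ∀ d ∈ S, d.1 ∈ X ∧ (T.α d).1 ∈ X) :
    (T.out X).card + S.card ≤ X.card * 3 := by
  have h1 : Disjoint (T.out X) S := disjoint_left.2 fun d h h' => (mem_filter.1 h).2 (hS d h').2
  have h2 : T.out X ∪ S ⊆ X ×ˢ univ := union_subset (filter_subset _ _) fun d h =>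
    mem_product.2 ⟨(hS d h).1, mem_univ _⟩
  have h3 := card_le_card h2
  rw [card_union_of_disjoint h1, card_product] at h3
  simpa using h3

private lemma sum_TFin (g : ZMod 3 → ℤ) (j : ZMod 3) :
    ∑ i, g i = g j + g (j + 1) + g (j + 1 + 1) := by
  have h : (univ : Finset (ZMod 3)) = {j, j + 1, j + 1 + 1} := by
    revert j
    decide
  have h1 : j ∉ ({j + 1, j + 1 + 1} : Finset (ZMod 3)) := by
    clear h
    revert j
    decide
  have h2 : j + 1 ≠ j + 1 + 1 := by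
    clear h h1
    revert j
    decide
  rw [h, sum_insert h1, sum_pair h2, ← add_assoc]

private lemma contr_TFin {F : Type} (T : Tri F) (φ : F × ZMod 3 → ℤ)
    (h1 : ∀ d, φ (T.α d) = -φ d) (h2 : ∀ t, ∑ i, φ (t, i) = 0) (w : List (F × ZMod 3))
    (hw : T.Contr w) : (w.map φ).sum = 0 := by
  have hr : ∀ r ∈ T.rels, FreeGroup.lift (fun d => Multiplicative.ofAdd (φ d)) r = 1 := by
    rintro r ⟨d, rfl | rfl⟩
    · simp only [map_mul, FreeGroup.lift_apply_of, ← ofAdd_add, h1, add_neg_cancel, ofAdd_zero]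
    · have h3 := h2 d.1
      rw [sum_TFin _ d.2] at h3
      simp only [map_mul, FreeGroup.lift_apply_of, ← ofAdd_add]
      exact congrArg Multiplicative.ofAdd h3
  have h3 := congrArg (PresentedGroup.toGroup hr) hw
  rw [map_list_prod, List.map_map, map_one] at h3
  have h4 : (PresentedGroup.toGroup hr ∘ PresentedGroup.of (rels := T.rels)) =
      Multiplicative.ofAdd ∘ φ := funext fun d => PresentedGroup.toGroup.of hr
  rw [h4, ← List.map_map, ← ofAdd_list_prod] at h3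
  exact h3

/-- local tensions on triangulations of large minimum degree and large edge-width -/
theorem tension (p q : ℕ) (hq : 0 < q) (hp : 4 * q < p) : ∃ c : ℕ, ∀ (F : Type) [Fintype F]
    (T : Tri F), T.Connected → T.MinDeg c → (∀ w, T.Closed w → w.length < c → T.Contr w) →
    ∃ φ : F × ZMod 3 → ℤ, (∀ d, φ (T.α d) = -φ d) ∧
      (∀ d, (q : ℤ) ≤ |φ d| ∧ |φ d| ≤ p - q) ∧
      ∀ w, T.Closed w → T.Contr w → (w.map φ).sum = 0 := by
  classical
  obtain ⟨c₀, hc₀⟩ := core p q hq hp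
  refine ⟨18 * max c₀ 4, fun F _ T hn hd hw => ?_⟩
  rcases isEmpty_or_nonempty F with hF | ⟨⟨f₀⟩⟩
  · exact ⟨fun _ => 0, fun d => hF.elim d.1, fun d => hF.elim d.1, fun w _ _ => by simp⟩
  have hcard := card_TFin T hd (f₀, 0)
  have hI := T.iso_down (c := max c₀ 4) (by omega) hn hd fun w h1 h2 => hw w h1 (by omega)
  have hI' : ∀ X : Finset F, 0 < X.card → X.card ≤ 2 → X.card + 2 ≤ (T.out X).card :=
    fun X h1 h2 => by
      have h3 := card_compl X
      have h4 := hI X (card_pos.1 h1) (card_pos.1 (by omega))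
      omega
  have hne : ∀ d, (T.α d).1 ≠ d.1 := fun d h => by
    have h1 := hI' {d.1} (by simp) (by simp)
    have h2 := out_add_TFin T {d.1} {d} (by simp [h])
    simp only [card_singleton] at h1 h2
    omega
  have hinj : ∀ f, Function.Injective fun i => (T.α (f, i)).1 := fun f i j h => by
    by_contra hij
    have h0 : ({f, (T.α (f, i)).1} : Finset F).card = 2 := card_pair (hne (f, i)).symm
    have h1 := hI' {f, (T.α (f, i)).1} (by omega) (by omega)
    have h' : (T.α (f, j)).1 = (T.α (f, i)).1 := h.symm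
    have h2 := out_add_TFin T {f, (T.α (f, i)).1} {(f, i), (f, j), T.α (f, i)}
      (by simp [h', T.αα])
    have h3 : ({(f, i), (f, j), T.α (f, i)} : Finset (F × ZMod 3)).card = 3 :=
      card_eq_three.2 ⟨(f, i), (f, j), T.α (f, i), fun e => hij (congrArg Prod.snd e),
        fun e => hne (f, i) (congrArg Prod.fst e).symm,
        fun e => hne (f, i) (congrArg Prod.fst e).symm, rfl⟩
    omega
  let G : SimpleGraph F :=
    { Adj := fun f f' => ∃ i, (T.α (f, i)).1 = f'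
      symm := ⟨by
        rintro f f' ⟨i, rfl⟩
        exact ⟨(T.α (f, i)).2, by rw [Prod.mk.eta, T.αα]⟩⟩
      loopless := ⟨fun f ⟨i, h⟩ => hne (f, i) h⟩ }
  have hN : ∀ f, G.neighborFinset f = univ.image fun i => (T.α (f, i)).1 := fun f => by
    ext f'
    simp only [SimpleGraph.mem_neighborFinset, mem_image, mem_univ, true_and]
    rfl
  obtain ⟨f, f1, f2, f3⟩ := hc₀ F G
    (fun v => by
      rw [← SimpleGraph.card_neighborFinset_eq_degree, hN, card_image_of_injective _ (hinj v)]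
      simp)
    (by omega) fun X h1 h2 => by
      have h3 := hI X h1 h2
      have h4 : (T.out X).card ≤ (G.interedges X Xᶜ).card :=
        card_le_card_of_injOn (fun d => (d.1, (T.α d).1))
          (fun d hd' => by
            have h5 := mem_filter.1 (mem_coe.1 hd')
            exact mem_coe.2 (G.mem_interedges_iff.2
              ⟨(mem_product.1 h5.1).1, mem_compl.2 h5.2, d.2, rfl⟩))
          fun ⟨a, i⟩ _ ⟨b, j⟩ _ h => by
            obtain ⟨h5, h6⟩ := Prod.mk.inj h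
            obtain rfl : a = b := h5
            exact congrArg _ (hinj a h6)
      omega
  have h1 : ∀ d, f (T.α d).1 (T.α (T.α d)).1 = -f d.1 (T.α d).1 := fun d => by
    rw [T.αα, f1]
  refine ⟨fun d => f d.1 (T.α d).1, h1, fun d => f2 _ _ ⟨d.2, rfl⟩, fun w _ =>
    contr_TFin T _ h1 (fun t => ?_) w⟩
  have h2 := f3 t
  rwa [hN, sum_image fun i _ j _ h => hinj t h] at h2

end Tri

end Pool.Agent.MP_9a3194_co

end

section

open Finset
open scoped symmDiff

namespace Pool.Agent.MP_9a3194_co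

namespace Surf

private def sw_UOri {F : Type} (o : F → Bool) (d : F × ZMod 3) : F × ZMod 3 :=
  (d.1, if o d.1 then -d.2 - 1 else d.2)

private lemma swsw_UOri {F : Type} (o : F → Bool) (d : F × ZMod 3) :
    sw_UOri o (sw_UOri o d) = d := by
  obtain ⟨f, i⟩ := d
  cases h : o f <;> simp [sw_UOri, h]

private def ori_UOri {F : Type} (T : Surf F) (o : F → Bool) : Tri F where
  α x := sw_UOri o (T.α (sw_UOri o x))
  αα x := by rw [swsw_UOri, T.αα, swsw_UOri]
  αne x h := T.αne (sw_UOri o x) (by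
    have h1 := congrArg (sw_UOri o) h
    rwa [swsw_UOri] at h1)

private def em_UOri {F : Type} (o : F → Bool) (x : F × ZMod 3) : (F × Bool) × ZMod 3 :=
  ((x.1, o x.1), x.2)

private lemma em_alpha_UOri {F : Type} (T : Surf F) (o : F → Bool)
    (ho : ∀ d, o (T.α d).1 = xor (o d.1) (T.tw d)) (x : F × ZMod 3) :
    em_UOri o ((ori_UOri T o).α x) = T.dbl.α (em_UOri o x) := by
  have h : xor (o x.1) (T.tw (sw_UOri o x)) = o (T.α (sw_UOri o x)).1 := (ho (sw_UOri o x)).symm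
  change _ = ofArc (T.α (sw_UOri o x), xor (o x.1) (T.tw (sw_UOri o x)))
  rw [h]
  rfl

private lemma em_rot_UOri {F : Type} (T : Surf F) (o : F → Bool)
    (ho : ∀ d, o (T.α d).1 = xor (o d.1) (T.tw d)) (n : ℕ) (x : F × ZMod 3) :
    em_UOri o ((ori_UOri T o).rot^[n] x) = T.dbl.rot^[n] (em_UOri o x) := by
  have h : Function.Semiconj (em_UOri o) (ori_UOri T o).rot T.dbl.rot := fun y => by
    unfold Tri.rot
    rw [← em_alpha_UOri T o ho]
    rfl
  exact h.iterate_right n x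

private lemma back_UOri {F : Type} (P : Tri F) (x : F × ZMod 3) :
    (PresentedGroup.of (P.α x) : PresentedGroup P.rels) = (PresentedGroup.of x)⁻¹ := by
  have h : (PresentedGroup.mk P.rels) (.of x * .of (P.α x)) = 1 :=
    PresentedGroup.one_of_mem ⟨x, Or.inl rfl⟩
  rw [map_mul] at h
  exact eq_inv_of_mul_eq_one_right h

private lemma tri_UOri {F : Type} (P : Tri F) (x : F × ZMod 3) :
    (PresentedGroup.of x : PresentedGroup P.rels) * PresentedGroup.of (Tri.nxt x) *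
      PresentedGroup.of (Tri.nxt (Tri.nxt x)) = 1 := by
  have h : (PresentedGroup.mk P.rels) (.of x * .of (Tri.nxt x) * .of (Tri.nxt (Tri.nxt x))) = 1 :=
    PresentedGroup.one_of_mem ⟨x, Or.inr rfl⟩
  rw [map_mul, map_mul] at h
  exact h

private lemma contr_UOri {F : Type} (T : Surf F) (o : F → Bool)
    (ho : ∀ d, o (T.α d).1 = xor (o d.1) (T.tw d)) (w : List (F × ZMod 3))
    (hw : T.Contr ((w.map (em_UOri o)).map toArc)) : (ori_UOri T o).Contr w := by
  let g : F × ZMod 3 → PresentedGroup (ori_UOri T o).rels := fun d =>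
    if o d.1 then (PresentedGroup.of (sw_UOri o d))⁻¹ else PresentedGroup.of (sw_UOri o d)
  have hr : ∀ r ∈ T.rels, FreeGroup.lift g r = 1 := by
    rintro r ⟨d, rfl | rfl⟩
    · have h1 := back_UOri (ori_UOri T o) (sw_UOri o d)
      have h2 : (ori_UOri T o).α (sw_UOri o d) = sw_UOri o (T.α d) := by
        change sw_UOri o (T.α (sw_UOri o (sw_UOri o d))) = _
        rw [swsw_UOri]
      rw [h2] at h1
      have h3 := ho d
      cases h4 : o d.1 <;> cases h5 : T.tw d <;> rw [h4, h5] at h3 <;>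
        simp [g, h1, h3, h4]
    · obtain ⟨f, i⟩ := d
      cases h4 : o f
      · have h1 := tri_UOri (ori_UOri T o) (f, i)
        simpa [g, h4, sw_UOri, nxt, Tri.nxt] using h1
      · have h1 := tri_UOri (ori_UOri T o) (f, -(i + 1 + 1) - 1)
        have e1 : -(i + 1 + 1) - 1 + 1 = -(i + 1) - 1 := by ring
        have e2 : -(i + 1) - 1 + 1 = -i - 1 := by ring
        simp only [Tri.nxt, e1, e2] at h1
        simp only [g, h4, sw_UOri, nxt, map_mul, FreeGroup.lift_apply_of, if_true]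
        rw [← mul_inv_rev, ← mul_inv_rev, ← mul_assoc, h1, inv_one]
  have h3 := congrArg (PresentedGroup.toGroup hr) hw
  rw [map_list_prod, List.map_map, List.map_map, List.map_map, map_one] at h3
  unfold Tri.Contr
  rw [← h3]
  congr 1
  refine List.map_congr_left fun x _ => ?_
  have h4 : toArc (em_UOri o x) = (sw_UOri o x, o x.1) := rfl
  have h5 : (sw_UOri o x).1 = x.1 := rfl
  simp only [Function.comp_apply, h4]
  cases h6 : o x.1 <;> simp [g, h5, h6, swsw_UOri]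

private lemma sum_UOri {F : Type} (P : Tri F) (φ : F × ZMod 3 → ℤ)
    (h : ∀ w, P.Closed w → P.Contr w → (w.map φ).sum = 0) (f : F) :
    φ (f, 0) + φ (f, 1) + φ (f, 2) = 0 := by
  have h0 : ∀ d : F × ZMod 3, ∃ n, P.rot^[n] (P.α d) = Tri.nxt d := fun d =>
    ⟨1, by simp [Tri.rot, P.αα]⟩
  have h1 := h [(f, 0), Tri.nxt (f, 0), Tri.nxt (Tri.nxt (f, 0))] (by
      have h2 := h0 (Tri.nxt (Tri.nxt (f, 0)))
      have h3 : Tri.nxt (Tri.nxt (Tri.nxt (f, (0 : ZMod 3)))) = (f, 0) :=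
        Prod.ext rfl (show (0 + 1 + 1 + 1 : ZMod 3) = 0 by decide)
      rw [h3] at h2
      simp only [Tri.Closed, List.cons_append, List.nil_append, List.isChain_cons_cons,
        List.isChain_singleton, and_true]
      exact ⟨h0 _, h0 _, h2, h0 _, h0 _⟩)
    (by
      have h2 := tri_UOri P (f, 0)
      simpa [Tri.Contr, mul_assoc] using h2)
  simp only [List.map_cons, List.map_nil, List.sum_cons, List.sum_nil, add_zero] at h1
  rw [add_assoc]
  exact h1

/-- the orientable case -/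
theorem tension_ori (p q : ℕ) (hq : 0 < q) (hp : 4 * q < p) : ∃ c : ℕ, ∀ (F : Type) [Fintype F]
    (T : Surf F) (o : F → Bool), (∀ d, o (T.α d).1 = xor (o d.1) (T.tw d)) → T.Connected →
    T.MinDeg c → (∀ w, T.Closed w → w.length < c → T.Contr w) →
    ∃ φ : F × ZMod 3 → ℤ, (∀ d, φ (T.α d) = if T.tw d then φ d else -φ d) ∧
      (∀ d, (q : ℤ) ≤ |φ d| ∧ |φ d| ≤ p - q) ∧ ∀ f, ∑ i, φ (f, i) = 0 := by
  obtain ⟨c, hc⟩ := Tri.tension p q hq hp
  refine ⟨c, fun F _ T o ho hn hd hw => ?_⟩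
  have hα : ∀ d, (ori_UOri T o).α (sw_UOri o d) = sw_UOri o (T.α d) := fun d => by
    change sw_UOri o (T.α (sw_UOri o (sw_UOri o d))) = _
    rw [swsw_UOri]
  obtain ⟨ψ, h1, h2, h3⟩ := hc F (ori_UOri T o)
    (fun X hX hX' => by
      obtain ⟨d, d1, d2⟩ := hn X hX hX'
      exact ⟨sw_UOri o d, d1, by rw [hα]; exact d2⟩)
    (fun d n n1 n2 h => T.dbl_minDeg hd (em_UOri o d) n n1 n2 (by
      rw [← em_rot_UOri T o ho, h]))
    (fun w w1 w2 => contr_UOri T o ho w (hw _ (T.dbl_closed (by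
      unfold Tri.Closed at w1 ⊢
      rw [← List.map_append, List.isChain_map]
      refine w1.imp fun a b ⟨n, hn⟩ => ⟨n, ?_⟩
      rw [← em_alpha_UOri T o ho, ← em_rot_UOri T o ho, hn])) (by simpa using w2)))
  refine ⟨fun d => if o d.1 then -ψ (sw_UOri o d) else ψ (sw_UOri o d), fun d => ?_,
    fun d => ?_, fun f => ?_⟩
  · have h4 := h1 (sw_UOri o d)
    rw [hα] at h4
    have h5 := ho d
    cases h6 : o d.1 <;> cases h7 : T.tw d <;> rw [h6, h7] at h5 <;> simp [h4, h5, h6]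
  · have h4 := h2 (sw_UOri o d)
    cases h6 : o d.1 <;> simpa [h6] using h4
  · have h4 := sum_UOri _ ψ h3 f
    have h5 : ∀ g : ZMod 3 → ℤ, ∑ i, g i = g 0 + g 1 + g 2 := fun g => Fin.sum_univ_three g
    rw [h5]
    cases h6 : o f
    · simpa [h6, sw_UOri] using h4
    · have e0 : (-0 - 1 : ZMod 3) = 2 := by decide
      have e1 : (-1 - 1 : ZMod 3) = 1 := by decide
      have e2 : (-2 - 1 : ZMod 3) = 0 := by decide
      simp only [h6, sw_UOri, if_true, e0, e1, e2]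
      omega

end Surf

end Pool.Agent.MP_9a3194_co

end

section

open Finset
open scoped symmDiff

namespace Pool.Agent.MP_9a3194_co

variable {V : Type} [Fintype V] [DecidableEq V] (S : Str V)

theorem rho_UCtr {ω : ℕ} {T : Finset V} {Ω : V → Finset V} (hT : S.Trees T Ω ω) {ι : V → V}
    (hι : S.Aut ι) (hTι : ∀ v, ι v ∈ T ↔ v ∈ T) (hΩ : ∀ g ∈ T, Ω (ι g) = (Ω g).image ι) (v : V) :
    rho_Ctr T Ω (ι v) = ι (rho_Ctr T Ω v) := by
  by_cases h : ∃ g ∈ T, v ∈ Ω g
  · obtain ⟨g, hg, hv⟩ := h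
    rw [rho_mem_Ctr hT hg hv]
    refine rho_mem_Ctr hT ((hTι g).2 hg) ?_
    rw [hΩ g hg]
    exact mem_image_of_mem _ hv
  · rw [rho_not_Ctr h]
    refine rho_not_Ctr ?_
    rintro ⟨g, hg, hv⟩
    refine h ⟨ι g, (hTι g).2 hg, ?_⟩
    rw [hΩ g hg]
    exact mem_image.2 ⟨ι v, hv, hι.inv v⟩

theorem w_UCtr {ω : ℕ} {T : Finset V} {Ω : V → Finset V} (hT : S.Trees T Ω ω) {ι : V → V}
    (hι : S.Aut ι) (hTι : ∀ v, ι v ∈ T ↔ v ∈ T) (hΩ : ∀ g ∈ T, Ω (ι g) = (Ω g).image ι) (s t : V) :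
    w_Ctr S T Ω (ι s) (ι t) = w_Ctr S T Ω s t := by
  have hh : ∀ d : Dt V, S.hd (ι d.1, d.2) = ι (S.hd d) := fun d => hι.step d.1 d.2
  unfold w_Ctr
  congr 1
  refine Finset.card_bij' (fun d _ => (ι d.1, d.2)) (fun d _ => (ι d.1, d.2)) ?_ ?_ ?_ ?_
  · intro d hd
    simp only [mem_filter, mem_univ, true_and] at hd ⊢
    rw [hh, rho_UCtr S hT hι hTι hΩ, rho_UCtr S hT hι hTι hΩ, hd.1, hd.2, hι.inv, hι.inv]
    exact ⟨rfl, rfl⟩
  · intro d hd
    simp only [mem_filter, mem_univ, true_and] at hd ⊢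
    rw [hh, rho_UCtr S hT hι hTι hΩ, rho_UCtr S hT hι hTι hΩ, hd.1, hd.2]
    exact ⟨rfl, rfl⟩
  · intro d _
    exact Prod.ext (hι.inv d.1) rfl
  · intro d _
    exact Prod.ext (hι.inv d.1) rfl

/-- the symmetric lattice lemma after contracting the trees -/
theorem contract2 {c ω : ℕ} {T : Finset V} {Ω : V → Finset V} (hI : S.Iso c) (hc : ω + 2 ≤ c)
    (hT : S.Trees T Ω ω) (hne : T.Nonempty) {ι : V → V} (hι : S.Aut ι)
    (hTι : ∀ v, ι v ∈ T ↔ v ∈ T) (hΩ : ∀ g ∈ T, Ω (ι g) = (Ω g).image ι) (q : V → ℝ)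
    (hq : ∀ g ∈ T, q (ι g) = -q g) (par : ℤ) :
    ∃ z : V → ℤ, (∀ g ∉ T, z g = 0) ∧ (∀ g, z (ι g) = -z g) ∧
      (4 : ℤ) ∣ ∑ g ∈ T, |z g| - 2 * par ∧ (∀ g ∈ T, |q g + 2 * z g| ≤ 3) ∧
      ∀ X : Finset V, ∑ g ∈ T.filter (fun g => (Ω g \ X).card ≤ (Ω g ∩ X).card), (q g + 2 * z g) ≤
        3 / (2 * (ω + 2)) * (S.b X + 6 * ∑ g ∈ T, (mino (Ω g) X : ℝ)) := by
  classical
  obtain ⟨z, hz0, hz1, hzp, hz2⟩ := steiner2 ι hι.inv hι.ne (w_Ctr S T Ω) (w_symm_Ctr T Ω)
    (w_UCtr S hT hι hTι hΩ) T hne hTι (2 * (ω + 2))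
    (by omega) (even_two_mul _)
    (fun A => by rw [cutw_Ctr, S.b_eq]; exact even_two_mul _)
    (by
      rintro A ⟨s, hs, hsA⟩ ⟨t, ht, htA⟩
      rw [cutw_Ctr]
      have h1 : Ω s ⊆ pre_Ctr T Ω A := fun v hv => by
        rw [mem_pre_Ctr, rho_mem_Ctr hT hs hv]
        exact hsA
      have h2 : Ω t ⊆ (pre_Ctr T Ω A)ᶜ := fun v hv => by
        rw [mem_compl, mem_pre_Ctr, rho_mem_Ctr hT ht hv]
        exact htA
      have c1 := card_le_card h1
      have c2 := card_le_card h2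
      rw [hT.card s hs] at c1
      rw [hT.card t ht] at c2
      have := hI (pre_Ctr T Ω A) ⟨s, h1 (hT.mem s hs)⟩ ⟨t, h2 (hT.mem t ht)⟩
      omega) q hq par
  have hpos : (0 : ℝ) < 2 * (ω + 2) := by positivity
  have hz3 : ∀ A : Finset V, ∑ t ∈ T ∩ A, (q t + 2 * z t) ≤
      3 / (2 * (ω + 2)) * (S.b (pre_Ctr T Ω A) : ℝ) := by
    intro A
    have := hz2 A
    rw [cutw_Ctr] at this
    push_cast at this
    exact this
  refine ⟨z, hz0, hz1, hzp, ?_, ?_⟩
  · intro g hg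
    have hb : (S.b (Ω g) : ℝ) ≤ 2 * (ω + 2) := by exact_mod_cast hT.bdy g hg
    have hb3 : 3 / (2 * (ω + 2)) * (S.b (Ω g) : ℝ) ≤ 3 := by
      rw [div_mul_eq_mul_div, div_le_iff₀ hpos]
      linarith
    have a1 := hz3 {g}
    rw [pre_single_Ctr hT hg, inter_singleton_of_mem hg, sum_singleton] at a1
    have hg' : ι g ∈ T := (hTι g).2 hg
    have hb' : (S.b (Ω (ι g)) : ℝ) ≤ 2 * (ω + 2) := by exact_mod_cast hT.bdy _ hg'
    have hb4 : 3 / (2 * (ω + 2)) * (S.b (Ω (ι g)) : ℝ) ≤ 3 := by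
      rw [div_mul_eq_mul_div, div_le_iff₀ hpos]
      linarith
    have a2 := hz3 {ι g}
    rw [pre_single_Ctr hT hg', inter_singleton_of_mem hg', sum_singleton, hq g hg, hz1 g] at a2
    push_cast at a2
    rw [abs_le]
    constructor <;> linarith
  · intro X
    set M := T.filter (fun g => (Ω g \ X).card ≤ (Ω g ∩ X).card) with hM
    set A := M ∪ X.filter (fun v => ¬ ∃ g ∈ T, v ∈ Ω g) with hA
    have e : T ∩ A = M := by
      ext v
      simp only [hA, mem_inter, mem_union]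
      constructor
      · rintro ⟨hv, h | h⟩
        · exact h
        · exact absurd ⟨v, hv, hT.mem v hv⟩ (mem_filter.1 h).2
      · intro h
        exact ⟨(mem_filter.1 h).1, Or.inl h⟩
    have hsub : pre_Ctr T Ω A ∆ X ⊆
        T.biUnion fun g => if g ∈ M then Ω g \ X else Ω g ∩ X := by
      intro v hv
      rw [mem_symmDiff, mem_pre_Ctr] at hv
      by_cases hx : ∃ g ∈ T, v ∈ Ω g
      · obtain ⟨g, hg, hvg⟩ := hx
        rw [rho_mem_Ctr hT hg hvg] at hv
        have hgA : g ∈ A ↔ g ∈ M := by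
          rw [← e, mem_inter]
          exact ⟨fun h => ⟨hg, h⟩, fun h => h.2⟩
        rw [hgA] at hv
        refine mem_biUnion.2 ⟨g, hg, ?_⟩
        rcases hv with ⟨h1, h2⟩ | ⟨h1, h2⟩
        · rw [if_pos h1]
          exact mem_sdiff.2 ⟨hvg, h2⟩
        · rw [if_neg h2]
          exact mem_inter.2 ⟨hvg, h1⟩
      · rw [rho_not_Ctr hx] at hv
        exfalso
        rcases hv with ⟨h1, h2⟩ | ⟨h1, h2⟩
        · rcases mem_union.1 h1 with h | h
          · have hv := (mem_filter.1 h).1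
            exact hx ⟨v, hv, hT.mem v hv⟩
          · exact h2 (mem_filter.1 h).1
        · exact h2 (mem_union.2 (Or.inr (mem_filter.2 ⟨h1, hx⟩)))
    have hcard : (pre_Ctr T Ω A ∆ X).card ≤ ∑ g ∈ T, mino (Ω g) X := by
      refine (card_le_card hsub).trans (card_biUnion_le.trans (sum_le_sum fun g hg => ?_))
      unfold mino
      split_ifs with h
      · have := (mem_filter.1 h).2
        omega
      · have : ¬ (Ω g \ X).card ≤ (Ω g ∩ X).card := fun h' => h (mem_filter.2 ⟨hg, h'⟩)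
        omega
    have hb : S.b (pre_Ctr T Ω A) ≤ S.b X + 6 * ∑ g ∈ T, mino (Ω g) X :=
      (S.b_le_add _ X).trans (by omega)
    have hb' : (S.b (pre_Ctr T Ω A) : ℝ) ≤ S.b X + 6 * ∑ g ∈ T, (mino (Ω g) X : ℝ) := by
      exact_mod_cast hb
    have a1 := hz3 A
    rw [e] at a1
    exact a1.trans (mul_le_mul_of_nonneg_left hb' (by positivity))

end Pool.Agent.MP_9a3194_co

end

section

open Finset
open scoped symmDiff

namespace Pool.Agent.MP_9a3194_co

private theorem thin_USign {ε : ℝ} (hε : 0 < ε) : ∃ (ω₀ l₀ : ℕ) (A : ℝ), 0 < A ∧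
    ∀ {V : Type} [Fintype V] [DecidableEq V] (S : Str V) (c ω l : ℕ) (G : Finset V)
      (Ω : V → Finset V) (cell : V → V) (ι : V → V), ω₀ ≤ ω → l₀ ≤ l → l + 2 ≤ c →
      2 * l ≤ Fintype.card V → S.Iso c → S.Part G cell l → S.Trees G Ω ω → S.Aut ι →
      (∀ v, ι v ∈ G ↔ v ∈ G) → (∀ g ∈ G, Ω (ι g) = (Ω g).image ι) →
      ∃ T ⊆ G, (∀ v, ι v ∈ T ↔ v ∈ T) ∧
        (∀ X : Finset V, ∑ g ∈ T, (mino (Ω g) X : ℝ) / ω ≤ ε * S.b X) ∧
        ∀ X : Finset V, Disjoint X T → (X.card : ℝ) ≤ A * l ^ 2 * (S.b X + 1) := by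
  obtain ⟨ω₀, l₀, A, hA, h⟩ := thin (half_pos hε)
  refine ⟨ω₀, l₀, A, hA, ?_⟩
  intro V _ _ S c ω l G Ω cell ι hω hl hc hV hI hP hT hι hG hΩ
  obtain ⟨T, hTG, h1, h2⟩ := h S c ω l G Ω cell hω hl hc hV hI hP hT
  have hm : ∀ v, v ∈ T.image ι ↔ ι v ∈ T := fun v => by
    rw [mem_image]
    exact ⟨fun ⟨u, hu, e⟩ => by rwa [← e, hι.inv], fun hv => ⟨_, hv, hι.inv v⟩⟩
  refine ⟨T ∪ T.image ι, union_subset hTG fun v hv => (hG v).1 (hTG ((hm v).1 hv)), fun v => ?_,
    fun X => ?_, fun X hX => h2 X (hX.mono_right subset_union_left)⟩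
  · rw [mem_union, mem_union, hm, hm, hι.inv, or_comm]
  · have e1 := sum_union_inter (s₁ := T) (s₂ := T.image ι) (f := fun g => (mino (Ω g) X : ℝ) / ω)
    have e2 : 0 ≤ ∑ g ∈ T ∩ T.image ι, (mino (Ω g) X : ℝ) / ω :=
      sum_nonneg fun _ _ => by positivity
    have e3 : ∑ g ∈ T.image ι, (mino (Ω g) X : ℝ) / ω =
        ∑ g ∈ T, (mino (Ω g) (X.image ι) : ℝ) / ω := by
      rw [sum_image hι.inj.injOn]
      exact sum_congr rfl fun g hg => by rw [hΩ g (hTG hg), hι.mino]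
    have e4 := h1 (X.image ι)
    rw [hι.b] at e4
    linarith [h1 X]

private theorem gale_USign {V : Type} [Fintype V] [DecidableEq V] {S : Str V} {ι : V → V}
    {T : Finset V} {q : V → ℝ} {η : ℝ} (hι : S.Aut ι) (hT : ∀ v, ι v ∈ T ↔ v ∈ T)
    (hq : ∀ v, q (ι v) = -q v) (hη : 0 ≤ η)
    (h : ∀ X : Finset V, Disjoint X T → |∑ v ∈ X, q v| ≤ η / 2 * S.b X) :
    ∃ f : Dt V → ℝ, S.Anti f ∧ (∀ d, |f d| ≤ η) ∧ (∀ v ∉ T, dv f v = q v) ∧
      ∀ v, dv f (ι v) = -dv f v := by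
  obtain ⟨f, hf, h1, h2⟩ := gale S T q η hη h
  have e : ∀ v, dv (fun d => (f d - f (ι d.1, d.2)) / 2) v = (dv f v - dv f (ι v)) / 2 :=
    fun v => by simp only [dv, ← sum_div, sum_sub_distrib]
  refine ⟨_, hι.anti hf, fun d => ?_, fun v hv => ?_, fun v => ?_⟩
  · have e1 := abs_le.1 (h1 d)
    have e2 := abs_le.1 (h1 (ι d.1, d.2))
    exact abs_le.2 ⟨by linarith [e1.1, e2.2], by linarith [e1.2, e2.1]⟩
  · rw [e, h2 v hv, h2 _ fun h => hv ((hT v).1 h), hq]
    ring
  · rw [e, e, hι.inv]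
    ring

/-- small antisymmetric charges are cancelled by pairs of controllers of prescribed parity -/
theorem sign2 {δ K : ℝ} (hδ : 0 < δ) (hK : 1 ≤ K) : ∃ (ω₀ l₀ : ℕ) (A : ℝ), 0 < A ∧
    ∀ {V : Type} [Fintype V] [DecidableEq V] (S : Str V) (c ω l : ℕ) (G : Finset V)
      (Ω : V → Finset V) (cell : V → V) (q : V → ℝ) (p : ℝ) (ι : V → V) (par : ℤ), ω₀ ≤ ω →
      l₀ ≤ l → ω + 2 ≤ c → A * l ^ 2 < c → c ≤ Fintype.card V → S.Iso c → S.Part G cell l →
      S.Trees G Ω ω → (∀ v, |q v| ≤ p) → p * A * l ^ 2 ≤ 1 → S.Aut ι →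
      (∀ v, ι v ∈ G ↔ v ∈ G) → (∀ g ∈ G, Ω (ι g) = (Ω g).image ι) → (∀ v, q (ι v) = -q v) →
      ∃ z : V → ℤ, (∀ g, z g = 0 ∨ g ∈ G ∧ (z g = 1 ∨ z g = -1)) ∧ (∀ g, z (ι g) = -z g) ∧
        (4 : ℤ) ∣ ((univ.filter fun g => z g ≠ 0).card : ℤ) - 2 * par ∧
        ∀ (X : Finset V) (t : V → ℝ), (∀ g ∈ G, 0 ≤ t g ∧ t g ≤ 1 ∧
          t g ≤ K * (Ω g ∩ X).card / ω ∧ 1 - t g ≤ K * (Ω g \ X).card / ω) →
          ∑ v ∈ X, q v + 2 * ∑ g, z g * t g ≤ δ * S.b X := by
  classical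
  obtain ⟨ε, hε, hεK⟩ : ∃ ε : ℝ, 0 < ε ∧ (2 * K + 9) * ε = δ / 4 :=
    ⟨δ / (4 * (2 * K + 9)), by positivity, by field_simp⟩
  obtain ⟨ω₁, l₁, A₀, hA₀, hthin⟩ := thin_USign hε
  obtain ⟨μ, hμ, hμ1, hμδ⟩ : ∃ μ : ℝ, 0 < μ ∧ μ ≤ 1 ∧ μ ≤ δ :=
    ⟨min 1 δ, lt_min one_pos hδ, min_le_left _ _, min_le_right _ _⟩
  obtain ⟨A, hA, hAμ⟩ : ∃ A : ℝ, 0 < A ∧ A * μ = 100 * (A₀ + 1) :=
    ⟨100 * (A₀ + 1) / μ, by positivity, by field_simp⟩
  have hA1 : 100 * (A₀ + 1) ≤ A := hAμ ▸ mul_le_of_le_one_right hA.le hμ1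
  refine ⟨max ω₁ ⌈6 / δ⌉₊, max l₁ 1, A, hA, ?_⟩
  intro V _ _ S c ω l G Ω cell q p ι par hω hl hc hAc hcV hI hP hT hq hp hι hG hΩ hqι
  have hl1 : (1 : ℝ) ≤ l := by exact_mod_cast (le_max_right _ _).trans hl
  have hl2 : (l : ℝ) ≤ l ^ 2 := by nlinarith
  have hcV' : (c : ℝ) ≤ Fintype.card V := by exact_mod_cast hcV
  have hA3 : 3 * (l : ℝ) ^ 2 ≤ A * l ^ 2 := mul_le_mul_of_nonneg_right (by linarith) (by positivity)
  have hA4 : A₀ * (l : ℝ) ^ 2 ≤ A * l ^ 2 :=
    mul_le_mul_of_nonneg_right (by linarith) (by positivity)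
  have hc0 : 0 < c := by omega
  have hp0 : 0 ≤ p := by
    obtain ⟨v⟩ := Fintype.card_pos_iff.1 (hc0.trans_le hcV)
    exact (abs_nonneg _).trans (hq v)
  obtain ⟨T, hTG, hTι, hT1, hT2⟩ := hthin S c ω l G Ω cell ι ((le_max_left _ _).trans hω)
    ((le_max_left _ _).trans hl) (by exact_mod_cast (by linarith : (l : ℝ) + 2 ≤ c))
    (by exact_mod_cast (by linarith : 2 * (l : ℝ) ≤ Fintype.card V)) hI hP hT hι hG hΩ
  have hne : T.Nonempty := by
    rw [nonempty_iff_ne_empty]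
    rintro rfl
    have := hT2 univ (disjoint_empty_right _)
    rw [S.b_univ, card_univ, Nat.cast_zero, zero_add, mul_one] at this
    linarith
  obtain ⟨η, hη⟩ : ∃ η : ℝ, η = 4 * p * A₀ * l ^ 2 := ⟨_, rfl⟩
  have hη0 : 0 ≤ η := by rw [hη]; positivity
  have hsm : p + 4 * η ≤ μ / 2 := by
    have e1 : p * A ≤ 1 :=
      (le_mul_of_one_le_right (mul_nonneg hp0 hA.le) (hl1.trans hl2)).trans hp
    have e2 : η * A ≤ 4 * A₀ := by
      have := mul_le_mul_of_nonneg_left hp (by positivity : 0 ≤ 4 * A₀)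
      rw [hη]
      linarith
    refine le_of_mul_le_mul_right ?_ hA
    linarith
  obtain ⟨f, hf, hfη, hfq, hfι⟩ := gale_USign hι hTι hqι hη0 fun X hX => by
    rcases X.eq_empty_or_nonempty with rfl | hXn
    · rw [sum_empty, abs_zero]
      positivity
    · obtain ⟨g, hg⟩ := hne
      have hb : (1 : ℝ) ≤ S.b X := by
        exact_mod_cast hI.b_pos hc0 hXn ⟨g, mem_compl.2 fun h => disjoint_left.1 hX h hg⟩
      have e1 : |∑ v ∈ X, q v| ≤ X.card * p := by
        refine (abs_sum_le_sum_abs _ _).trans ((sum_le_sum fun v _ => hq v).trans_eq ?_)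
        rw [sum_const, nsmul_eq_mul]
      have e2 : (X.card : ℝ) ≤ A₀ * l ^ 2 * (2 * S.b X) :=
        (hT2 X hX).trans (mul_le_mul_of_nonneg_left (by linarith) (by positivity))
      have e3 := mul_le_mul_of_nonneg_right e2 hp0
      rw [hη]
      linarith
  have hq' : ∀ g, |q g - dv f g| ≤ p + 3 * η := fun g => by
    have e1 : |dv f g| ≤ 3 * η := by
      refine (abs_sum_le_sum_abs _ _).trans ((sum_le_sum fun i _ => hfη (g, i)).trans_eq ?_)
      simp
    exact (abs_sub _ _).trans (add_le_add (hq g) e1)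
  have hsum : ∀ X : Finset V, ∑ v ∈ X, q v =
      ∑ v ∈ X, dv f v + ∑ g ∈ T, if g ∈ X then q g - dv f g else 0 := fun X => by
    rw [sum_ite_mem, inter_comm, ← sum_ite_mem, ← sum_add_distrib]
    refine sum_congr rfl fun v _ => ?_
    split_ifs with hv
    · ring
    · rw [hfq v hv, add_zero]
  have hTT : S.Trees T Ω ω := ⟨fun g hg => hT.mem g (hTG hg), fun g hg => hT.conn g (hTG hg),
    fun g hg => hT.card g (hTG hg), fun g hg g' hg' => hT.disj g (hTG hg) g' (hTG hg'),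
    fun g hg => hT.bdy g (hTG hg)⟩
  obtain ⟨z, hz0, hzι, hz1, hz2, hz3⟩ := contract2 S hI hc hTT hne hι hTι
    (fun g hg => hΩ g (hTG hg)) (fun g => q g - dv f g)
    (fun g _ => by rw [hqι, hfι]; ring) par
  have hz : ∀ g ∈ T, z g = 0 ∨ z g = 1 ∨ z g = -1 := fun g hg => by
    have e1 := abs_le.1 (hz2 g hg)
    have e2 := abs_le.1 (hq' g)
    have e3 : (z g : ℝ) < 2 := by linarith [e1.2, e2.1]
    have e4 : (-2 : ℝ) < z g := by linarith [e1.1, e2.2]
    have e5 : z g < 2 := by exact_mod_cast e3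
    have e6 : -2 < z g := by exact_mod_cast e4
    omega
  have hzs : ∀ t : V → ℝ, ∑ g, z g * t g = ∑ g ∈ T, z g * t g := fun t =>
    (sum_subset (subset_univ T) fun g _ hg => by rw [hz0 g hg, Int.cast_zero, zero_mul]).symm
  refine ⟨z, fun g => ?_, hzι, ?_, fun X t ht => ?_⟩
  · by_cases hg : g ∈ T
    · exact (hz g hg).imp_right fun h => ⟨hTG hg, h⟩
    · exact Or.inl (hz0 g hg)
  · have e : ((univ.filter fun g => z g ≠ 0).card : ℤ) = ∑ g ∈ T, |z g| := by
      rw [card_filter, Nat.cast_sum, ← sum_subset (subset_univ T) fun g _ hg => by simp [hz0 g hg]]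
      refine sum_congr rfl fun g hg => ?_
      rcases hz g hg with h | h | h <;> simp [h]
    rwa [e]
  · have hω6 : 6 / δ ≤ ω := Nat.ceil_le.1 ((le_max_right _ _).trans hω)
    have hω0 : (0 : ℝ) < ω := lt_of_lt_of_le (by positivity) hω6
    have hb0 : (0 : ℝ) ≤ S.b X := Nat.cast_nonneg _
    have e1 := (le_abs_self _).trans (S.abs_sum_dv_le hf hfη X)
    have e2 := sum_le_sum (s := T) fun g hg => point_Sign (X := X) (hTT.mem g hg) (hq' g) (hz g hg)
      (ht g (hTG hg)).1 (ht g (hTG hg)).2.1 (ht g (hTG hg)).2.2.1 (ht g (hTG hg)).2.2.2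
    rw [sum_add_distrib, sum_add_distrib, sum_add_distrib, ← mul_sum, ← mul_sum, ← sum_filter,
      ← sum_filter (p := fun g => (Ω g \ X).card ≤ (Ω g ∩ X).card),
      ← sum_filter (p := fun g => (∃ u ∈ Ω g, u ∈ X) ∧ ∃ v ∈ Ω g, v ∉ X), sum_const,
      nsmul_eq_mul] at e2
    have e3 : ((T.filter fun g => (∃ u ∈ Ω g, u ∈ X) ∧ ∃ v ∈ Ω g, v ∉ X).card : ℝ) ≤ S.b X := by
      exact_mod_cast S.touch _ Ω (fun g hg => hTT.conn g (mem_filter.1 hg).1)
        (fun g hg g' hg' => hTT.disj g (mem_filter.1 hg).1 g' (mem_filter.1 hg').1) X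
        fun g hg => (mem_filter.1 hg).2
    have e4 := mul_le_mul_of_nonneg_right e3 (by linarith : 0 ≤ p + 3 * η)
    have e5 := mul_le_mul_of_nonneg_left (hT1 X) (by linarith : 0 ≤ 2 * K)
    have e6 : 3 / (2 * ((ω : ℝ) + 2)) * (S.b X + 6 * ∑ g ∈ T, (mino (Ω g) X : ℝ)) ≤
        (δ / 4 + 9 * ε) * S.b X := by
      have k1 : ∑ g ∈ T, (mino (Ω g) X : ℝ) ≤ ε * S.b X * ω := by
        have := hT1 X
        rwa [← sum_div, div_le_iff₀ hω0] at this
      have k2 : 6 ≤ δ * ω := by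
        rw [div_le_iff₀ hδ] at hω6
        linarith
      have k3 := mul_le_mul_of_nonneg_right k2 hb0
      have k4 : 0 ≤ δ * S.b X := by positivity
      have k5 : 0 ≤ ε * S.b X := by positivity
      rw [div_mul_eq_mul_div, div_le_iff₀ (by positivity)]
      linarith
    have e7 := (hz3 X).trans e6
    have e8 := mul_le_mul_of_nonneg_right (hsm.trans (by linarith : μ / 2 ≤ δ / 2)) hb0
    have e9 := congrArg (· * (S.b X : ℝ)) hεK
    have e10 : 0 ≤ η * S.b X := by positivity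
    rw [hsum X, hzs t, ← sum_filter]
    linarith

end Pool.Agent.MP_9a3194_co

end

section

open Finset
open scoped symmDiff

namespace Pool.Agent.MP_9a3194_co

namespace Str

variable {V : Type} [Fintype V] [DecidableEq V] {S : Str V}

omit [Fintype V] [DecidableEq V] in
theorem Q_iota_UFlip {y : V → Bool} {G : Finset V} {z : V → ℤ}
    (hz : ∀ g, z g = 0 ∨ g ∈ G ∧ (z g = 1 ∨ z g = -1)) {ι : V → V} (hι : S.Aut ι)
    (hy : ∀ v, y (ι v) = !y v) (hzι : ∀ g, z (ι g) = -z g) {s : ℕ} {v : V}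
    (hq : Q_Flip S G y z s v) : Q_Flip S G y z s (ι v) := by
  obtain ⟨g, -, hg, n, h1, h2, rfl⟩ := hq
  have h3 : z (ι g) ≠ 0 := by rwa [hzι, neg_ne_zero]
  have h4 : off_Flip y z (ι g) = off_Flip y z g := by
    unfold off_Flip
    rw [hzι, hy]
    rcases ((hz g).resolve_left hg).2 with h5 | h5 <;> cases y g <;> simp [h5]
  exact ⟨ι g, ((hz _).resolve_left h3).1, h3, n, h4 ▸ h1, h4 ▸ h2, hι.pow n g⟩

/-- switching the controllers equivariantly -/
theorem flip2 {k R r l : ℕ} {y : V → Bool} {F G : Finset V} {cell : V → V}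
    (h : S.Cfg k R r l y F G cell) (hr : 2 * k ≤ r) (z : V → ℤ)
    (hz : ∀ g, z g = 0 ∨ g ∈ G ∧ (z g = 1 ∨ z g = -1)) {ι : V → V} (hι : S.Aut ι)
    (hy : ∀ v, y (ι v) = !y v) (hzι : ∀ g, z (ι g) = -z g) :
    ∃ (y' : V → Bool) (Fc : Finset V) (src : V → Finset V), S.Col k y' (F ∪ Fc) ∧ Disjoint F Fc ∧
      Fc ⊆ S.tube G 10 ∧ (∀ a ∈ F, y' a = y a) ∧
      (∀ g ∈ G, (src g).card = 4 ∧ src g ⊆ S.tube {g} 10) ∧
      (∀ φ : V → ℝ, ∑ a ∈ Fc, sgn (y' a) / 2 * φ a =
        2 * ∑ g, (z g : ℝ) * ((∑ a ∈ src g, φ a) / 4)) ∧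
      (∀ v, y' (ι v) = !y' v) ∧
      (univ.filter fun v => y' v ≠ y v).card = 3 * (univ.filter fun g => z g ≠ 0).card := by
  classical
  have ho := off_le_Flip y z
  obtain ⟨y', hy1, hy0⟩ : ∃ y' : V → Bool, (∀ v, Q_Flip S G y z 1 v → y' v = !y v) ∧
      ∀ v, ¬ Q_Flip S G y z 1 v → y' v = y v :=
    ⟨fun v => if Q_Flip S G y z 1 v then !y v else y v, fun v hv => if_pos hv,
      fun v hv => if_neg hv⟩
  obtain ⟨src, hsrc⟩ : ∃ src : V → Finset V, ∀ g, src g =
      ({0, 1, 3, 4} : Finset ℕ).image fun i => (S.π ^ (off_Flip y z g + i)) g := ⟨_, fun _ => rfl⟩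
  have msrc : ∀ g v, v ∈ src g ↔ ∃ i, (i = 0 ∨ i = 1 ∨ i = 3 ∨ i = 4) ∧
      (S.π ^ (off_Flip y z g + i)) g = v := by
    intro g v
    simp only [hsrc, mem_image, mem_insert, mem_singleton]
  obtain ⟨Fc, hFc⟩ : ∃ Fc : Finset V, Fc = (G.filter fun g => z g ≠ 0).biUnion src := ⟨_, rfl⟩
  have mFc : ∀ v, v ∈ Fc ↔ ∃ g ∈ G, z g ≠ 0 ∧ ∃ i, (i = 0 ∨ i = 1 ∨ i = 3 ∨ i = 4) ∧
      (S.π ^ (off_Flip y z g + i)) g = v := by
    intro v
    simp only [hFc, mem_biUnion, mem_filter, msrc, and_assoc]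
  have hQt : ∀ s ≤ 2, ∀ v, Q_Flip S G y z s v → ∃ g ∈ G, ∃ n < 10, (S.π ^ n) g = v := by
    intro s hs v hv
    obtain ⟨g, hg, -, i, hi, hv⟩ := Q_pos_Flip hs hv
    exact ⟨g, hg, _, by have := ho g; omega, hv⟩
  have hQF : ∀ s ≤ 2, ∀ a ∈ F, ¬ Q_Flip S G y z s a := by
    intro s hs a ha hq
    obtain ⟨g, hg, n, hn, rfl⟩ := hQt s hs a hq
    exact notF_Flip h hg hn ha
  have hcol : ∀ g ∈ G, z g ≠ 0 → ∀ i, (i = 0 ∨ i = 1 ∨ i = 3 ∨ i = 4) →
      y' ((S.π ^ (off_Flip y z g + i)) g) = y ((S.π ^ off_Flip y z g) g) := by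
    intro g hg hzg i hi
    have := ho g
    have hq := fun n hn => Q_iff_Flip h (z := z) (s := 1) (by omega) hg hzg (n := n) hn
    have e1 := y_succ_Flip h hg (n := off_Flip y z g) (by omega)
    have e2 := y_succ_Flip h hg (n := off_Flip y z g + 1) (by omega)
    have e3 := y_succ_Flip h hg (n := off_Flip y z g + 2) (by omega)
    have e4 := y_succ_Flip h hg (n := off_Flip y z g + 3) (by omega)
    rcases hi with rfl | rfl | rfl | rfl
    · rw [hy0 _ fun hh => by have := (hq _ (by omega)).1 hh; omega]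
      rfl
    · rw [hy1 _ ((hq _ (by omega)).2 (by omega)), e1, Bool.not_not]
    · rw [hy1 _ ((hq _ (by omega)).2 (by omega)), e3, e2, e1]
      simp only [Bool.not_not]
    · rw [hy0 _ fun hh => by have := (hq _ (by omega)).1 hh; omega, e4, e3, e2, e1]
      simp only [Bool.not_not]
  have h5 : ∀ g ∈ G, y ((S.π ^ 5) g) = !y g := by
    intro g hg
    have e0 := y_succ_Flip h hg (n := 0) (by omega)
    have e1 := y_succ_Flip h hg (n := 1) (by omega)
    have e2 := y_succ_Flip h hg (n := 2) (by omega)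
    have e3 := y_succ_Flip h hg (n := 3) (by omega)
    have e4 := y_succ_Flip h hg (n := 4) (by omega)
    rw [e4, e3, e2, e1, e0]
    simp
  have hFt : Fc ⊆ S.tube G 10 := by
    intro v hv
    obtain ⟨g, hg, -, i, hi, hv⟩ := (mFc v).1 hv
    exact S.mem_tube.2 ⟨g, hg, _, by have := ho g; omega, hv⟩
  refine ⟨y', Fc, src, ⟨?_, ?_, ?_⟩, ?_, hFt, fun a ha => hy0 a (hQF 1 (by omega) a ha), ?_, ?_,
    fun v => ?_, ?_⟩
  · intro v hv
    rw [mem_union, not_or] at hv
    have ha := h.col.alt v hv.1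
    by_cases hq : Q_Flip S G y z 0 v ∨ Q_Flip S G y z 1 v ∨ Q_Flip S G y z 2 v
    · have h1 : ∃ g ∈ G, z g ≠ 0 ∧ ∃ i ≤ 4, (S.π ^ (off_Flip y z g + i)) g = v := by
        rcases hq with hq | hq | hq <;> exact Q_pos_Flip (by omega) hq
      obtain ⟨g, hg, hzg, i, hi, rfl⟩ := h1
      have h2 : i = 2 := by
        by_contra h2
        exact hv.2 ((mFc _).2 ⟨g, hg, hzg, i, by omega, rfl⟩)
      subst h2
      have := ho g
      rw [hy1 _ ((Q_succ_Flip 0 _).2 ((Q_iff_Flip h (by omega) hg hzg (by omega)).2 (by omega))),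
        hy1 _ ((Q_pred_Flip 1 _).2 ((Q_iff_Flip h (by omega) hg hzg (by omega)).2 (by omega))),
        hy1 _ ((Q_iff_Flip h (by omega) hg hzg (by omega)).2 (by omega))]
      exact ⟨fun e => ha.1 (Bool.not_inj e), fun e => ha.2 (Bool.not_inj e)⟩
    · rw [not_or, not_or] at hq
      rw [hy0 _ fun hh => hq.1 ((Q_succ_Flip 0 _).1 hh),
        hy0 _ fun hh => hq.2.2 ((Q_pred_Flip 1 _).1 hh), hy0 _ hq.2.1]
      exact ha
  · intro a ha
    rcases mem_union.1 ha with ha | ha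
    · rw [hy0 _ fun hh => hQF 0 (by omega) a ha ((Q_succ_Flip 0 _).1 hh),
        hy0 _ fun hh => hQF 2 (by omega) a ha ((Q_pred_Flip 1 _).1 hh)]
      exact h.col.src a ha
    · obtain ⟨g, hg, hzg, i, hi, rfl⟩ := (mFc a).1 ha
      have := ho g
      have hn : off_Flip y z g + i < 10 := by omega
      have ha := h.col.alt _ (notF_Flip h hg hn)
      have e : y (S.π ((S.π ^ (off_Flip y z g + i)) g)) =
          y (S.π⁻¹ ((S.π ^ (off_Flip y z g + i)) g)) := by
        rw [Bool.eq_not.2 ha.1, Bool.eq_not.2 ha.2]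
      have q0 := (Q_succ_Flip 0 _).trans (Q_iff_Flip h (z := z) (s := 0) (by omega) hg hzg hn)
      have q2 := (Q_pred_Flip 1 _).trans (Q_iff_Flip h (z := z) (s := 2) (by omega) hg hzg hn)
      by_cases hi1 : i ≤ 1
      · rw [hy1 _ (q0.2 (by omega)), hy0 _ fun hh => by have := q2.1 hh; omega, e]
        exact Bool.not_ne_self _
      · rw [hy0 _ fun hh => by have := q0.1 hh; omega, hy1 _ (q2.2 (by omega)), e]
        exact (Bool.not_ne_self _).symm
  · intro a ha w hw1 hw2 hw3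
    rcases mem_union.1 ha with ha | ha
    · rw [hy0 a (hQF 1 (by omega) a ha), hy0]
      · exact h.col.good a ha w hw1 hw2 hw3
      · intro hq
        obtain ⟨g, hg, n, hn, e⟩ := hQt 1 (by omega) _ hq
        exact (h.far a ha g hg).2 w hw2.le (S.mem_Om.2 ⟨n, hn, Or.inl e⟩)
    · have ht := h.injK.2 a (hFt ha) w (by omega)
      obtain ⟨g, hg, hzg, i, hi, rfl⟩ := (mFc a).1 ha
      rw [hcol g hg hzg i hi, hy0 _ fun hq => ht (S.mem_tube.2 (hQt 1 (by omega) _ hq))]
      by_cases hc : z g = 1 ↔ y g = true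
      · have e : off_Flip y z g = 0 := if_pos hc
        rw [e, pow_zero, Equiv.Perm.one_apply, zero_add]
        exact (h.pat g hg).1 i (by simp only [mem_insert, mem_singleton]; omega) w hw1 hw2 hw3
      · have e : off_Flip y z g = 5 := if_neg hc
        rw [e, h5 g hg]
        exact (h.pat g hg).2 (5 + i) (by simp only [mem_insert, mem_singleton]; omega)
          w hw1 hw2 hw3
  · rw [disjoint_left]
    intro a ha hc
    obtain ⟨g, hg, n, hn, rfl⟩ := S.mem_tube.1 (hFt hc)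
    exact notF_Flip h hg hn ha
  · intro g hg
    have := ho g
    refine ⟨?_, fun v hv => ?_⟩
    · rw [hsrc, card_image_of_injOn]
      · rfl
      · intro i hi j hj e
        simp only [coe_insert, coe_singleton, Set.mem_insert_iff, Set.mem_singleton_iff] at hi hj
        have := (h.injP g hg g hg _ (by omega) _ (by omega) e).2
        omega
    · obtain ⟨i, hi, hv⟩ := (msrc g v).1 hv
      exact S.mem_tube.2 ⟨g, mem_singleton_self g, _, by omega, hv⟩
  · intro φ
    rw [hFc, sum_biUnion, mul_sum]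
    · refine sum_subset_zero_on_sdiff (subset_univ _) ?_ ?_
      · intro g hg
        have h0 : z g = 0 := by
          by_contra h0
          rcases hz g with h1 | h1
          · exact h0 h1
          · exact (mem_sdiff.1 hg).2 (mem_filter.2 ⟨h1.1, h0⟩)
        simp [h0]
      · intro g hg
        obtain ⟨hg, hzg⟩ := mem_filter.1 hg
        have e : ∀ a ∈ src g, sgn (y' a) / 2 * φ a = (z g : ℝ) / 2 * φ a := by
          intro a ha
          obtain ⟨i, hi, rfl⟩ := (msrc g a).1 ha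
          rw [hcol g hg hzg i hi]
          congr 2
          have h1 : z g = 1 ∨ z g = -1 := ((hz g).resolve_left hzg).2
          by_cases hc : z g = 1 ↔ y g = true
          · have e : off_Flip y z g = 0 := if_pos hc
            rw [e, pow_zero, Equiv.Perm.one_apply]
            rcases h1 with h1 | h1 <;> cases hy : y g <;> simp_all [sgn]
          · have e : off_Flip y z g = 5 := if_neg hc
            rw [e, h5 g hg]
            rcases h1 with h1 | h1 <;> cases hy : y g <;> simp_all [sgn]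
        rw [sum_congr rfl e, ← mul_sum]
        ring
    · intro g hg g' hg' hne
      obtain ⟨hg, -⟩ := mem_filter.1 (mem_coe.1 hg)
      obtain ⟨hg', -⟩ := mem_filter.1 (mem_coe.1 hg')
      rw [Function.onFun, disjoint_left]
      intro v hv hv'
      obtain ⟨i, hi, e⟩ := (msrc g v).1 hv
      obtain ⟨j, hj, e'⟩ := (msrc g' v).1 hv'
      have := ho g
      have := ho g'
      exact hne (h.injP g hg g' hg' _ (by omega) _ (by omega) (e.trans e'.symm)).1
  · by_cases hq : Q_Flip S G y z 1 v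
    · rw [hy1 _ hq, hy1 _ (Q_iota_UFlip hz hι hy hzι hq), hy]
    · rw [hy0 _ hq, hy0 _ fun hh => hq (hι.inv v ▸ Q_iota_UFlip hz hι hy hzι hh), hy]
  · have e : (univ.filter fun v => y' v ≠ y v) = ((univ.filter fun g => z g ≠ 0) ×ˢ range 3).image
        fun p => (S.π ^ (off_Flip y z p.1 + 1 + p.2)) p.1 := by
      ext v
      simp only [mem_filter, mem_univ, true_and, mem_image, mem_product, mem_range, Prod.exists]
      constructor
      · intro hv
        obtain ⟨g, -, hg, n, h1, h2, h3⟩ : Q_Flip S G y z 1 v := by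
          by_contra hq
          exact hv (hy0 v hq)
        exact ⟨g, n - (off_Flip y z g + 1), ⟨hg, by omega⟩, by rwa [Nat.add_sub_cancel' h1]⟩
      · rintro ⟨g, i, ⟨hg, hi⟩, rfl⟩
        rw [hy1 _ ⟨g, ((hz g).resolve_left hg).1, hg, _, by omega, by omega, rfl⟩]
        exact Bool.not_ne_self _
    rw [e, card_image_of_injOn, card_product, card_range, mul_comm]
    rintro ⟨g, i⟩ hp ⟨g', j⟩ hp' he
    simp only [coe_product, Set.mem_prod, mem_coe, mem_filter, mem_univ, true_and,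
      mem_range] at hp hp'
    dsimp only at he
    have := ho g
    have := ho g'
    obtain ⟨rfl, h2⟩ := h.injP g ((hz g).resolve_left hp.1).1 g' ((hz g').resolve_left hp'.1).1 _
      (by omega) _ (by omega) he
    have h3 : i = j := by omega
    rw [h3]

end Str

end Pool.Agent.MP_9a3194_co

end

section

open Finset
open scoped symmDiff

namespace Pool.Agent.MP_9a3194_co

private theorem anti_UBal {V : Type} {y : V × Bool → Bool} (hy : ∀ x, y (flipB x) = !y x)
    (x : V × Bool) : y x = xor (y (x.1, false)) x.2 := by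
  obtain ⟨v, b⟩ := x
  cases b
  · simp
  · simpa [flipB] using hy (v, false)

private theorem card_UBal {V : Type} [Fintype V] {y y' : V × Bool → Bool}
    (hy : ∀ x, y (flipB x) = !y x) (hy' : ∀ x, y' (flipB x) = !y' x) :
    (univ.filter fun x => y' x ≠ y x).card =
      2 * (univ.filter fun v => y' (v, false) ≠ y (v, false)).card := by
  have : (univ.filter fun x => y' x ≠ y x) =
      (univ.filter fun v => y' (v, false) ≠ y (v, false)) ×ˢ univ := by
    ext x
    rw [mem_filter, anti_UBal hy x, anti_UBal hy' x]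
    simp
  rw [this, card_product, card_univ, Fintype.card_bool, mul_comm]

private theorem q_UBal {V : Type} [DecidableEq V] {S : Str V} {ι : V → V} (h : S.Aut ι)
    {y : V → Bool} (hy : ∀ x, y (ι x) = !y x) {F : Finset V} (hF : ∀ x, ι x ∈ F ↔ x ∈ F)
    (k R : ℕ) (v : V) :
    (∑ a ∈ F, ∑ w ∈ Wd R, if S.tip a w = ι v then sgn (y a) / 2 * amt k w else 0) =
      -∑ a ∈ F, ∑ w ∈ Wd R, if S.tip a w = v then sgn (y a) / 2 * amt k w else 0 := by
  rw [← sum_neg_distrib]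
  refine (sum_nbij' ι ι (fun a ha => (hF a).2 ha) (fun a ha => (hF a).2 ha)
    (fun a _ => h.inv a) (fun a _ => h.inv a) fun a _ => ?_).symm
  rw [← sum_neg_distrib]
  refine sum_congr rfl fun w _ => ?_
  simp only [h.tip, h.inj.eq_iff, hy, sgn_not]
  split_ifs
  · ring
  · exact neg_zero

/-- almost half balanced equivariant colourings with the right parity -/
theorem bal2 {δ : ℝ} (hδ : 0 < δ) : ∃ c : ℕ, ∀ {V : Type} [Fintype V] [DecidableEq V] (S : Str V)
    (sg : Dt V → Bool) (hs : ∀ d, sg (S.rv d) = sg d), (∀ v, S.μ v ≠ v) → c ≤ Fintype.card V →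
    (S.cov sg hs).Iso c → ∃ Y : V → Bool,
      4 ∣ (univ.filter fun d => S.typ sg Y d = false).card ∧
      ∀ X : Finset (V × Bool),
        ∑ x ∈ X, sgn (xor (Y x.1) x.2) ≤ (1 / 4 + δ) * (S.cov sg hs).b X := by
  obtain ⟨k, hk⟩ : ∃ k : ℕ, (1 : ℝ) / 2 ^ (k + 2) ≤ δ / 2 := by
    obtain ⟨n, hn⟩ := exists_pow_lt_of_lt_one hδ (by norm_num : (1 / 2 : ℝ) < 1)
    refine ⟨n, ?_⟩
    rw [one_div_pow] at hn
    have e : (1 : ℝ) / 2 ^ (n + 2) = 1 / 2 ^ n / 4 := by
      rw [pow_add]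
      field_simp
      norm_num
    rw [e]
    linarith
  have hK : (1 : ℝ) ≤ 20 * 2 ^ k := by
    have : (1 : ℝ) ≤ 2 ^ k := one_le_pow₀ (by norm_num)
    linarith
  obtain ⟨ω₀, l₀, A, hA, hsign⟩ := sign2 (half_pos hδ) hK
  obtain ⟨r, hr, hrω⟩ : ∃ r : ℕ, 2 * k ≤ r ∧ ω₀ ≤ 20 * 2 ^ r := by
    refine ⟨2 * k + ω₀, by omega, ?_⟩
    have := Nat.lt_two_pow_self (n := 2 * k + ω₀)
    omega
  obtain ⟨R, l, c₀, -, hl, hAl, hcfg⟩ := cfg2 k r l₀ (2 ^ k * A)
  refine ⟨2 * c₀ + 20 * 2 ^ r + 2 + ⌈A * (l : ℝ) ^ 2⌉₊ + 1, ?_⟩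
  intro V _ _ S₀ sg hsg hμ hV hI
  have hG : S₀.Gir c₀ := (Str.cov_iso1 (hI.mono (by omega))).gir hμ (by omega)
  obtain ⟨y, F, G, cell, h, hyι, hFι, hGι⟩ := hcfg S₀ sg hsg hG
  have hι : (S₀.cov sg hsg).Aut flipB := Str.cov_aut
  obtain ⟨par, hpar⟩ := Str.typ_even hμ hsg fun v => y (v, false)
  generalize S₀.cov sg hsg = S at hI h hι ⊢
  have hs : ∀ (y : V × Bool → Bool) (a : V × Bool), |sgn (y a) / 2| ≤ 1 := fun y a => by
    rw [abs_div, abs_sgn]
    norm_num
  obtain ⟨f₁, hf₁, hd₁, he₁⟩ := Str.push k h.injF fun a => sgn (y a) / 2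
  obtain ⟨q, hq⟩ : ∃ q : V × Bool → ℝ, q = fun v => ∑ a ∈ F, ∑ w ∈ Wd R,
    if S.tip a w = v then sgn (y a) / 2 * amt k w else 0 := ⟨_, rfl⟩
  have hqp : ∀ v, |q v| ≤ 2 ^ k / 2 ^ R := fun v => by
    rw [hq]
    exact Str.leaf_le k h.injF _ (hs y) v
  obtain ⟨z, hz, hzι, hz0, hzX⟩ := hsign S _ (20 * 2 ^ r) l G (S.Om r) cell q (2 ^ k / 2 ^ R)
    flipB par hrω hl (by omega) (by
      have := Nat.le_ceil (A * (l : ℝ) ^ 2)
      have h2 : (0 : ℝ) ≤ ((2 * c₀ + 20 * 2 ^ r + 2 : ℕ) : ℝ) := Nat.cast_nonneg _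
      rw [Nat.cast_add, Nat.cast_add _ ⌈A * (l : ℝ) ^ 2⌉₊, Nat.cast_one]
      linarith) (hV.trans (by rw [Fintype.card_prod, Fintype.card_bool]; omega)) hI h.part
      (Str.om_trees h.injK h.injP) hqp (by
      rw [div_mul_eq_mul_div, div_mul_eq_mul_div, div_le_one (by positivity)]
      exact hAl) hι hGι (fun g _ => hι.Om r g) fun v => by
      rw [hq]
      exact q_UBal hι hyι hFι k R v
  obtain ⟨y', Fc, src, hc, hdj, hFc, hy, hsrc, hφ, hy'ι, hZ⟩ := Str.flip2 h hr z hz hι hyι hzι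
  obtain ⟨f₂, hf₂, hd₂, he₂⟩ := Str.push k (h.injK.mono hFc le_rfl) fun a => sgn (y' a) / 2
  obtain ⟨f, hf⟩ : ∃ f : Dt (V × Bool) → ℝ, f = fun d => S.base y' d + f₁ d + f₂ d := ⟨_, rfl⟩
  have hfa : S.Anti f := fun d => by
    simp only [hf]
    rw [S.base_anti y' d, hf₁ d, hf₂ d]
    ring
  have hfb : ∀ d, |f d| ≤ 1 / 2 + 2 / 2 ^ (k + 2) := fun d => by
    simp only [hf]
    exact bound_Bal h hc hFc hy (he₁ d) (he₂ d)
  have hpt : ∀ v, sgn (y' v) = dv f v + q v + ∑ a ∈ Fc, ∑ w ∈ Wd r,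
      if S.tip a w = v then sgn (y' a) / 2 * amt k w else 0 := fun v => by
    have e : dv f v = dv (S.base y') v + dv f₁ v + dv f₂ v := by
      simp only [hf, dv, sum_add_distrib]
    have e1 := hc.dv_base v
    have e2 : (if v ∈ F ∪ Fc then sgn (y' v) / 2 else 0) =
        (if v ∈ F then sgn (y v) / 2 else 0) + if v ∈ Fc then sgn (y' v) / 2 else 0 := by
      by_cases h1 : v ∈ F
      · rw [if_pos (mem_union_left _ h1), if_pos h1, if_neg (disjoint_left.1 hdj h1), hy v h1,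
          add_zero]
      · by_cases h2 : v ∈ Fc
        · rw [if_pos (mem_union_right _ h2), if_neg h1, if_pos h2, zero_add]
        · rw [if_neg (fun h3 => (mem_union.1 h3).elim h1 h2), if_neg h1, if_neg h2, add_zero]
    rw [e, hd₁ v, hd₂ v]
    simp only [hq]
    linarith
  have hX : ∀ X : Finset (V × Bool), ∑ v ∈ X, sgn (y' v) = ∑ v ∈ X, dv f v +
      (∑ v ∈ X, q v + 2 * ∑ g, (z g : ℝ) * ((∑ a ∈ src g, S.nu k r a X) / 4)) := fun X => by
    rw [sum_congr rfl fun v _ => hpt v, sum_add_distrib, sum_add_distrib,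
      Str.leaf_sum k r Fc (fun a => sgn (y' a) / 2) X, hφ fun a => S.nu k r a X, add_assoc]
  refine ⟨fun v => y' (v, false), ?_, fun X => ?_⟩
  · have e := Str.typ_parity hμ hsg (fun v => y (v, false)) fun v => y' (v, false)
    rw [card_UBal hyι hy'ι] at hZ
    omega
  · have e1 := (le_abs_self _).trans (S.abs_sum_dv_le hfa hfb X)
    have e2 := hzX X (fun g => (∑ a ∈ src g, S.nu k r a X) / 4) fun g hg =>
      avg_Bal (hsrc g hg).1 fun a ha => Str.nu_bounds h.injK k hg ((hsrc g hg).2 ha) X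
    have hb : (0 : ℝ) ≤ S.b X := Nat.cast_nonneg _
    have e3 := mul_le_mul_of_nonneg_right hk hb
    have e4 : (1 / 2 + 2 / 2 ^ (k + 2) : ℝ) / 2 * S.b X =
        1 / 4 * S.b X + 1 / 2 ^ (k + 2) * S.b X := by ring
    rw [← sum_congr rfl fun x _ => congrArg sgn (anti_UBal hy'ι x), hX X]
    linarith

end Pool.Agent.MP_9a3194_co

end

section

open Finset
open scoped symmDiff

namespace Pool.Agent.MP_9a3194_co

/-- the symmetrised real solution -/
theorem real_phi {V : Type} [Fintype V] [DecidableEq V] (S : Str V) (sg : Dt V → Bool)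
    (hs : ∀ d, sg (S.rv d) = sg d) (Y : V → Bool) {η : ℝ} (hη : 0 ≤ η)
    (h : ∀ X : Finset (V × Bool), ∑ x ∈ X, sgn (xor (Y x.1) x.2) ≤ η / 2 * (S.cov sg hs).b X) :
    ∃ ψ : Dt V → ℝ, (∀ d, |ψ d| ≤ η) ∧ (∀ v, ∑ i, ψ (v, i) = -1) ∧
      ∀ d, ψ (S.rv d) = if S.typ sg Y d then ψ d else -ψ d := by
  have hA : (S.cov sg hs).Aut flipB := Str.cov_aut
  obtain ⟨f, f1, f2, f3⟩ := gale (S.cov sg hs) ∅ (fun x => sgn (xor (Y x.1) x.2)) η hη
    fun X _ => by
      refine abs_le.2 ⟨?_, h X⟩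
      have h1 := h (X.image flipB)
      rw [hA.b, sum_image hA.inj.injOn] at h1
      have h2 : ∑ x ∈ X, sgn (xor (Y (flipB x).1) (flipB x).2) =
          -∑ x ∈ X, sgn (xor (Y x.1) x.2) := by
        rw [← sum_neg_distrib]
        refine sum_congr rfl fun x _ => ?_
        rw [← sgn_not]
        simp [flipB]
      linarith
  have f4 := hA.anti f1
  refine ⟨fun d => (f ((d.1, Y d.1), d.2) - f ((d.1, !Y d.1), d.2)) / 2, fun d => ?_,
    fun v => ?_, fun d => ?_⟩
  · have h1 := abs_le.1 (f2 ((d.1, Y d.1), d.2))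
    have h2 := abs_le.1 (f2 ((d.1, !Y d.1), d.2))
    exact abs_le.2 ⟨by linarith [h1.1, h2.2], by linarith [h1.2, h2.1]⟩
  · have h1 := f3 (v, Y v) (notMem_empty _)
    have h2 := f3 (v, !Y v) (notMem_empty _)
    simp only [dv] at h1 h2
    rw [← sum_div, sum_sub_distrib, h1, h2]
    cases Y v <;> norm_num [sgn]
  · have h1 := f4 ((d.1, Y d.1), d.2)
    have h2 : (S.cov sg hs).rv ((d.1, Y d.1), d.2) =
        ((S.hd d, xor (Y d.1) (sg d)), rd d.2) := by
      rw [Str.rv, Str.hd, Str.cov_step]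
      rfl
    simp only [h2, flipB] at h1
    simp only [Str.rv, Str.typ]
    generalize Y (S.hd d) = b1 at h1 ⊢
    generalize sg d = b2 at h1 ⊢
    generalize Y d.1 = b3 at h1 ⊢
    cases b1 <;> cases b2 <;> cases b3 <;> simp at h1 ⊢ <;> linarith

/-- flows on signed cubic structures -/
theorem coreS (p q : ℕ) (hq : 0 < q) (hp : 4 * q < p) : ∃ c : ℕ, ∀ {V : Type} [Fintype V]
    [DecidableEq V] (S : Str V) (sg : Dt V → Bool) (hs : ∀ d, sg (S.rv d) = sg d),
    (∀ u, Function.Injective (S.step u)) → (∀ u i, S.step u i ≠ u) → c ≤ Fintype.card V →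
    (S.cov sg hs).Iso c → ∃ f : Dt V → ℤ, (∀ d, f (S.rv d) = if sg d then f d else -f d) ∧
      (∀ d, (q : ℤ) ≤ |f d| ∧ |f d| ≤ p - q) ∧ ∀ v, ∑ i, f (v, i) = 0 := by
  have hp0 : 0 < p := by omega
  have hpR : (0 : ℝ) < p := by exact_mod_cast hp0
  have hpq : (4 * q + 1 : ℝ) ≤ p := by exact_mod_cast hp
  have hqR : (1 : ℝ) ≤ q := by exact_mod_cast hq
  have hδ : (0 : ℝ) < 1 / (20 * p) := by positivity
  obtain ⟨c₀, hc₀⟩ := bal2 hδ
  refine ⟨max c₀ (2 * p), fun {V} _ _ S sg hs hi hl hV hI => ?_⟩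
  obtain ⟨Y, hY, hb⟩ := hc₀ S sg hs (fun v => hl v 0) ((le_max_left _ _).trans hV)
    (hI.mono (le_max_left _ _))
  have hI1 : S.Iso1 p := Str.cov_iso1 (hI.mono (le_max_right _ _))
  obtain ⟨ψ, p1, p2, p3⟩ := real_phi S sg hs Y (η := 1 / 2 + 2 * (1 / (20 * p))) (by positivity)
    fun X => (hb X).trans_eq (by ring)
  have ht := Str.typ_rv hs Y
  have hx : ∀ d, 1 / 5 ≤ (p : ℝ) / 2 * (1 + ψ d) - q := fun d => by
    have h1 := mul_le_mul_of_nonneg_left (abs_le.1 (p1 d)).1 hpR.le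
    have h2 : (p : ℝ) * (1 / (20 * p)) = 1 / 20 := by field_simp
    nlinarith
  obtain ⟨n, n1, n2, n3⟩ := round S hi hl (S.typ sg Y) ht (p - 3 * q) (p - 2 * q) p hI1
    (fun d => (p : ℝ) / 2 * (1 + ψ d) - q) (fun d => by linarith [hx d])
    (fun d => by nlinarith [hx d])
    (fun v => by
      have h := p2 v
      rw [Fin.sum_univ_three] at h ⊢
      rw [Nat.cast_sub (by omega)]
      push_cast
      linear_combination (p : ℝ) / 2 * h)
    (fun d hd => by simp only [p3 d, hd, if_true])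
    (fun d hd => by
      rw [Nat.cast_sub (by omega), p3 d, hd]
      push_cast
      ring) hY
  obtain ⟨z, z1, z2, z3⟩ := round S hi hl (S.typ sg Y) ht 1 1 p hI1
    (fun d => ((n d : ℝ) + q) / p) (fun d => by positivity)
    (fun d => by
      rw [mul_div_cancel₀ _ hpR.ne']
      linarith [(Nat.cast_nonneg (n d) : (0 : ℝ) ≤ n d)])
    (fun v => by
      have h := n1 v
      rw [Fin.sum_univ_three] at h ⊢
      have h' : n (v, 0) + n (v, 1) + n (v, 2) + 3 * q = p := by omega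
      have h'' : (n (v, 0) : ℝ) + n (v, 1) + n (v, 2) + 3 * q = p := by exact_mod_cast h'
      field_simp
      push_cast
      linarith)
    (fun d hd => by simp only [n2 d hd])
    (fun d hd => by
      have h := n3 d hd
      have h' : n d + n (S.rv d) + 2 * q = p := by omega
      have h'' : (n d : ℝ) + n (S.rv d) + 2 * q = p := by exact_mod_cast h'
      field_simp
      push_cast
      linarith) hY
  have hn : ∀ d, n d + 3 * q ≤ p := fun d => by
    have h := single_le_sum (f := fun i => n (d.1, i)) (fun _ _ => Nat.zero_le _) (mem_univ d.2)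
    rw [n1] at h
    have h' : n d ≤ p - 3 * q := h
    omega
  have hz : ∀ d, z d ≤ 1 := fun d => by
    have h := single_le_sum (f := fun i => z (d.1, i)) (fun _ _ => Nat.zero_le _) (mem_univ d.2)
    rw [z1] at h
    exact h
  have hF : ∀ d, (n (S.rv d) : ℤ) + q - p * z (S.rv d) =
      if S.typ sg Y d then (n d : ℤ) + q - p * z d else -((n d : ℤ) + q - p * z d) := fun d => by
    cases hd : S.typ sg Y d
    · have h1 := n3 d hd
      have h2 : (z d : ℤ) + z (S.rv d) = 1 := by exact_mod_cast z3 d hd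
      have h3 : (n d : ℤ) + n (S.rv d) + 2 * q = p := by omega
      simp only [Bool.false_eq_true, if_false]
      linear_combination h3 - p * h2
    · rw [n2 d hd, z2 d hd, if_pos rfl]
  refine ⟨fun d => if Y d.1 then -((n d : ℤ) + q - p * z d) else (n d : ℤ) + q - p * z d,
    fun d => ?_, fun d => ?_, fun v => ?_⟩
  · have key : ∀ (a b c : Bool) (F : ℤ), (if a then -(if xor (xor c a) b then F else -F) else
        if xor (xor c a) b then F else -F) =
        if b then (if c then -F else F) else -(if c then -F else F) := by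
      intro a b c F
      cases a <;> cases b <;> cases c <;> simp
    simp only [hF]
    exact key (Y (S.hd d)) (sg d) (Y d.1) _
  · have h1 := hn d
    have h2 : (q : ℤ) ≤ |(n d : ℤ) + q - p * z d| ∧ |(n d : ℤ) + q - p * z d| ≤ p - q := by
      rcases Nat.le_one_iff_eq_zero_or_eq_one.1 (hz d) with h | h
      · rw [h, abs_of_nonneg (by omega)]
        omega
      · rw [h, abs_of_nonpos (by omega)]
        omega
    simp only []
    split_ifs
    · rwa [abs_neg]
    · exact h2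
  · have h1 := n1 v
    have h2 := z1 v
    rw [Fin.sum_univ_three] at h1 h2 ⊢
    have h3 : (n (v, 0) : ℤ) + n (v, 1) + n (v, 2) + 3 * q = p := by omega
    have h4 : (z (v, 0) : ℤ) + z (v, 1) + z (v, 2) = 1 := by exact_mod_cast h2
    simp only []
    split_ifs
    · linear_combination p * h4 - h3
    · linear_combination h3 - p * h4

end Pool.Agent.MP_9a3194_co

end

section

open Finset
open scoped symmDiff

namespace Pool.Agent.MP_9a3194_co

private theorem single_UCore {V : Type} [Fintype V] [DecidableEq V] (G : SimpleGraph V)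
    [DecidableRel G.Adj] (hG : G.IsRegularOfDegree 3) {X : Finset V} (hX : X.card = 1) :
    3 ≤ (G.interedges X Xᶜ).card := by
  obtain ⟨v, rfl⟩ := card_eq_one.1 hX
  rw [← hG.degree_eq v, ← G.card_neighborFinset_eq_degree]
  refine card_le_card_of_injOn (fun w => (v, w)) (fun w hw => ?_) fun w _ w' _ h =>
    (Prod.ext_iff.1 h).2
  have h : G.Adj v w := (G.mem_neighborFinset _ _).1 hw
  exact G.mem_interedges_iff.2 ⟨mem_singleton_self v, mem_compl.2 fun e =>
    h.ne' (mem_singleton.1 e), h⟩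

private theorem comm_UCore {V : Type} [Fintype V] [DecidableEq V] (G : SimpleGraph V)
    [DecidableRel G.Adj] (X Y : Finset V) : (G.interedges X Y).card ≤ (G.interedges Y X).card := by
  refine card_le_card_of_injOn Prod.swap (fun z hz => ?_) Prod.swap_injective.injOn
  obtain ⟨h1, h2, h3⟩ := G.mem_interedges_iff.1 hz
  exact G.mem_interedges_iff.2 ⟨h2, h1, h3.symm⟩

private theorem three_UCore {V : Type} [Fintype V] [DecidableEq V] (G : SimpleGraph V)
    [DecidableRel G.Adj] (sg : V → V → Bool) (hG : G.IsRegularOfDegree 3) {c : ℕ} (hc : 6 ≤ c)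
    (hI : ∀ X : Finset (V × Bool), X.Nonempty → Xᶜ.Nonempty → min c (min X.card Xᶜ.card + 2) ≤
      ((X ×ˢ univ).filter fun z : (V × Bool) × V =>
        G.Adj z.1.1 z.2 ∧ (z.2, xor z.1.2 (sg z.1.1 z.2)) ∉ X).card)
    (X : Finset V) (h1 : X.Nonempty) (h2 : Xᶜ.Nonempty) : 3 ≤ (G.interedges X Xᶜ).card := by
  by_cases a1 : X.card = 1
  · exact single_UCore G hG a1
  by_cases a2 : Xᶜ.card = 1
  · have h := (single_UCore G hG a2).trans (comm_UCore G _ _)
    rwa [compl_compl] at h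
  have e : (X ×ˢ (univ : Finset Bool))ᶜ = Xᶜ ×ˢ univ := by
    ext z
    simp
  have h3 := hI (X ×ˢ univ) (h1.product univ_nonempty) (e ▸ h2.product univ_nonempty)
  have h4 : (((X ×ˢ (univ : Finset Bool)) ×ˢ univ).filter fun z : (V × Bool) × V =>
      G.Adj z.1.1 z.2 ∧ (z.2, xor z.1.2 (sg z.1.1 z.2)) ∉ X ×ˢ (univ : Finset Bool)).card ≤
      (G.interedges X Xᶜ ×ˢ (univ : Finset Bool)).card := by
    refine card_le_card_of_injOn (fun z => ((z.1.1, z.2), z.1.2)) (fun z hz => ?_)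
      fun z _ z' _ h => ?_
    · simp only [coe_filter, mem_product, mem_univ, and_true, Set.mem_ofPred_eq] at hz
      exact mem_coe.2 (mem_product.2
        ⟨G.mem_interedges_iff.2 ⟨hz.1, mem_compl.2 hz.2.2, hz.2.1⟩, mem_univ _⟩)
    · simp only [Prod.ext_iff] at h ⊢
      exact ⟨⟨h.1.1, h.2⟩, h.1.2⟩
  rw [e] at h3
  simp only [card_product, card_univ, Fintype.card_bool] at h3 h4
  have h5 := h1.card_pos
  have h6 := h2.card_pos
  omega

/-- flows on signed cubic graphs whose double cover has the tree-like isoperimetric inequality -/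
theorem core2 (p q : ℕ) (hq : 0 < q) (hp : 4 * q < p) : ∃ c : ℕ, ∀ (V : Type) [Fintype V]
    [DecidableEq V] (G : SimpleGraph V) [DecidableRel G.Adj] (sg : V → V → Bool),
    G.IsRegularOfDegree 3 → (∀ u v, sg u v = sg v u) → c ≤ Fintype.card V →
    (∀ X : Finset (V × Bool), X.Nonempty → Xᶜ.Nonempty → min c (min X.card Xᶜ.card + 2) ≤
      ((X ×ˢ univ).filter fun z : (V × Bool) × V =>
        G.Adj z.1.1 z.2 ∧ (z.2, xor z.1.2 (sg z.1.1 z.2)) ∉ X).card) →
    ∃ f : V → V → ℤ, (∀ u v, G.Adj u v → f v u = if sg u v then f u v else -f u v) ∧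
      (∀ u v, G.Adj u v → (q : ℤ) ≤ |f u v| ∧ |f u v| ≤ p - q) ∧
      ∀ u, ∑ v ∈ G.neighborFinset u, f u v = 0 := by
  obtain ⟨c₀, hc₀⟩ := coreS p q hq hp
  refine ⟨max c₀ 6, fun V _ _ G _ sg hG hsg hV hI => ?_⟩
  obtain ⟨μ, hμ, ha⟩ := petersen G hG (three_UCore G sg hG (le_max_right _ _) hI)
  obtain ⟨S, hi, hs⟩ := exists_str G hG μ hμ ha
  have hr : ∀ d : Dt V, sg (S.rv d).1 (S.hd (S.rv d)) = sg d.1 (S.hd d) := fun d => by
    rw [S.hd_rv, S.rv_fst, hsg]
  have hS : (S.cov (fun d => sg d.1 (S.hd d)) hr).Iso (max c₀ 6) := fun X h1 h2 => by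
    rw [Str.b_eq]
    refine Nat.mul_le_mul_left 2 ((hI X h1 h2).trans
      (card_le_card_of_surjOn (fun d => (d.1, S.step d.1.1 d.2)) fun z hz => ?_))
    simp only [coe_filter, mem_product, mem_univ, and_true, Set.mem_ofPred_eq] at hz
    obtain ⟨i, e⟩ := (hs _ _).1 hz.2.1
    refine ⟨(z.1, i), mem_coe.2 ((Str.mem_out _).2 ⟨hz.1, ?_⟩), Prod.ext rfl e⟩
    rw [Str.hd, Str.cov_step]
    change (S.step z.1.1 i, xor z.1.2 (sg z.1.1 (S.step z.1.1 i))) ∉ X
    rw [e]
    exact hz.2.2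
  obtain ⟨f, f1, f2, f3⟩ := hc₀ S _ hr hi (fun u i => ((hs _ _).2 ⟨i, rfl⟩).ne')
    ((le_max_left _ _).trans hV) (hS.mono (le_max_left _ _))
  obtain ⟨g, hg⟩ : ∃ g : V → V → ℤ, ∀ u i, g u (S.step u i) = f (u, i) := by
    refine ⟨fun u v => ∑ i, if S.step u i = v then f (u, i) else 0, fun u i => ?_⟩
    simp only [(hi u).eq_iff, sum_ite_eq', mem_univ, if_true]
  refine ⟨g, fun u v h => ?_, fun u v h => ?_, fun u => ?_⟩
  · obtain ⟨i, rfl⟩ := (hs u v).1 h
    have h4 := hg (S.step u i) (rd i)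
    rw [S.step_step] at h4
    rw [h4, hg]
    exact f1 (u, i)
  · obtain ⟨i, rfl⟩ := (hs u v).1 h
    rw [hg]
    exact f2 _
  · have e : G.neighborFinset u = univ.image (S.step u) := by
      ext v
      simp [hs]
    rw [e, sum_image fun i _ j _ e => hi u e]
    simp only [hg]
    exact f3 u

end Pool.Agent.MP_9a3194_co

end

section

open Finset
open scoped symmDiff

namespace Pool.Agent.MP_9a3194_co

namespace Surf

private lemma out_add_UFin {F : Type} [DecidableEq F] (T : Surf F) (X : Finset F)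
    (S : Finset (F × ZMod 3)) (hS : ∀ d ∈ S, d.1 ∈ X ∧ (T.α d).1 ∈ X) :
    (T.dbl.out (X ×ˢ univ)).card + S.card * 2 ≤ X.card * 6 := by
  set O : Finset (F × ZMod 3) := (X ×ˢ univ).filter fun d => (T.α d).1 ∉ X with hO
  have h1 : Disjoint O S := disjoint_left.2 fun d h h' => (mem_filter.1 h).2 (hS d h').2
  have h2 : O ∪ S ⊆ X ×ˢ univ := union_subset (filter_subset _ _) fun d h =>
    mem_product.2 ⟨(hS d h).1, mem_univ _⟩
  have h3 := card_le_card h2
  rw [card_union_of_disjoint h1, card_product] at h3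
  have h4 : (T.dbl.out (X ×ˢ univ)).card ≤ (O ×ˢ (univ : Finset Bool)).card :=
    card_le_card_of_injOn toArc
      (fun x hx => by
        have h5 := mem_filter.1 (mem_coe.1 hx)
        have h6 := (mem_product.1 (mem_product.1 h5.1).1).1
        refine mem_coe.2 (mem_product.2 ⟨mem_filter.2 ⟨mem_product.2 ⟨h6, mem_univ _⟩, ?_⟩,
          mem_univ _⟩)
        exact fun h7 => h5.2 (mem_product.2 ⟨h7, mem_univ _⟩))
      fun x _ y _ h => by rw [← ofArc_toArc x, h, ofArc_toArc]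
  rw [card_product] at h4
  simp only [card_univ, ZMod.card, Fintype.card_bool] at h3 h4
  omega

/-- the case of a connected orientation cover -/
theorem tension_non (p q : ℕ) (hq : 0 < q) (hp : 4 * q < p) : ∃ c : ℕ, ∀ (F : Type) [Fintype F]
    (T : Surf F), T.dbl.Connected → T.MinDeg c → (∀ w, T.Closed w → w.length < c → T.Contr w) →
    ∃ φ : F × ZMod 3 → ℤ, (∀ d, φ (T.α d) = if T.tw d then φ d else -φ d) ∧
      (∀ d, (q : ℤ) ≤ |φ d| ∧ |φ d| ≤ p - q) ∧ ∀ f, ∑ i, φ (f, i) = 0 := by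
  classical
  obtain ⟨c₀, hc₀⟩ := core2 p q hq hp
  refine ⟨18 * max c₀ 6, fun F _ T hn hd hw => ?_⟩
  rcases isEmpty_or_nonempty F with hF | ⟨⟨f₀⟩⟩
  · exact ⟨fun _ => 0, fun d => hF.elim d.1, fun d => hF.elim d.1, fun f => hF.elim f⟩
  have hcard : 18 * max c₀ 6 ≤ Fintype.card F * 3 := by
    have h1 := (hd (f₀, 0)).trans (Set.ncard_le_card _)
    simpa using h1
  have hI := T.dbl.iso_down (c := max c₀ 6) (by omega) hn (T.dbl_minDeg hd) fun w h1 h2 =>
    T.dbl_contr h1 (hw _ (T.dbl_closed h1) (by rw [List.length_map]; omega))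
  have hI' : ∀ X : Finset F, 0 < X.card → X.card ≤ 2 →
      X.card * 2 + 2 ≤ (T.dbl.out (X ×ˢ univ)).card := fun X h1 h2 => by
    have h3 := card_compl (X ×ˢ (univ : Finset Bool))
    have h5 : (X ×ˢ (univ : Finset Bool)).card = X.card * 2 := by simp
    rw [h5, Fintype.card_prod, Fintype.card_bool] at h3
    have h4 := hI (X ×ˢ univ) (card_pos.1 (by omega)) (card_pos.1 (by omega))
    omega
  have hne : ∀ d, (T.α d).1 ≠ d.1 := fun d h => by
    have h1 := hI' {d.1} (by simp) (by simp)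
    have h2 := out_add_UFin T {d.1} {d, T.α d} (by simp [h, T.αα])
    rw [card_pair (T.αne d).symm] at h2
    simp only [card_singleton] at h1 h2
    omega
  have hinj : ∀ f, Function.Injective fun i => (T.α (f, i)).1 := fun f i j h => by
    by_contra hij
    have h0 : ({f, (T.α (f, i)).1} : Finset F).card = 2 := card_pair (hne (f, i)).symm
    have h1 := hI' {f, (T.α (f, i)).1} (by omega) (by omega)
    have h' : (T.α (f, j)).1 = (T.α (f, i)).1 := h.symm
    have h2 := out_add_UFin T {f, (T.α (f, i)).1} {(f, i), (f, j), T.α (f, i), T.α (f, j)}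
      (by simp [h', T.αα])
    have e1 : ∀ a b, (f, a) ≠ T.α (f, b) := fun a b e => hne (f, b) (congrArg Prod.fst e).symm
    have e2 : T.α (f, i) ≠ T.α (f, j) := fun e => hij (by
      have := congrArg T.α e
      rw [T.αα, T.αα] at this
      exact congrArg Prod.snd this)
    have h3 : ({(f, i), (f, j), T.α (f, i), T.α (f, j)} : Finset (F × ZMod 3)).card = 4 := by
      rw [card_insert_of_notMem (by simp [hij, e1]), card_insert_of_notMem (by simp [e1]),
        card_pair e2]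
    omega
  let G : SimpleGraph F :=
    { Adj := fun f f' => ∃ i, (T.α (f, i)).1 = f'
      symm := ⟨by
        rintro f f' ⟨i, rfl⟩
        exact ⟨(T.α (f, i)).2, by rw [Prod.mk.eta, T.αα]⟩⟩
      loopless := ⟨fun f ⟨i, h⟩ => hne (f, i) h⟩ }
  have hN : ∀ f, G.neighborFinset f = univ.image fun i => (T.α (f, i)).1 := fun f => by
    ext f'
    simp only [SimpleGraph.mem_neighborFinset, mem_image, mem_univ, true_and]
    rfl
  let sg : F → F → Bool := fun f f' => decide (∃ i, (T.α (f, i)).1 = f' ∧ T.tw (f, i) = true)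
  have hsg : ∀ d, sg d.1 (T.α d).1 = T.tw d := fun d => by
    rw [Bool.eq_iff_iff, decide_eq_true_iff]
    constructor
    · rintro ⟨i, h1, h2⟩
      obtain rfl : i = d.2 := hinj d.1 h1
      exact h2
    · exact fun h => ⟨d.2, rfl, h⟩
  have hsym : ∀ u v, sg u v = true → sg v u = true := fun u v h => by
    obtain ⟨i, rfl, h2⟩ := decide_eq_true_iff.1 h
    have h3 := hsg (T.α (u, i))
    rw [T.αα, T.twα, h2] at h3
    exact h3
  obtain ⟨f, f1, f2, f3⟩ := hc₀ F G sg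
    (fun v => by
      rw [← SimpleGraph.card_neighborFinset_eq_degree, hN, card_image_of_injective _ (hinj v)]
      simp)
    (fun u v => Bool.eq_iff_iff.2 ⟨hsym u v, hsym v u⟩) (by omega) fun X h1 h2 => by
      have h3 := hI X h1 h2
      have h4 : (T.dbl.out X).card ≤ ((X ×ˢ univ).filter fun z : (F × Bool) × F =>
          G.Adj z.1.1 z.2 ∧ (z.2, xor z.1.2 (sg z.1.1 z.2)) ∉ X).card :=
        card_le_card_of_injOn (fun x => (x.1, (T.α (toArc x).1).1))
          (fun x hx => by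
            have h5 := mem_filter.1 (mem_coe.1 hx)
            refine mem_coe.2 (mem_filter.2 ⟨mem_product.2 ⟨(mem_product.1 h5.1).1, mem_univ _⟩,
              ⟨(toArc x).1.2, rfl⟩, ?_⟩)
            have h6 : sg x.1.1 (T.α (toArc x).1).1 = T.tw (toArc x).1 := hsg (toArc x).1
            simp only [h6]
            exact h5.2)
          fun x _ y _ h => by
            obtain ⟨h5, h6⟩ := Prod.mk.inj h
            have h7 : (toArc x).1.1 = (toArc y).1.1 := (congrArg Prod.fst h5 : x.1.1 = y.1.1)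
            have h8 : (toArc x).2 = (toArc y).2 := (congrArg Prod.snd h5 : x.1.2 = y.1.2)
            have h9 : (toArc x).1.2 = (toArc y).1.2 := hinj (toArc x).1.1 (by
              simp only [Prod.mk.eta]
              rw [h7]
              exact h6)
            rw [← ofArc_toArc x, Prod.ext (Prod.ext h7 h9) h8, ofArc_toArc]
      omega
  refine ⟨fun d => f d.1 (T.α d).1, fun d => ?_, fun d => f2 _ _ ⟨d.2, rfl⟩, fun t => ?_⟩
  · have h1 := f1 d.1 (T.α d).1 ⟨d.2, rfl⟩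
    rw [hsg] at h1
    simp only [T.αα]
    exact h1
  · have h2 := f3 t
    rwa [hN, sum_image fun i _ j _ h => hinj t h] at h2

theorem MinDeg.mono {F : Type} {T : Surf F} {c c' : ℕ} (h : T.MinDeg c) (hc : c' ≤ c) :
    T.MinDeg c' := fun x => hc.trans (h x)

/-- local tensions on all surfaces -/
theorem tension (p q : ℕ) (hq : 0 < q) (hp : 4 * q < p) : ∃ c : ℕ, ∀ (F : Type) [Fintype F]
    (T : Surf F), T.Connected → T.MinDeg c → (∀ w, T.Closed w → w.length < c → T.Contr w) →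
    ∃ φ : F × ZMod 3 → ℤ, (∀ d, φ (T.α d) = if T.tw d then φ d else -φ d) ∧
      (∀ d, (q : ℤ) ≤ |φ d| ∧ |φ d| ≤ p - q) ∧
      ∀ w, T.Closed w → T.Contr w →
        (w.map fun e => if e.2 then -φ e.1 else φ e.1).sum = 0 := by
  obtain ⟨c₁, h₁⟩ := tension_ori p q hq hp
  obtain ⟨c₂, h₂⟩ := tension_non p q hq hp
  refine ⟨max c₁ c₂, fun F _ T hn hd hw => ?_⟩
  have key : ∃ φ : F × ZMod 3 → ℤ, (∀ d, φ (T.α d) = if T.tw d then φ d else -φ d) ∧
      (∀ d, (q : ℤ) ≤ |φ d| ∧ |φ d| ≤ p - q) ∧ ∀ f, ∑ i, φ (f, i) = 0 := by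
    by_cases h : T.dbl.Connected
    · exact h₂ F T h (hd.mono (le_max_right _ _)) fun w h1 h2 =>
        hw w h1 (h2.trans_le (le_max_right _ _))
    · obtain ⟨o, ho⟩ := T.exists_orient hn h
      exact h₁ F T o ho hn (hd.mono (le_max_left _ _)) fun w h1 h2 =>
        hw w h1 (h2.trans_le (le_max_left _ _))
  obtain ⟨φ, h1, h2, h3⟩ := key
  exact ⟨φ, h1, h2, fun w _ hw => T.height_zero φ h1 h3 w hw⟩

end Surf

end Pool.Agent.MP_9a3194_co

end
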